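import Mathlib

/-!
# The energy of points of an interval
-/

namespace Pool.Agent.Lib.MP_e1dd62_co.Big

open Finset Real

/-- `log |1 - r e^{iα}|` -/
private noncomputable def a1k (r α : ℝ) : ℝ := log (1 - 2 * r * cos α + r ^ 2) / 2

private lemma a1_pos {r : ℝ} (h0 : 0 ≤ r) (h1 : r < 1) (α : ℝ) :
    (1 - r) ^ 2 ≤ 1 - 2 * r * cos α + r ^ 2 := by
  have := cos_le_one α
  nlinarith

private lemma a1_hasSum {r : ℝ} (h0 : 0 ≤ r) (h1 : r < 1) (α : ℝ) :
    HasSum (fun m : ℕ => r ^ m * cos (m * α) / m) (-a1k r α) := by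
  set z : ℂ := (r : ℂ) * Complex.exp ((α : ℂ) * Complex.I) with hz
  have hn : ‖z‖ < 1 := by
    rw [hz, norm_mul, Complex.norm_exp_ofReal_mul_I, mul_one, Complex.norm_real, norm_eq_abs,
      abs_of_nonneg h0]
    exact h1
  have h2 := Complex.hasSum_re (Complex.hasSum_taylorSeries_neg_log hn)
  have e1 : (fun m : ℕ => (z ^ m / (m : ℂ)).re) = fun m : ℕ => r ^ m * cos (m * α) / m := by
    funext m
    have e3 : z ^ m = ((r ^ m : ℝ) : ℂ) * Complex.exp (((m * α : ℝ) : ℂ) * Complex.I) := by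
      rw [hz, mul_pow, ← Complex.exp_nat_mul]
      push_cast
      ring_nf
    have e4 : (z ^ m / (m : ℂ)) = (z ^ m) / ((m : ℝ) : ℂ) := by push_cast; rfl
    rw [e4, Complex.div_ofReal_re, e3, Complex.re_ofReal_mul, Complex.exp_ofReal_mul_I_re]
  have e2 : (-Complex.log (1 - z)).re = -a1k r α := by
    rw [Complex.neg_re, Complex.log_re]
    unfold a1k
    have e5 : ‖1 - z‖ ^ 2 = 1 - 2 * r * cos α + r ^ 2 := by
      rw [Complex.sq_norm, Complex.normSq_apply]
      have e6 : z.re = r * cos α := by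
        rw [hz, Complex.re_ofReal_mul, Complex.exp_ofReal_mul_I_re]
      have e7 : z.im = r * sin α := by
        rw [hz, Complex.im_ofReal_mul, Complex.exp_ofReal_mul_I_im]
      rw [Complex.sub_re, Complex.sub_im, Complex.one_re, Complex.one_im, e6, e7]
      have := sin_sq_add_cos_sq α
      nlinarith
    rw [← e5, Real.log_pow]
    push_cast
    ring
  rw [e1, e2] at h2
  exact h2

private lemma a1_pair {r : ℝ} (h0 : 0 < r) (h1 : r < 1) (a b : ℝ) (h : cos a ≠ cos b) :
    log (2 * |cos a - cos b|) ≤ -log r + (a1k r (a - b) + a1k r (a + b)) := by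
  have p1 : 0 < 1 - 2 * r * cos (a - b) + r ^ 2 :=
    lt_of_lt_of_le (by have : 0 < 1 - r := by linarith
                       positivity) (a1_pos h0.le h1 (a - b))
  have p2 : 0 < 1 - 2 * r * cos (a + b) + r ^ 2 :=
    lt_of_lt_of_le (by have : 0 < 1 - r := by linarith
                       positivity) (a1_pos h0.le h1 (a + b))
  have p3 : 0 < |cos a - cos b| := abs_pos.2 (sub_ne_zero.2 h)
  unfold a1k
  have key : (2 * |cos a - cos b|) ^ 2 * r ^ 2 ≤
      (1 - 2 * r * cos (a - b) + r ^ 2) * (1 - 2 * r * cos (a + b) + r ^ 2) := by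
    have e : (2 * |cos a - cos b|) ^ 2 = 4 * (cos a - cos b) ^ 2 := by
      rw [mul_pow, sq_abs]; ring
    rw [e]
    have c1 : cos (a - b) ≤ 1 := cos_le_one _
    have c2 : cos (a + b) ≤ 1 := cos_le_one _
    -- (1 - cos (a-b)) (1 - cos (a+b)) = (cos a - cos b)^2
    have c3 : (1 - cos (a - b)) * (1 - cos (a + b)) = (cos a - cos b) ^ 2 := by
      rw [cos_sub, cos_add]
      have s1 := sin_sq_add_cos_sq a
      have s2 := sin_sq_add_cos_sq b
      have s3 : sin a ^ 2 = 1 - cos a ^ 2 := by linarith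
      have s4 : sin b ^ 2 = 1 - cos b ^ 2 := by linarith
      have : (1 - (cos a * cos b + sin a * sin b)) * (1 - (cos a * cos b - sin a * sin b)) =
        1 - 2 * (cos a * cos b) + cos a ^ 2 * cos b ^ 2 - sin a ^ 2 * sin b ^ 2 := by ring
      rw [this, s3, s4]; ring
    have e2 : 1 - 2 * r * cos (a - b) + r ^ 2 = (1 - r) ^ 2 + 2 * r * (1 - cos (a - b)) := by ring
    have e3 : 1 - 2 * r * cos (a + b) + r ^ 2 = (1 - r) ^ 2 + 2 * r * (1 - cos (a + b)) := by ring
    rw [e2, e3]
    have q1 : 0 ≤ 2 * r * (1 - cos (a - b)) := by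
      have : 0 ≤ 1 - cos (a - b) := by linarith
      positivity
    have q2 : 0 ≤ 2 * r * (1 - cos (a + b)) := by
      have : 0 ≤ 1 - cos (a + b) := by linarith
      positivity
    calc 4 * (cos a - cos b) ^ 2 * r ^ 2
        = (2 * r * (1 - cos (a - b))) * (2 * r * (1 - cos (a + b))) := by rw [← c3]; ring
      _ ≤ _ := by
        apply mul_le_mul _ _ q2 _
        · nlinarith [sq_nonneg (1 - r)]
        · nlinarith [sq_nonneg (1 - r)]
        · nlinarith [sq_nonneg (1 - r)]
  have l1 := Real.log_le_log (by positivity) key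
  rw [Real.log_mul (by positivity) (by positivity), Real.log_mul p1.ne' p2.ne', Real.log_pow,
    Real.log_pow] at l1
  push_cast at l1
  linarith

theorem cheb_energy {ι : Type*} [Fintype ι] [DecidableEq ι] (y : ι → ℝ) (hy : ∀ i, |y i| ≤ 1)
    (hinj : Function.Injective y) (hn : 2 ≤ Fintype.card ι) :
    ∑ i, ∑ j ∈ univ.erase i, log (2 * |y i - y j|) ≤
      Fintype.card ι + 2 * Fintype.card ι * log (Fintype.card ι) -
        2 * (1 - 1 / (Fintype.card ι : ℝ)) * (∑ i, y i) ^ 2 := by
  set n : ℝ := (Fintype.card ι : ℝ) with hnd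
  have hn2 : (2 : ℝ) ≤ n := by rw [hnd]; exact_mod_cast hn
  set r : ℝ := 1 - 1 / n with hr
  have hn0 : 0 < n := by linarith
  have hinv : 1 / n ≤ 1 / 2 := by
    apply one_div_le_one_div_of_le <;> linarith
  have hinv0 : 0 < 1 / n := by positivity
  have r0 : 0 < r := by rw [hr]; linarith
  have r1 : r < 1 := by rw [hr]; linarith
  set φ : ι → ℝ := fun i => arccos (y i) with hφ
  have hc : ∀ i, cos (φ i) = y i := fun i =>
    cos_arccos (abs_le.1 (hy i)).1 (abs_le.1 (hy i)).2
  -- the double sum of kernels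
  have hS : HasSum (fun m : ℕ => ∑ i, ∑ j, (r ^ m * cos (m * (φ i - φ j)) / m +
      r ^ m * cos (m * (φ i + φ j)) / m))
      (∑ i, ∑ j, (-a1k r (φ i - φ j) + -a1k r (φ i + φ j))) := by
    apply hasSum_sum
    intro i _
    apply hasSum_sum
    intro j _
    exact (a1_hasSum r0.le r1 _).add (a1_hasSum r0.le r1 _)
  have hterm : ∀ m : ℕ, ∑ i, ∑ j, (r ^ m * cos (m * (φ i - φ j)) / m +
      r ^ m * cos (m * (φ i + φ j)) / m) = 2 * r ^ m / m * (∑ i, cos (m * φ i)) ^ 2 := by
    intro m
    rw [sq, sum_mul_sum, mul_sum]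
    apply sum_congr rfl
    intro i _
    rw [mul_sum]
    apply sum_congr rfl
    intro j _
    rw [mul_sub, mul_add, cos_sub, cos_add]
    ring
  simp_rw [hterm] at hS
  have h1 := le_hasSum hS 1 (fun m _ => by positivity)
  have e1 : ∑ i, cos (((1 : ℕ) : ℝ) * φ i) = ∑ i, y i := by
    apply sum_congr rfl
    intro i _
    rw [Nat.cast_one, one_mul, hc]
  rw [e1] at h1
  simp only [pow_one, Nat.cast_one, div_one] at h1
  -- pointwise bound
  have h2 : ∀ i, ∑ j ∈ univ.erase i, log (2 * |y i - y j|) ≤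
      ∑ j ∈ univ.erase i, (-log r + (a1k r (φ i - φ j) + a1k r (φ i + φ j))) := by
    intro i
    apply sum_le_sum
    intro j hj
    have hne : j ≠ i := (mem_erase.1 hj).1
    have := a1_pair r0 r1 (φ i) (φ j) (by
      rw [hc, hc]
      exact fun h => hne (hinj h).symm)
    rwa [hc, hc] at this
  -- lower bound of the diagonal terms
  have hk : ∀ α, -log n ≤ a1k r α := by
    intro α
    unfold a1k
    have p0 : 0 < (1 - r) ^ 2 := by
      have : 0 < 1 - r := by linarith
      positivity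
    have := Real.log_le_log p0 (a1_pos r0.le r1 α)
    rw [Real.log_pow] at this
    have e : 1 - r = n⁻¹ := by rw [hr]; field_simp; ring
    rw [e, Real.log_inv] at this
    push_cast at this
    linarith
  have h3 : ∀ i, ∑ j ∈ univ.erase i, (-log r + (a1k r (φ i - φ j) + a1k r (φ i + φ j))) ≤
      (n - 1) * (-log r) + ∑ j, (a1k r (φ i - φ j) + a1k r (φ i + φ j)) + 2 * log n := by
    intro i
    rw [sum_add_distrib, sum_const, card_erase_of_mem (mem_univ i), card_univ, nsmul_eq_mul,
      Nat.cast_sub (by omega)]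
    rw [← add_sum_erase univ (fun j => a1k r (φ i - φ j) + a1k r (φ i + φ j)) (mem_univ i)]
    have := hk (φ i - φ i)
    have := hk (φ i + φ i)
    push_cast
    linarith
  have h4 : ∑ i, ∑ j ∈ univ.erase i, log (2 * |y i - y j|) ≤
      ∑ i : ι, ((n - 1) * (-log r) + ∑ j, (a1k r (φ i - φ j) + a1k r (φ i + φ j)) + 2 * log n) :=
    sum_le_sum fun i _ => (h2 i).trans (h3 i)
  have e2 : ∑ i : ι, ((n - 1) * (-log r) + ∑ j, (a1k r (φ i - φ j) + a1k r (φ i + φ j)) +
      2 * log n) = n * ((n - 1) * (-log r)) + n * (2 * log n) -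
      ∑ i, ∑ j, (-a1k r (φ i - φ j) + -a1k r (φ i + φ j)) := by
    have e3 : ∑ i, ∑ j, (-a1k r (φ i - φ j) + -a1k r (φ i + φ j)) =
        -∑ i, ∑ j, (a1k r (φ i - φ j) + a1k r (φ i + φ j)) := by
      rw [← sum_neg_distrib]
      apply sum_congr rfl
      intro i _
      rw [← sum_neg_distrib]
      apply sum_congr rfl
      intro j _
      ring
    rw [e3]
    simp only [sum_add_distrib, sum_const, card_univ, nsmul_eq_mul]
    ring
  rw [e2] at h4
  have h5 : (n - 1) * (-log r) ≤ 1 := by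
    have e : -log r = log (1 / r) := by rw [one_div, Real.log_inv]
    have hl : log (1 / r) ≤ 1 / r - 1 := Real.log_le_sub_one_of_pos (by positivity)
    have e3 : 1 / r - 1 = 1 / (n - 1) := by
      rw [hr]
      have : n - 1 ≠ 0 := by linarith
      field_simp
      ring
    rw [e]
    have : 0 < n - 1 := by linarith
    calc (n - 1) * log (1 / r) ≤ (n - 1) * (1 / (n - 1)) := by
          rw [← e3]; exact mul_le_mul_of_nonneg_left hl this.le
      _ = 1 := by field_simp
  nlinarith

end Pool.Agent.Lib.MP_e1dd62_co.Big
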