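import Mathlib

/-!
# The mean of the logarithm of the projections of a vector
-/

namespace Pool.Agent.Lib.MP_e1dd62_co.Big

open Finset Real

lemma a2_proj (w : ℂ) (θ : ℝ) :
    (Complex.exp (-(θ * Complex.I)) * w).re = ‖w‖ * cos (θ - Complex.arg w) := by
  have h : Complex.exp (-(θ * Complex.I)) * w =
      (‖w‖ : ℂ) * Complex.exp (((Complex.arg w - θ : ℝ) : ℂ) * Complex.I) := by
    conv_lhs => rw [← Complex.norm_mul_exp_arg_mul_I w]
    rw [mul_left_comm, ← Complex.exp_add]
    congr 2
    push_cast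
    ring
  rw [h, Complex.re_ofReal_mul, Complex.exp_ofReal_mul_I_re, ← cos_neg (Complex.arg w - θ), neg_sub]

lemma a2_countable (w : ℂ) (hw : w ≠ 0) :
    {θ : ℝ | (Complex.exp (-(θ * Complex.I)) * w).re = 0}.Countable := by
  apply (Set.countable_range (fun n : ℤ => (n : ℝ) * π - (π / 2 - Complex.arg w))).mono
  intro θ hθ
  have h1 : (Complex.exp (-(θ * Complex.I)) * w).re = 0 := hθ
  have hw' : ‖w‖ ≠ 0 := norm_ne_zero_iff.2 hw
  rw [a2_proj, mul_eq_zero] at h1
  have h2 : cos (θ - Complex.arg w) = 0 := h1.resolve_left hw'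
  rw [← sin_add_pi_div_two] at h2
  obtain ⟨n, hn⟩ := Real.sin_eq_zero_iff.1 h2
  exact ⟨n, by show (n : ℝ) * π - (π / 2 - Complex.arg w) = θ; rw [hn]; ring⟩

private lemma a2_ae (w : ℂ) (hw : w ≠ 0) :
    ∀ᵐ θ : ℝ, log (2 * |(Complex.exp (-(θ * Complex.I)) * w).re|) =
      log (2 * ‖w‖) + log (sin (θ + (π / 2 - Complex.arg w))) := by
  set β : ℝ := π / 2 - Complex.arg w with hβ
  have hcount : {θ : ℝ | sin (θ + β) = 0}.Countable := by
    apply (Set.countable_range (fun n : ℤ => (n : ℝ) * π - β)).mono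
    intro θ hθ
    obtain ⟨n, hn⟩ := Real.sin_eq_zero_iff.1 hθ
    exact ⟨n, by show (n : ℝ) * π - β = θ; rw [hn]; ring⟩
  filter_upwards [hcount.ae_notMem MeasureTheory.volume] with θ hθ
  have hs : sin (θ + β) ≠ 0 := hθ
  have hw' : ‖w‖ ≠ 0 := norm_ne_zero_iff.2 hw
  have e : cos (θ - Complex.arg w) = sin (θ + β) := by
    rw [hβ, show θ + (π / 2 - Complex.arg w) = (θ - Complex.arg w) + π / 2 by ring, sin_add_pi_div_two]
  rw [a2_proj, e, abs_mul, abs_norm, ← mul_assoc, Real.log_mul (by positivity) (abs_ne_zero.2 hs),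
    Real.log_abs]

theorem integral_log_proj {w : ℂ} (hw : w ≠ 0) :
    IntervalIntegrable (fun θ : ℝ => log (2 * |(Complex.exp (-(θ * Complex.I)) * w).re|))
      MeasureTheory.volume 0 (2 * π) ∧
    ∫ θ in (0 : ℝ)..(2 * π), log (2 * |(Complex.exp (-(θ * Complex.I)) * w).re|) =
      2 * π * log ‖w‖ := by
  set β : ℝ := π / 2 - Complex.arg w with hβ
  have hw' : ‖w‖ ≠ 0 := norm_ne_zero_iff.2 hw
  have hint : ∀ a b : ℝ, IntervalIntegrable (fun x : ℝ => log (sin x)) MeasureTheory.volume a b :=
    fun a b => intervalIntegrable_log_sin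
  have hint2 : IntervalIntegrable (fun θ : ℝ => log (sin (θ + β))) MeasureTheory.volume 0 (2 * π) := by
    have := (hint (0 + β) (2 * π + β)).comp_add_right β
    simpa using this
  have hint3 : IntervalIntegrable (fun θ : ℝ => log (2 * ‖w‖) + log (sin (θ + β)))
      MeasureTheory.volume 0 (2 * π) := intervalIntegrable_const.add hint2
  have hae := a2_ae w hw
  constructor
  · apply hint3.congr_ae
    apply MeasureTheory.ae_restrict_of_ae
    filter_upwards [hae] with θ hθ
    exact hθ.symm
  · have h1 : ∫ θ in (0 : ℝ)..(2 * π), log (2 * |(Complex.exp (-(θ * Complex.I)) * w).re|) =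
        ∫ θ in (0 : ℝ)..(2 * π), (log (2 * ‖w‖) + log (sin (θ + β))) := by
      apply intervalIntegral.integral_congr_ae
      filter_upwards [hae] with θ hθ _
      exact hθ
    rw [h1, intervalIntegral.integral_add intervalIntegrable_const hint2,
      intervalIntegral.integral_const,
      intervalIntegral.integral_comp_add_right (fun x => log (sin x)) β]
    have hper : Function.Periodic (fun x : ℝ => log (sin x)) π := by
      intro x
      show log (sin (x + π)) = log (sin x)
      rw [sin_add_pi, Real.log_neg_eq_log]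
    have h2 : ∫ x in (0 + β)..(2 * π + β), log (sin x) = 2 * ∫ x in (0 : ℝ)..π, log (sin x) := by
      have := hper.intervalIntegral_add_zsmul_eq 2 β hint
      have e1 : β + (2 : ℤ) • π = 2 * π + β := by simp; ring
      rw [e1, hper.intervalIntegral_add_eq β 0, zero_add] at this
      rw [zero_add, this]
      simp
    rw [h2, integral_log_sin_zero_pi, Real.log_mul (by norm_num) hw']
    simp only [smul_eq_mul]
    ring

end Pool.Agent.Lib.MP_e1dd62_co.Big
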