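import Pool.Agent.Lib.MP_e1dd62_co.Basic
import Pool.Agent.Lib.MP_e1dd62_co.Big.A1
import Pool.Agent.Lib.MP_e1dd62_co.Big.A2

/-!
# The energy controls the support function in the mean
-/

namespace Pool.Agent.Lib.MP_e1dd62_co.Big

open Finset Real

/-- support function -/
noncomputable def supp {m : ℕ} (z : Fin (m + 1) → ℂ) (θ : ℝ) : ℝ :=
  univ.sup' univ_nonempty fun i => (Complex.exp (-(θ * Complex.I)) * z i).re

private lemma a3_norm {m : ℕ} {z : Fin (m + 1) → ℂ} (hz : Admissible z) (hc : ∑ i, z i = 0)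
    (i : Fin (m + 1)) : ‖z i‖ ≤ 2 := by
  have h1 : ∑ j, (z i - z j) = ((m : ℂ) + 1) * z i := by
    rw [sum_sub_distrib, hc, sub_zero, sum_const, card_univ, Fintype.card_fin, nsmul_eq_mul]
    push_cast; ring
  have h2 : ‖∑ j, (z i - z j)‖ ≤ ∑ _j : Fin (m + 1), (2 : ℝ) :=
    norm_sum_le_of_le _ fun j _ => hz i j
  rw [h1, norm_mul, sum_const, card_univ, Fintype.card_fin, nsmul_eq_mul] at h2
  have h3 : ‖(m : ℂ) + 1‖ = (m : ℝ) + 1 := by
    have : (m : ℂ) + 1 = (((m : ℝ) + 1 : ℝ) : ℂ) := by push_cast; ring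
    rw [this, Complex.norm_real, norm_eq_abs, abs_of_pos (by positivity)]
  rw [h3] at h2
  push_cast at h2
  have h4 : (0 : ℝ) < (m : ℝ) + 1 := by positivity
  exact le_of_mul_le_mul_left h2 h4

private lemma a3_le {m : ℕ} (z : Fin (m + 1) → ℂ) (θ : ℝ) (i : Fin (m + 1)) :
    (Complex.exp (-(θ * Complex.I)) * z i).re ≤ supp z θ :=
  le_sup' (fun i => (Complex.exp (-(θ * Complex.I)) * z i).re) (mem_univ i)

private lemma a3_exp (θ η : ℝ) :
    ‖Complex.exp (-(θ * Complex.I)) - Complex.exp (-(η * Complex.I))‖ ≤ |θ - η| := by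
  have h : Complex.exp (-(θ * Complex.I)) - Complex.exp (-(η * Complex.I)) =
      Complex.exp ((((-η : ℝ)) : ℂ) * Complex.I) *
        (Complex.exp (Complex.I * ((η - θ : ℝ) : ℂ)) - 1) := by
    rw [mul_sub, mul_one, ← Complex.exp_add]
    congr 2
    · push_cast; ring
    · push_cast; ring
  rw [h, norm_mul, Complex.norm_exp_ofReal_mul_I, one_mul]
  refine (Real.norm_exp_I_mul_ofReal_sub_one_le).trans ?_
  rw [norm_eq_abs, abs_sub_comm]

private lemma a3_one {m : ℕ} {z : Fin (m + 1) → ℂ} (hz : Admissible z) (hc : ∑ i, z i = 0)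
    (θ η : ℝ) : supp z θ ≤ supp z η + 2 * |θ - η| := by
  apply sup'_le
  intro i _
  have h1 := a3_le z η i
  have h2 : (Complex.exp (-(θ * Complex.I)) * z i).re - (Complex.exp (-(η * Complex.I)) * z i).re ≤
      2 * |θ - η| := by
    rw [← Complex.sub_re, ← sub_mul]
    refine (Complex.re_le_norm _).trans ?_
    rw [norm_mul]
    calc _ ≤ |θ - η| * 2 :=
          mul_le_mul (a3_exp θ η) (a3_norm hz hc i) (norm_nonneg _) (abs_nonneg _)
      _ = _ := by ring
  linarith

theorem supp_lip {m : ℕ} {z : Fin (m + 1) → ℂ} (hz : Admissible z) (hc : ∑ i, z i = 0) (θ η : ℝ) :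
    |supp z θ - supp z η| ≤ 2 * |θ - η| := by
  rw [abs_le]
  constructor
  · have := a3_one hz hc η θ
    rw [abs_sub_comm] at this
    linarith
  · have := a3_one hz hc θ η
    linarith

private lemma a3_continuous {m : ℕ} {z : Fin (m + 1) → ℂ} (hz : Admissible z)
    (hc : ∑ i, z i = 0) : Continuous (supp z) := by
  have : LipschitzWith 2 (supp z) := by
    apply LipschitzWith.of_dist_le_mul
    intro θ η
    rw [Real.dist_eq, Real.dist_eq]
    exact supp_lip hz hc θ η
  exact this.continuous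

/-- pointwise estimate -/
private lemma a3_pt {m : ℕ} (hm : 1 ≤ m) (z : Fin (m + 1) → ℂ)
    (hz : Admissible z) (hc : ∑ i, z i = 0) (θ : ℝ)
    (hd : ∀ i j, i ≠ j → (Complex.exp (-(θ * Complex.I)) * (z i - z j)).re ≠ 0) :
    ((m : ℝ) + 1) * m * ((1 - (supp z θ + supp z (θ + π)) / 2) +
        2 * ((supp z θ - supp z (θ + π)) / 2) ^ 2) ≤
      ((m : ℝ) + 1) + 2 * ((m : ℝ) + 1) * log ((m : ℝ) + 1) -
        ∑ i, ∑ j ∈ univ.erase i, log (2 * |(Complex.exp (-(θ * Complex.I)) * (z i - z j)).re|) := by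
  set p : Fin (m + 1) → ℝ := fun i => (Complex.exp (-(θ * Complex.I)) * z i).re with hp
  have hpd : ∀ i j, (Complex.exp (-(θ * Complex.I)) * (z i - z j)).re = p i - p j := by
    intro i j
    rw [mul_sub, Complex.sub_re]
  simp only [hpd] at hd ⊢
  set hA := supp z θ with hAd
  set hB := supp z (θ + π) with hBd
  -- the values are attained
  obtain ⟨a, _, ha⟩ := exists_mem_eq_sup' (s := univ) univ_nonempty p
  have ha' : hA = p a := ha
  have hneg : ∀ i, (Complex.exp (-(((θ + π : ℝ) : ℂ) * Complex.I)) * z i).re = -p i := by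
    intro i
    have e : Complex.exp (-(((θ + π : ℝ) : ℂ) * Complex.I)) =
        -Complex.exp (-(θ * Complex.I)) := by
      have e1 : -(((θ + π : ℝ) : ℂ) * Complex.I) = -(θ * Complex.I) + -(π * Complex.I) := by
        push_cast; ring
      rw [e1, Complex.exp_add, Complex.exp_neg (π * Complex.I), Complex.exp_pi_mul_I]
      norm_num
    rw [e, neg_mul, Complex.neg_re]
  obtain ⟨b, _, hb⟩ := exists_mem_eq_sup' (s := univ) univ_nonempty
    (fun i => (Complex.exp (-(((θ + π : ℝ) : ℂ) * Complex.I)) * z i).re)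
  have hb' : hB = -p b := by rw [← hneg b]; exact hb
  have hAle : ∀ i, p i ≤ hA := fun i => a3_le z θ i
  have hBle : ∀ i, -p i ≤ hB := by
    intro i
    have := a3_le z (θ + π) i
    rw [hneg i] at this
    exact this
  have hab : |p a - p b| ≤ 2 := by
    rw [← hpd]
    refine (Complex.abs_re_le_norm _).trans ?_
    rw [norm_mul]
    have : ‖Complex.exp (-(θ * Complex.I))‖ = 1 := by
      have := Complex.norm_exp_ofReal_mul_I (-θ)
      rw [← this]; congr 2; push_cast; ring
    rw [this, one_mul]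
    exact hz a b
  set H := (hA + hB) / 2 with hH
  set c := (hA - hB) / 2 with hcd
  have hH1 : H ≤ 1 := by
    have := (abs_le.1 hab).2
    rw [hH, ha', hb']; linarith
  have hH0 : 0 < H := by
    -- two different indices
    have h01 : (0 : Fin (m + 1)) ≠ Fin.last m := by
      intro h
      have := congrArg Fin.val h
      simp at this
      omega
    have h1 := hd _ _ h01
    have h2 := hAle 0
    have h3 := hAle (Fin.last m)
    have h4 := hBle 0
    have h5 := hBle (Fin.last m)
    rcases lt_or_gt_of_ne h1 with h | h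
    · rw [hH]; linarith
    · rw [hH]; linarith
  set y : Fin (m + 1) → ℝ := fun i => (p i - c) / H with hy
  have hyle : ∀ i, |y i| ≤ 1 := by
    intro i
    rw [hy]
    show |(p i - c) / H| ≤ 1
    rw [abs_div, abs_of_pos hH0, div_le_one hH0, abs_le]
    have h1 := hAle i
    have h2 := hBle i
    constructor
    · rw [hcd, hH]; linarith
    · rw [hcd, hH]; linarith
  have hinj : Function.Injective y := by
    intro i j hij
    by_contra hne
    apply hd i j hne
    have : (p i - c) / H = (p j - c) / H := hij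
    rw [div_left_inj' hH0.ne'] at this
    linarith
  have hch := cheb_energy y hyle hinj (by rw [Fintype.card_fin]; omega)
  rw [Fintype.card_fin] at hch
  push_cast at hch
  -- the sum of the y
  have hps : ∑ i, p i = 0 := by
    rw [hp]
    show ∑ i, (Complex.exp (-(θ * Complex.I)) * z i).re = 0
    rw [← Complex.re_sum, ← mul_sum, hc, mul_zero, Complex.zero_re]
  have hys : ∑ i, y i = -(((m : ℝ) + 1) * c) / H := by
    rw [hy]
    show ∑ i, (p i - c) / H = _
    rw [← sum_div, sum_sub_distrib, hps, sum_const, card_univ, Fintype.card_fin, nsmul_eq_mul]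
    push_cast; ring
  have hysq : (((m : ℝ) + 1) * c) ^ 2 ≤ (∑ i, y i) ^ 2 := by
    rw [hys, div_pow, neg_sq, le_div_iff₀ (by positivity)]
    have : H ^ 2 ≤ 1 := by nlinarith
    nlinarith [sq_nonneg (((m : ℝ) + 1) * c)]
  -- logs
  have hlog : ∀ i, ∑ j ∈ univ.erase i, log (2 * |p i - p j|) =
      m * log H + ∑ j ∈ univ.erase i, log (2 * |y i - y j|) := by
    intro i
    have e : ∀ j ∈ univ.erase i, log (2 * |p i - p j|) = log H + log (2 * |y i - y j|) := by
      intro j hj
      have hne : i ≠ j := fun h => (mem_erase.1 hj).1 h.symm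
      have h1 : p i - p j ≠ 0 := hd i j hne
      have h2 : y i - y j = (p i - p j) / H := by
        rw [hy]; show (p i - c) / H - (p j - c) / H = _; ring
      have h3 : p i - p j = H * (y i - y j) := by rw [h2]; field_simp
      have h4 : y i - y j ≠ 0 := by
        intro h5; rw [h5, mul_zero] at h3; exact h1 h3
      rw [h3, abs_mul, abs_of_pos hH0, ← Real.log_mul hH0.ne' (by positivity)]
      congr 1; ring
    rw [sum_congr rfl e, sum_add_distrib, sum_const, card_erase_of_mem (mem_univ i), card_univ,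
      Fintype.card_fin, nsmul_eq_mul]
    simp
  have hlog2 : ∑ i, ∑ j ∈ univ.erase i, log (2 * |p i - p j|) =
      ((m : ℝ) + 1) * (m * log H) + ∑ i, ∑ j ∈ univ.erase i, log (2 * |y i - y j|) := by
    rw [sum_congr rfl fun i _ => hlog i, sum_add_distrib, sum_const, card_univ, Fintype.card_fin,
      nsmul_eq_mul]
    push_cast; ring
  rw [hlog2]
  have hlH : log H ≤ H - 1 := Real.log_le_sub_one_of_pos hH0
  have hm0 : (0 : ℝ) < m := by exact_mod_cast (by omega : 0 < m)
  have hmm : (0 : ℝ) < ((m : ℝ) + 1) * m := by positivity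
  have h6 : ((m : ℝ) + 1) * (m * log H) ≤ ((m : ℝ) + 1) * m * (H - 1) := by nlinarith
  have h7 : 2 * (1 - 1 / ((m : ℝ) + 1)) * (((m : ℝ) + 1) * c) ^ 2 =
      ((m : ℝ) + 1) * m * (2 * c ^ 2) := by field_simp; ring
  have h8 : 0 ≤ 2 * (1 - 1 / ((m : ℝ) + 1)) := by
    have : 1 / ((m : ℝ) + 1) ≤ 1 := by
      rw [div_le_one (by positivity)]; linarith
    linarith
  have h9 := mul_le_mul_of_nonneg_left hysq h8
  rw [h7] at h9
  nlinarith

private lemma a3_sum {ι : Type*} (s : Finset ι) (f : ι → ℝ → ℝ) (a b : ℝ)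
    (h : ∀ i ∈ s, IntervalIntegrable (f i) MeasureTheory.volume a b) :
    IntervalIntegrable (fun θ => ∑ i ∈ s, f i θ) MeasureTheory.volume a b := by
  have h1 := IntervalIntegrable.sum s h
  have e : (fun θ => ∑ i ∈ s, f i θ) = ∑ i ∈ s, f i := by
    funext θ
    rw [Finset.sum_apply]
  rw [e]
  exact h1

theorem integral_supp {m : ℕ} (hm : 1 ≤ m) (z : Fin (m + 1) → ℂ) (hinj : Function.Injective z)
    (hz : Admissible z) (hc : ∑ i, z i = 0)
    (hE : ((m : ℝ) + 1) * log (m + 1) ≤ ∑ i, ∑ j ∈ univ.erase i, log ‖z i - z j‖) :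
    ∫ θ in (0 : ℝ)..(2 * π), ((1 - (supp z θ + supp z (θ + π)) / 2) +
        2 * ((supp z θ - supp z (θ + π)) / 2) ^ 2) ≤ 2 * π * ((1 + log (m + 1)) / m) := by
  have hm0 : (0 : ℝ) < m := by exact_mod_cast (by omega : 0 < m)
  have hmm : (0 : ℝ) < ((m : ℝ) + 1) * m := by positivity
  have hcont := a3_continuous hz hc
  have hcont2 : Continuous (fun θ : ℝ => supp z (θ + π)) :=
    hcont.comp (continuous_id.add continuous_const)
  have hcF : Continuous (fun θ : ℝ => ((1 - (supp z θ + supp z (θ + π)) / 2) +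
        2 * ((supp z θ - supp z (θ + π)) / 2) ^ 2)) := by fun_prop
  have hFi : IntervalIntegrable (fun θ : ℝ => ((1 - (supp z θ + supp z (θ + π)) / 2) +
        2 * ((supp z θ - supp z (θ + π)) / 2) ^ 2)) MeasureTheory.volume 0 (2 * π) :=
    hcF.intervalIntegrable _ _
  -- the logarithms
  have hne : ∀ i, ∀ j ∈ univ.erase i, z i - z j ≠ 0 := by
    intro i j hj
    exact sub_ne_zero.2 fun h => (mem_erase.1 hj).1 (hinj h).symm
  have hGi : IntervalIntegrable (fun θ : ℝ => ∑ i, ∑ j ∈ univ.erase i,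
      log (2 * |(Complex.exp (-(θ * Complex.I)) * (z i - z j)).re|)) MeasureTheory.volume 0
      (2 * π) := by
    apply a3_sum
    intro i _
    apply a3_sum
    intro j hj
    exact (integral_log_proj (hne i j hj)).1
  have hG : ∫ θ in (0 : ℝ)..(2 * π), ∑ i, ∑ j ∈ univ.erase i,
      log (2 * |(Complex.exp (-(θ * Complex.I)) * (z i - z j)).re|) =
      2 * π * ∑ i, ∑ j ∈ univ.erase i, log ‖z i - z j‖ := by
    rw [intervalIntegral.integral_finsetSum]
    · rw [mul_sum]
      apply sum_congr rfl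
      intro i _
      rw [intervalIntegral.integral_finsetSum]
      · rw [mul_sum]
        apply sum_congr rfl
        intro j hj
        exact (integral_log_proj (hne i j hj)).2
      · intro j hj
        exact (integral_log_proj (hne i j hj)).1
    · intro i _
      apply a3_sum
      intro j hj
      exact (integral_log_proj (hne i j hj)).1
  -- almost every direction is good
  have hae : ∀ᵐ θ : ℝ, ∀ i j, i ≠ j →
      (Complex.exp (-(θ * Complex.I)) * (z i - z j)).re ≠ 0 := by
    rw [MeasureTheory.ae_all_iff]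
    intro i
    rw [MeasureTheory.ae_all_iff]
    intro j
    by_cases hij : i = j
    · exact Filter.Eventually.of_forall fun θ h => absurd hij h
    · have hw : z i - z j ≠ 0 := sub_ne_zero.2 fun h => hij (hinj h)
      filter_upwards [(a2_countable _ hw).ae_notMem MeasureTheory.volume] with θ hθ _
      exact hθ
  have hmono : ∫ θ in (0 : ℝ)..(2 * π), ((m : ℝ) + 1) * m * ((1 - (supp z θ + supp z (θ + π)) / 2) +
        2 * ((supp z θ - supp z (θ + π)) / 2) ^ 2) ≤
      ∫ θ in (0 : ℝ)..(2 * π), (((m : ℝ) + 1) + 2 * ((m : ℝ) + 1) * log ((m : ℝ) + 1) -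
        ∑ i, ∑ j ∈ univ.erase i,
          log (2 * |(Complex.exp (-(θ * Complex.I)) * (z i - z j)).re|)) := by
    apply intervalIntegral.integral_mono_ae (by positivity) (hFi.const_mul _)
      (intervalIntegrable_const.sub hGi)
    filter_upwards [hae] with θ hθ
    exact a3_pt hm z hz hc θ hθ
  rw [intervalIntegral.integral_const_mul, intervalIntegral.integral_sub intervalIntegrable_const hGi,
    intervalIntegral.integral_const, hG] at hmono
  simp only [sub_zero, smul_eq_mul] at hmono
  have hpi : (0 : ℝ) < 2 * π := by positivity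
  have h1 : 2 * π * (((m : ℝ) + 1) * log (m + 1)) ≤
      2 * π * ∑ i, ∑ j ∈ univ.erase i, log ‖z i - z j‖ := mul_le_mul_of_nonneg_left hE hpi.le
  have h2 : ((m : ℝ) + 1) * m * (∫ θ in (0 : ℝ)..(2 * π), ((1 - (supp z θ + supp z (θ + π)) / 2) +
        2 * ((supp z θ - supp z (θ + π)) / 2) ^ 2)) ≤
      ((m : ℝ) + 1) * m * (2 * π * ((1 + log (m + 1)) / m)) := by
    have e : ((m : ℝ) + 1) * m * (2 * π * ((1 + log (m + 1)) / m)) =
        2 * π * (((m : ℝ) + 1) * (1 + log (m + 1))) := by field_simp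
    rw [e]
    nlinarith
  exact le_of_mul_le_mul_left h2 hmm

end Pool.Agent.Lib.MP_e1dd62_co.Big
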