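import Pool.Agent.Lib.MP_e1dd62_co.Big.A3

/-!
# The support function is near 1
-/

namespace Pool.Agent.Lib.MP_e1dd62_co.Big

open Finset Real

theorem lip_sup {f : ℝ → ℝ} (h0 : ∀ x, 0 ≤ f x) (hper : ∀ x, f (x + 2 * π) = f x)
    (hlip : ∀ x y, |f x - f y| ≤ 2 * |x - y|) (hle : ∀ x, f x ≤ 2) (k : ℕ) (x : ℝ) :
    f x ^ (k + 1) ≤ 2 ^ (k + 1) * ∫ θ in (0 : ℝ)..(2 * π), f θ ^ k := by
  have hc : Continuous f := by
    have hL : LipschitzWith 2 f := by
      apply LipschitzWith.of_dist_le_mul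
      intro a b
      rw [Real.dist_eq, Real.dist_eq]
      simpa using hlip a b
    exact hL.continuous
  have hck : Continuous (fun θ => f θ ^ k) := hc.pow k
  have hpi := pi_gt_three
  have hperk : Function.Periodic (fun θ => f θ ^ k) (2 * π) := by
    intro θ
    simp only
    rw [hper]
  have hfx0 := h0 x
  have hfx2 := hle x
  obtain ⟨h, hh⟩ : ∃ h, h = f x / 4 := ⟨_, rfl⟩
  have hh0 : 0 ≤ h := by rw [hh]; positivity
  have hh1 : h ≤ 1 / 2 := by rw [hh]; linarith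
  have e1 : ∫ θ in (0 : ℝ)..(2 * π), f θ ^ k = ∫ θ in (x - π)..(x - π + 2 * π), f θ ^ k := by
    have := hperk.intervalIntegral_add_eq 0 (x - π)
    rw [zero_add] at this
    exact this
  have e2 : ∫ θ in (x - h)..(x + h), f θ ^ k ≤ ∫ θ in (x - π)..(x - π + 2 * π), f θ ^ k := by
    apply intervalIntegral.integral_mono_interval
    · linarith
    · linarith
    · linarith
    · exact Filter.Eventually.of_forall (fun θ => pow_nonneg (h0 θ) k)
    · exact hck.intervalIntegrable _ _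
  have e3 : ∫ _ in (x - h)..(x + h), (f x / 2) ^ k ≤ ∫ θ in (x - h)..(x + h), f θ ^ k := by
    apply intervalIntegral.integral_mono_on (by linarith)
    · exact continuous_const.intervalIntegrable _ _
    · exact hck.intervalIntegrable _ _
    · intro θ hθ
      apply pow_le_pow_left₀ (by positivity)
      have h1 := hlip x θ
      have h2 : |x - θ| ≤ h := by
        rw [abs_le]
        constructor
        · linarith [hθ.2]
        · linarith [hθ.1]
      have h3 := le_abs_self (f x - f θ)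
      linarith
  rw [intervalIntegral.integral_const, smul_eq_mul] at e3
  have e4 : (x + h - (x - h)) * (f x / 2) ^ k = f x ^ (k + 1) / 2 ^ (k + 1) := by
    rw [hh, div_pow, pow_succ, pow_succ]
    ring
  rw [e4] at e3
  have e5 : f x ^ (k + 1) / 2 ^ (k + 1) ≤ ∫ θ in (0 : ℝ)..(2 * π), f θ ^ k := by
    rw [e1]; exact e3.trans e2
  rw [div_le_iff₀ (by positivity)] at e5
  linarith

theorem A4_le {m : ℕ} (z : Fin (m + 1) → ℂ) (θ : ℝ) (i : Fin (m + 1)) :
    (Complex.exp (-(θ * Complex.I)) * z i).re ≤ supp z θ :=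
  Finset.le_sup' (fun i => (Complex.exp (-(θ * Complex.I)) * z i).re) (mem_univ i)

theorem A4_exists {m : ℕ} (z : Fin (m + 1) → ℂ) (θ : ℝ) :
    ∃ i, supp z θ = (Complex.exp (-(θ * Complex.I)) * z i).re := by
  obtain ⟨i, _, hi⟩ := Finset.exists_mem_eq_sup' (s := (univ : Finset (Fin (m + 1))))
    univ_nonempty (fun i => (Complex.exp (-(θ * Complex.I)) * z i).re)
  exact ⟨i, hi⟩

theorem A4_pi {m : ℕ} (z : Fin (m + 1) → ℂ) (θ : ℝ) (i : Fin (m + 1)) :
    (Complex.exp (-(((θ + π : ℝ) : ℂ) * Complex.I)) * z i).re =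
      - (Complex.exp (-(θ * Complex.I)) * z i).re := by
  have : Complex.exp (-(((θ + π : ℝ) : ℂ) * Complex.I)) = - Complex.exp (-(θ * Complex.I)) := by
    have h1 : -(((θ + π : ℝ) : ℂ) * Complex.I) = -(θ * Complex.I) - π * Complex.I := by
      push_cast; ring
    rw [h1, Complex.exp_sub, Complex.exp_pi_mul_I, div_neg, div_one]
  rw [this, neg_mul, Complex.neg_re]

theorem A4_width {m : ℕ} {z : Fin (m + 1) → ℂ} (hz : Admissible z) (θ : ℝ) :
    supp z θ + supp z (θ + π) ≤ 2 := by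
  obtain ⟨i, hi⟩ := A4_exists z θ
  obtain ⟨j, hj⟩ := A4_exists z (θ + π)
  rw [A4_pi] at hj
  rw [hi, hj]
  have h1 : (Complex.exp (-(θ * Complex.I)) * z i).re + -(Complex.exp (-(θ * Complex.I)) * z j).re
      = (Complex.exp (-(θ * Complex.I)) * (z i - z j)).re := by
    rw [mul_sub, Complex.sub_re]; ring
  rw [h1]
  have h2 : ‖Complex.exp (-(θ * Complex.I)) * (z i - z j)‖ = ‖z i - z j‖ := by
    rw [norm_mul]
    have : ‖Complex.exp (-(θ * Complex.I))‖ = 1 := by
      have := Complex.norm_exp_ofReal_mul_I (-θ)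
      rw [← this]
      congr 2
      push_cast
      ring
    rw [this, one_mul]
  calc (Complex.exp (-(θ * Complex.I)) * (z i - z j)).re ≤
      ‖Complex.exp (-(θ * Complex.I)) * (z i - z j)‖ := Complex.re_le_norm _
    _ = ‖z i - z j‖ := h2
    _ ≤ 2 := hz i j

theorem A4_nonneg {m : ℕ} {z : Fin (m + 1) → ℂ} (hc : ∑ i, z i = 0) (θ : ℝ) :
    0 ≤ supp z θ := by
  have h1 : ∑ i, (Complex.exp (-(θ * Complex.I)) * z i).re = 0 := by
    rw [← Complex.re_sum, ← mul_sum, hc, mul_zero, Complex.zero_re]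
  have h2 : ∑ i, (Complex.exp (-(θ * Complex.I)) * z i).re ≤ ∑ _i : Fin (m + 1), supp z θ :=
    sum_le_sum (fun i _ => A4_le z θ i)
  rw [h1, sum_const, card_univ, Fintype.card_fin, nsmul_eq_mul] at h2
  have h3 : (0 : ℝ) < ((m + 1 : ℕ) : ℝ) := by positivity
  by_contra h
  push Not at h
  have := mul_neg_of_pos_of_neg h3 h
  linarith

theorem A4_periodic {m : ℕ} (z : Fin (m + 1) → ℂ) (θ : ℝ) :
    supp z (θ + 2 * π) = supp z θ := by
  have : Complex.exp (-(((θ + 2 * π : ℝ) : ℂ) * Complex.I)) =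
      Complex.exp (-(θ * Complex.I)) := by
    have h1 : -(((θ + 2 * π : ℝ) : ℂ) * Complex.I) = -(θ * Complex.I) - 2 * π * Complex.I := by
      push_cast; ring
    rw [h1, Complex.exp_sub, Complex.exp_two_pi_mul_I, div_one]
  unfold supp
  simp only [this]

theorem A4_limit (δ : ℝ) (hδ : 0 < δ) : ∃ n₀ : ℕ, ∀ m : ℕ, n₀ ≤ m →
    (1 + log (m + 1)) / m ≤ δ := by
  have h1 : Filter.Tendsto (fun x : ℝ => log x / x) Filter.atTop (nhds 0) :=
    Real.isLittleO_log_id_atTop.tendsto_div_nhds_zero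
  have h2 : Filter.Tendsto (fun x : ℝ => 1 / x) Filter.atTop (nhds 0) := by
    simpa using tendsto_inv_atTop_zero (𝕜 := ℝ)
  have h3 : Filter.Tendsto (fun m : ℕ => (m : ℝ) + 1) Filter.atTop Filter.atTop :=
    Filter.tendsto_atTop_add_const_right _ _ tendsto_natCast_atTop_atTop
  have h4 : Filter.Tendsto (fun m : ℕ => 1 / ((m : ℝ) + 1) + log ((m : ℝ) + 1) / ((m : ℝ) + 1))
      Filter.atTop (nhds 0) := by
    have := (h2.comp h3).add (h1.comp h3)
    simpa using this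
  have h5 := (h4.eventually (gt_mem_nhds (show (0 : ℝ) < δ / 2 by linarith))).and
    (Filter.eventually_ge_atTop 1)
  obtain ⟨N, hN⟩ := Filter.eventually_atTop.mp h5
  refine ⟨N, fun m hm => ?_⟩
  obtain ⟨h6, h7⟩ := hN m hm
  have h8 : (1 : ℝ) ≤ m := by exact_mod_cast h7
  rw [div_le_iff₀ (by linarith)]
  rw [← add_div, div_lt_iff₀ (by linarith)] at h6
  nlinarith

theorem supp_near : ∀ ρ : ℝ, 0 < ρ → ∃ n₀ : ℕ, ∀ m : ℕ, n₀ ≤ m → ∀ z : Fin (m + 1) → ℂ,
    Function.Injective z → Admissible z → ∑ i, z i = 0 →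
    ((m : ℝ) + 1) * log (m + 1) ≤ ∑ i, ∑ j ∈ univ.erase i, log ‖z i - z j‖ →
    ∀ θ : ℝ, (∀ i, (Complex.exp (-(θ * Complex.I)) * z i).re ≤ 1 + ρ) ∧
      ∃ i, 1 - ρ ≤ (Complex.exp (-(θ * Complex.I)) * z i).re := by
  intro ρ hρ
  have hpi := pi_pos
  obtain ⟨δ, hδ⟩ : ∃ δ, δ = min ((ρ / 2) ^ 2) ((ρ / 2) ^ 3) / (8 * π) := ⟨_, rfl⟩
  have hδ0 : 0 < δ := by rw [hδ]; positivity
  obtain ⟨N, hN⟩ := A4_limit δ hδ0
  refine ⟨N + 1, fun m hm z hinj hz hc hE θ => ?_⟩
  have hI := integral_supp (by omega) z hinj hz hc hE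
  have hIm := hN m (by omega)
  have hI2 : ∫ θ in (0 : ℝ)..(2 * π), ((1 - (supp z θ + supp z (θ + π)) / 2) +
        2 * ((supp z θ - supp z (θ + π)) / 2) ^ 2) ≤ 2 * π * δ :=
    hI.trans (mul_le_mul_of_nonneg_left hIm (by positivity))
  have hlip := supp_lip hz hc
  have hsc : Continuous (supp z) := by
    have hL : LipschitzWith 2 (supp z) := by
      apply LipschitzWith.of_dist_le_mul
      intro a b
      rw [Real.dist_eq, Real.dist_eq]
      simpa using hlip a b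
    exact hL.continuous
  have hper := A4_periodic z
  have hnn := A4_nonneg hc
  have hwd := A4_width hz
  -- the two functions
  obtain ⟨f1, hf1⟩ : ∃ f1 : ℝ → ℝ, f1 = fun θ => 1 - (supp z θ + supp z (θ + π)) / 2 := ⟨_, rfl⟩
  obtain ⟨f2, hf2⟩ : ∃ f2 : ℝ → ℝ, f2 = fun θ => |(supp z θ - supp z (θ + π)) / 2| := ⟨_, rfl⟩
  have hperπ : ∀ x, supp z (x + 2 * π + π) = supp z (x + π) := by
    intro x
    have : x + 2 * π + π = x + π + 2 * π := by ring
    rw [this, hper]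
  have hc1 : Continuous f1 := by rw [hf1]; fun_prop
  have hc2 : Continuous f2 := by rw [hf2]; fun_prop
  have hlipπ : ∀ x y, |supp z (x + π) - supp z (y + π)| ≤ 2 * |x - y| := by
    intro x y
    have := hlip (x + π) (y + π)
    have e : x + π - (y + π) = x - y := by ring
    rwa [e] at this
  have h10 : ∀ x, 0 ≤ f1 x := by intro x; rw [hf1]; simp only; linarith [hwd x]
  have h20 : ∀ x, 0 ≤ f2 x := by intro x; rw [hf2]; exact abs_nonneg _
  have b1 := lip_sup (f := f1) h10 (by intro x; rw [hf1]; simp only [hper, hperπ])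
    (by
      intro x y
      rw [hf1]
      simp only
      have h1 := abs_le.mp (hlip x y)
      have h2 := abs_le.mp (hlipπ x y)
      rw [abs_le]
      constructor <;> linarith [h1.1, h1.2, h2.1, h2.2])
    (by intro x; rw [hf1]; simp only; linarith [hnn x, hnn (x + π)]) 1 θ
  have b2 := lip_sup (f := f2) h20 (by intro x; rw [hf2]; simp only [hper, hperπ])
    (by
      intro x y
      rw [hf2]
      simp only
      have h1 := abs_le.mp (hlip x y)
      have h2 := abs_le.mp (hlipπ x y)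
      refine (abs_abs_sub_abs_le_abs_sub _ _).trans ?_
      rw [abs_le]
      constructor <;> linarith [h1.1, h1.2, h2.1, h2.2])
    (by
      intro x
      rw [hf2]
      simp only
      rw [abs_le]
      constructor <;> linarith [hnn x, hnn (x + π), hwd x]) 2 θ
  have hsplit : (∫ θ in (0 : ℝ)..(2 * π), f1 θ) + 2 * (∫ θ in (0 : ℝ)..(2 * π), f2 θ ^ 2) ≤
      2 * π * δ := by
    have hc3 : Continuous (fun θ => 2 * f2 θ ^ 2) := by fun_prop
    rw [← intervalIntegral.integral_const_mul, ← intervalIntegral.integral_add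
      (hc1.intervalIntegrable _ _) (hc3.intervalIntegrable _ _)]
    refine le_trans (le_of_eq ?_) hI2
    congr 1
    ext θ
    rw [hf1, hf2]
    simp only [sq_abs]
  have hi1 : 0 ≤ ∫ θ in (0 : ℝ)..(2 * π), f1 θ :=
    intervalIntegral.integral_nonneg (by positivity) (fun θ _ => h10 θ)
  have hi2 : 0 ≤ ∫ θ in (0 : ℝ)..(2 * π), f2 θ ^ 2 :=
    intervalIntegral.integral_nonneg (by positivity) (fun θ _ => by positivity)
  have hδ8 : 8 * π * δ = min ((ρ / 2) ^ 2) ((ρ / 2) ^ 3) := by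
    rw [hδ]; field_simp
  have c1 : f1 θ ^ 2 ≤ (ρ / 2) ^ 2 := by
    calc f1 θ ^ 2 ≤ 2 ^ (1 + 1) * ∫ θ in (0 : ℝ)..(2 * π), f1 θ ^ 1 := b1
      _ = 4 * ∫ θ in (0 : ℝ)..(2 * π), f1 θ := by norm_num
      _ ≤ 8 * π * δ := by linarith
      _ ≤ (ρ / 2) ^ 2 := by rw [hδ8]; exact min_le_left _ _
  have c2 : f2 θ ^ 3 ≤ (ρ / 2) ^ 3 := by
    calc f2 θ ^ 3 ≤ 2 ^ (2 + 1) * ∫ θ in (0 : ℝ)..(2 * π), f2 θ ^ 2 := b2
      _ = 8 * ∫ θ in (0 : ℝ)..(2 * π), f2 θ ^ 2 := by norm_num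
      _ ≤ 8 * π * δ := by linarith
      _ ≤ (ρ / 2) ^ 3 := by rw [hδ8]; exact min_le_right _ _
  have d1 : f1 θ ≤ ρ / 2 := by
    exact le_of_sq_le_sq c1 (by positivity)
  have d2 : f2 θ ≤ ρ / 2 := by
    by_contra h
    push Not at h
    have := pow_lt_pow_left₀ h (by positivity) (n := 3) (by norm_num)
    linarith
  have hwθ := hwd θ
  rw [hf1] at d1
  rw [hf2] at d2
  simp only at d1 d2
  have d3 := abs_le.mp d2
  have up : supp z θ ≤ 1 + ρ := by linarith [d3.2]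
  have lo : 1 - ρ ≤ supp z θ := by linarith [d3.1]
  refine ⟨fun i => (A4_le z θ i).trans up, ?_⟩
  obtain ⟨i, hi⟩ := A4_exists z θ
  exact ⟨i, hi ▸ lo⟩

end Pool.Agent.Lib.MP_e1dd62_co.Big
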