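import Pool.Agent.Lib.MP_e1dd62_co.Big.Defs

/-!
# The inequality for one Fourier mode
-/

namespace Pool.Agent.Lib.MP_e1dd62_co.Big

open Finset Real

private lemma F2_x_small {n : ℕ} (hn : 1000 ≤ n) : 0 < π / n ∧ π / (n : ℝ) ≤ 315 / 100000 := by
  have hn' : (1000 : ℝ) ≤ n := by exact_mod_cast hn
  have hpi := Real.pi_lt_d2
  refine ⟨by positivity, ?_⟩
  rw [div_le_iff₀ (by linarith)]
  nlinarith

/-- lower bound of the cotangent -/
private lemma F2_cot {x : ℝ} (h0 : 0 < x) (h1 : x ≤ 315 / 100000) :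
    (9999 / 10000) / x ≤ cos x / sin x := by
  have hs : 0 < sin x := Real.sin_pos_of_pos_of_lt_pi h0 (by linarith [Real.pi_gt_three])
  have hs' : sin x < x := Real.sin_lt h0
  have hc : 1 - x ^ 2 / 2 ≤ cos x := Real.one_sub_sq_div_two_le_cos
  have hx2 : x ^ 2 ≤ (315 / 100000) ^ 2 := by nlinarith
  rw [div_le_div_iff₀ h0 hs]
  nlinarith

/-- `s ≥ √κ p` in the two ranges, `p ≤ n / 2`. -/
private lemma F2_s {n p : ℕ} (hn : 1000 ≤ n) (h0 : 2 ≤ p) (h1 : 2 * p ≤ n) :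
    ((p : ℝ) ≤ 4 → (998 / 1000) * (p : ℝ) ≤ cos (π / n) / sin (π / n) * sin (p * (π / n))) ∧
    (636 / 1000) * (p : ℝ) ≤ cos (π / n) / sin (π / n) * sin (p * (π / n)) := by
  obtain ⟨hx0, hx1⟩ := F2_x_small hn
  have hn' : (1000 : ℝ) ≤ n := by exact_mod_cast hn
  have hp : (2 : ℝ) ≤ p := by exact_mod_cast h0
  have hpn : 2 * (p : ℝ) ≤ n := by exact_mod_cast h1
  have hcot := F2_cot hx0 hx1
  set x : ℝ := π / n with hx
  have hcotpos : 0 < (9999 / 10000) / x := by positivity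
  have hpx : (p : ℝ) * x ≤ π / 2 := by
    rw [hx]
    have : (p : ℝ) * (π / n) = π * (p / n) := by ring
    rw [this]
    have h2 : (p : ℝ) / n ≤ 1 / 2 := by
      rw [div_le_iff₀ (by linarith)]; linarith
    nlinarith [Real.pi_pos]
  have hpx0 : 0 < (p : ℝ) * x := by positivity
  constructor
  · intro hp4
    have hy1 : (p : ℝ) * x ≤ 126 / 10000 := by nlinarith
    have hsin : (p : ℝ) * x - ((p : ℝ) * x) ^ 3 / 6 < sin (p * x) :=
      Real.sin_gt_sub_cube hpx0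
    have h3 : (p : ℝ) * x * (9999 / 10000) ≤ sin (p * x) := by
      have : ((p : ℝ) * x) ^ 2 ≤ (126 / 10000) ^ 2 := by nlinarith
      nlinarith
    calc (998 / 1000) * (p : ℝ) ≤ (9999 / 10000) / x * ((p : ℝ) * x * (9999 / 10000)) := by
          have : (9999 / 10000) / x * ((p : ℝ) * x * (9999 / 10000))
              = (9999 / 10000) * (9999 / 10000) * p := by
            field_simp
          rw [this]; nlinarith
      _ ≤ cos x / sin x * sin (p * x) :=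
          mul_le_mul hcot h3 (by positivity) (le_trans hcotpos.le hcot)
  · have hsin : 2 / π * ((p : ℝ) * x) ≤ sin (p * x) := Real.mul_le_sin hpx0.le hpx
    calc (636 / 1000) * (p : ℝ) ≤ (9999 / 10000) / x * (2 / π * ((p : ℝ) * x)) := by
          have : (9999 / 10000) / x * (2 / π * ((p : ℝ) * x))
              = (9999 / 10000) * (2 / π) * p := by
            field_simp
          rw [this]
          have hpi : (6364 / 10000 : ℝ) ≤ 2 / π := by
            rw [le_div_iff₀ Real.pi_pos]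
            nlinarith [Real.pi_lt_d4]
          have h4 : (636 / 1000 : ℝ) ≤ (9999 / 10000) * (2 / π) := by nlinarith
          nlinarith
      _ ≤ cos x / sin x * sin (p * x) :=
          mul_le_mul hcot hsin (by positivity) (le_trans hcotpos.le hcot)

/-- The key inequality, `p ≤ n / 2`. -/
private lemma F2_key {n p : ℕ} (hn : 1000 ≤ n) (h0 : 2 ≤ p) (h1 : 2 * p ≤ n) :
    39 / 10 ≤ (cos (π / n) / sin (π / n) * sin (p * (π / n))) ^ 2 ∧
    ((p : ℝ) - 1) * (n - p - 1) + (n - 2) / 10 ≤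
      9 / 20 * ((n : ℝ) - 1) * (cos (π / n) / sin (π / n) * sin (p * (π / n))) ^ 2 := by
  obtain ⟨ha, hb⟩ := F2_s hn h0 h1
  have hn' : (1000 : ℝ) ≤ n := by exact_mod_cast hn
  have hp : (2 : ℝ) ≤ p := by exact_mod_cast h0
  set s : ℝ := cos (π / n) / sin (π / n) * sin (p * (π / n)) with hs
  have hup : ((p : ℝ) - 1) * (n - p - 1) + (n - 2) / 10 ≤ ((n : ℝ) - 1) * (p - 9 / 10) := by
    nlinarith
  by_cases h4 : p ≤ 4
  · have h4' : (p : ℝ) ≤ 4 := by exact_mod_cast h4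
    have hs1 := ha h4'
    have hs2 : (99 / 100) * (p : ℝ) ^ 2 ≤ s ^ 2 := by nlinarith
    refine ⟨by nlinarith, hup.trans ?_⟩
    have h5 : (p : ℝ) - 9 / 10 ≤ 9 / 20 * s ^ 2 := by nlinarith [sq_nonneg ((p : ℝ) - 2)]
    have h6 : (0 : ℝ) ≤ (n : ℝ) - 1 := by linarith
    calc ((n : ℝ) - 1) * (p - 9 / 10) ≤ ((n : ℝ) - 1) * (9 / 20 * s ^ 2) :=
          mul_le_mul_of_nonneg_left h5 h6
      _ = 9 / 20 * ((n : ℝ) - 1) * s ^ 2 := by ring
  · have h5p : (5 : ℝ) ≤ p := by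
      have : 5 ≤ p := by omega
      exact_mod_cast this
    have hs2 : (4 / 10) * (p : ℝ) ^ 2 ≤ s ^ 2 := by nlinarith
    refine ⟨by nlinarith, hup.trans ?_⟩
    have h5 : (p : ℝ) - 9 / 10 ≤ 9 / 20 * s ^ 2 := by nlinarith [sq_nonneg ((p : ℝ) - 5)]
    have h6 : (0 : ℝ) ≤ (n : ℝ) - 1 := by linarith
    calc ((n : ℝ) - 1) * (p - 9 / 10) ≤ ((n : ℝ) - 1) * (9 / 20 * s ^ 2) :=
          mul_le_mul_of_nonneg_left h5 h6
      _ = 9 / 20 * ((n : ℝ) - 1) * s ^ 2 := by ring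

/-- The key inequality for all `2 ≤ p ≤ n - 2`. -/
private lemma F2_key' {n p : ℕ} (hn : 1000 ≤ n) (h0 : 2 ≤ p) (h1 : p + 2 ≤ n) :
    39 / 10 ≤ (cos (π / n) / sin (π / n) * sin (p * (π / n))) ^ 2 ∧
    ((p : ℝ) - 1) * (n - p - 1) + (n - 2) / 10 ≤
      9 / 20 * ((n : ℝ) - 1) * (cos (π / n) / sin (π / n) * sin (p * (π / n))) ^ 2 := by
  by_cases h : 2 * p ≤ n
  · exact F2_key hn h0 h
  · have hn' : (1000 : ℝ) ≤ n := by exact_mod_cast hn
    have hq := F2_key (n := n) (p := n - p) hn (by omega) (by omega)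
    have hle : p ≤ n := by omega
    have hcast : ((n - p : ℕ) : ℝ) = n - p := by rw [Nat.cast_sub hle]
    have hsin : sin (((n - p : ℕ) : ℝ) * (π / n)) = sin (p * (π / n)) := by
      rw [hcast]
      have : ((n : ℝ) - p) * (π / n) = π - p * (π / n) := by
        field_simp
      rw [this, Real.sin_pi_sub]
    rw [hsin, hcast] at hq
    refine ⟨hq.1, le_trans (le_of_eq ?_) hq.2⟩
    ring

private lemma F2_real {n A s W τ υ : ℝ} (hn : 1000 ≤ n) (hA : n - 3 ≤ A) (hs : 39 / 10 ≤ s)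
    (hk : A + (n - 2) / 10 ≤ 9 / 20 * (n - 1) * s) (hW : 0 ≤ W) (hτ : 0 ≤ τ)
    (hυ : s * υ ≤ 2 * τ + 2 * W) :
    1 / 10 * ((n - 2) * υ + (2 * A + n - 2) * τ) ≤ 9 / 10 * ((n - 1) * W) + A * (τ - υ) ∧
    n * (τ + υ) ≤ 10 * ((n - 1) * W + A * (τ - υ)) := by
  have hs0 : 0 < s := by linarith
  have hυ' : υ ≤ (2 * τ + 2 * W) / s := by rw [le_div_iff₀ hs0]; linarith
  have hB : (A + (n - 2) / 10) / s ≤ 9 / 20 * (n - 1) := by rw [div_le_iff₀ hs0]; linarith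
  have hB0 : 0 ≤ A + (n - 2) / 10 := by linarith
  have hsinv : 1 / s ≤ 10 / 39 := by
    rw [div_le_div_iff₀ hs0 (by norm_num)]; linarith
  have h1 : (A + (n - 2) / 10) * υ ≤
      9 / 10 * (n - 1) * W + 20 / 39 * (A + (n - 2) / 10) * τ := by
    calc (A + (n - 2) / 10) * υ ≤ (A + (n - 2) / 10) * ((2 * τ + 2 * W) / s) :=
          mul_le_mul_of_nonneg_left hυ' hB0
      _ = (A + (n - 2) / 10) / s * (2 * W) + (A + (n - 2) / 10) * (2 * τ) * (1 / s) := by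
          field_simp; ring
      _ ≤ 9 / 20 * (n - 1) * (2 * W) + (A + (n - 2) / 10) * (2 * τ) * (10 / 39) := by
          gcongr
      _ = 9 / 10 * (n - 1) * W + 20 / 39 * (A + (n - 2) / 10) * τ := by ring
  have hA1 : (n - 2) ≤ 11 / 10 * A := by linarith
  have hAτ : (n - 2) * τ ≤ 11 / 10 * A * τ := by gcongr
  constructor
  · nlinarith
  · have h2 : (n + 10 * A) * υ ≤ 10 * ((n - 1) * W) + 20 / 39 * (n + 10 * A) * τ := by
      have h3 : (n + 10 * A) / s ≤ 5 * (n - 1) := by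
        rw [div_le_iff₀ hs0]
        nlinarith
      have h4 : 0 ≤ n + 10 * A := by linarith
      calc (n + 10 * A) * υ ≤ (n + 10 * A) * ((2 * τ + 2 * W) / s) :=
            mul_le_mul_of_nonneg_left hυ' h4
        _ = (n + 10 * A) / s * (2 * W) + (n + 10 * A) * (2 * τ) * (1 / s) := by
            field_simp; ring
        _ ≤ 5 * (n - 1) * (2 * W) + (n + 10 * A) * (2 * τ) * (10 / 39) := by gcongr
        _ = 10 * ((n - 1) * W) + 20 / 39 * (n + 10 * A) * τ := by ring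
    have h5 : n * τ ≤ 12 / 10 * A * τ := by
      have : n ≤ 12 / 10 * A := by linarith
      gcongr
    nlinarith

theorem mode_ineq {n p : ℕ} (hn : 1000 ≤ n) (h0 : 1 ≤ p) (h1 : p + 1 ≤ n) (T U : ℂ)
    (hp1 : p = 1 → U = Complex.I * T) (hp2 : p + 1 = n → U = -(Complex.I * T)) :
    1 / 10 * (((n : ℝ) - 2) * ‖U‖ ^ 2 + (2 * p * (n - p) - n) * ‖T‖ ^ 2) ≤
      9 / 10 * (((n : ℝ) - 1) * ‖(cos (p * (π / n)) : ℂ) * T -
        Complex.I * (cos (π / n) / sin (π / n) * sin (p * (π / n)) : ℝ) * U‖ ^ 2) +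
      (((p : ℝ) - 1) * (n - p - 1)) * (‖T‖ ^ 2 - ‖U‖ ^ 2) ∧
    n * (‖T‖ ^ 2 + ‖U‖ ^ 2) ≤
      10 * (((n : ℝ) - 1) * ‖(cos (p * (π / n)) : ℂ) * T -
        Complex.I * (cos (π / n) / sin (π / n) * sin (p * (π / n)) : ℝ) * U‖ ^ 2 +
      (((p : ℝ) - 1) * (n - p - 1)) * (‖T‖ ^ 2 - ‖U‖ ^ 2)) := by
  have hn' : (1000 : ℝ) ≤ n := by exact_mod_cast hn
  obtain ⟨hx0, hx1⟩ := F2_x_small hn
  have hsin0 : 0 < sin (π / n) :=
    Real.sin_pos_of_pos_of_lt_pi hx0 (by linarith [Real.pi_gt_three])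
  have hcos1 : 1 - (π / n) ^ 2 / 2 ≤ cos (π / n) := Real.one_sub_sq_div_two_le_cos
  have hcos : (999 / 1000 : ℝ) ≤ cos (π / n) := by nlinarith
  have hI : ‖(Complex.I : ℂ)‖ = 1 := Complex.norm_I
  -- the two extreme modes
  have hext : ∀ (ε : ℝ), ε ^ 2 = 1 → (cos (p * (π / n)) : ℝ) = ε * cos (π / n) →
      cos (π / n) / sin (π / n) * sin (p * (π / n)) = cos (π / n) →
      U = ε * (Complex.I * T) →
      ‖(cos (p * (π / n)) : ℂ) * T -
        Complex.I * (cos (π / n) / sin (π / n) * sin (p * (π / n)) : ℝ) * U‖ ^ 2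
        = 4 * cos (π / n) ^ 2 * ‖T‖ ^ 2 := by
    intro ε hε hc hs hU
    have e1 : (cos (p * (π / n)) : ℂ) * T -
        Complex.I * (cos (π / n) / sin (π / n) * sin (p * (π / n)) : ℝ) * U
        = ((2 * ε * cos (π / n) : ℝ) : ℂ) * T := by
      rw [hs, hU, hc]
      push_cast
      linear_combination (-(ε : ℂ) * Complex.cos (π / n) * T) * Complex.I_sq
    rw [e1, norm_mul, Complex.norm_real, mul_pow, Real.norm_eq_abs, sq_abs]
    have : (2 * ε * cos (π / n)) ^ 2 = 4 * ε ^ 2 * cos (π / n) ^ 2 := by ring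
    rw [this, hε]; ring
  have hend : ∀ W : ℝ, W = 4 * cos (π / n) ^ 2 * ‖T‖ ^ 2 → ‖U‖ = ‖T‖ →
      ((p : ℝ) - 1) * (n - p - 1) = 0 →
      1 / 10 * (((n : ℝ) - 2) * ‖U‖ ^ 2 + (2 * p * (n - p) - n) * ‖T‖ ^ 2) ≤
      9 / 10 * (((n : ℝ) - 1) * W) +
      (((p : ℝ) - 1) * (n - p - 1)) * (‖T‖ ^ 2 - ‖U‖ ^ 2) ∧
      n * (‖T‖ ^ 2 + ‖U‖ ^ 2) ≤ 10 * (((n : ℝ) - 1) * W +
      (((p : ℝ) - 1) * (n - p - 1)) * (‖T‖ ^ 2 - ‖U‖ ^ 2)) := by
    intro W hW hU hA
    have hpn : 2 * (p : ℝ) * (n - p) - n = n - 2 := by nlinarith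
    rw [hpn, hW, hU, hA]
    have hT : 0 ≤ ‖T‖ ^ 2 := by positivity
    have hc2 : (99 / 100 : ℝ) ≤ cos (π / n) ^ 2 := by nlinarith
    have h3 : (99 / 100 : ℝ) * ‖T‖ ^ 2 ≤ cos (π / n) ^ 2 * ‖T‖ ^ 2 := by gcongr
    constructor <;> nlinarith
  by_cases hA : p = 1
  · have hU := hp1 hA
    refine hend _ (hext 1 (by norm_num) ?_ ?_ ?_) ?_ ?_
    · rw [hA]; push_cast; rw [one_mul, one_mul]
    · rw [hA]; push_cast; rw [one_mul, div_mul_cancel₀ _ hsin0.ne']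
    · rw [hU]; push_cast; ring
    · rw [hU, norm_mul, hI, one_mul]
    · rw [hA]; push_cast; ring
  · by_cases hB : p + 1 = n
    · have hU := hp2 hB
      have hpn : (p : ℝ) = n - 1 := by
        rw [← hB]; push_cast; ring
      have harg : (p : ℝ) * (π / n) = π - π / n := by
        rw [hpn]; field_simp
      refine hend _ (hext (-1) (by norm_num) ?_ ?_ ?_) ?_ ?_
      · rw [harg, Real.cos_pi_sub]; ring
      · rw [harg, Real.sin_pi_sub, div_mul_cancel₀ _ hsin0.ne']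
      · rw [hU]; push_cast; ring
      · rw [hU, norm_neg, norm_mul, hI, one_mul]
      · rw [hpn]; ring
    · obtain ⟨hs, hk⟩ := F2_key' (p := p) hn (by omega) (by omega)
      set s : ℝ := cos (π / n) / sin (π / n) * sin (p * (π / n)) with hsdef
      set W : ℂ := (cos (p * (π / n)) : ℂ) * T - Complex.I * (s : ℝ) * U with hWdef
      have hp2' : (2 : ℝ) ≤ p := by
        have : 2 ≤ p := by omega
        exact_mod_cast this
      have hp3' : (p : ℝ) + 2 ≤ n := by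
        have : p + 2 ≤ n := by omega
        exact_mod_cast this
      have hAA : (n : ℝ) - 3 ≤ ((p : ℝ) - 1) * (n - p - 1) := by nlinarith
      have hpoly : 2 * (p : ℝ) * (n - p) - n = 2 * (((p : ℝ) - 1) * (n - p - 1)) + n - 2 := by
        ring
      rw [hpoly]
      have hnorm : s ^ 2 * ‖U‖ ^ 2 ≤ 2 * ‖T‖ ^ 2 + 2 * ‖W‖ ^ 2 := by
        have e1 : Complex.I * (s : ℝ) * U = (cos (p * (π / n)) : ℂ) * T - W := by
          rw [hWdef]; ring
        have e2 : |s| * ‖U‖ ≤ ‖T‖ + ‖W‖ := by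
          have e3 : ‖Complex.I * (s : ℝ) * U‖ = |s| * ‖U‖ := by
            rw [norm_mul, norm_mul, hI, one_mul, Complex.norm_real, Real.norm_eq_abs]
          rw [← e3, e1]
          refine (norm_sub_le _ _).trans ?_
          gcongr
          rw [norm_mul]
          have e4 : ‖(cos (p * (π / n)) : ℂ)‖ ≤ 1 := by
            rw [Complex.norm_real, Real.norm_eq_abs]
            exact Real.abs_cos_le_one _
          calc ‖(cos (p * (π / n)) : ℂ)‖ * ‖T‖ ≤ 1 * ‖T‖ := by gcongr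
            _ = ‖T‖ := one_mul _
        have e5 : (|s| * ‖U‖) ^ 2 ≤ (‖T‖ + ‖W‖) ^ 2 := by
          have : 0 ≤ |s| * ‖U‖ := by positivity
          gcongr
        have e6 : (|s| * ‖U‖) ^ 2 = s ^ 2 * ‖U‖ ^ 2 := by rw [mul_pow, sq_abs]
        nlinarith [sq_nonneg (‖T‖ - ‖W‖)]
      exact F2_real hn' hAA hs hk (by positivity) (by positivity) hnorm

end Pool.Agent.Lib.MP_e1dd62_co.Big
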