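import Pool.Agent.Lib.MP_e1dd62_co.Big.F1
import Pool.Agent.Lib.MP_e1dd62_co.Big.F2

/-!
# The Fourier inequality
-/

namespace Pool.Agent.Lib.MP_e1dd62_co.Big

open Finset Real

variable {n : ℕ} [NeZero n]

private theorem mode (hn : 1000 ≤ n) {u t : ZMod n → ℝ} (h : Bal u t) (p : ZMod n) :
    1 / 10 * (((n : ℝ) - 2) * ‖hat u p‖ ^ 2 + (2 * p.val * (n - p.val) - n) * ‖hat t p‖ ^ 2) ≤
      9 / 10 * (((n : ℝ) - 1) * ‖(cos (p.val * (π / n)) : ℂ) * hat t p -
        Complex.I * (cos (π / n) / sin (π / n) * sin (p.val * (π / n)) : ℝ) * hat u p‖ ^ 2) +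
      (((p.val : ℝ) - 1) * (n - p.val - 1)) * (‖hat t p‖ ^ 2 - ‖hat u p‖ ^ 2) ∧
    n * (‖hat t p‖ ^ 2 + ‖hat u p‖ ^ 2) ≤
      10 * (((n : ℝ) - 1) * ‖(cos (p.val * (π / n)) : ℂ) * hat t p -
        Complex.I * (cos (π / n) / sin (π / n) * sin (p.val * (π / n)) : ℝ) * hat u p‖ ^ 2 +
      (((p.val : ℝ) - 1) * (n - p.val - 1)) * (‖hat t p‖ ^ 2 - ‖hat u p‖ ^ 2)) := by
  by_cases hp : p = 0
  · subst hp
    rw [hat_zero h.su, hat_zero h.st]
    simp
  have hv : 0 < p.val := Nat.pos_of_ne_zero (fun h' => hp ((ZMod.val_eq_zero p).1 h'))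
  have hvn : p.val < n := ZMod.val_lt p
  refine mode_ineq hn hv (by omega) (hat t p) (hat u p) ?_ ?_
  · intro h1
    have h2 : p = 1 := by
      rw [← ZMod.natCast_zmod_val p, h1, Nat.cast_one]
    rw [h2]
    exact (hat_cen h).1
  · intro h1
    have h2 : p = -1 := by
      have h3 : ((p.val + 1 : ℕ) : ZMod n) = 0 := by
        rw [h1, ZMod.natCast_self]
      rw [Nat.cast_add, ZMod.natCast_zmod_val, Nat.cast_one] at h3
      exact eq_neg_of_add_eq_zero_left h3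
    rw [h2]
    exact (hat_cen h).2

theorem fourier (hn : 1000 ≤ n) {u t : ZMod n → ℝ} (h : Bal u t) :
    QQ u t ≤ 9 / 10 * (PP u t + RR u t) ∧ n * NN u t ≤ 10 * (PP u t + RR u t) := by
  have hn0 : (0 : ℝ) < n := by
    have : (1000 : ℝ) ≤ n := by exact_mod_cast hn
    linarith
  have hPP := PP_le_hat h.su h.st
  have hPQ := PP_sub_QQ_hat h.su h.st
  have hRR := RR_hat u t
  have hNN := NN_hat u t
  have h1 := Finset.sum_le_sum (fun (p : ZMod n) (_ : p ∈ univ) => (mode hn h p).1)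
  have h2 := Finset.sum_le_sum (fun (p : ZMod n) (_ : p ∈ univ) => (mode hn h p).2)
  have h1' : 1 / 10 * (n * PP u t) ≤ 9 / 10 * (n * RR u t) + n * (PP u t - QQ u t) := by
    rw [hRR, hPQ, Finset.mul_sum, ← Finset.sum_add_distrib]
    refine le_trans ?_ h1
    rw [← Finset.mul_sum]
    exact mul_le_mul_of_nonneg_left hPP (by norm_num)
  have h2' : n * (n * NN u t) ≤ 10 * (n * RR u t + n * (PP u t - QQ u t)) := by
    rw [hRR, hPQ, hNN, ← Finset.sum_add_distrib, Finset.mul_sum, Finset.mul_sum]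
    refine le_trans (le_of_eq ?_) h2
    exact Finset.sum_congr rfl (fun p _ => by rw [add_comm (‖hat u p‖ ^ 2)])
  have hQ : 0 ≤ QQ u t := by
    unfold QQ
    exact Finset.sum_nonneg (fun l _ => Finset.sum_nonneg (fun a _ => sq_nonneg _))
  constructor
  · have h3 : (n : ℝ) * QQ u t ≤ n * (9 / 10 * (PP u t + RR u t)) := by
      nlinarith
    exact le_of_mul_le_mul_left h3 hn0
  · have h3 : (n : ℝ) * (n * NN u t) ≤ n * (10 * (PP u t + RR u t)) := by
      nlinarith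
    exact le_of_mul_le_mul_left h3 hn0

end Pool.Agent.Lib.MP_e1dd62_co.Big
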