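import Pool.Agent.Lib.MP_e1dd62_co.Big.E
import Pool.Agent.Lib.MP_e1dd62_co.Big.F

/-!
# The energy of a near-regular polygon
-/

namespace Pool.Agent.Lib.MP_e1dd62_co.Big

open Finset Real

variable {n : ℕ} [NeZero n]

/-- all relative chords have positive real part, and the long ones are near `1` -/
theorem B_window {δ : ℝ} {u t : ZMod n → ℝ} (h : Near δ u t) (hδ : δ ≤ 1 / 100) {r : ℕ}
    (hr : 0 < r) (hr1 : r * (π / n) ≤ 1 / 100)
    (hδ1 : δ * (1 + 1 / (r * (π / n))) ≤ 1 / 100) {ℓ : ℕ} (h0 : 0 < ℓ) (h1 : ℓ < n)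
    (a : ZMod n) :
    0 < X u t a ℓ ∧ (|X u t a ℓ - 1| ≤ 1 / 100 ∨
      |Y u t a ℓ| ≤ 2 * (r * (π / n) + δ) * X u t a ℓ) := by
  have hn : (0 : ℝ) < n := by exact_mod_cast (NeZero.pos n)
  have hx : 0 < π / n := by positivity
  have short : ∀ (ℓ : ℕ) (a : ZMod n), 0 < ℓ → ℓ ≤ r → 0 < X u t a ℓ ∧
      |Y u t a ℓ| ≤ 2 * (r * (π / n) + δ) * X u t a ℓ := by
    intro ℓ a h0 hl
    have hlr : (ℓ : ℝ) ≤ r := by exact_mod_cast hl
    have hle : (ℓ : ℝ) * (π / n) ≤ r * (π / n) := mul_le_mul_of_nonneg_right hlr hx.le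
    obtain ⟨h2, h3, -⟩ := short_window hδ h.hX h.hY h0 (hle.trans hr1) a
    refine ⟨h2, h3.trans ?_⟩
    refine mul_le_mul_of_nonneg_right ?_ h2.le
    linarith only [hle]
  rcases le_or_gt ℓ r with hl | hl
  · obtain ⟨h2, h3⟩ := short ℓ a h0 hl
    exact ⟨h2, Or.inr h3⟩
  rcases le_or_gt (ℓ + r) n with hl2 | hl2
  · have h2 := (long_window h.hu h.ht hr hl.le hl2 a).1.trans hδ1
    refine ⟨?_, Or.inl h2⟩
    have := (abs_le.1 h2).1
    linarith only [this]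
  · have h4 := short (n - ℓ) (a + (ℓ : ZMod n)) (by omega) (by omega)
    rw [X_symm h0 h1, Y_symm h0 h1] at h4
    exact ⟨h4.1, Or.inr h4.2⟩

theorem B_sum_sq_sub {r : ℕ} (hr : 0 < r) (f : ZMod n → ℝ) :
    ∑ a, (f a - sm r f a) ^ 2 ≤ (∑ m ∈ range r, ∑ a, (f (a + (m : ZMod n)) - f a) ^ 2) / r := by
  have hr' : (0 : ℝ) < r := by exact_mod_cast hr
  rw [sum_comm, sum_div]
  refine sum_le_sum fun a _ => ?_
  have h1 : f a - sm r f a = (∑ m ∈ range r, (f a - f (a + (m : ZMod n)))) / r := by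
    unfold sm
    rw [sum_sub_distrib, sum_const, card_range, nsmul_eq_mul]
    field_simp
  rw [h1, div_pow, div_le_div_iff₀ (by positivity) hr']
  have h2 := sq_sum_le_card_mul_sum_sq (s := range r) (f := fun m : ℕ => f a - f (a + (m : ZMod n)))
  rw [card_range] at h2
  have h3 : ∑ m ∈ range r, (f a - f (a + (m : ZMod n))) ^ 2 =
      ∑ m ∈ range r, (f (a + (m : ZMod n)) - f a) ^ 2 :=
    sum_congr rfl fun m _ => by ring
  rw [h3] at h2
  nlinarith only [h2]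

theorem poincare {δ : ℝ} {u t : ZMod n → ℝ} (h : Near δ u t) (hδ : δ ≤ 1 / 10 ^ 6) {r : ℕ}
    (hr : 0 < r) (hr1 : r * (π / n) ≤ 1 / 10 ^ 6)
    (hδ1 : δ * (1 + 2 / (r * (π / n))) ≤ 1 / 100) (hn : 1000 ≤ n) :
    n * NN u t ≤ 50 * (FF u t + n * K u t) := by
  have hn0 : (1000 : ℝ) ≤ n := by exact_mod_cast hn
  have hr' : (0 : ℝ) < r := by exact_mod_cast hr
  have hx : 0 < π / n := by positivity
  set ε : ℝ := r * (π / n) with hε
  have hε0 : 0 < ε := by positivity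
  have hδ0 : 0 ≤ δ := (abs_nonneg _).trans (h.hu 0)
  have hδ2 : δ * (1 + 1 / ε) ≤ 1 / 100 := by
    refine le_trans ?_ hδ1
    refine mul_le_mul_of_nonneg_left ?_ hδ0
    gcongr
    norm_num
  have hpos : ∀ ℓ ∈ Ico 1 n, ∀ a, 0 < X u t a ℓ := by
    intro ℓ hℓ a
    rw [mem_Ico] at hℓ
    exact (B_window h (hδ.trans (by norm_num)) hr (hr1.trans (by norm_num)) hδ2 (by omega)
      hℓ.2 a).1
  have hFF0 : 0 ≤ FF u t := sum_nonneg fun ℓ hℓ => sum_nonneg fun a _ => Phi_nonneg (hpos ℓ hℓ a)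
  have hK0 : 0 ≤ K u t := K_nonneg u t
  have hrn : r < n := by
    have h1 : (r : ℝ) * (π / n) ≤ 1 / 10 ^ 6 := hr1
    have h2 : (r : ℝ) < n := by
      rw [mul_div_assoc', div_le_iff₀ (by linarith only [hn0, hr1, hε0])] at h1
      nlinarith only [h1, hn0, hr1, hε0, pi_gt_three]
    exact_mod_cast h2
  -- the smoothed displacements
  have hb := h.toBal.sm hr
  obtain ⟨-, hF⟩ := fourier hn hb
  have hXs : ∀ ℓ ∈ Ico 1 n, ∀ a, |X (sm r u) (sm r t) a ℓ - 1| ≤ 1 / 100 := by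
    intro ℓ hℓ a
    rw [mem_Ico] at hℓ
    exact ((smooth_window h.hu h.ht hr (by omega) hℓ.2 a).1).trans hδ1
  have h1n : 1 ∈ Ico 1 n := mem_Ico.2 ⟨le_rfl, by omega⟩
  have hPP : PP (sm r u) (sm r t) ≤ 2.03 * FF u t := by
    have h1 : 99 / 200 * PP (sm r u) (sm r t) ≤ FF (sm r u) (sm r t) := by
      unfold PP FF
      rw [mul_sum]
      refine sum_le_sum fun ℓ hℓ => ?_
      rw [mul_sum]
      exact sum_le_sum fun a _ => Phi_ge_near (hXs ℓ hℓ a)
    have h2 := FF_sm hr hpos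
    linarith only [h1, h2, hFF0]
  have hYs : ∀ a, |Y (sm r u) (sm r t) a 1| ≤ 1 / 100 := by
    intro a
    exact ((smooth_window h.hu h.ht hr one_pos (by omega) a).2).trans hδ1
  have hRR : RR (sm r u) (sm r t) ≤ 2.05 * (n * K u t) := by
    have h1 := K_ge_near (hXs 1 h1n) hYs
    have h2 := K_sm hr u t
    unfold RR
    have h3 : ∑ a, Y (sm r u) (sm r t) a 1 ^ 2 ≤ 2.05 * K u t := by linarith only [h1, h2, hK0]
    have h4 : 0 ≤ ∑ a, Y (sm r u) (sm r t) a 1 ^ 2 := sum_nonneg fun _ _ => sq_nonneg _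
    calc ((n : ℝ) - 1) * ∑ a, Y (sm r u) (sm r t) a 1 ^ 2 ≤
        n * ∑ a, Y (sm r u) (sm r t) a 1 ^ 2 := by nlinarith only [h4]
      _ ≤ n * (2.05 * K u t) := by gcongr
      _ = _ := by ring
  -- the rough part
  have hU : ∑ a, (u a - sm r u a) ^ 2 ≤ ε ^ 2 * (9 * ∑ a, t a ^ 2 + 40 * K u t) := by
    refine (B_sum_sq_sub hr u).trans ?_
    rw [div_le_iff₀ hr']
    have : ∑ m ∈ range r, ∑ a, (u (a + (m : ZMod n)) - u a) ^ 2 ≤
        ∑ m ∈ range r, ε ^ 2 * (9 * ∑ a, t a ^ 2 + 40 * K u t) := by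
      refine sum_le_sum fun m hm => ?_
      rw [mem_range] at hm
      exact U_le h (hδ.trans (by norm_num)) hr (hr1.trans (by norm_num)) hδ2 hm.le
    refine this.trans (le_of_eq ?_)
    rw [sum_const, card_range, nsmul_eq_mul]
    ring
  have hT : n * ∑ a, (t a - sm r t a) ^ 2 ≤
      π * (40 * ε + 30 * δ) * FF u t + 10 * ε ^ 2 * (n * ∑ a, u a ^ 2) := by
    have h1 : ∑ m ∈ range r, ∑ a, (t (a + (m : ZMod n)) - t a) ^ 2 ≤
        (40 * ε ^ 2 + 30 * δ * ε) * FF u t + r * (10 * ε ^ 2 * ∑ a, u a ^ 2) := by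
      have h2 : ∀ m ∈ range r, ∑ a, (t (a + (m : ZMod n)) - t a) ^ 2 ≤
          (40 * ε ^ 2 + 30 * δ * ε) * (if m = 0 then 0 else ∑ a, Phi (X u t a m)) +
            10 * ε ^ 2 * ∑ a, u a ^ 2 := by
        intro m hm
        rw [mem_range] at hm
        rcases Nat.eq_zero_or_pos m with rfl | hm0
        · simp only [Nat.cast_zero, add_zero, sub_self, if_true, mul_zero, zero_add]
          have : 0 ≤ 10 * ε ^ 2 * ∑ a, u a ^ 2 := by
            have : 0 ≤ ∑ a, u a ^ 2 := sum_nonneg fun _ _ => sq_nonneg _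
            (clear * - hn hr; positivity)
          simpa using this
        · rw [if_neg (by omega)]
          refine T_le h (hδ.trans (by norm_num)) hm0 ?_ (hr1.trans (by norm_num))
          have : (m : ℝ) ≤ r := by exact_mod_cast hm.le
          exact mul_le_mul_of_nonneg_right this hx.le
      refine (sum_le_sum h2).trans ?_
      rw [sum_add_distrib, sum_const, card_range, nsmul_eq_mul, ← mul_sum]
      have h3 : ∑ m ∈ range r, (if m = 0 then 0 else ∑ a, Phi (X u t a m)) ≤ FF u t := by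
        have h4 : ∑ m ∈ range r, (if m = 0 then 0 else ∑ a, Phi (X u t a m)) =
            ∑ m ∈ Ico 1 r, ∑ a, Phi (X u t a m) := by
          obtain ⟨r', rfl⟩ : ∃ r', r = r' + 1 := ⟨r - 1, by omega⟩
          rw [sum_range_succ', sum_Ico_eq_sum_range]
          simp only [if_true, add_zero, Nat.add_sub_cancel]
          refine sum_congr rfl fun k _ => ?_
          rw [if_neg (by omega), add_comm 1 k]
        rw [h4]
        unfold FF
        refine sum_le_sum_of_subset_of_nonneg (Ico_subset_Ico_right hrn.le) fun ℓ hℓ _ => ?_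
        exact sum_nonneg fun a _ => Phi_nonneg (hpos ℓ hℓ a)
      have h5 : 0 ≤ 40 * ε ^ 2 + 30 * δ * ε := by (clear * - hn hr hδ0; positivity)
      nlinarith only [h3, h5, mul_le_mul_of_nonneg_left h3 h5]
    have h6 := B_sum_sq_sub hr t
    have h7 : (n : ℝ) * ∑ a, (t a - sm r t a) ^ 2 ≤
        n * (((40 * ε ^ 2 + 30 * δ * ε) * FF u t + r * (10 * ε ^ 2 * ∑ a, u a ^ 2)) / r) := by
      refine mul_le_mul_of_nonneg_left (h6.trans ?_) (by linarith only [hn0, hr1, hε0])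
      exact div_le_div_of_nonneg_right h1 hr'.le
    refine h7.trans (le_of_eq ?_)
    have h8 : (n : ℝ) * ε = r * π := by rw [hε]; field_simp
    have h9 : (n : ℝ) * (40 * ε ^ 2 + 30 * δ * ε) = r * (π * (40 * ε + 30 * δ)) := by
      calc (n : ℝ) * (40 * ε ^ 2 + 30 * δ * ε) = (n * ε) * (40 * ε + 30 * δ) := by ring
        _ = _ := by rw [h8]; ring
    field_simp
    linear_combination (FF u t) * h9
  -- assembly
  have hN1 : NN u t ≤ 2 * NN (sm r u) (sm r t) + 2 * ∑ a, (u a - sm r u a) ^ 2 +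
      2 * ∑ a, (t a - sm r t a) ^ 2 := by
    unfold NN
    rw [mul_sum, mul_sum, mul_sum, ← sum_add_distrib, ← sum_add_distrib]
    refine sum_le_sum fun a _ => ?_
    nlinarith only [sq_nonneg (u a - 2 * sm r u a), sq_nonneg (t a - 2 * sm r t a)]
  have hNu : ∑ a, u a ^ 2 ≤ NN u t := sum_le_sum fun a _ => by nlinarith only [sq_nonneg (t a)]
  have hNt : ∑ a, t a ^ 2 ≤ NN u t := sum_le_sum fun a _ => by nlinarith only [sq_nonneg (u a)]
  have hN0 : 0 ≤ NN u t := sum_nonneg fun a _ => by (clear * -; positivity)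
  have hNu0 : 0 ≤ ∑ a, u a ^ 2 := sum_nonneg fun _ _ => sq_nonneg _
  have hNt0 : 0 ≤ ∑ a, t a ^ 2 := sum_nonneg fun _ _ => sq_nonneg _
  have e1 : ε ^ 2 ≤ 1 / 10 ^ 6 := by nlinarith only [hr1, hε0]
  have e2 : π * (40 * ε + 30 * δ) ≤ 1 / 100 := by
    have : 40 * ε + 30 * δ ≤ 70 / 10 ^ 6 := by linarith only [hr1, hδ]
    nlinarith only [hr1, hδ, pi_lt_four, pi_pos]
  have k1 : (n : ℝ) * (ε ^ 2 * (9 * ∑ a, t a ^ 2 + 40 * K u t)) ≤
      1 / 10 ^ 6 * (9 * (n * NN u t) + 40 * (n * K u t)) := by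
    have : ε ^ 2 * (9 * ∑ a, t a ^ 2 + 40 * K u t) ≤
        1 / 10 ^ 6 * (9 * NN u t + 40 * K u t) := by
      refine mul_le_mul e1 (by linarith only [hNt]) (by linarith only [hK0, hNt0]) (by norm_num)
    calc (n : ℝ) * (ε ^ 2 * (9 * ∑ a, t a ^ 2 + 40 * K u t)) ≤
        n * (1 / 10 ^ 6 * (9 * NN u t + 40 * K u t)) := by gcongr
      _ = _ := by ring
  have k2 : 10 * ε ^ 2 * (n * ∑ a, u a ^ 2) ≤ 10 / 10 ^ 6 * (n * NN u t) := by
    have : (n : ℝ) * ∑ a, u a ^ 2 ≤ n * NN u t := by gcongr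
    refine mul_le_mul (by linarith only [e1]) this (by (clear * - hn; positivity)) (by norm_num)
  have k3 : π * (40 * ε + 30 * δ) * FF u t ≤ 1 / 100 * FF u t :=
    mul_le_mul_of_nonneg_right e2 hFF0
  have k4 : (n : ℝ) * ∑ a, (u a - sm r u a) ^ 2 ≤
      n * (ε ^ 2 * (9 * ∑ a, t a ^ 2 + 40 * K u t)) := by gcongr
  have k5 : (n : ℝ) * NN u t ≤ n * (2 * NN (sm r u) (sm r t) + 2 * ∑ a, (u a - sm r u a) ^ 2 +
      2 * ∑ a, (t a - sm r t a) ^ 2) := by gcongr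
  have k6 : 0 ≤ (n : ℝ) * K u t := by positivity
  have k7 : 0 ≤ (n : ℝ) * NN u t := by positivity
  linarith only [hF, hFF0, hPP, hRR, hT, k1, k2, k3, k4, k5, k6]

/-- one window -/
theorem B_log_le {X Y : ℝ} (hX : 0 < X) :
    log (X ^ 2 + Y ^ 2) / 2 ≤ (X - 1) - Phi X + Y ^ 2 / (2 * X ^ 2) := by
  have h1 : X ^ 2 + Y ^ 2 = X ^ 2 * (1 + Y ^ 2 / X ^ 2) := by field_simp
  have h2 : log (1 + Y ^ 2 / X ^ 2) ≤ Y ^ 2 / X ^ 2 := by
    have := Real.log_le_sub_one_of_pos (x := 1 + Y ^ 2 / X ^ 2) (by positivity)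
    linarith only [this]
  rw [h1, Real.log_mul (by positivity) (by positivity), Real.log_pow]
  unfold Phi
  have h3 : Y ^ 2 / (2 * X ^ 2) = Y ^ 2 / X ^ 2 / 2 := by field_simp
  rw [h3]
  push_cast
  linarith only [h2]

theorem stepB {δ : ℝ} {u t : ZMod n → ℝ} (h : Near δ u t) (hδ : δ ≤ 1 / 10 ^ 11) {r : ℕ}
    (hr : 0 < r) (hr1 : r * (π / n) ≤ 1 / 10 ^ 8)
    (hδ1 : δ * (1 + 2 / (r * (π / n))) ≤ 1 / 100) (hn : 1000 ≤ n) :
    SS u t + 1 / 1000 * (FF u t + n * K u t) ≤ n * (n - 1) * log (1 + K u t / n) := by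
  have hn0 : (1000 : ℝ) ≤ n := by exact_mod_cast hn
  have hr' : (0 : ℝ) < r := by exact_mod_cast hr
  have hx : 0 < π / n := by positivity
  set ε : ℝ := r * (π / n) with hε
  have hε0 : 0 < ε := by positivity
  have hδ0 : 0 ≤ δ := (abs_nonneg _).trans (h.hu 0)
  have hδ2 : δ * (1 + 1 / ε) ≤ 1 / 100 := by
    refine le_trans ?_ hδ1
    refine mul_le_mul_of_nonneg_left ?_ hδ0
    gcongr
    norm_num
  have hwin : ∀ ℓ ∈ Ico 1 n, ∀ a, 0 < X u t a ℓ ∧ (|X u t a ℓ - 1| ≤ 1 / 100 ∨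
      |Y u t a ℓ| ≤ 2 * (ε + δ) * X u t a ℓ) := by
    intro ℓ hℓ a
    rw [mem_Ico] at hℓ
    exact B_window h (hδ.trans (by norm_num)) hr (hr1.trans (by norm_num)) hδ2 (by omega)
      hℓ.2 a
  have hpos : ∀ ℓ ∈ Ico 1 n, ∀ a, 0 < X u t a ℓ := fun ℓ hℓ a => (hwin ℓ hℓ a).1
  have hFF0 : 0 ≤ FF u t := sum_nonneg fun ℓ hℓ => sum_nonneg fun a _ => Phi_nonneg (hpos ℓ hℓ a)
  have hK0 : 0 ≤ K u t := K_nonneg u t
  -- the windows one by one
  have hone : ∀ ℓ ∈ Ico 1 n, ∀ a, log (X u t a ℓ ^ 2 + Y u t a ℓ ^ 2) / 2 ≤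
      (X u t a ℓ - 1) - 99 / 100 * Phi (X u t a ℓ) +
        (if |X u t a ℓ - 1| ≤ 1 / 100 then 511 / 1000 * Y u t a ℓ ^ 2 else 0) := by
    intro ℓ hℓ a
    obtain ⟨h1, h2⟩ := hwin ℓ hℓ a
    have h3 := B_log_le (Y := Y u t a ℓ) h1
    have h4 := Phi_nonneg h1
    split_ifs with hg
    · have h5 : Y u t a ℓ ^ 2 / (2 * X u t a ℓ ^ 2) ≤ 511 / 1000 * Y u t a ℓ ^ 2 := by
        have h6 : 99 / 100 ≤ X u t a ℓ := by linarith only [hg, (abs_le.1 hg).1]
        rw [div_le_iff₀ (by positivity)]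
        have h7 : 1 ≤ 511 / 1000 * (2 * X u t a ℓ ^ 2) := by nlinarith only [h1, h6, hr1, hε0]
        nlinarith only [h7, sq_nonneg (Y u t a ℓ)]
      linarith only [h3, h4, h5]
    · have hg' := not_le.1 hg
      rcases h2 with h2 | h2
      · exact absurd h2 hg
      · have h5 := Phi_ge_far h1 hg'
        have h6 : Y u t a ℓ ^ 2 / (2 * X u t a ℓ ^ 2) ≤ 1 / 4000000 := by
          rw [div_le_iff₀ (by positivity)]
          have h7 : Y u t a ℓ ^ 2 ≤ (2 * (ε + δ) * X u t a ℓ) ^ 2 := by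
            rw [← sq_abs (Y u t a ℓ)]
            exact pow_le_pow_left₀ (abs_nonneg _) h2 2
          have h8 : (2 * (ε + δ)) ^ 2 ≤ 1 / 10 ^ 10 := by
            have h9 : 2 * (ε + δ) ≤ 1 / 10 ^ 5 := by linarith only [hr1, hδ, hε0]
            calc (2 * (ε + δ)) ^ 2 ≤ (1 / 10 ^ 5) ^ 2 := pow_le_pow_left₀ (by positivity) h9 2
              _ = 1 / 10 ^ 10 := by norm_num
          have h9 : 0 < X u t a ℓ ^ 2 := by positivity
          calc Y u t a ℓ ^ 2 ≤ (2 * (ε + δ)) ^ 2 * X u t a ℓ ^ 2 := by rw [← mul_pow]; exact h7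
            _ ≤ 1 / 10 ^ 10 * X u t a ℓ ^ 2 := by gcongr
            _ ≤ _ := by nlinarith only [h9]
        linarith only [h3, h5, h6]
  have hS1 : SS u t ≤ -(99 / 100) * FF u t + 511 / 1000 *
      ∑ ℓ ∈ Ico 1 n, ∑ a with |X u t a ℓ - 1| ≤ 1 / 100, Y u t a ℓ ^ 2 := by
    have h1 : SS u t ≤ ∑ ℓ ∈ Ico 1 n, ∑ a, ((X u t a ℓ - 1) - 99 / 100 * Phi (X u t a ℓ) +
        (if |X u t a ℓ - 1| ≤ 1 / 100 then 511 / 1000 * Y u t a ℓ ^ 2 else 0)) :=
      sum_le_sum fun ℓ hℓ => sum_le_sum fun a _ => hone ℓ hℓ a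
    refine h1.trans (le_of_eq ?_)
    unfold FF
    rw [mul_sum, mul_sum, ← sum_add_distrib]
    refine sum_congr rfl fun ℓ _ => ?_
    rw [sum_add_distrib, sum_sub_distrib, ← mul_sum, ← sum_filter, ← mul_sum,
      sum_sub_distrib, sum_X h.su]
    simp only [sum_const, card_univ, ZMod.card, nsmul_eq_mul, mul_one, sub_self, zero_sub]
    ring
  -- good windows against smoothed windows
  have hS2 : ∑ ℓ ∈ Ico 1 n, ∑ a with |X u t a ℓ - 1| ≤ 1 / 100, Y u t a ℓ ^ 2 ≤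
      101 / 100 * QQ (sm r u) (sm r t) + 101 * Err r u t := by
    unfold QQ Err
    rw [mul_sum, mul_sum, ← sum_add_distrib]
    refine sum_le_sum fun ℓ _ => ?_
    have h1 : ∑ a with |X u t a ℓ - 1| ≤ 1 / 100, Y (sm r u) (sm r t) a ℓ ^ 2 ≤
        ∑ a, Y (sm r u) (sm r t) a ℓ ^ 2 :=
      sum_le_sum_of_subset_of_nonneg (filter_subset _ _) fun _ _ _ => sq_nonneg _
    have h2 : ∑ a with |X u t a ℓ - 1| ≤ 1 / 100, Y u t a ℓ ^ 2 ≤
        101 / 100 * ∑ a with |X u t a ℓ - 1| ≤ 1 / 100, Y (sm r u) (sm r t) a ℓ ^ 2 +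
        101 * ∑ a with |X u t a ℓ - 1| ≤ 1 / 100,
          (Y u t a ℓ - Y (sm r u) (sm r t) a ℓ) ^ 2 := by
      rw [mul_sum, mul_sum, ← sum_add_distrib]
      refine sum_le_sum fun a _ => ?_
      nlinarith only [sq_nonneg (Y (sm r u) (sm r t) a ℓ -
        100 * (Y u t a ℓ - Y (sm r u) (sm r t) a ℓ))]
    linarith only [h1, h2]
  -- the smoothed inequality
  have hb := h.toBal.sm hr
  obtain ⟨hQ, -⟩ := fourier hn hb
  have hXs : ∀ ℓ ∈ Ico 1 n, ∀ a, |X (sm r u) (sm r t) a ℓ - 1| ≤ 1 / 100 := by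
    intro ℓ hℓ a
    rw [mem_Ico] at hℓ
    exact ((smooth_window h.hu h.ht hr (by omega) hℓ.2 a).1).trans hδ1
  have h1n : 1 ∈ Ico 1 n := mem_Ico.2 ⟨le_rfl, by omega⟩
  have hPP : 99 / 200 * PP (sm r u) (sm r t) ≤ FF u t := by
    have h1 : 99 / 200 * PP (sm r u) (sm r t) ≤ FF (sm r u) (sm r t) := by
      unfold PP FF
      rw [mul_sum]
      refine sum_le_sum fun ℓ hℓ => ?_
      rw [mul_sum]
      exact sum_le_sum fun a _ => Phi_ge_near (hXs ℓ hℓ a)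
    exact h1.trans (FF_sm hr hpos)
  have hYs : ∀ a, |Y (sm r u) (sm r t) a 1| ≤ 1 / 100 := fun a =>
    ((smooth_window h.hu h.ht hr one_pos (by omega) a).2).trans hδ1
  have hRR : 49 / 100 * RR (sm r u) (sm r t) ≤ (n - 1) * K u t := by
    have h1 := K_ge_near (hXs 1 h1n) hYs
    have h2 := K_sm hr u t
    unfold RR
    calc 49 / 100 * (((n : ℝ) - 1) * ∑ a, Y (sm r u) (sm r t) a 1 ^ 2) =
        ((n : ℝ) - 1) * (49 / 100 * ∑ a, Y (sm r u) (sm r t) a 1 ^ 2) := by ring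
      _ ≤ (n - 1) * K u t := by
        refine mul_le_mul_of_nonneg_left (h1.trans h2) (by linarith only [hn0, hr1, hε0])
  -- the error
  have hErr := Err_le h (hδ.trans (by norm_num)) hr (hr1.trans (by norm_num)) hδ2 hn
  have hpo := poincare h (hδ.trans (by norm_num)) hr (hr1.trans (by norm_num)) hδ1 hn
  have hnK : 0 ≤ (n : ℝ) * K u t := by positivity
  have e1 : 400 * (ε + δ) * FF u t ≤ 1 / 10 ^ 5 * FF u t := by
    refine mul_le_mul_of_nonneg_right ?_ hFF0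
    linarith only [hr1, hδ, hε0]
  have e2 : 200 * ε * (n * K u t) ≤ 1 / 10 ^ 5 * (n * K u t) := by
    refine mul_le_mul_of_nonneg_right ?_ hnK
    linarith only [hr1, hε0]
  have e3 : 100 * ε * (n * NN u t) ≤ 1 / 10 ^ 6 * (50 * (FF u t + n * K u t)) := by
    have hN0 : 0 ≤ NN u t := sum_nonneg fun a _ => by (clear * -; positivity)
    refine mul_le_mul (by linarith only [hr1]) hpo (by positivity) (by norm_num)
  -- the logarithm
  have hKle : K u t ≤ n * δ ^ 2 := K_le h.su h.hX h.hY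
  have hlog : (n - 1) * (99 / 100 * K u t) ≤ n * (n - 1) * log (1 + K u t / n) := by
    set s : ℝ := K u t / n with hs
    have hs0 : 0 ≤ s := by positivity
    have hs1 : s ≤ 1 / 100 := by
      rw [hs, div_le_iff₀ (by linarith only [hn0, hr1, hε0])]
      have : δ ^ 2 ≤ 1 / 100 := by nlinarith only [hr1, hδ, hδ0, hε0]
      nlinarith only [hKle, this]
    have h1 : 99 / 100 * s ≤ log (1 + s) := by
      have h2 := Real.one_sub_inv_le_log_of_pos (x := 1 + s) (by linarith only [hr1, hs0, hε0])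
      have h3 : 99 / 100 * s ≤ 1 - (1 + s)⁻¹ := by
        rw [le_sub_iff_add_le, ← le_sub_iff_add_le', inv_le_comm₀ (by linarith only [hr1, hs0, hε0]) (by nlinarith only [hr1, hs1, hε0])]
        rw [inv_le_iff_one_le_mul₀ (by nlinarith only [hr1, hs1, hε0])]
        nlinarith only [hr1, hs0, hs1, hε0]
      linarith only [h2, h3]
    have h4 : K u t = n * s := by rw [hs]; field_simp
    rw [h4]
    calc (n - 1 : ℝ) * (99 / 100 * (n * s)) = n * (n - 1) * (99 / 100 * s) := by ring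
      _ ≤ _ := by
        refine mul_le_mul_of_nonneg_left h1 ?_
        nlinarith only [hn0, hr1, hε0]
  have hQ0 : 0 ≤ PP (sm r u) (sm r t) := sum_nonneg fun _ _ => sum_nonneg fun _ _ => sq_nonneg _
  have hn1 : (n : ℝ) * K u t ≤ 1002 / 1000 * ((n - 1) * K u t) := by nlinarith only [hK0, hn0, hnK]
  nlinarith only [e1, e2, e3, hErr, hFF0, hPP, hQ, hRR, hS1, hS2, hlog, hn1, hnK]

/-- final form -/
theorem stepB_final (hn : 10 ^ 12 ≤ n) {u t : ZMod n → ℝ} (h : Near (1 / 10 ^ 11) u t) :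
    SS u t ≤ n * (n - 1) * log ((∑ a, √(X u t a 1 ^ 2 + Y u t a 1 ^ 2)) / n) ∧
      (SS u t = n * (n - 1) * log ((∑ a, √(X u t a 1 ^ 2 + Y u t a 1 ^ 2)) / n) →
        u = 0 ∧ t = 0) := by
  have hn0 : (10 ^ 12 : ℝ) ≤ n := by exact_mod_cast hn
  have hpi := pi_gt_three
  have hpi4 := pi_lt_four
  set r : ℕ := ⌊(n : ℝ) / π / 10 ^ 8⌋₊ with hrdef
  have hr1 : (r : ℝ) * (π / n) ≤ 1 / 10 ^ 8 := by
    have h1 : (r : ℝ) ≤ (n : ℝ) / π / 10 ^ 8 := Nat.floor_le (by positivity)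
    calc (r : ℝ) * (π / n) ≤ (n : ℝ) / π / 10 ^ 8 * (π / n) := by gcongr
      _ = 1 / 10 ^ 8 := by field_simp
  have hr2 : 1 / (2 * 10 ^ 8) ≤ (r : ℝ) * (π / n) := by
    have h1 : (n : ℝ) / π / 10 ^ 8 - 1 < r := Nat.sub_one_lt_floor _
    have h2 : ((n : ℝ) / π / 10 ^ 8 - 1) * (π / n) ≤ (r : ℝ) * (π / n) := by
      gcongr
    refine le_trans ?_ h2
    have h3 : ((n : ℝ) / π / 10 ^ 8 - 1) * (π / n) = 1 / 10 ^ 8 - π / n := by
      field_simp
    rw [h3]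
    have h4 : π / n ≤ 1 / (2 * 10 ^ 8) := by
      rw [div_le_div_iff₀ (by linarith only [hn0, hpi, hpi4]) (by norm_num)]
      linarith only [hn0, hpi, hpi4]
    linarith only [h4]
  have hr0 : 0 < r := by
    rcases Nat.eq_zero_or_pos r with h0 | h0
    · rw [h0] at hr2
      norm_num at hr2
    · exact h0
  have hδ1 : (1 / 10 ^ 11 : ℝ) * (1 + 2 / (r * (π / n))) ≤ 1 / 100 := by
    have h1 : 2 / ((r : ℝ) * (π / n)) ≤ 4 * 10 ^ 8 := by
      rw [div_le_iff₀ (by linarith only [hpi, hpi4, hr2])]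
      linarith only [hr2]
    linarith only [h1, hpi, hpi4]
  have hs := stepB h le_rfl hr0 hr1 hδ1 (by omega)
  have hpo := poincare h (by norm_num) hr0 (hr1.trans (by norm_num)) hδ1 (by omega)
  have hsum : (∑ a, √(X u t a 1 ^ 2 + Y u t a 1 ^ 2)) / n = 1 + K u t / n := by
    have h1 : ∑ a, √(X u t a 1 ^ 2 + Y u t a 1 ^ 2) = K u t + n := by
      unfold K
      rw [sum_sub_distrib, sum_X h.su]
      ring
    rw [h1]
    field_simp
    ring
  rw [hsum]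
  have hδ2 : (1 / 10 ^ 11 : ℝ) * (1 + 1 / (r * (π / n))) ≤ 1 / 100 := by
    refine le_trans ?_ hδ1
    gcongr
    norm_num
  have hFF0 : 0 ≤ FF u t := by
    refine sum_nonneg fun ℓ hℓ => sum_nonneg fun a _ => Phi_nonneg ?_
    rw [mem_Ico] at hℓ
    exact (B_window h (by norm_num) hr0 (hr1.trans (by norm_num)) hδ2 (by omega) hℓ.2 a).1
  have hK0 : 0 ≤ K u t := K_nonneg u t
  have hnK : 0 ≤ (n : ℝ) * K u t := by positivity
  refine ⟨by linarith only [hFF0, hnK, hs], fun he => ?_⟩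
  have h1 : (n : ℝ) * NN u t ≤ 0 := by linarith only [he, hpo, hs]
  have h2 : NN u t ≤ 0 := by
    by_contra hc
    have : 0 < (n : ℝ) * NN u t := mul_pos (by linarith only [hn0, hpi, hpi4]) (not_le.1 hc)
    linarith only [he, hpo, hs, this]
  have h3 : ∀ a, u a ^ 2 + t a ^ 2 = 0 := by
    intro a
    have h4 : NN u t = 0 := le_antisymm h2 (sum_nonneg fun a _ => by (clear * -; positivity))
    exact (sum_eq_zero_iff_of_nonneg fun a _ => by (clear * -; positivity)).1 h4 a (mem_univ a)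
  constructor
  · funext a
    have := h3 a
    have h5 : u a ^ 2 = 0 := by nlinarith only [this, sq_nonneg (u a), sq_nonneg (t a)]
    simpa using h5
  · funext a
    have := h3 a
    have h5 : t a ^ 2 = 0 := by nlinarith only [this, sq_nonneg (u a), sq_nonneg (t a)]
    simpa using h5

end Pool.Agent.Lib.MP_e1dd62_co.Big
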