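import Mathlib

/-!
# Near-regular polygons: relative displacements and windows

A polygon near the regular one is written `z_a = c ω^a (1 + u_a + i t_a)` with `a : ZMod n`; then
`z_{a+ℓ} - z_a = c (ω^{a+ℓ} - ω^a) (X a ℓ + i Y a ℓ)`.
-/

namespace Pool.Agent.Lib.MP_e1dd62_co.Big

open Finset Real

/-- `cot (ℓ π / n)` -/
noncomputable def ct (n ℓ : ℕ) : ℝ := cos (ℓ * (π / n)) / sin (ℓ * (π / n))

/-- The convex function `y - 1 - log y`. -/
noncomputable def Phi (y : ℝ) : ℝ := y - 1 - log y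

variable {n : ℕ} [NeZero n]

/-- Real part of the relative chord of the window of length `ℓ` starting at `a`. -/
noncomputable def X (u t : ZMod n → ℝ) (a : ZMod n) (ℓ : ℕ) : ℝ :=
  1 + (u a + u (a + (ℓ : ZMod n))) / 2 + ct n ℓ / 2 * (t (a + (ℓ : ZMod n)) - t a)

/-- Imaginary part of the relative chord of the window of length `ℓ` starting at `a`. -/
noncomputable def Y (u t : ZMod n → ℝ) (a : ZMod n) (ℓ : ℕ) : ℝ :=
  (t a + t (a + (ℓ : ZMod n))) / 2 - ct n ℓ / 2 * (u (a + (ℓ : ZMod n)) - u a)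

/-- Average over `r` consecutive shifts. -/
noncomputable def sm (r : ℕ) (f : ZMod n → ℝ) (a : ZMod n) : ℝ :=
  (∑ m ∈ range r, f (a + (m : ZMod n))) / r

/-- Excess of the relative perimeter. -/
noncomputable def K (u t : ZMod n → ℝ) : ℝ :=
  ∑ a, (√(X u t a 1 ^ 2 + Y u t a 1 ^ 2) - X u t a 1)

noncomputable def FF (u t : ZMod n → ℝ) : ℝ := ∑ ℓ ∈ Ico 1 n, ∑ a, Phi (X u t a ℓ)

noncomputable def SS (u t : ZMod n → ℝ) : ℝ :=
  ∑ ℓ ∈ Ico 1 n, ∑ a, log (X u t a ℓ ^ 2 + Y u t a ℓ ^ 2) / 2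

noncomputable def PP (u t : ZMod n → ℝ) : ℝ := ∑ ℓ ∈ Ico 1 n, ∑ a, (X u t a ℓ - 1) ^ 2

noncomputable def QQ (u t : ZMod n → ℝ) : ℝ := ∑ ℓ ∈ Ico 1 n, ∑ a, Y u t a ℓ ^ 2

noncomputable def RR (u t : ZMod n → ℝ) : ℝ := ((n : ℝ) - 1) * ∑ a, Y u t a 1 ^ 2

/-- sum of the squares of the displacements -/
noncomputable def NN (u t : ZMod n → ℝ) : ℝ := ∑ a, (u a ^ 2 + t a ^ 2)

/-- The normalisations: the mean of the displacement vanishes (scale and rotation) and the centroid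
is the origin. -/
structure Bal (u t : ZMod n → ℝ) : Prop where
  su : ∑ a, u a = 0
  st : ∑ a, t a = 0
  cen : ∑ a, ((u a : ℂ) + (t a : ℂ) * Complex.I) * ZMod.stdAddChar a = 0

/-- A polygon near the regular one. -/
structure Near (δ : ℝ) (u t : ZMod n → ℝ) : Prop extends Bal u t where
  hu : ∀ a, |u a| ≤ δ
  ht : ∀ a, |t a| ≤ δ
  hX : ∀ a, 0 < X u t a 1
  hY : ∀ a, |Y u t a 1| ≤ δ * X u t a 1

/-- The part of the high frequencies of `Y` in the windows with `|X - 1| ≤ 1/100`. -/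
noncomputable def Err (r : ℕ) (u t : ZMod n → ℝ) : ℝ :=
  ∑ ℓ ∈ Ico 1 n, ∑ a with |X u t a ℓ - 1| ≤ 1 / 100,
    (Y u t a ℓ - Y (sm r u) (sm r t) a ℓ) ^ 2

end Pool.Agent.Lib.MP_e1dd62_co.Big
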