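import Pool.Agent.Lib.MP_e1dd62_co.Big.TU

/-!
# The high frequencies
-/

namespace Pool.Agent.Lib.MP_e1dd62_co.Big

open Finset Real

variable {n : ℕ} [NeZero n]

set_option linter.unusedSectionVars false

namespace E

lemma n_pos : (0 : ℝ) < n := by exact_mod_cast Nat.pos_of_ne_zero (NeZero.ne n)

lemma jensen {r : ℕ} (hr : 0 < r) (f : ZMod n → ℝ) (a : ZMod n) :
    (f a - sm r f a) ^ 2 ≤ (∑ m ∈ range r, (f (a + (m : ZMod n)) - f a) ^ 2) / r := by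
  have hr' : (0 : ℝ) < r := by exact_mod_cast hr
  have e : f a - sm r f a = -((∑ m ∈ range r, (f (a + (m : ZMod n)) - f a)) / r) := by
    unfold sm
    rw [sum_sub_distrib, sum_const, card_range, nsmul_eq_mul]
    field_simp
    ring
  rw [e, neg_sq, div_pow, div_le_div_iff₀ (by positivity) hr']
  have h := sq_sum_le_card_mul_sum_sq (s := range r) (f := fun m : ℕ => f (a + (m : ZMod n)) - f a)
  rw [card_range] at h
  calc (∑ m ∈ range r, (f (a + (m : ZMod n)) - f a)) ^ 2 * r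
      ≤ (r * ∑ m ∈ range r, (f (a + (m : ZMod n)) - f a) ^ 2) * r := by gcongr
    _ = _ := by ring

lemma sum_shift (g : ZMod n → ℝ) (b : ZMod n) : ∑ a, g (a + b) = ∑ a, g a :=
  Equiv.sum_comp (Equiv.addRight b) g

lemma diffY (u t : ZMod n → ℝ) (ℓ m : ℕ) :
    ∑ a, (Y u t (a + (m : ZMod n)) ℓ - Y u t a ℓ) ^ 2 ≤
      2 * ∑ a, (t (a + (m : ZMod n)) - t a) ^ 2 +
      2 * ct n ℓ ^ 2 * ∑ a, (u (a + (m : ZMod n)) - u a) ^ 2 := by
  have h1 : ∑ a, (t (a + (ℓ : ZMod n) + (m : ZMod n)) - t (a + (ℓ : ZMod n))) ^ 2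
      = ∑ a, (t (a + (m : ZMod n)) - t a) ^ 2 :=
    sum_shift (fun a => (t (a + (m : ZMod n)) - t a) ^ 2) (ℓ : ZMod n)
  have h2 : ∑ a, (u (a + (ℓ : ZMod n) + (m : ZMod n)) - u (a + (ℓ : ZMod n))) ^ 2
      = ∑ a, (u (a + (m : ZMod n)) - u a) ^ 2 :=
    sum_shift (fun a => (u (a + (m : ZMod n)) - u a) ^ 2) (ℓ : ZMod n)
  calc ∑ a, (Y u t (a + (m : ZMod n)) ℓ - Y u t a ℓ) ^ 2
      ≤ ∑ a, (((t (a + (m : ZMod n)) - t a) ^ 2 +
          (t (a + (ℓ : ZMod n) + (m : ZMod n)) - t (a + (ℓ : ZMod n))) ^ 2) +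
          ct n ℓ ^ 2 * ((u (a + (m : ZMod n)) - u a) ^ 2 +
          (u (a + (ℓ : ZMod n) + (m : ZMod n)) - u (a + (ℓ : ZMod n))) ^ 2)) := by
        apply sum_le_sum
        intro a _
        unfold Y
        have e : a + (m : ZMod n) + (ℓ : ZMod n) = a + (ℓ : ZMod n) + (m : ZMod n) := by ring
        rw [e]
        generalize t (a + (m : ZMod n)) = t1
        generalize t (a + (ℓ : ZMod n) + (m : ZMod n)) = t2
        generalize t (a + (ℓ : ZMod n)) = t3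
        generalize t a = t4
        generalize u (a + (m : ZMod n)) = u1
        generalize u (a + (ℓ : ZMod n) + (m : ZMod n)) = u2
        generalize u (a + (ℓ : ZMod n)) = u3
        generalize u a = u4
        generalize ct n ℓ = c
        nlinarith only [sq_nonneg ((t1 - t4) - (t2 - t3)), sq_nonneg (c * ((u1 - u4) + (u2 - u3))),
          sq_nonneg (((t1 - t4) + (t2 - t3)) + c * ((u2 - u3) - (u1 - u4)))]
    _ = _ := by
        rw [sum_add_distrib, sum_add_distrib, ← mul_sum, sum_add_distrib, h1, h2]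
        ring

lemma cot_le {y : ℝ} (h0 : 0 < y) (h1 : y ≤ π / 2) : (cos y / sin y) ^ 2 ≤ 1 / y ^ 2 := by
  have hs : 0 < sin y := sin_pos_of_pos_of_lt_pi h0 (by linarith [pi_pos])
  have hc : 0 ≤ cos y := cos_nonneg_of_neg_pi_div_two_le_of_le (by linarith [pi_pos]) h1
  have key : y * cos y ≤ sin y := by
    rcases h1.lt_or_eq with h | h
    · have hc' : 0 < cos y := cos_pos_of_mem_Ioo ⟨by linarith [pi_pos], h⟩
      have := lt_tan h0 h
      rw [tan_eq_sin_div_cos, lt_div_iff₀ hc'] at this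
      exact this.le
    · rw [h, cos_pi_div_two, mul_zero, ← h]; exact hs.le
  rw [div_pow, div_le_div_iff₀ (by positivity) (by positivity)]
  have : (y * cos y) ^ 2 ≤ sin y ^ 2 := by
    apply pow_le_pow_left₀ (by positivity) key
  nlinarith only [this, this]

lemma cot_le' {y : ℝ} (h0 : 0 < y) (h1 : y < π) :
    (cos y / sin y) ^ 2 ≤ 1 / y ^ 2 + 1 / (π - y) ^ 2 := by
  rcases le_total y (π / 2) with h | h
  · have := cot_le h0 h
    have h2 : 0 ≤ 1 / (π - y) ^ 2 := by positivity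
    linarith
  · have := cot_le (y := π - y) (by linarith) (by linarith)
    rw [cos_pi_sub, sin_pi_sub, neg_div, neg_sq] at this
    have h2 : 0 ≤ 1 / y ^ 2 := by positivity
    linarith

lemma sum_inv_sq {r : ℕ} (hr : 0 < r) : ∀ k : ℕ,
    ∑ ℓ ∈ Ico r (r + k), 1 / (ℓ : ℝ) ^ 2 ≤ 2 / r - 2 / ((r : ℝ) + k) := by
  intro k
  induction k with
  | zero => simp
  | succ k ih =>
    rw [← add_assoc, sum_Ico_succ_top (by omega)]
    have hrk : (0 : ℝ) < (r : ℝ) + k := by positivity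
    have h1 : (1 : ℝ) ≤ (r : ℝ) + k := by
      have : (1 : ℝ) ≤ r := by exact_mod_cast hr
      have : (0 : ℝ) ≤ k := by positivity
      linarith
    have h2 : 1 / (((r + k : ℕ) : ℝ)) ^ 2 ≤ 2 / ((r : ℝ) + k) - 2 / ((r : ℝ) + (k + 1 : ℕ)) := by
      push_cast
      rw [div_sub_div _ _ (by positivity) (by positivity), div_le_div_iff₀ (by positivity) (by positivity)]
      nlinarith only [h1, mul_pos hrk hrk]
    linarith

lemma sum_ct {r : ℕ} (hr : 0 < r) (hrn : 2 * r ≤ n) :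
    ∑ ℓ ∈ Ico r (n - r + 1), ct n ℓ ^ 2 ≤ 4 / ((π / n) ^ 2 * r) := by
  have hn := n_pos (n := n)
  have hx : 0 < π / n := by positivity
  have hr' : (0 : ℝ) < r := by exact_mod_cast hr
  have hS : ∑ ℓ ∈ Ico r (n - r + 1), 1 / (ℓ : ℝ) ^ 2 ≤ (2 : ℝ) / (r : ℝ) := by
    have h := sum_inv_sq hr (n - r + 1 - r)
    rw [show r + (n - r + 1 - r) = n - r + 1 by omega] at h
    have h2 : 0 ≤ 2 / ((r : ℝ) + ((n - r + 1 - r : ℕ) : ℝ)) := by positivity
    linarith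
  have hrefl : ∑ ℓ ∈ Ico r (n - r + 1), 1 / (((n - ℓ : ℕ)) : ℝ) ^ 2
      = ∑ ℓ ∈ Ico r (n - r + 1), 1 / (ℓ : ℝ) ^ 2 := by
    apply sum_nbij' (fun ℓ => n - ℓ) (fun ℓ => n - ℓ)
    · intro ℓ hℓ; rw [mem_Ico] at hℓ ⊢; omega
    · intro ℓ hℓ; rw [mem_Ico] at hℓ ⊢; omega
    · intro ℓ hℓ; rw [mem_Ico] at hℓ; omega
    · intro ℓ hℓ; rw [mem_Ico] at hℓ; omega
    · intro ℓ _; rfl
  calc ∑ ℓ ∈ Ico r (n - r + 1), ct n ℓ ^ 2
      ≤ ∑ ℓ ∈ Ico r (n - r + 1),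
          (1 / (π / n) ^ 2 * (1 / (ℓ : ℝ) ^ 2) + 1 / (π / n) ^ 2 * (1 / (((n - ℓ : ℕ)) : ℝ) ^ 2)) := by
        apply sum_le_sum
        intro ℓ hℓ
        rw [mem_Ico] at hℓ
        have hl0 : (0 : ℝ) < ℓ := by exact_mod_cast (by omega : 0 < ℓ)
        have hl1 : (ℓ : ℝ) < n := by exact_mod_cast (by omega : ℓ < n)
        have h := cot_le' (y := ℓ * (π / n)) (by positivity) (by
          calc (ℓ : ℝ) * (π / n) < n * (π / n) := by gcongr
            _ = π := by field_simp)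
        unfold ct
        refine h.trans (le_of_eq ?_)
        have e : ((n - ℓ : ℕ) : ℝ) = (n : ℝ) - ℓ := by
          rw [Nat.cast_sub (by omega)]
        have e2 : π - ℓ * (π / n) = ((n : ℝ) - ℓ) * (π / n) := by field_simp
        have h3 : (n : ℝ) - ℓ ≠ 0 := by linarith only [hl1]
        rw [e, e2]
        field_simp
    _ = 1 / (π / n) ^ 2 * ∑ ℓ ∈ Ico r (n - r + 1), 1 / (ℓ : ℝ) ^ 2 +
          1 / (π / n) ^ 2 * ∑ ℓ ∈ Ico r (n - r + 1), 1 / (((n - ℓ : ℕ)) : ℝ) ^ 2 := by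
        rw [sum_add_distrib, mul_sum, mul_sum]
    _ = 2 * (1 / (π / n) ^ 2) * ∑ ℓ ∈ Ico r (n - r + 1), 1 / (ℓ : ℝ) ^ 2 := by
        rw [hrefl]; ring
    _ ≤ 2 * (1 / (π / n) ^ 2) * ((2 : ℝ) / (r : ℝ)) := by gcongr
    _ = _ := by field_simp; norm_num

lemma Phi_nonneg {y : ℝ} (h : 0 < y) : 0 ≤ Phi y := by
  unfold Phi
  have := log_le_sub_one_of_pos h
  linarith

lemma K_nonneg (u t : ZMod n → ℝ) : 0 ≤ K u t := by
  unfold K
  apply sum_nonneg
  intro a _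
  have : X u t a 1 ≤ √(X u t a 1 ^ 2 + Y u t a 1 ^ 2) := by
    apply Real.le_sqrt_of_sq_le
    nlinarith [sq_nonneg (Y u t a 1)]
  linarith

lemma X_pos {δ : ℝ} {u t : ZMod n → ℝ} (h : Near δ u t) (hδ : δ ≤ 1 / 100) {r : ℕ} (hr : 0 < r)
    (hr1 : r * (π / n) ≤ 1 / 1000) (hδ1 : δ * (1 + 1 / (r * (π / n))) ≤ 1 / 100)
    {ℓ : ℕ} (h0 : 0 < ℓ) (h1 : ℓ < n) (a : ZMod n) : 0 < X u t a ℓ := by
  have hn := n_pos (n := n)
  have hx : 0 < π / n := by positivity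
  by_cases hl : ℓ < r
  · refine (short_window hδ h.hX h.hY h0 ?_ a).1
    have : (ℓ : ℝ) ≤ r := by exact_mod_cast hl.le
    have h3 : (ℓ : ℝ) * (π / n) ≤ r * (π / n) := by gcongr
    linarith
  · by_cases hl2 : ℓ + r ≤ n
    · have := (long_window h.hu h.ht hr (not_lt.1 hl) hl2 a).1
      have h4 := (abs_le.1 this).1
      linarith only [h4, hδ1]
    · rw [← X_symm h0 h1 u t a]
      refine (short_window hδ h.hX h.hY (by omega) ?_ _).1
      have : ((n - ℓ : ℕ) : ℝ) ≤ r := by exact_mod_cast (by omega : n - ℓ ≤ r)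
      have h3 : ((n - ℓ : ℕ) : ℝ) * (π / n) ≤ r * (π / n) := by gcongr
      linarith

/-- one window length -/
noncomputable def Sl (r : ℕ) (u t : ZMod n → ℝ) (ℓ : ℕ) : ℝ :=
  ∑ a with |X u t a ℓ - 1| ≤ 1 / 100, (Y u t a ℓ - Y (sm r u) (sm r t) a ℓ) ^ 2

lemma Sl_symm {ℓ : ℕ} (h0 : 0 < ℓ) (h1 : ℓ < n) (r : ℕ) (u t : ZMod n → ℝ) :
    Sl r u t ℓ = Sl r u t (n - ℓ) := by
  unfold Sl
  rw [sum_filter, sum_filter]
  rw [← sum_shift (fun a => if |X u t a (n - ℓ) - 1| ≤ 1 / 100 then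
    (Y u t a (n - ℓ) - Y (sm r u) (sm r t) a (n - ℓ)) ^ 2 else 0) (ℓ : ZMod n)]
  apply sum_congr rfl
  intro a _
  rw [X_symm h0 h1, Y_symm h0 h1, Y_symm h0 h1]

lemma Sl_long {r : ℕ} (hr : 0 < r) (u t : ZMod n → ℝ) (ℓ : ℕ) :
    Sl r u t ℓ ≤ (∑ m ∈ range r, (2 * ∑ a, (t (a + (m : ZMod n)) - t a) ^ 2 +
      2 * ct n ℓ ^ 2 * ∑ a, (u (a + (m : ZMod n)) - u a) ^ 2)) / r := by
  have hr' : (0 : ℝ) < r := by exact_mod_cast hr
  calc Sl r u t ℓ ≤ ∑ a, (Y u t a ℓ - Y (sm r u) (sm r t) a ℓ) ^ 2 := by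
        unfold Sl
        apply sum_le_sum_of_subset_of_nonneg (filter_subset _ _)
        intro a _ _; positivity
    _ ≤ ∑ a, (∑ m ∈ range r, (Y u t (a + (m : ZMod n)) ℓ - Y u t a ℓ) ^ 2) / r := by
        apply sum_le_sum
        intro a _
        rw [Y_sm hr]
        exact jensen hr (fun b => Y u t b ℓ) a
    _ = (∑ m ∈ range r, ∑ a, (Y u t (a + (m : ZMod n)) ℓ - Y u t a ℓ) ^ 2) / r := by
        rw [← sum_div, sum_comm]
    _ ≤ _ := by
        gcongr with m _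
        exact diffY u t ℓ m

lemma Sl_short {δ : ℝ} {u t : ZMod n → ℝ} (h : Near δ u t) (hδ : δ ≤ 1 / 100) {r : ℕ} (hr : 0 < r)
    (hr1 : r * (π / n) ≤ 1 / 1000) (hδ1 : δ * (1 + 1 / (r * (π / n))) ≤ 1 / 100)
    {ℓ : ℕ} (h0 : 0 < ℓ) (h1 : ℓ ≤ r) :
    Sl r u t ℓ ≤ 4 * (6 * ∑ a, t a ^ 2 + 10 * K u t) := by
  have hn := n_pos (n := n)
  have hx : 0 < π / n := by positivity
  have hlx : (ℓ : ℝ) * (π / n) ≤ 1 / 100 := by
    have : (ℓ : ℝ) ≤ r := by exact_mod_cast h1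
    have h3 : (ℓ : ℝ) * (π / n) ≤ r * (π / n) := by gcongr
    linarith only [h3, hr1]
  have a1 := Y_short_le h hδ h0 hlx
  have a2 := Y_sm_short_le h hδ hr (by linarith only [hr1]) hδ1 h0 h1
  calc Sl r u t ℓ ≤ ∑ a with |X u t a ℓ - 1| ≤ 1 / 100,
          (2 * Y u t a ℓ ^ 2 + 2 * Y (sm r u) (sm r t) a ℓ ^ 2) := by
        unfold Sl
        apply sum_le_sum
        intro a _
        nlinarith only [sq_nonneg (Y u t a ℓ + Y (sm r u) (sm r t) a ℓ)]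
    _ = 2 * ∑ a with |X u t a ℓ - 1| ≤ 1 / 100, Y u t a ℓ ^ 2 +
          2 * ∑ a with |X u t a ℓ - 1| ≤ 1 / 100, Y (sm r u) (sm r t) a ℓ ^ 2 := by
        rw [sum_add_distrib, mul_sum, mul_sum]
    _ ≤ 2 * ∑ a with |X u t a ℓ - 1| ≤ 1 / 100, Y u t a ℓ ^ 2 +
          2 * ∑ a, Y (sm r u) (sm r t) a ℓ ^ 2 := by
        have : ∑ a with |X u t a ℓ - 1| ≤ 1 / 100, Y (sm r u) (sm r t) a ℓ ^ 2 ≤
            ∑ a, Y (sm r u) (sm r t) a ℓ ^ 2 :=
          sum_le_sum_of_subset_of_nonneg (filter_subset _ _) fun a _ _ => sq_nonneg _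
        linarith
    _ ≤ _ := by linarith

end E

open E in
theorem Err_le {δ : ℝ} {u t : ZMod n → ℝ} (h : Near δ u t) (hδ : δ ≤ 1 / 100) {r : ℕ} (hr : 0 < r)
    (hr1 : r * (π / n) ≤ 1 / 1000) (hδ1 : δ * (1 + 1 / (r * (π / n))) ≤ 1 / 100)
    (hn : 1000 ≤ n) :
    Err r u t ≤ 400 * (r * (π / n) + δ) * FF u t + 200 * (r * (π / n)) * (n * K u t) +
      100 * (r * (π / n)) * (n * NN u t) := by
  have hnp := n_pos (n := n)
  have hr' : (0 : ℝ) < r := by exact_mod_cast hr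
  have hpi := pi_pos
  have hpi3 := pi_gt_d2
  have hpi4 := pi_lt_d2
  have hx : 0 < π / n := by positivity
  have hδ0 : 0 ≤ δ := (abs_nonneg _).trans (h.hu 0)
  -- 2 r ≤ n
  have hrn : 2 * r ≤ n := by
    have h1 : (r : ℝ) * π ≤ n * (1 / 1000) := by
      have := mul_le_mul_of_nonneg_right hr1 hnp.le
      calc (r : ℝ) * π = r * (π / n) * n := by field_simp
        _ ≤ _ := by linarith only [this]
    have h2 : (2 * r : ℝ) ≤ n := by nlinarith only [h1, hpi3, hr']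
    exact_mod_cast h2
  set ε : ℝ := r * (π / n) with hε
  have hε0 : 0 < ε := by positivity
  have hεn : ε * n = r * π := by rw [hε]; field_simp
  set T : ℕ → ℝ := fun m => ∑ a, (t (a + (m : ZMod n)) - t a) ^ 2 with hT
  set U : ℕ → ℝ := fun m => ∑ a, (u (a + (m : ZMod n)) - u a) ^ 2 with hU
  set st : ℝ := ∑ a, t a ^ 2 with hst
  set su : ℝ := ∑ a, u a ^ 2 with hsu
  have hst0 : 0 ≤ st := sum_nonneg fun a _ => sq_nonneg _
  have hsu0 : 0 ≤ su := sum_nonneg fun a _ => sq_nonneg _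
  have hK0 := K_nonneg u t
  have hT0 : ∀ m, 0 ≤ T m := fun m => sum_nonneg fun a _ => sq_nonneg _
  have hU0 : ∀ m, 0 ≤ U m := fun m => sum_nonneg fun a _ => sq_nonneg _
  have hPhi : ∀ ℓ ∈ Ico 1 n, 0 ≤ ∑ a, Phi (X u t a ℓ) := by
    intro ℓ hℓ
    rw [mem_Ico] at hℓ
    exact sum_nonneg fun a _ => Phi_nonneg (X_pos h hδ hr hr1 hδ1 (by omega) hℓ.2 a)
  have hFF : ∑ ℓ ∈ Ico 1 r, ∑ a, Phi (X u t a ℓ) ≤ FF u t := by
    unfold FF
    apply sum_le_sum_of_subset_of_nonneg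
    · intro ℓ hℓ; rw [mem_Ico] at hℓ ⊢; omega
    · intro ℓ hℓ _; exact hPhi ℓ hℓ
  -- sum of T
  have hTsum : ∑ m ∈ range r, T m ≤ (40 * ε ^ 2 + 30 * δ * ε) * FF u t + r * (10 * ε ^ 2 * su) := by
    have e0 : ∑ m ∈ range r, T m = ∑ m ∈ Ico 1 r, T m := by
      rw [range_eq_Ico, sum_eq_sum_Ico_succ_bot hr]
      simp [hT]
    rw [e0]
    calc ∑ m ∈ Ico 1 r, T m
        ≤ ∑ m ∈ Ico 1 r, ((40 * ε ^ 2 + 30 * δ * ε) * ∑ a, Phi (X u t a m) + 10 * ε ^ 2 * su) := by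
          apply sum_le_sum
          intro m hm
          rw [mem_Ico] at hm
          refine T_le h hδ (by omega) ?_ (by linarith)
          have : (m : ℝ) ≤ r := by exact_mod_cast hm.2.le
          rw [hε]; gcongr
      _ = (40 * ε ^ 2 + 30 * δ * ε) * ∑ m ∈ Ico 1 r, ∑ a, Phi (X u t a m)
            + ((r - 1 : ℕ) : ℝ) * (10 * ε ^ 2 * su) := by
          rw [sum_add_distrib, ← mul_sum, sum_const, Nat.card_Ico, nsmul_eq_mul]
      _ ≤ _ := by
          have h1 : ((r - 1 : ℕ) : ℝ) ≤ r := by exact_mod_cast Nat.sub_le _ _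
          gcongr
  have hUsum : ∑ m ∈ range r, U m ≤ r * (ε ^ 2 * (9 * st + 40 * K u t)) := by
    calc ∑ m ∈ range r, U m ≤ ∑ m ∈ range r, (ε ^ 2 * (9 * st + 40 * K u t)) := by
          apply sum_le_sum
          intro m hm
          rw [mem_range] at hm
          exact U_le h hδ hr (by linarith) hδ1 hm.le
      _ = _ := by rw [sum_const, card_range, nsmul_eq_mul]
  have hct := sum_ct (n := n) hr hrn
  -- long windows
  have hlong : ∑ ℓ ∈ Ico r (n - r + 1), Sl r u t ℓ ≤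
      (2 * n * ((40 * ε ^ 2 + 30 * δ * ε) * FF u t + r * (10 * ε ^ 2 * su)) +
        2 * (4 / ((π / n) ^ 2 * r)) * (r * (ε ^ 2 * (9 * st + 40 * K u t)))) / r := by
    calc ∑ ℓ ∈ Ico r (n - r + 1), Sl r u t ℓ
        ≤ ∑ ℓ ∈ Ico r (n - r + 1), (∑ m ∈ range r, (2 * T m + 2 * ct n ℓ ^ 2 * U m)) / (r : ℝ) := by
          apply sum_le_sum
          intro ℓ _
          exact Sl_long hr u t ℓ
      _ = (((n - r + 1 - r : ℕ) : ℝ) * (2 * ∑ m ∈ range r, T m) +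
            2 * (∑ ℓ ∈ Ico r (n - r + 1), ct n ℓ ^ 2) * ∑ m ∈ range r, U m) / (r : ℝ) := by
          rw [← sum_div]
          congr 1
          have : ∀ ℓ ∈ Ico r (n - r + 1), ∑ m ∈ range r, (2 * T m + 2 * ct n ℓ ^ 2 * U m)
              = 2 * ∑ m ∈ range r, T m + ct n ℓ ^ 2 * (2 * ∑ m ∈ range r, U m) := by
            intro ℓ _
            rw [sum_add_distrib, ← mul_sum, ← mul_sum]; ring
          rw [sum_congr rfl this, sum_add_distrib, sum_const, Nat.card_Ico, nsmul_eq_mul, ← sum_mul]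
          ring
      _ ≤ _ := by
          have h1 : ((n - r + 1 - r : ℕ) : ℝ) ≤ n := by exact_mod_cast (by omega : n - r + 1 - r ≤ n)
          have h2 : 0 ≤ ∑ m ∈ range r, T m := sum_nonneg fun m _ => hT0 m
          have h3 : 0 ≤ ∑ m ∈ range r, U m := sum_nonneg fun m _ => hU0 m
          have h4 : 0 ≤ ∑ ℓ ∈ Ico r (n - r + 1), ct n ℓ ^ 2 := sum_nonneg fun ℓ _ => sq_nonneg _
          have h5 : ((n - r + 1 - r : ℕ) : ℝ) * (2 * ∑ m ∈ range r, T m) ≤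
              2 * n * ((40 * ε ^ 2 + 30 * δ * ε) * FF u t + r * (10 * ε ^ 2 * su)) := by
            calc ((n - r + 1 - r : ℕ) : ℝ) * (2 * ∑ m ∈ range r, T m)
                ≤ n * (2 * ∑ m ∈ range r, T m) := by gcongr
              _ ≤ n * (2 * ((40 * ε ^ 2 + 30 * δ * ε) * FF u t + r * (10 * ε ^ 2 * su))) := by
                  gcongr
              _ = _ := by ring
          have h6 : 2 * (∑ ℓ ∈ Ico r (n - r + 1), ct n ℓ ^ 2) * ∑ m ∈ range r, U m ≤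
              2 * (4 / ((π / n) ^ 2 * r)) * (r * (ε ^ 2 * (9 * st + 40 * K u t))) := by
            gcongr
          exact div_le_div_of_nonneg_right (add_le_add h5 h6) hr'.le
  -- short windows
  set M : ℝ := 4 * (6 * st + 10 * K u t) with hM
  have hM0 : 0 ≤ M := by positivity
  have hs1 : ∑ ℓ ∈ Ico 1 r, Sl r u t ℓ ≤ r * M := by
    calc ∑ ℓ ∈ Ico 1 r, Sl r u t ℓ ≤ ∑ ℓ ∈ Ico 1 r, M := by
          apply sum_le_sum
          intro ℓ hℓ
          rw [mem_Ico] at hℓ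
          exact Sl_short h hδ hr hr1 hδ1 (by omega) hℓ.2.le
      _ = ((r - 1 : ℕ) : ℝ) * M := by rw [sum_const, Nat.card_Ico, nsmul_eq_mul]
      _ ≤ r * M := by
          have h1 : ((r - 1 : ℕ) : ℝ) ≤ r := by exact_mod_cast Nat.sub_le _ _
          gcongr
  have hs2 : ∑ ℓ ∈ Ico (n - r + 1) n, Sl r u t ℓ ≤ r * M := by
    calc ∑ ℓ ∈ Ico (n - r + 1) n, Sl r u t ℓ ≤ ∑ ℓ ∈ Ico (n - r + 1) n, M := by
          apply sum_le_sum
          intro ℓ hℓ
          rw [mem_Ico] at hℓ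
          rw [Sl_symm (by omega) hℓ.2]
          exact Sl_short h hδ hr hr1 hδ1 (by omega) (by omega)
      _ = ((n - (n - r + 1) : ℕ) : ℝ) * M := by rw [sum_const, Nat.card_Ico, nsmul_eq_mul]
      _ ≤ r * M := by
          have h1 : ((n - (n - r + 1) : ℕ) : ℝ) ≤ r := by
            exact_mod_cast (by omega : n - (n - r + 1) ≤ r)
          gcongr
  have hsplit : Err r u t = ∑ ℓ ∈ Ico 1 r, Sl r u t ℓ + ∑ ℓ ∈ Ico r (n - r + 1), Sl r u t ℓ +
      ∑ ℓ ∈ Ico (n - r + 1) n, Sl r u t ℓ := by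
    rw [sum_Ico_consecutive _ (by omega) (by omega), sum_Ico_consecutive _ (by omega) (by omega)]
    rfl
  have hNN : NN u t = su + st := by
    unfold NN; rw [sum_add_distrib]
  rw [hsplit, hNN]
  -- numerics
  have hr_eq : (r : ℝ) = ε * n / π := by rw [hεn]; field_simp
  have hrle : (r : ℝ) ≤ ε * n * (1 / 3) := by
    rw [hr_eq, div_le_iff₀ hpi]
    have : 0 < ε * n := by positivity
    nlinarith only [hpi3, this]
  have hFF0 : 0 ≤ FF u t := by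
    unfold FF; exact sum_nonneg fun ℓ hℓ => hPhi ℓ hℓ
  have e1 : (2 * n * ((40 * ε ^ 2 + 30 * δ * ε) * FF u t + r * (10 * ε ^ 2 * su)) +
        2 * (4 / ((π / n) ^ 2 * r)) * (r * (ε ^ 2 * (9 * st + 40 * K u t)))) / r =
      2 * π * (40 * ε + 30 * δ) * FF u t + 20 * n * ε ^ 2 * su +
        8 * r * (9 * st + 40 * K u t) := by
    have e2 : (n : ℝ) * ε / r = π := by rw [mul_comm, hεn]; field_simp
    have e3 : ε ^ 2 / ((π / n) ^ 2 * r) = r := by rw [hε]; field_simp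
    have e4 : (2 * n * ((40 * ε ^ 2 + 30 * δ * ε) * FF u t + r * (10 * ε ^ 2 * su)) +
        2 * (4 / ((π / n) ^ 2 * r)) * (r * (ε ^ 2 * (9 * st + 40 * K u t)))) / r =
        2 * ((n : ℝ) * ε / r) * (40 * ε + 30 * δ) * FF u t + 20 * n * ε ^ 2 * su +
        8 * (ε ^ 2 / ((π / n) ^ 2 * r)) * (9 * st + 40 * K u t) := by
      field_simp
      ring
    rw [e4, e2, e3]
  rw [e1] at hlong
  have g1 : 2 * π * (40 * ε + 30 * δ) * FF u t ≤ 400 * (ε + δ) * FF u t := by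
    apply mul_le_mul_of_nonneg_right _ hFF0
    nlinarith only [hpi4, hδ0, hε0]
  have g2 : 20 * n * ε ^ 2 * su ≤ 100 * ε * (n * su) := by
    have : ε * (n * su) * ε ≤ ε * (n * su) * 1 := by
      apply mul_le_mul_of_nonneg_left _ (by positivity)
      linarith
    nlinarith only [hnp, hsu0, hε0, this, this, mul_nonneg hε0.le (mul_nonneg hnp.le hsu0)]
  have g3 : 8 * r * (9 * st + 40 * K u t) + 2 * (r * M) ≤
      100 * ε * (n * st) + 200 * ε * (n * K u t) := by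
    rw [hM]
    have i1 : (r : ℝ) * st ≤ ε * n * (1 / 3) * st := by gcongr
    have i2 : (r : ℝ) * K u t ≤ ε * n * (1 / 3) * K u t := by gcongr
    nlinarith only [hK0, hnp, hst0, hε0, i1, i2, mul_nonneg (mul_nonneg hε0.le hnp.le) hst0, mul_nonneg (mul_nonneg hε0.le hnp.le) hK0]
  linarith only [g1, g2, g3, hlong, hs1, hs2]

end Pool.Agent.Lib.MP_e1dd62_co.Big
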