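import Pool.Agent.Lib.MP_e1dd62_co.Big.W1

/-!
# Fourier coefficients of the displacements
-/

namespace Pool.Agent.Lib.MP_e1dd62_co.Big

open Finset Real

variable {n : ℕ} [NeZero n]

/-- Fourier coefficients -/
noncomputable def hat (f : ZMod n → ℝ) (p : ZMod n) : ℂ :=
  ∑ a, (f a : ℂ) * ZMod.stdAddChar (-(a * p))

theorem hat_zero {f : ZMod n → ℝ} (h : ∑ a, f a = 0) : hat f 0 = 0 := by
  unfold hat
  have h1 : ∀ a : ZMod n, (f a : ℂ) * ZMod.stdAddChar (-(a * 0)) = ((f a : ℝ) : ℂ) := by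
    intro a
    rw [mul_zero, neg_zero, AddChar.map_zero_eq_one, mul_one]
  rw [Finset.sum_congr rfl (fun a _ => h1 a), ← Complex.ofReal_sum, h, Complex.ofReal_zero]

private theorem conj_e (a : ZMod n) :
    (starRingEnd ℂ) (ZMod.stdAddChar a : ℂ) = ZMod.stdAddChar (-a) := by
  rw [AddChar.map_neg_eq_conj]

theorem hat_cen {u t : ZMod n → ℝ} (h : Bal u t) :
    hat u 1 = Complex.I * hat t 1 ∧ hat u (-1) = -(Complex.I * hat t (-1)) := by
  have hc := h.cen
  have hc' := congrArg (starRingEnd ℂ) hc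
  rw [map_sum, map_zero] at hc'
  constructor
  · have h1 : ∀ a : ZMod n, (starRingEnd ℂ)
        (((u a : ℂ) + (t a : ℂ) * Complex.I) * ZMod.stdAddChar a)
        = (u a : ℂ) * ZMod.stdAddChar (-(a * 1)) -
          Complex.I * ((t a : ℂ) * ZMod.stdAddChar (-(a * 1))) := by
      intro a
      rw [map_mul, map_add, map_mul, Complex.conj_ofReal, Complex.conj_ofReal, Complex.conj_I,
        conj_e, mul_one]
      ring
    rw [Finset.sum_congr rfl (fun a _ => h1 a), Finset.sum_sub_distrib, ← Finset.mul_sum] at hc'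
    exact sub_eq_zero.1 hc'
  · have h1 : ∀ a : ZMod n, ((u a : ℂ) + (t a : ℂ) * Complex.I) * ZMod.stdAddChar a
        = (u a : ℂ) * ZMod.stdAddChar (-(a * (-1))) +
          Complex.I * ((t a : ℂ) * ZMod.stdAddChar (-(a * (-1)))) := by
      intro a
      rw [mul_neg, mul_one, neg_neg]
      ring
    rw [Finset.sum_congr rfl (fun a _ => h1 a), Finset.sum_add_distrib, ← Finset.mul_sum] at hc
    exact eq_neg_of_add_eq_zero_left hc

private theorem char_sum (c : ZMod n) :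
    ∑ p : ZMod n, (ZMod.stdAddChar (p * c) : ℂ) = if c = 0 then (n : ℂ) else 0 := by
  have := AddChar.sum_mulShift (R := ZMod n) (R' := ℂ) c (ZMod.isPrimitive_stdAddChar n)
  rw [this]
  simp [ZMod.card]

private theorem parseval (f : ZMod n → ℝ) :
    (n : ℝ) * ∑ a, f a ^ 2 = ∑ p, ‖hat f p‖ ^ 2 := by
  have h0 : ∀ p : ZMod n, ((‖hat f p‖ ^ 2 : ℝ) : ℂ)
      = ∑ a : ZMod n, ∑ b : ZMod n, ((f a * f b : ℝ) : ℂ) * ZMod.stdAddChar (p * (b - a)) := by
    intro p
    have h1 : ((‖hat f p‖ ^ 2 : ℝ) : ℂ) = hat f p * (starRingEnd ℂ) (hat f p) := by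
      rw [Complex.mul_conj, Complex.normSq_eq_norm_sq]
    rw [h1]
    unfold hat
    rw [map_sum, Finset.sum_mul_sum]
    refine Finset.sum_congr rfl (fun a _ => Finset.sum_congr rfl (fun b _ => ?_))
    rw [map_mul, Complex.conj_ofReal, conj_e, neg_neg]
    have h2 : (ZMod.stdAddChar (p * (b - a)) : ℂ)
        = ZMod.stdAddChar (-(a * p)) * ZMod.stdAddChar (b * p) := by
      rw [← AddChar.map_add_eq_mul]
      congr 1
      ring
    rw [h2]
    push_cast
    ring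
  have h3 : ((∑ p, ‖hat f p‖ ^ 2 : ℝ) : ℂ) = (((n : ℝ) * ∑ a, f a ^ 2 : ℝ) : ℂ) := by
    rw [Complex.ofReal_sum, Finset.sum_congr rfl (fun p _ => h0 p), Finset.sum_comm]
    have h4 : ∀ a : ZMod n, ∑ p : ZMod n, ∑ b : ZMod n,
        ((f a * f b : ℝ) : ℂ) * ZMod.stdAddChar (p * (b - a)) = (n : ℂ) * ((f a ^ 2 : ℝ) : ℂ) := by
      intro a
      rw [Finset.sum_comm]
      have h5 : ∀ b : ZMod n, ∑ p : ZMod n,
          ((f a * f b : ℝ) : ℂ) * (ZMod.stdAddChar (p * (b - a)) : ℂ)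
          = if b = a then (n : ℂ) * ((f a ^ 2 : ℝ) : ℂ) else 0 := by
        intro b
        rw [← Finset.mul_sum, char_sum]
        by_cases hb : b = a
        · subst hb
          simp
          ring
        · rw [if_neg (sub_ne_zero.2 hb), if_neg hb, mul_zero]
      rw [Finset.sum_congr rfl (fun b _ => h5 b)]
      simp
    rw [Finset.sum_congr rfl (fun a _ => h4 a), ← Finset.mul_sum]
    push_cast
    rfl
  exact (Complex.ofReal_injective h3).symm

theorem NN_hat (u t : ZMod n → ℝ) : (n : ℝ) * NN u t = ∑ p, (‖hat u p‖ ^ 2 + ‖hat t p‖ ^ 2) := by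
  unfold NN
  rw [Finset.sum_add_distrib, Finset.sum_add_distrib, mul_add, parseval, parseval]

private theorem e_eq (l : ℕ) (p : ZMod n) :
    (ZMod.stdAddChar ((l : ZMod n) * p) : ℂ)
      = Complex.exp (((2 * (p.val * (l * (π / n))) : ℝ) : ℂ) * Complex.I) := by
  have h1 : ((l : ZMod n) * p) = (((l * p.val : ℕ) : ℤ) : ZMod n) := by
    push_cast
    rw [ZMod.natCast_zmod_val]
  rw [h1, ZMod.stdAddChar_coe]
  congr 1
  push_cast
  ring

private theorem hat_shift (f : ZMod n → ℝ) (l : ℕ) (p : ZMod n) :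
    ∑ a, (f (a + (l : ZMod n)) : ℂ) * ZMod.stdAddChar (-(a * p))
      = ZMod.stdAddChar ((l : ZMod n) * p) * hat f p := by
  unfold hat
  rw [Finset.mul_sum]
  refine Fintype.sum_equiv (Equiv.addRight (l : ZMod n)) _ _ (fun a => ?_)
  rw [Equiv.coe_addRight]
  have h1 : (ZMod.stdAddChar (-(a * p)) : ℂ) = ZMod.stdAddChar ((l : ZMod n) * p) *
      ZMod.stdAddChar (-((a + (l : ZMod n)) * p)) := by
    rw [← AddChar.map_add_eq_mul]
    congr 1
    ring
  rw [h1]
  ring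

private theorem hat_window (f g : ZMod n → ℝ) (κ : ℝ) (l : ℕ) (p : ZMod n) :
    hat (fun a => (f a + f (a + (l : ZMod n))) / 2 + κ / 2 * (g (a + (l : ZMod n)) - g a)) p
      = Complex.exp (((p.val * (l * (π / n)) : ℝ) : ℂ) * Complex.I) *
        ((cos (p.val * (l * (π / n))) : ℝ) * hat f p +
          Complex.I * ((κ * sin (p.val * (l * (π / n))) : ℝ) : ℂ) * hat g p) := by
  set θ : ℝ := p.val * (l * (π / n)) with hθ
  have h1 : hat (fun a => (f a + f (a + (l : ZMod n))) / 2 +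
        κ / 2 * (g (a + (l : ZMod n)) - g a)) p
      = (hat f p + ∑ a, (f (a + (l : ZMod n)) : ℂ) * ZMod.stdAddChar (-(a * p))) / 2 +
        (κ : ℂ) / 2 * ((∑ a, (g (a + (l : ZMod n)) : ℂ) * ZMod.stdAddChar (-(a * p))) -
          hat g p) := by
    unfold hat
    rw [← Finset.sum_add_distrib, ← Finset.sum_sub_distrib, Finset.sum_div, Finset.mul_sum,
      ← Finset.sum_add_distrib]
    refine Finset.sum_congr rfl (fun a _ => ?_)
    push_cast
    ring
  rw [h1, hat_shift, hat_shift, e_eq]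
  have h2 : Complex.exp (((2 * θ : ℝ) : ℂ) * Complex.I)
      = Complex.exp ((θ : ℂ) * Complex.I) * Complex.exp ((θ : ℂ) * Complex.I) := by
    rw [← Complex.exp_add]
    congr 1
    push_cast
    ring
  have h3 : Complex.exp ((θ : ℂ) * Complex.I) = (cos θ : ℂ) + (sin θ : ℂ) * Complex.I := by
    rw [Complex.exp_mul_I, Complex.ofReal_cos, Complex.ofReal_sin]
  have h4 : ((cos θ : ℝ) : ℂ) ^ 2 + ((sin θ : ℝ) : ℂ) ^ 2 = 1 := by
    rw [← Complex.ofReal_pow, ← Complex.ofReal_pow, ← Complex.ofReal_add, Real.cos_sq_add_sin_sq,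
      Complex.ofReal_one]
  have hI : Complex.I ^ 2 = -1 := Complex.I_sq
  rw [h2, h3]
  set c : ℂ := ((cos θ : ℝ) : ℂ) with hc
  set s : ℂ := ((sin θ : ℝ) : ℂ) with hs
  have h5 : (1 : ℂ) + (c + s * Complex.I) * (c + s * Complex.I)
      = 2 * (c + s * Complex.I) * c := by
    linear_combination (-1 : ℂ) * h4 + s ^ 2 * hI
  have h6 : (c + s * Complex.I) * (c + s * Complex.I) - 1
      = 2 * (c + s * Complex.I) * (s * Complex.I) := by
    linear_combination (1 : ℂ) * h4 - s ^ 2 * hI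
  rw [Complex.ofReal_mul, ← hs]
  linear_combination (hat f p / 2) * h5 + ((κ : ℂ) / 2 * hat g p) * h6

private theorem window_parseval (f g : ZMod n → ℝ) (κ : ℝ) (l : ℕ) :
    (n : ℝ) * ∑ a, ((f a + f (a + (l : ZMod n))) / 2 +
        κ / 2 * (g (a + (l : ZMod n)) - g a)) ^ 2
      = ∑ p : ZMod n, ‖((cos (p.val * (l * (π / n))) : ℝ) : ℂ) * hat f p +
          Complex.I * ((κ * sin (p.val * (l * (π / n))) : ℝ) : ℂ) * hat g p‖ ^ 2 := by
  rw [parseval (fun a => (f a + f (a + (l : ZMod n))) / 2 +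
        κ / 2 * (g (a + (l : ZMod n)) - g a))]
  refine Finset.sum_congr rfl (fun p _ => ?_)
  rw [hat_window, norm_mul, Complex.norm_exp_ofReal_mul_I, one_mul]

theorem RR_hat (u t : ZMod n → ℝ) : (n : ℝ) * RR u t = ∑ p : ZMod n, ((n : ℝ) - 1) *
    ‖(cos (p.val * (π / n)) : ℂ) * hat t p -
      Complex.I * (cos (π / n) / sin (π / n) * sin (p.val * (π / n)) : ℝ) * hat u p‖ ^ 2 := by
  unfold RR
  have h1 : ∀ a : ZMod n, Y u t a 1 = (t a + t (a + ((1 : ℕ) : ZMod n))) / 2 +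
      (-ct n 1) / 2 * (u (a + ((1 : ℕ) : ZMod n)) - u a) := by
    intro a
    unfold Y
    ring
  rw [Finset.sum_congr rfl (fun a _ => by rw [h1 a]), ← Finset.mul_sum, mul_left_comm,
    window_parseval t u (-ct n 1) 1]
  congr 1
  refine Finset.sum_congr rfl (fun p _ => ?_)
  congr 2
  unfold ct
  rw [Nat.cast_one, one_mul]
  push_cast
  ring

private theorem tele (y : ℝ) (N : ℕ) (hN : 1 ≤ N) :
    ∑ l ∈ Ico 1 N, 2 * sin y * cos (2 * (l * y)) = sin ((2 * N - 1) * y) - sin y := by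
  induction N, hN using Nat.le_induction with
  | base =>
    rw [Finset.Ico_self, Finset.sum_empty]
    norm_num
  | succ N hN ih =>
    rw [Finset.sum_Ico_succ_top hN, ih]
    have h1 : sin ((2 * ((N + 1 : ℕ) : ℝ) - 1) * y)
        = sin (2 * (N * y) + y) := by
      congr 1
      push_cast
      ring
    have h2 : sin ((2 * (N : ℝ) - 1) * y) = sin (2 * (N * y) - y) := by
      congr 1
      ring
    rw [h1, h2, sin_add, sin_sub]
    ring

omit [NeZero n] in
private theorem sin_ne {m : ℕ} (h0 : 0 < m) (h1 : m < n) : sin (m * (π / n)) ≠ 0 := by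
  have hn : (0 : ℝ) < n := by exact_mod_cast (lt_trans h0 h1)
  have hm : (0 : ℝ) < m := by exact_mod_cast h0
  have hmn : (m : ℝ) < n := by exact_mod_cast h1
  apply ne_of_gt
  apply sin_pos_of_pos_of_lt_pi
  · positivity
  · rw [mul_div_assoc', div_lt_iff₀ hn]
    nlinarith [pi_pos]

private theorem cos_sum {m : ℕ} (h0 : 0 < m) (h1 : m < n) :
    ∑ l ∈ Ico 1 n, cos (2 * (m * (l * (π / n)))) = -1 := by
  have hn : (n : ℝ) ≠ 0 := by exact_mod_cast (lt_trans h0 h1).ne'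
  have h2 := tele (m * (π / n)) n (by omega)
  have h3 : sin ((2 * (n : ℝ) - 1) * (m * (π / n))) = - sin (m * (π / n)) := by
    have h4 : (2 * (n : ℝ) - 1) * (m * (π / n)) = m * (2 * π) - m * (π / n) := by
      field_simp
    rw [h4]
    have := sin_nat_mul_two_pi_sub (m * (π / n)) m
    exact this
  rw [h3, ← Finset.mul_sum] at h2
  have h5 := sin_ne h0 h1
  have h6 : ∀ l : ℕ, (2 : ℝ) * (l * (m * (π / n))) = 2 * (m * (l * (π / n))) := fun l => by ring
  rw [Finset.sum_congr rfl (fun l _ => by rw [h6 l])] at h2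
  have h7 : 2 * sin (m * (π / n)) * ∑ l ∈ Ico 1 n, cos (2 * (m * (l * (π / n))))
      = 2 * sin (m * (π / n)) * (-1) := by
    rw [h2]
    ring
  exact mul_left_cancel₀ (mul_ne_zero two_ne_zero h5) h7

/-- `∑ sin² (p ℓ x) / sin² (ℓ x) = p (n - p)` -/
theorem fejer_sum {p : ℕ} (hp : p ≤ n) :
    ∑ ℓ ∈ Ico 1 n, sin (p * (ℓ * (π / n))) ^ 2 / sin (ℓ * (π / n)) ^ 2 = p * (n - p) := by
  have hn : 0 < n := Nat.pos_of_ne_zero (NeZero.ne n)
  have key : ∀ q : ℕ, q + 1 ≤ n →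
      (∑ l ∈ Ico 1 n, sin (q * (l * (π / n))) ^ 2 / sin (l * (π / n)) ^ 2 = q * (n - q)) ∧
      (∑ l ∈ Ico 1 n, sin ((q + 1 : ℕ) * (l * (π / n))) ^ 2 / sin (l * (π / n)) ^ 2
        = (q + 1 : ℕ) * (n - (q + 1 : ℕ))) := by
    intro q
    induction q with
    | zero =>
      intro _
      constructor
      · simp
      · have h1 : ∀ l ∈ Ico 1 n,
            sin (((0 + 1 : ℕ) : ℝ) * (l * (π / n))) ^ 2 / sin (l * (π / n)) ^ 2 = 1 := by
          intro l hl
          rw [Finset.mem_Ico] at hl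
          have := sin_ne (n := n) (by omega : 0 < l) hl.2
          rw [zero_add, Nat.cast_one, one_mul, div_self (pow_ne_zero 2 this)]
        rw [Finset.sum_congr rfl h1]
        simp only [Finset.sum_const, Nat.card_Ico, nsmul_eq_mul, mul_one]
        push_cast [Nat.cast_sub (show 1 ≤ n by omega)]
        ring
    | succ q ih =>
      intro hq
      obtain ⟨ih1, ih2⟩ := ih (by omega)
      refine ⟨ih2, ?_⟩
      have h1 : ∀ l ∈ Ico 1 n,
          sin (((q + 1 + 1 : ℕ) : ℝ) * (l * (π / n))) ^ 2 / sin (l * (π / n)) ^ 2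
          = 2 * (sin (((q + 1 : ℕ) : ℝ) * (l * (π / n))) ^ 2 / sin (l * (π / n)) ^ 2)
            - sin ((q : ℝ) * (l * (π / n))) ^ 2 / sin (l * (π / n)) ^ 2
            + 2 * cos (2 * (((q + 1 : ℕ) : ℝ) * (l * (π / n)))) := by
        intro l hl
        rw [Finset.mem_Ico] at hl
        have h2 := sin_ne (n := n) (by omega : 0 < l) hl.2
        set y : ℝ := l * (π / n) with hy
        set z : ℝ := ((q + 1 : ℕ) : ℝ) * y with hz
        have h3 : ((q + 1 + 1 : ℕ) : ℝ) * y = z + y := by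
          rw [hz]
          push_cast
          ring
        have h4 : (q : ℝ) * y = z - y := by
          rw [hz]
          push_cast
          ring
        rw [h3, h4, sin_add, sin_sub, cos_two_mul]
        have h5 : cos z ^ 2 = 1 - sin z ^ 2 := cos_sq' z
        have h6 : cos y ^ 2 = 1 - sin y ^ 2 := cos_sq' y
        field_simp
        linear_combination (2 * sin y ^ 2 - 4 * sin y ^ 2) * h5 + (2 * sin z ^ 2) * h6
      rw [Finset.sum_congr rfl h1, Finset.sum_add_distrib, Finset.sum_sub_distrib,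
        ← Finset.mul_sum, ← Finset.mul_sum, ih1, ih2, cos_sum (by omega) (by omega)]
      push_cast
      ring
  rcases Nat.eq_zero_or_pos p with h | h
  · subst h
    simp
  · obtain ⟨q, rfl⟩ := Nat.exists_eq_add_of_lt h
    have := (key q (by omega)).2
    rw [zero_add]
    exact this

private theorem norm_sq_add (c s : ℝ) (U T : ℂ) :
    ‖(c : ℂ) * U + Complex.I * (s : ℂ) * T‖ ^ 2 - ‖(c : ℂ) * T + Complex.I * ((-s : ℝ) : ℂ) * U‖ ^ 2
      = (c ^ 2 - s ^ 2) * (‖U‖ ^ 2 - ‖T‖ ^ 2) := by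
  rw [← Complex.normSq_eq_norm_sq, ← Complex.normSq_eq_norm_sq, ← Complex.normSq_eq_norm_sq,
    ← Complex.normSq_eq_norm_sq]
  simp only [Complex.normSq_apply, Complex.add_re, Complex.add_im, Complex.mul_re, Complex.mul_im,
    Complex.ofReal_re, Complex.ofReal_im, Complex.I_re, Complex.I_im, Complex.ofReal_neg,
    Complex.neg_re, Complex.neg_im]
  ring

private theorem norm_sq_le (c s : ℝ) (U T : ℂ) :
    ‖(c : ℂ) * U + Complex.I * (s : ℂ) * T‖ ^ 2 ≤ 2 * c ^ 2 * ‖U‖ ^ 2 + 2 * s ^ 2 * ‖T‖ ^ 2 := by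
  rw [← Complex.normSq_eq_norm_sq, ← Complex.normSq_eq_norm_sq, ← Complex.normSq_eq_norm_sq]
  simp only [Complex.normSq_apply, Complex.add_re, Complex.add_im, Complex.mul_re, Complex.mul_im,
    Complex.ofReal_re, Complex.ofReal_im, Complex.I_re, Complex.I_im]
  nlinarith [sq_nonneg (c * U.re + s * T.im), sq_nonneg (c * U.im - s * T.re)]

private theorem PP_hat (u t : ZMod n → ℝ) : (n : ℝ) * PP u t = ∑ l ∈ Ico 1 n, ∑ p : ZMod n,
    ‖((cos (p.val * (l * (π / n))) : ℝ) : ℂ) * hat u p +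
      Complex.I * ((ct n l * sin (p.val * (l * (π / n))) : ℝ) : ℂ) * hat t p‖ ^ 2 := by
  unfold PP
  rw [Finset.mul_sum]
  refine Finset.sum_congr rfl (fun l _ => ?_)
  rw [← window_parseval u t (ct n l) l]
  congr 1
  refine Finset.sum_congr rfl (fun a _ => ?_)
  unfold X
  ring

private theorem QQ_hat (u t : ZMod n → ℝ) : (n : ℝ) * QQ u t = ∑ l ∈ Ico 1 n, ∑ p : ZMod n,
    ‖((cos (p.val * (l * (π / n))) : ℝ) : ℂ) * hat t p +
      Complex.I * ((-(ct n l * sin (p.val * (l * (π / n)))) : ℝ) : ℂ) * hat u p‖ ^ 2 := by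
  unfold QQ
  rw [Finset.mul_sum]
  refine Finset.sum_congr rfl (fun l _ => ?_)
  have h1 := window_parseval t u (-ct n l) l
  calc (n : ℝ) * ∑ a, Y u t a l ^ 2
      = (n : ℝ) * ∑ a, ((t a + t (a + (l : ZMod n))) / 2 +
        (-ct n l) / 2 * (u (a + (l : ZMod n)) - u a)) ^ 2 := by
        congr 1
        refine Finset.sum_congr rfl (fun a _ => ?_)
        unfold Y
        ring
    _ = _ := h1
    _ = _ := by
        refine Finset.sum_congr rfl (fun p _ => ?_)
        rw [neg_mul]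

private theorem ct_sin {l : ℕ} (hl : l ∈ Ico 1 n) (z : ℝ) :
    (ct n l * sin z) ^ 2 = sin z ^ 2 / sin (l * (π / n)) ^ 2 - sin z ^ 2 := by
  rw [Finset.mem_Ico] at hl
  have h2 := sin_ne (n := n) (by omega : 0 < l) hl.2
  unfold ct
  have h6 : cos (l * (π / n)) ^ 2 = 1 - sin (l * (π / n)) ^ 2 := cos_sq' _
  set y : ℝ := l * (π / n) with hy
  rw [mul_pow, div_pow, h6]
  field_simp

private theorem sum_one : ∑ _l ∈ Ico 1 n, (1 : ℝ) = n - 1 := by
  have hn : 0 < n := Nat.pos_of_ne_zero (NeZero.ne n)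
  simp only [Finset.sum_const, Nat.card_Ico, nsmul_eq_mul, mul_one]
  push_cast [Nat.cast_sub (show 1 ≤ n by omega)]
  ring

theorem PP_sub_QQ_hat {u t : ZMod n → ℝ} (hu : ∑ a, u a = 0) (ht : ∑ a, t a = 0) :
    (n : ℝ) * (PP u t - QQ u t) = ∑ p : ZMod n,
      (((p.val : ℝ) - 1) * (n - p.val - 1)) * (‖hat t p‖ ^ 2 - ‖hat u p‖ ^ 2) := by
  rw [mul_sub, PP_hat, QQ_hat, ← Finset.sum_sub_distrib]
  have h1 : ∀ l ∈ Ico 1 n, ((∑ p : ZMod n,
      ‖((cos (p.val * (l * (π / n))) : ℝ) : ℂ) * hat u p +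
        Complex.I * ((ct n l * sin (p.val * (l * (π / n))) : ℝ) : ℂ) * hat t p‖ ^ 2) -
      ∑ p : ZMod n, ‖((cos (p.val * (l * (π / n))) : ℝ) : ℂ) * hat t p +
        Complex.I * ((-(ct n l * sin (p.val * (l * (π / n)))) : ℝ) : ℂ) * hat u p‖ ^ 2)
      = ∑ p : ZMod n, (1 - sin (p.val * (l * (π / n))) ^ 2 / sin (l * (π / n)) ^ 2) *
        (‖hat u p‖ ^ 2 - ‖hat t p‖ ^ 2) := by
    intro l hl
    rw [← Finset.sum_sub_distrib]
    refine Finset.sum_congr rfl (fun p _ => ?_)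
    rw [norm_sq_add, ct_sin hl, cos_sq']
    ring
  rw [Finset.sum_congr rfl h1, Finset.sum_comm]
  refine Finset.sum_congr rfl (fun p _ => ?_)
  rw [← Finset.sum_mul, Finset.sum_sub_distrib, sum_one, fejer_sum (ZMod.val_lt p).le]
  ring

theorem PP_le_hat {u t : ZMod n → ℝ} (hu : ∑ a, u a = 0) (ht : ∑ a, t a = 0) :
    (n : ℝ) * PP u t ≤ ∑ p : ZMod n, (((n : ℝ) - 2) * ‖hat u p‖ ^ 2 +
      (2 * p.val * (n - p.val) - n) * ‖hat t p‖ ^ 2) := by
  rw [PP_hat, Finset.sum_comm]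
  apply Finset.sum_le_sum
  intro p _
  by_cases hp : p = 0
  · subst hp
    rw [hat_zero hu, hat_zero ht]
    simp
  have hv : 0 < p.val := Nat.pos_of_ne_zero (fun h => hp ((ZMod.val_eq_zero p).1 h))
  have hvn : p.val < n := ZMod.val_lt p
  have h1 : ∀ l ∈ Ico 1 n, ‖((cos (p.val * (l * (π / n))) : ℝ) : ℂ) * hat u p +
        Complex.I * ((ct n l * sin (p.val * (l * (π / n))) : ℝ) : ℂ) * hat t p‖ ^ 2
      ≤ (1 + cos (2 * (p.val * (l * (π / n))))) * ‖hat u p‖ ^ 2 +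
        (2 * (sin (p.val * (l * (π / n))) ^ 2 / sin (l * (π / n)) ^ 2) - 1 +
          cos (2 * (p.val * (l * (π / n))))) * ‖hat t p‖ ^ 2 := by
    intro l hl
    refine le_trans (norm_sq_le _ _ _ _) (le_of_eq ?_)
    rw [ct_sin hl, cos_two_mul, sin_sq (p.val * (l * (π / n)))]
    ring
  refine le_trans (Finset.sum_le_sum h1) (le_of_eq ?_)
  rw [Finset.sum_add_distrib, ← Finset.sum_mul, ← Finset.sum_mul, Finset.sum_add_distrib,
    Finset.sum_add_distrib, Finset.sum_sub_distrib, sum_one, ← Finset.mul_sum,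
    fejer_sum hvn.le, cos_sum hv hvn]
  ring

end Pool.Agent.Lib.MP_e1dd62_co.Big
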