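import Mathlib

/-!
# Angles of windows
-/

namespace Pool.Agent.Lib.MP_e1dd62_co.Big

open Finset Real

/-- half of the angle of the window `(a, ℓ)` -/
noncomputable def bet (γ : ℕ → ℝ) (a ℓ : ℕ) : ℝ := (∑ i ∈ range ℓ, γ (a + i)) / 2

end Pool.Agent.Lib.MP_e1dd62_co.Big
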