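import Pool.Agent.Lib.MP_e1dd62_co.Unimodal

/-!
# The edges of a convex polygon near the unit circle
-/

namespace Pool.Agent.Lib.MP_e1dd62_co.Big

open Finset Real

private lemma g1_polar {h : ℝ} (hh : 0 < h) (s : ℝ) :
    ((h : ℂ) + s * Complex.I) = ((h / cos (arctan (s / h)) : ℝ) : ℂ) *
      Complex.exp ((arctan (s / h) : ℝ) * Complex.I) := by
  have hc : cos (arctan (s / h)) ≠ 0 := (cos_arctan_pos _).ne'
  have hs : sin (arctan (s / h)) = s / h * cos (arctan (s / h)) := by
    have := tan_mul_cos hc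
    rw [tan_arctan] at this
    exact this.symm
  rw [Complex.exp_mul_I, ← Complex.ofReal_cos, ← Complex.ofReal_sin, hs]
  generalize cos (arctan (s / h)) = c at hc
  have hh' : (h : ℂ) ≠ 0 := by exact_mod_cast hh.ne'
  have hc' : (c : ℂ) ≠ 0 := by exact_mod_cast hc
  push_cast
  field_simp

private lemma g1_per {n : ℕ} {W : ℕ → ℂ} (hW : IsPoly n W) (a j : ℕ) : W (a + j * n) = W a := by
  induction j with
  | zero => simp
  | succ j ih => rw [Nat.succ_mul, ← add_assoc, hW.per, ih]

theorem edge {n : ℕ} (hn : 3 ≤ n) {W : ℕ → ℂ} (hW : IsPoly n W) {ρ : ℝ} (h0 : 0 < ρ)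
    (hρ : ρ ≤ 1 / 100)
    (hh : ∀ θ : ℝ, (∀ i, (Complex.exp (-(θ * Complex.I)) * W i).re ≤ 1 + ρ) ∧
      ∃ i, 1 - ρ ≤ (Complex.exp (-(θ * Complex.I)) * W i).re) (k : ℕ) :
    ∃ ν : ℂ, ∃ h s s' : ℝ, ‖ν‖ = 1 ∧ 1 - ρ ≤ h ∧ h ≤ 1 + ρ ∧ s < s' ∧ |s| ≤ 2 * √ρ ∧
      |s'| ≤ 2 * √ρ ∧ W k = ν * (h + s * Complex.I) ∧ W (k + 1) = ν * (h + s' * Complex.I) := by
  set v : ℂ := W (k + 1) - W k with hv
  have hv0 : v ≠ 0 := by
    intro e
    have h1 := hW.ori_pos k (k + 1) (k + 2) (by omega) (by omega) (by omega)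
    rw [ori, ← hv, e] at h1
    simp [cross] at h1
  have hvn : 0 < ‖v‖ := norm_pos_iff.2 hv0
  set φ : ℝ := Complex.arg v - π / 2 with hφ
  set ν : ℂ := Complex.exp (φ * Complex.I) with hν
  have hν1 : ‖ν‖ = 1 := Complex.norm_exp_ofReal_mul_I φ
  have hvν : v = ‖v‖ * (Complex.I * ν) := by
    have e1 : Complex.I * ν = Complex.exp (Complex.arg v * Complex.I) := by
      rw [hν, hφ]
      have e2 : ((Complex.arg v - π / 2 : ℝ) : ℂ) * Complex.I =
          Complex.arg v * Complex.I - π / 2 * Complex.I := by push_cast; ring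
      rw [e2, Complex.exp_sub, Complex.exp_pi_div_two_mul_I]
      field_simp
    rw [e1, Complex.norm_mul_exp_arg_mul_I]
  have hcν : Complex.exp (-(φ * Complex.I)) * ν = 1 := by
    rw [hν, ← Complex.exp_add]; simp
  set c : ℂ := Complex.exp (-(φ * Complex.I)) with hc
  set h : ℝ := (c * W k).re with hhd
  set s : ℝ := (c * W k).im with hsd
  set s' : ℝ := s + ‖v‖ with hs'd
  have e1 : W k = ν * (h + s * Complex.I) := by
    have : c * W k = h + s * Complex.I := (Complex.re_add_im _).symm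
    rw [← this, ← mul_assoc, mul_comm ν c, hcν, one_mul]
  have e2 : W (k + 1) = ν * (h + s' * Complex.I) := by
    have : W (k + 1) = W k + v := by rw [hv]; ring
    rw [this, hvν, e1, hs'd]
    push_cast; ring
  -- all vertices lie on one side
  have hside : ∀ i, (c * W i).re ≤ h := by
    intro i
    -- a representative in `[k, k+n)`
    obtain ⟨j, hj1, hj2, hj3⟩ : ∃ j, k ≤ j ∧ j < k + n ∧ W j = W i := by
      refine ⟨k + (i + k * n - k) % n, by omega, ?_, ?_⟩
      · have := Nat.mod_lt (i + k * n - k) (by omega : 0 < n)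
        omega
      · have hkn : k ≤ k * n := Nat.le_mul_of_pos_right k (by omega)
        have h3 := Nat.mod_add_div (i + k * n - k) n
        have h4 : k + (i + k * n - k) % n + ((i + k * n - k) / n) * n = i + k * n := by
          rw [mul_comm ((i + k * n - k) / n) n]
          omega
        rw [← g1_per hW (k + (i + k * n - k) % n) ((i + k * n - k) / n), h4, g1_per hW]
    rw [← hj3]
    -- c * v = i |v|
    have hcv : c * v = ‖v‖ * Complex.I := by
      calc c * v = c * (‖v‖ * (Complex.I * ν)) := by rw [← hvν]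
        _ = ‖v‖ * Complex.I * (c * ν) := by ring
        _ = _ := by rw [hcν, mul_one]
    -- c is a rotation: cross is preserved
    have hcc : c.re ^ 2 + c.im ^ 2 = 1 := by
      have h5 : ‖c‖ = 1 := by
        have := Complex.norm_exp_ofReal_mul_I (-φ)
        rw [hc, ← this]; congr 2; push_cast; ring
      have h6 := Complex.sq_norm c
      rw [h5, Complex.normSq_apply] at h6
      nlinarith
    have hcross : ∀ u : ℂ, cross v u = -(‖v‖ * (c * u).re) := by
      intro u
      have h5 : cross (c * v) (c * u) = cross v u := by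
        simp only [cross, Complex.mul_re, Complex.mul_im]
        linear_combination (v.re * u.im - v.im * u.re) * hcc
      rw [← h5, hcv]
      simp [cross]
    rcases Nat.eq_or_lt_of_le hj1 with h5 | h5
    · rw [← h5]
    rcases Nat.eq_or_lt_of_le h5 with h6 | h6
    · rw [← h6, Nat.succ_eq_add_one, e2]
      have : c * (ν * (h + s' * Complex.I)) = h + s' * Complex.I := by
        rw [← mul_assoc, hcν, one_mul]
      rw [this]; simp
    · have h7 := hW.ori_pos k (k + 1) j (by omega) h6 hj2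
      rw [ori, ← hv, hcross] at h7
      have h8 : (c * (W j - W k)).re = (c * W j).re - h := by
        rw [mul_sub, Complex.sub_re]
      rw [h8] at h7
      nlinarith
  obtain ⟨hle, i, hi⟩ := hh φ
  have hh1 : 1 - ρ ≤ h := hi.trans (hside i)
  have hh2 : h ≤ 1 + ρ := hle k
  -- the norms
  have hnorm : ∀ i, ‖W i‖ ≤ 1 + ρ := by
    intro i
    have h5 := (hh (Complex.arg (W i))).1 i
    have h6 : Complex.exp (-(Complex.arg (W i) * Complex.I)) * W i = (‖W i‖ : ℂ) := by
      conv_lhs => rw [← Complex.norm_mul_exp_arg_mul_I (W i)]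
      rw [mul_left_comm]
      have : ((‖((‖W i‖ : ℝ) : ℂ) * Complex.exp (Complex.arg (W i) * Complex.I)‖ : ℝ) : ℂ) =
        ‖W i‖ := by rw [Complex.norm_mul_exp_arg_mul_I]
      rw [Complex.norm_mul_exp_arg_mul_I, ← Complex.exp_add]
      simp
    rw [h6, Complex.ofReal_re] at h5
    exact h5
  have hsb : ∀ x : ℝ, ‖ν * ((h : ℂ) + x * Complex.I)‖ ≤ 1 + ρ → |x| ≤ 2 * √ρ := by
    intro x hx
    rw [norm_mul, hν1, one_mul] at hx
    have h5 : ‖(h : ℂ) + x * Complex.I‖ ^ 2 = h ^ 2 + x ^ 2 := by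
      rw [Complex.sq_norm, Complex.normSq_add_mul_I]
    have h6 : x ^ 2 ≤ 4 * ρ := by
      have h7 : ‖(h : ℂ) + x * Complex.I‖ ^ 2 ≤ (1 + ρ) ^ 2 := by
        apply pow_le_pow_left₀ (norm_nonneg _) hx
      rw [h5] at h7
      nlinarith
    have h8 : (2 * √ρ) ^ 2 = 4 * ρ := by
      rw [mul_pow, Real.sq_sqrt h0.le]; ring
    rw [← h8] at h6
    exact abs_le_of_sq_le_sq h6 (by positivity)
  refine ⟨ν, h, s, s', hν1, hh1, hh2, by rw [hs'd]; linarith, hsb s ?_, hsb s' ?_, e1, e2⟩
  · rw [← e1]; exact hnorm k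
  · rw [← e2]; exact hnorm (k + 1)

theorem edge_angle {ρ : ℝ} (h0 : 0 < ρ) (hρ : ρ ≤ 1 / 100) {w w' ν : ℂ} {h s s' : ℝ}
    (hν : ‖ν‖ = 1) (h1 : 1 - ρ ≤ h) (h2 : h ≤ 1 + ρ) (hs : s < s') (hs1 : |s| ≤ 2 * √ρ)
    (hs2 : |s'| ≤ 2 * √ρ) (hw : w = ν * (h + s * Complex.I)) (hw' : w' = ν * (h + s' * Complex.I)) :
    0 < Complex.arg (w' / w) ∧ Complex.arg (w' / w) ≤ 5 * √ρ ∧
      |log ‖w'‖ - log ‖w‖| ≤ 3 * √ρ * Complex.arg (w' / w) ∧
      (1 - ρ) * Complex.arg (w' / w) ≤ ‖w' - w‖ ∧
      ∃ ψ : ℝ, |ψ| ≤ 3 * √ρ ∧ w' - w = ‖w' - w‖ * Complex.exp (ψ * Complex.I) *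
        (Complex.I * (w / ‖w‖)) := by
  have hh : 0 < h := by linarith
  have hν0 : ν ≠ 0 := by
    intro e; rw [e, norm_zero] at hν; norm_num at hν
  set t : ℝ := arctan (s / h) with ht
  set t' : ℝ := arctan (s' / h) with ht'
  have hc : 0 < cos t := cos_arctan_pos _
  have hc' : 0 < cos t' := cos_arctan_pos _
  have hsq : 0 < √ρ := Real.sqrt_pos.2 h0
  have hdiv : ∀ x : ℝ, |x| ≤ 2 * √ρ → |x / h| ≤ 3 * √ρ := by
    intro x hx
    rw [abs_div, abs_of_pos hh, div_le_iff₀ hh]
    nlinarith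
  -- arctan is monotone and contracting
  have hlt : t < t' := arctan_strictMono (by
    rw [div_lt_div_iff_of_pos_right hh]; exact hs)
  have hlip : ∀ x y : ℝ, |arctan y - arctan x| ≤ |y - x| := by
    intro x y
    have := Convex.norm_image_sub_le_of_norm_hasDerivWithin_le (f := arctan)
      (f' := fun x => 1 / (1 + x ^ 2)) (C := 1) (s := Set.univ) (x := x) (y := y)
      (fun x _ => (hasDerivAt_arctan x).hasDerivWithinAt) (fun x _ => by
        rw [norm_eq_abs, abs_of_pos (by positivity), div_le_one (by positivity)]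
        nlinarith [sq_nonneg x]) convex_univ (Set.mem_univ _) (Set.mem_univ _)
    rw [one_mul, norm_eq_abs, norm_eq_abs] at this
    exact this
  have hd : t' - t ≤ (s' - s) / h := by
    have := hlip (s / h) (s' / h)
    rw [← ht, ← ht', abs_of_pos (by linarith)] at this
    rw [← sub_div, abs_of_pos (by apply div_pos <;> linarith)] at this
    exact this
  have htb : |t| ≤ 3 * √ρ := by
    have := hlip 0 (s / h)
    rw [arctan_zero, sub_zero, sub_zero] at this
    exact this.trans (hdiv s hs1)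
  -- polar forms
  have p := g1_polar hh s
  have p' := g1_polar hh s'
  rw [← ht] at p
  rw [← ht'] at p'
  have r0 : 0 < h / cos t := by positivity
  have r0' : 0 < h / cos t' := by positivity
  have nw : ‖w‖ = h / cos t := by
    rw [hw, norm_mul, hν, one_mul, p, norm_mul, Complex.norm_exp_ofReal_mul_I, mul_one,
      Complex.norm_real, norm_eq_abs, abs_of_pos r0]
  have nw' : ‖w'‖ = h / cos t' := by
    rw [hw', norm_mul, hν, one_mul, p', norm_mul, Complex.norm_exp_ofReal_mul_I, mul_one,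
      Complex.norm_real, norm_eq_abs, abs_of_pos r0']
  have hq : w' / w = ((h / cos t' / (h / cos t) : ℝ) : ℂ) *
      (Complex.cos ((t' - t : ℝ) : ℂ) + Complex.sin ((t' - t : ℝ) : ℂ) * Complex.I) := by
    rw [hw, hw', mul_div_mul_left _ _ hν0, p, p', ← Complex.exp_mul_I]
    have e : Complex.exp (((t' - t : ℝ) : ℂ) * Complex.I) =
        Complex.exp ((t' : ℂ) * Complex.I) / Complex.exp ((t : ℂ) * Complex.I) := by
      rw [← Complex.exp_sub]; congr 1; push_cast; ring
    rw [e, Complex.ofReal_div (h / cos t') (h / cos t)]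
    have hne1 : Complex.exp ((t : ℂ) * Complex.I) ≠ 0 := Complex.exp_ne_zero _
    have hne2 : ((h / cos t : ℝ) : ℂ) ≠ 0 := by exact_mod_cast r0.ne'
    field_simp
  have hbt : ∀ x : ℝ, -(π / 2) < arctan x ∧ arctan x < π / 2 := fun x =>
    ⟨neg_pi_div_two_lt_arctan x, arctan_lt_pi_div_two x⟩
  have harg : Complex.arg (w' / w) = t' - t := by
    rw [hq]
    apply Complex.arg_mul_cos_add_sin_mul_I (by positivity)
    have b1 := hbt (s / h)
    have b2 := hbt (s' / h)
    constructor
    · have := pi_pos; linarith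
    · rw [ht, ht']; linarith [b1.1, b2.2]
  have hdiff : w' - w = ((s' - s : ℝ) : ℂ) * (Complex.I * ν) := by
    rw [hw, hw']; push_cast; ring
  have hnd : ‖w' - w‖ = s' - s := by
    rw [hdiff, norm_mul, norm_mul, Complex.norm_I, hν, Complex.norm_real, norm_eq_abs,
      abs_of_pos (by linarith)]
    ring
  rw [harg, hnd]
  refine ⟨by linarith, ?_, ?_, ?_, -t, ?_, ?_⟩
  · refine hd.trans ?_
    rw [div_le_iff₀ hh]
    have a1 := (abs_le.1 hs1).1
    have a2 := (abs_le.1 hs2).2
    nlinarith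
  · rw [nw, nw', Real.log_div hh.ne' hc.ne', Real.log_div hh.ne' hc'.ne']
    have := Convex.norm_image_sub_le_of_norm_hasDerivWithin_le (f := fun x => log (cos x))
      (f' := fun x => -sin x / cos x) (C := 3 * √ρ) (s := Set.Icc t t') (x := t) (y := t')
      (fun x hx => by
        have hx0 : 0 < cos x := by
          apply cos_pos_of_mem_Ioo
          have b1 := hbt (s / h)
          have b2 := hbt (s' / h)
          exact ⟨lt_of_lt_of_le b1.1 hx.1, lt_of_le_of_lt hx.2 b2.2⟩
        exact ((hasDerivAt_cos x).log hx0.ne').hasDerivWithinAt) (fun x hx => by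
        have b1 := hbt (s / h)
        have b2 := hbt (s' / h)
        have hx1 : -(π / 2) < x := lt_of_lt_of_le b1.1 hx.1
        have hx2 : x < π / 2 := lt_of_le_of_lt hx.2 b2.2
        have e : -sin x / cos x = -tan x := by rw [tan_eq_sin_div_cos]; ring
        rw [norm_eq_abs, e, abs_neg]
        have e1 : tan t = s / h := tan_arctan _
        have e2 : tan t' = s' / h := tan_arctan _
        have m1 : tan t ≤ tan x := by
          rcases eq_or_lt_of_le hx.1 with h3 | h3
          · rw [h3]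
          · exact (tan_lt_tan_of_lt_of_lt_pi_div_two b1.1 hx2 h3).le
        have m2 : tan x ≤ tan t' := by
          rcases eq_or_lt_of_le hx.2 with h3 | h3
          · rw [h3]
          · exact (tan_lt_tan_of_lt_of_lt_pi_div_two hx1 b2.2 h3).le
        rw [e1] at m1
        rw [e2] at m2
        have q1 := abs_le.1 (hdiv s hs1)
        have q2 := abs_le.1 (hdiv s' hs2)
        rw [abs_le]
        exact ⟨by linarith [q1.1], by linarith [q2.2]⟩) (convex_Icc _ _)
      (Set.left_mem_Icc.2 hlt.le) (Set.right_mem_Icc.2 hlt.le)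
    rw [norm_eq_abs, norm_eq_abs, abs_of_pos (by linarith : 0 < t' - t)] at this
    have e : log h - log (cos t') - (log h - log (cos t)) = -(log (cos t') - log (cos t)) := by ring
    rw [e, abs_neg]
    exact this
  · have := (le_div_iff₀ hh).1 hd
    nlinarith
  · rw [abs_neg]; exact htb
  · rw [hdiff, nw, hw, p]
    have hne2 : ((h / cos t : ℝ) : ℂ) ≠ 0 := by exact_mod_cast r0.ne'
    have e : Complex.exp (((-t : ℝ) : ℂ) * Complex.I) * Complex.exp ((t : ℂ) * Complex.I) = 1 := by
      rw [← Complex.exp_add]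
      have : ((-t : ℝ) : ℂ) * Complex.I + (t : ℂ) * Complex.I = 0 := by push_cast; ring
      rw [this, Complex.exp_zero]
    have e3 : ν * (((h / cos t : ℝ) : ℂ) * Complex.exp ((t : ℂ) * Complex.I)) /
        ((h / cos t : ℝ) : ℂ) = ν * Complex.exp ((t : ℂ) * Complex.I) := by
      field_simp
    rw [e3]
    calc ((s' - s : ℝ) : ℂ) * (Complex.I * ν) = ((s' - s : ℝ) : ℂ) * (Complex.I * ν) *
        (Complex.exp (((-t : ℝ) : ℂ) * Complex.I) * Complex.exp ((t : ℂ) * Complex.I)) := by
          rw [e, mul_one]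
      _ = _ := by ring

end Pool.Agent.Lib.MP_e1dd62_co.Big
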