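import Mathlib

/-!
# The total angle of a polygon near the unit circle
-/

namespace Pool.Agent.Lib.MP_e1dd62_co.Big

open Finset Real

private lemma G2_prod {W : ℕ → ℂ} (h0 : ∀ k, W k ≠ 0) (m : ℕ) :
    ∏ i ∈ range m, (W (i + 1) / W i) = W m / W 0 := by
  induction m with
  | zero => simp [div_self (h0 0)]
  | succ m ih =>
    rw [prod_range_succ, ih]
    have h1 := h0 0
    have h2 := h0 m
    field_simp

theorem total_angle {n : ℕ} (hn : 3 ≤ n) {W : ℕ → ℂ} (hper : ∀ k, W (k + n) = W k)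
    (h0 : ∀ k, W k ≠ 0) {ρ : ℝ} (hρ : ρ ≤ 1 / 100)
    (hpos : ∀ k, 0 < Complex.arg (W (k + 1) / W k))
    (hle : ∀ k, (1 - ρ) * Complex.arg (W (k + 1) / W k) ≤ ‖W (k + 1) - W k‖)
    (hL : ∑ i ∈ range n, ‖W (i + 1) - W i‖ ≤ 2 * π) :
    ∑ i ∈ range n, Complex.arg (W (i + 1) / W i) = 2 * π := by
  set S := ∑ i ∈ range n, Complex.arg (W (i + 1) / W i) with hS
  -- the product is one
  have hprod : ∏ i ∈ range n, (W (i + 1) / W i) = 1 := by
    rw [G2_prod h0 n]
    have := hper 0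
    rw [zero_add] at this
    rw [this, div_self (h0 0)]
  have hpolar : ∏ i ∈ range n, (W (i + 1) / W i) =
      ((∏ i ∈ range n, ‖W (i + 1) / W i‖ : ℝ) : ℂ) * Complex.exp (S * Complex.I) := by
    have : ∀ i ∈ range n, W (i + 1) / W i =
        ((‖W (i + 1) / W i‖ : ℝ) : ℂ) * Complex.exp (Complex.arg (W (i + 1) / W i) * Complex.I) :=
      fun i _ => (Complex.norm_mul_exp_arg_mul_I _).symm
    rw [prod_congr rfl this, prod_mul_distrib, ← Complex.exp_sum, hS]
    push_cast
    rw [sum_mul]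
  have hnorm : (∏ i ∈ range n, ‖W (i + 1) / W i‖ : ℝ) = 1 := by
    rw [← norm_prod, hprod, norm_one]
  have hexp : Complex.exp (S * Complex.I) = 1 := by
    rw [hprod, hnorm] at hpolar
    simpa using hpolar.symm
  rw [Complex.exp_eq_one_iff] at hexp
  obtain ⟨m, hm⟩ := hexp
  have hSm : S = m * (2 * π) := by
    have h2 : (S : ℂ) = ((m * (2 * π) : ℝ) : ℂ) := by
      have hI : (Complex.I : ℂ) ≠ 0 := Complex.I_ne_zero
      apply mul_right_cancel₀ hI
      rw [hm]
      push_cast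
      ring
    exact_mod_cast h2
  have hSpos : 0 < S := by
    rw [hS]
    exact sum_pos (fun i _ => hpos i) ⟨0, mem_range.2 (by omega)⟩
  have hSle : (1 - ρ) * S ≤ 2 * π := by
    rw [hS, mul_sum]
    exact (sum_le_sum (fun i _ => hle i)).trans hL
  have hpi := pi_pos
  have hm0 : 0 < m := by
    by_contra h
    push Not at h
    have : (m : ℝ) ≤ 0 := by exact_mod_cast h
    nlinarith
  have hm2 : m < 2 := by
    by_contra h
    push Not at h
    have : (2 : ℝ) ≤ m := by exact_mod_cast h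
    have h4 : 4 * π ≤ S := by nlinarith
    nlinarith
  have : m = 1 := by omega
  rw [hSm, this]
  push_cast
  ring

end Pool.Agent.Lib.MP_e1dd62_co.Big
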