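import Pool.Agent.Lib.MP_e1dd62_co.Big.G0
import Pool.Agent.Lib.MP_e1dd62_co.Regular

/-!
# Chords in polar form
-/

namespace Pool.Agent.Lib.MP_e1dd62_co.Big

open Finset Real

private theorem G3_sum_shift {n : ℕ} {γ : ℕ → ℝ} (hper : ∀ k, γ (k + n) = γ k) (a : ℕ) :
    ∑ i ∈ range n, γ (a + i) = ∑ i ∈ range n, γ i := by
  induction a with
  | zero => simp
  | succ a ih =>
    rw [← ih]
    have h1 : ∑ i ∈ range (n + 1), γ (a + i) = ∑ i ∈ range n, γ (a + i) + γ (a + n) :=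
      Finset.sum_range_succ _ _
    have h2 : ∑ i ∈ range (n + 1), γ (a + i) = ∑ i ∈ range n, γ (a + (i + 1)) + γ (a + 0) :=
      Finset.sum_range_succ' _ _
    have h3 : ∀ i, γ (a + 1 + i) = γ (a + (i + 1)) := fun i => by
      congr 1
      omega
    rw [Finset.sum_congr rfl (fun i _ => h3 i)]
    rw [hper a] at h1
    rw [add_zero] at h2
    linarith

private theorem G3_chain {γ lam : ℕ → ℝ} {μ : ℝ}
    (hlip : ∀ k, |lam (k + 1) - lam k| ≤ μ * γ k) (k m : ℕ) :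
    |lam (k + m) - lam k| ≤ μ * ∑ i ∈ range m, γ (k + i) := by
  induction m with
  | zero => simp
  | succ m ih =>
    rw [Finset.sum_range_succ, mul_add]
    have h1 : lam (k + (m + 1)) - lam k = (lam (k + m + 1) - lam (k + m)) + (lam (k + m) - lam k) := by
      rw [show k + (m + 1) = k + m + 1 by ring]
      ring
    rw [h1]
    refine le_trans (abs_add_le _ _) ?_
    linarith [hlip (k + m)]

private theorem G3_exp_sub {x y M : ℝ} (hx : x ≤ M) (hy : y ≤ M) :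
    |exp x - exp y| ≤ exp M * |x - y| := by
  wlog h : y ≤ x generalizing x y
  · rw [abs_sub_comm, abs_sub_comm x y]
    exact this hy hx (le_of_not_ge h)
  have h1 : exp y ≤ exp x := exp_le_exp.2 h
  rw [abs_of_nonneg (by linarith), abs_of_nonneg (by linarith)]
  have h2 : (y - x) + 1 ≤ exp (y - x) := add_one_le_exp _
  have h3 : exp y = exp x * exp (y - x) := by
    rw [← exp_add]
    congr 1
    ring
  have h4 : exp x ≤ exp M := exp_le_exp.2 hx
  have h5 : 0 < exp x := exp_pos x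
  calc exp x - exp y = exp x * (1 - exp (y - x)) := by rw [h3]; ring
    _ ≤ exp x * (x - y) := by
        apply mul_le_mul_of_nonneg_left _ h5.le
        linarith
    _ ≤ exp M * (x - y) := mul_le_mul_of_nonneg_right h4 (by linarith)

theorem chord_le {n : ℕ} (hn : 3 ≤ n) {W : ℕ → ℂ} {γ lam : ℕ → ℝ} {ρ μ : ℝ} (hρ0 : 0 ≤ ρ)
    (hρ : ρ ≤ 1 / 100) (hμ0 : 0 ≤ μ) (hμ : μ ≤ 1 / 2)
    (hγ : ∀ k, 0 < γ k) (hper : ∀ k, γ (k + n) = γ k) (hsum : ∑ i ∈ range n, γ i = 2 * π)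
    (hlper : ∀ k, lam (k + n) = lam k) (hlam : ∀ k, |lam k| ≤ 2 * ρ)
    (hlip : ∀ k, |lam (k + 1) - lam k| ≤ μ * γ k)
    (hW : ∀ k ℓ, W (k + ℓ) * Complex.exp (lam k) = W k * Complex.exp (lam (k + ℓ)) *
      Complex.exp ((2 * bet γ k ℓ : ℝ) * Complex.I)) (hnorm : ∀ k, ‖W k‖ = exp (lam k))
    (a ℓ : ℕ) (h0 : 0 < ℓ) (h1 : ℓ < n) :
    0 < bet γ a ℓ ∧ bet γ a ℓ < π ∧
      log ‖W (a + ℓ) - W a‖ ≤ log (2 * sin (bet γ a ℓ)) + 2 * ρ + 2 * μ ^ 2 := by
  have hsplit : ∑ i ∈ range ℓ, γ (a + i) + ∑ i ∈ range (n - ℓ), γ (a + ℓ + i) = 2 * π := by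
    have h2 := Finset.sum_range_add (fun i => γ (a + i)) ℓ (n - ℓ)
    rw [show ℓ + (n - ℓ) = n by omega, G3_sum_shift hper a, hsum] at h2
    rw [h2]
    congr 1
    exact Finset.sum_congr rfl (fun i _ => by rw [add_assoc])
  have hpos1 : 0 < ∑ i ∈ range ℓ, γ (a + i) :=
    Finset.sum_pos (fun i _ => hγ _) ⟨0, Finset.mem_range.2 h0⟩
  have hpos2 : 0 < ∑ i ∈ range (n - ℓ), γ (a + ℓ + i) :=
    Finset.sum_pos (fun i _ => hγ _) ⟨0, Finset.mem_range.2 (by omega)⟩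
  have hb0 : 0 < bet γ a ℓ := by
    unfold bet
    linarith
  have hb1 : bet γ a ℓ < π := by
    unfold bet
    linarith
  refine ⟨hb0, hb1, ?_⟩
  set β := bet γ a ℓ with hβ
  have hβ1 : ∑ i ∈ range ℓ, γ (a + i) = 2 * β := by
    rw [hβ]
    unfold bet
    ring
  have hβ2 : ∑ i ∈ range (n - ℓ), γ (a + ℓ + i) = 2 * (π - β) := by linarith
  have hs : 0 < sin β := sin_pos_of_pos_of_lt_pi hb0 hb1
  -- the difference of the logarithms
  have hl1 : |lam (a + ℓ) - lam a| ≤ μ * (2 * β) := by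
    rw [← hβ1]
    exact G3_chain hlip a ℓ
  have hl2 : |lam (a + ℓ) - lam a| ≤ μ * (2 * (π - β)) := by
    rw [← hβ2]
    have h3 := G3_chain hlip (a + ℓ) (n - ℓ)
    rw [show a + ℓ + (n - ℓ) = a + n by omega, hlper, abs_sub_comm] at h3
    exact h3
  have hl3 : |lam (a + ℓ) - lam a| ≤ μ * (π * sin β) := by
    rcases le_total β (π / 2) with h | h
    · refine le_trans hl1 (mul_le_mul_of_nonneg_left ?_ hμ0)
      have h3 := mul_le_sin hb0.le h
      have h4 : π * (2 / π * β) = 2 * β := by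
        field_simp
      nlinarith [pi_pos]
    · refine le_trans hl2 (mul_le_mul_of_nonneg_left ?_ hμ0)
      have h3 := mul_le_sin (x := π - β) (by linarith) (by linarith)
      rw [sin_pi_sub] at h3
      have h4 : π * (2 / π * (π - β)) = 2 * (π - β) := by
        field_simp
      nlinarith [pi_pos]
  -- the norm
  set r : ℝ := exp (lam a) with hr
  set r' : ℝ := exp (lam (a + ℓ)) with hr'
  have hr0 : 0 < r := exp_pos _
  have hr'0 : 0 < r' := exp_pos _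
  have hM : r ≤ exp (2 * ρ) := exp_le_exp.2 (le_trans (le_abs_self _) (hlam a))
  have hM' : r' ≤ exp (2 * ρ) := exp_le_exp.2 (le_trans (le_abs_self _) (hlam (a + ℓ)))
  have hWr : (W (a + ℓ) - W a) * (r : ℂ)
      = W a * ((r' : ℂ) * Complex.exp ((2 * β : ℝ) * Complex.I) - r) := by
    have h3 := hW a ℓ
    rw [← Complex.ofReal_exp, ← Complex.ofReal_exp, ← hr, ← hr', ← hβ] at h3
    linear_combination h3
  have hN : ‖W (a + ℓ) - W a‖ = ‖(r' : ℂ) * Complex.exp ((2 * β : ℝ) * Complex.I) - r‖ := by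
    have h3 := congrArg norm hWr
    rw [norm_mul, norm_mul, Complex.norm_real, Real.norm_eq_abs, abs_of_pos hr0, hnorm a,
      ← hr] at h3
    have h4 : r * ‖W (a + ℓ) - W a‖
        = r * ‖(r' : ℂ) * Complex.exp ((2 * β : ℝ) * Complex.I) - r‖ := by linarith
    exact mul_left_cancel₀ hr0.ne' h4
  have hN2 : ‖W (a + ℓ) - W a‖ ^ 2 = (r' - r) ^ 2 + 4 * (r * r') * sin β ^ 2 := by
    rw [hN, ← Complex.normSq_eq_norm_sq, Complex.normSq_apply]
    rw [Complex.sub_re, Complex.sub_im, Complex.re_ofReal_mul, Complex.im_ofReal_mul,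
      Complex.exp_ofReal_mul_I_re, Complex.exp_ofReal_mul_I_im, Complex.ofReal_re,
      Complex.ofReal_im, cos_two_mul, sin_two_mul, cos_sq']
    have h3 : cos β ^ 2 = 1 - sin β ^ 2 := cos_sq' β
    linear_combination (4 * r' ^ 2 * sin β ^ 2) * h3
  have hd : |r' - r| ≤ exp (2 * ρ) * (μ * (π * sin β)) := by
    refine le_trans (G3_exp_sub (le_trans (le_abs_self _) (hlam (a + ℓ)))
      (le_trans (le_abs_self _) (hlam a))) ?_
    exact mul_le_mul_of_nonneg_left hl3 (exp_pos _).le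
  set E : ℝ := exp (2 * ρ) with hE
  have hE0 : 0 < E := exp_pos _
  have hd2 : (r' - r) ^ 2 ≤ (E * (μ * (π * sin β))) ^ 2 := by
    rw [← sq_abs]
    exact pow_le_pow_left₀ (abs_nonneg _) hd 2
  have hrr : r * r' ≤ E * E := mul_le_mul hM hM' hr'0.le hE0.le
  have hpi2 : π ^ 2 ≤ 16 := by
    have := pi_le_four
    have := pi_pos
    nlinarith
  have hub : ‖W (a + ℓ) - W a‖ ^ 2 ≤ (2 * sin β) ^ 2 * E ^ 2 * (1 + 4 * μ ^ 2) := by
    rw [hN2]
    have h3 : (E * (μ * (π * sin β))) ^ 2 ≤ E ^ 2 * μ ^ 2 * 16 * sin β ^ 2 := by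
      have h4 : (E * (μ * (π * sin β))) ^ 2 = E ^ 2 * μ ^ 2 * sin β ^ 2 * π ^ 2 := by ring
      have h5 : E ^ 2 * μ ^ 2 * 16 * sin β ^ 2 = E ^ 2 * μ ^ 2 * sin β ^ 2 * 16 := by ring
      rw [h4, h5]
      exact mul_le_mul_of_nonneg_left hpi2 (by positivity)
    have h4 : 4 * (r * r') * sin β ^ 2 ≤ 4 * (E * E) * sin β ^ 2 :=
      mul_le_mul_of_nonneg_right (by linarith) (by positivity)
    nlinarith
  have hexp : (1 + 4 * μ ^ 2 : ℝ) ≤ exp (4 * μ ^ 2) := by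
    have := add_one_le_exp (4 * μ ^ 2)
    linarith
  have hub2 : ‖W (a + ℓ) - W a‖ ^ 2 ≤ (2 * sin β * exp (2 * ρ) * exp (2 * μ ^ 2)) ^ 2 := by
    refine le_trans hub ?_
    have h3 : (2 * sin β * exp (2 * ρ) * exp (2 * μ ^ 2)) ^ 2
        = (2 * sin β) ^ 2 * E ^ 2 * exp (4 * μ ^ 2) := by
      rw [mul_pow, mul_pow, ← hE, ← exp_nat_mul (2 * μ ^ 2) 2]
      congr 2
      push_cast
      ring
    rw [h3]
    exact mul_le_mul_of_nonneg_left hexp (by positivity)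
  have hub3 : ‖W (a + ℓ) - W a‖ ≤ 2 * sin β * exp (2 * ρ) * exp (2 * μ ^ 2) :=
    le_of_sq_le_sq hub2 (by positivity)
  have hNpos : 0 < ‖W (a + ℓ) - W a‖ := by
    have h3 : 0 < ‖W (a + ℓ) - W a‖ ^ 2 := by
      rw [hN2]
      positivity
    exact lt_of_le_of_ne (norm_nonneg _) (fun h' => by rw [← h'] at h3; simp at h3)
  calc log ‖W (a + ℓ) - W a‖ ≤ log (2 * sin β * exp (2 * ρ) * exp (2 * μ ^ 2)) :=
        log_le_log hNpos hub3
    _ = log (2 * sin β) + 2 * ρ + 2 * μ ^ 2 := by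
        rw [log_mul (by positivity) (exp_pos _).ne', log_mul (by positivity) (exp_pos _).ne',
          log_exp, log_exp]

theorem sum_log_two_sin {n : ℕ} (hn : 2 ≤ n) :
    ∑ ℓ ∈ Ico 1 n, log (2 * sin (ℓ * (π / n))) = log n := by
  obtain ⟨m, rfl⟩ : ∃ m, n = m + 1 := ⟨n - 1, by omega⟩
  have h1 := prod_two_sin (m := m)
  have h2 := congrArg log h1
  rw [log_prod] at h2
  · rw [Finset.sum_Ico_eq_sum_range, Nat.add_sub_cancel]
    rw [show ((m + 1 : ℕ) : ℝ) = (m : ℝ) + 1 by push_cast; ring, ← h2]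
    refine Finset.sum_congr rfl (fun d _ => ?_)
    congr 3
    push_cast
    ring
  · intro d hd
    rw [Finset.mem_range] at hd
    have h3 : 0 < sin (π * ((d + 1 : ℕ) : ℝ) / ((m + 1 : ℕ) : ℝ)) := by
      have hd' : ((d + 1 : ℕ) : ℝ) < ((m + 1 : ℕ) : ℝ) := by exact_mod_cast (by omega)
      have hm' : (0 : ℝ) < ((m + 1 : ℕ) : ℝ) := by positivity
      apply sin_pos_of_pos_of_lt_pi
      · positivity
      · rw [div_lt_iff₀ hm']
        exact mul_lt_mul_of_pos_left hd' pi_pos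
    positivity

end Pool.Agent.Lib.MP_e1dd62_co.Big
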