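import Pool.Agent.Lib.MP_e1dd62_co.Big.G0

/-!
# Large energy on the circle forces near-regular angles
-/

namespace Pool.Agent.Lib.MP_e1dd62_co.Big

open Finset Real

/-- `cot y - cot z ≥ z - y`, in the form with sines. -/
private theorem G4_cot {y z : ℝ} (hy : 0 < y) (hyz : y ≤ z) (hz : z < π) :
    z - y ≤ cos y / sin y - cos z / sin z := by
  have sy : 0 < sin y := sin_pos_of_pos_of_lt_pi hy (by linarith)
  have sz : 0 < sin z := sin_pos_of_pos_of_lt_pi (by linarith) hz
  have e : cos y / sin y - cos z / sin z = sin (z - y) / (sin y * sin z) := by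
    rw [sin_sub]; field_simp
  rw [e]
  set d := z - y with hd
  have hd0 : 0 ≤ d := by linarith
  have hdπ : d < π := by linarith
  have hc : 0 < cos (d / 2) := cos_pos_of_mem_Ioo ⟨by linarith, by linarith⟩
  have h1 : sin y * sin z ≤ cos (d / 2) ^ 2 := by
    have h2 : cos (d / 2) ^ 2 = 1 / 2 + cos d / 2 := by
      rw [cos_sq]; ring_nf
    have h3 : cos d = cos z * cos y + sin z * sin y := by rw [hd, cos_sub]
    have h4 : cos (z + y) = cos z * cos y - sin z * sin y := cos_add z y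
    have h5 := neg_one_le_cos (z + y)
    nlinarith
  rw [le_div_iff₀ (by positivity)]
  have h6 : sin d = 2 * sin (d / 2) * cos (d / 2) := by
    rw [← sin_two_mul]; ring_nf
  have h7 : d / 2 * cos (d / 2) ≤ sin (d / 2) := by
    rcases eq_or_lt_of_le hd0 with h | h
    · rw [← h]; simp
    · have := lt_tan (x := d / 2) (by linarith) (by linarith)
      rw [tan_eq_sin_div_cos, lt_div_iff₀ hc] at this
      exact this.le
  calc d * (sin y * sin z) ≤ d * cos (d / 2) ^ 2 := by gcongr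
    _ = 2 * (d / 2 * cos (d / 2)) * cos (d / 2) := by ring
    _ ≤ 2 * sin (d / 2) * cos (d / 2) := by gcongr
    _ = sin d := h6.symm

private theorem G4_deriv {y z : ℝ} (hz : 0 < z) (hz1 : z < π) :
    HasDerivAt (fun z => -log (sin z) + log (sin y) + cos y / sin y * (z - y) - (z - y) ^ 2 / 2)
      (-(cos z / sin z) + cos y / sin y - (z - y)) z := by
  have sz : 0 < sin z := sin_pos_of_pos_of_lt_pi hz hz1
  have h1 : HasDerivAt (fun z => log (sin z)) (cos z / sin z) z :=
    (hasDerivAt_sin z).log sz.ne'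
  have h2 : HasDerivAt (fun z : ℝ => z - y) 1 z := (hasDerivAt_id z).sub_const y
  have h3 := ((h1.neg.add_const (log (sin y))).add (h2.const_mul (cos y / sin y))).sub
    ((h2.pow 2).div_const 2)
  refine h3.congr_deriv ?_
  simp

/-- second order lower bound of `-log sin` -/
private theorem G4_log {y z : ℝ} (hy : 0 < y) (hy1 : y < π) (hz : 0 < z) (hz1 : z < π) :
    -(cos y / sin y) * (z - y) + (z - y) ^ 2 / 2 ≤ -log (sin z / sin y) := by
  have sy : 0 < sin y := sin_pos_of_pos_of_lt_pi hy hy1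
  have sz : 0 < sin z := sin_pos_of_pos_of_lt_pi hz hz1
  rw [log_div sz.ne' sy.ne']
  set h : ℝ → ℝ := fun z =>
    -log (sin z) + log (sin y) + cos y / sin y * (z - y) - (z - y) ^ 2 / 2 with hh
  have hy0 : h y = 0 := by simp [hh]
  have key : 0 ≤ h z := by
    rcases le_total y z with hyz | hyz
    · have mono : MonotoneOn h (Set.Icc y z) := by
        apply monotoneOn_of_deriv_nonneg (convex_Icc y z)
        · intro w hw
          exact (G4_deriv (y := y) (by linarith [hw.1]) (by linarith [hw.2])).continuousAt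
            |>.continuousWithinAt
        · intro w hw
          rw [interior_Icc] at hw
          exact (G4_deriv (y := y) (by linarith [hw.1]) (by linarith [hw.2])).differentiableAt
            |>.differentiableWithinAt
        · intro w hw
          rw [interior_Icc] at hw
          rw [(G4_deriv (y := y) (by linarith [hw.1]) (by linarith [hw.2])).deriv]
          have := G4_cot hy hw.1.le (by linarith [hw.2])
          linarith
      have := mono (Set.left_mem_Icc.2 hyz) (Set.right_mem_Icc.2 hyz) hyz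
      rw [hy0] at this; exact this
    · have anti : AntitoneOn h (Set.Icc z y) := by
        apply antitoneOn_of_deriv_nonpos (convex_Icc z y)
        · intro w hw
          exact (G4_deriv (y := y) (by linarith [hw.1]) (by linarith [hw.2])).continuousAt
            |>.continuousWithinAt
        · intro w hw
          rw [interior_Icc] at hw
          exact (G4_deriv (y := y) (by linarith [hw.1]) (by linarith [hw.2])).differentiableAt
            |>.differentiableWithinAt
        · intro w hw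
          rw [interior_Icc] at hw
          rw [(G4_deriv (y := y) (by linarith [hw.1]) (by linarith [hw.2])).deriv]
          have := G4_cot (by linarith [hw.1]) hw.2.le hy1
          linarith
      have := anti (Set.left_mem_Icc.2 hyz) (Set.right_mem_Icc.2 hyz) hyz
      rw [hy0] at this; exact this
  simp only [hh] at key
  linarith

/-- sums over a period -/
private theorem G4_per {n : ℕ} {f : ℕ → ℝ} (hf : ∀ k, f (k + n) = f k) (c : ℕ) :
    ∑ i ∈ range n, f (c + i) = ∑ i ∈ range n, f i := by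
  induction c with
  | zero => simp
  | succ c ih =>
    rw [← ih]
    have h1 := Finset.sum_range_succ (fun i => f (c + i)) n
    have h2 := Finset.sum_range_succ' (fun i => f (c + i)) n
    have h3 : ∑ i ∈ range n, f (c + 1 + i) = ∑ i ∈ range n, f (c + (i + 1)) := by
      refine Finset.sum_congr rfl fun i _ => ?_
      congr 1; ring
    rw [h3]
    have h4 : f (c + n) = f (c + 0) := by rw [hf c]; rfl
    linarith

variable {n : ℕ} {γ : ℕ → ℝ}

private theorem G4_bet_per (hper : ∀ k, γ (k + n) = γ k) (a ℓ : ℕ) :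
    bet γ (a + n) ℓ = bet γ a ℓ := by
  unfold bet
  congr 1
  refine Finset.sum_congr rfl fun i _ => ?_
  rw [← hper (a + i)]; congr 1; ring

private theorem G4_bet_full (hper : ∀ k, γ (k + n) = γ k) (hsum : ∑ i ∈ range n, γ i = 2 * π)
    (a : ℕ) : bet γ a n = π := by
  unfold bet
  rw [G4_per hper, hsum]; ring

private theorem G4_bet_add (a k l : ℕ) : bet γ a (k + l) = bet γ a k + bet γ (a + k) l := by
  unfold bet
  rw [Finset.sum_range_add, add_div]
  congr 2
  refine Finset.sum_congr rfl fun i _ => ?_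
  congr 1; ring

private theorem G4_bet_nonneg (hγ : ∀ k, 0 < γ k) (a ℓ : ℕ) : 0 ≤ bet γ a ℓ := by
  unfold bet
  have : 0 ≤ ∑ i ∈ range ℓ, γ (a + i) := Finset.sum_nonneg fun i _ => (hγ _).le
  linarith

private theorem G4_bet_pos (hγ : ∀ k, 0 < γ k) (a : ℕ) {ℓ : ℕ} (h0 : 0 < ℓ) :
    0 < bet γ a ℓ := by
  unfold bet
  have : 0 < ∑ i ∈ range ℓ, γ (a + i) :=
    Finset.sum_pos (fun i _ => hγ _) (by simpa using h0.ne')
  linarith

private theorem G4_bet_lt (hγ : ∀ k, 0 < γ k) (hper : ∀ k, γ (k + n) = γ k)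
    (hsum : ∑ i ∈ range n, γ i = 2 * π) (a : ℕ) {ℓ : ℕ} (h1 : ℓ < n) : bet γ a ℓ < π := by
  have h := G4_bet_add (γ := γ) a ℓ (n - ℓ)
  rw [Nat.add_sub_cancel' h1.le, G4_bet_full hper hsum] at h
  have := G4_bet_pos hγ (a + ℓ) (Nat.sub_pos_of_lt h1)
  linarith

private theorem G4_sum_bet (hper : ∀ k, γ (k + n) = γ k) (hsum : ∑ i ∈ range n, γ i = 2 * π)
    (ℓ : ℕ) : ∑ a ∈ range n, bet γ a ℓ = ℓ * π := by
  unfold bet
  rw [← Finset.sum_div, Finset.sum_comm]
  have : ∀ i ∈ range ℓ, ∑ a ∈ range n, γ (a + i) = 2 * π := by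
    intro i _
    rw [← hsum, ← G4_per hper i]
    refine Finset.sum_congr rfl fun j _ => ?_
    rw [add_comm]
  rw [Finset.sum_congr rfl this]
  simp; ring

/-- positive deviation -/
private theorem G4_pos (hn : 3 ≤ n) (hγ : ∀ k, 0 < γ k)
    (hper : ∀ k, γ (k + n) = γ k) (hsum : ∑ i ∈ range n, γ i = 2 * π) {B : ℝ}
    (hS : ∑ ℓ ∈ Ico 1 n, ∑ a ∈ range n, (bet γ a ℓ - ℓ * (π / n)) ^ 2 ≤ 2 * B * n ^ 2)
    (a ℓ : ℕ) (h0 : 0 < ℓ) (h1 : ℓ < n) (hs : 0 ≤ bet γ a ℓ - ℓ * (π / n)) :
    (bet γ a ℓ - ℓ * (π / n)) ^ 4 ≤ 1300 * B := by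
  have hn0 : (0 : ℝ) < n := by exact_mod_cast (by omega : 0 < n)
  set x : ℝ := π / n with hx
  have hx0 : 0 < x := div_pos pi_pos hn0
  have hnx : n * x = π := by rw [hx]; field_simp
  set s := bet γ a ℓ - ℓ * x with hsdef
  set J : ℕ := ⌊s / (4 * x)⌋₊ with hJ
  have hJ1 : (J : ℝ) ≤ s / (4 * x) := Nat.floor_le (by positivity)
  have hJ2 : s / (4 * x) < J + 1 := Nat.lt_floor_add_one _
  have hJx : (J : ℝ) * x ≤ s / 4 := by
    rw [le_div_iff₀ (by positivity)] at hJ1
    linarith
  have hblt := G4_bet_lt hγ hper hsum a h1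
  have hsπ : s + ℓ * x < π := by rw [hsdef]; linarith
  have hℓx : 0 < ℓ * x := mul_pos (by exact_mod_cast h0) hx0
  have hJn : J < n := by
    have : (J : ℝ) * x < n * x := by rw [hnx]; linarith
    exact_mod_cast lt_of_mul_lt_mul_right this hx0.le
  -- windows
  have hwin : ∀ i ∈ range (J + 1), ∀ j ∈ range (J + 1),
      s / 2 ≤ bet γ (a + n - i) (ℓ + i + j) - ((ℓ + i + j : ℕ) : ℝ) * x ∧ ℓ + i + j < n := by
    intro i hi j hj
    have hi' : i ≤ J := by simpa [Nat.lt_succ_iff] using hi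
    have hj' : j ≤ J := by simpa [Nat.lt_succ_iff] using hj
    have hiR : (i : ℝ) * x ≤ s / 4 := le_trans (by gcongr) hJx
    have hjR : (j : ℝ) * x ≤ s / 4 := le_trans (by gcongr) hJx
    have e1 : bet γ (a + n - i) (ℓ + i + j) =
        bet γ (a + n - i) i + bet γ a ℓ + bet γ (a + n + ℓ) j := by
      have : ℓ + i + j = i + (ℓ + j) := by ring
      rw [this, G4_bet_add, G4_bet_add, Nat.sub_add_cancel (by omega), G4_bet_per hper]
      ring
    have n1 := G4_bet_nonneg hγ (a + n - i) i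
    have n2 := G4_bet_nonneg hγ (a + n + ℓ) j
    constructor
    · rw [e1]; push_cast
      have : s = bet γ a ℓ - ℓ * x := hsdef
      nlinarith
    · have : ((ℓ + i + j : ℕ) : ℝ) * x < n * x := by
        rw [hnx]; push_cast
        nlinarith
      exact_mod_cast lt_of_mul_lt_mul_right this hx0.le
  -- the sum over the windows
  set S : ℕ → ℕ → ℝ := fun b m => (bet γ b m - m * x) ^ 2 with hSdef
  have hper' : ∀ m k, S (k + n) m = S k m := by
    intro m k; simp only [hSdef]; rw [G4_bet_per hper]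
  have hc : ∀ m, ∑ b ∈ Ico (a + n - J) (a + n - J + n), S b m = ∑ b ∈ range n, S b m := by
    intro m
    rw [Finset.sum_Ico_eq_sum_range]
    have : a + n - J + n - (a + n - J) = n := by omega
    rw [this]
    exact G4_per (f := fun b => S b m) (hper' m) _
  have hlow : ∑ i ∈ range (J + 1), ∑ j ∈ range (J + 1), (s / 2) ^ 2 ≤
      ∑ m ∈ Ico 1 n, ∑ b ∈ Ico (a + n - J) (a + n - J + n), S b m := by
    rw [← Finset.sum_product', ← Finset.sum_product']
    let φ : ℕ × ℕ → ℕ × ℕ := fun p => (ℓ + p.1 + p.2, a + n - p.1)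
    have hinj : Set.InjOn φ (range (J + 1) ×ˢ range (J + 1) : Finset (ℕ × ℕ)) := by
      rintro ⟨i, j⟩ hp ⟨i', j'⟩ hp' h
      simp only [Finset.coe_product, Set.mem_prod, Finset.coe_range, Set.mem_Iio] at hp hp'
      simp only [φ, Prod.mk.injEq] at h
      ext <;> simp <;> omega
    calc ∑ p ∈ range (J + 1) ×ˢ range (J + 1), (s / 2) ^ 2
        ≤ ∑ p ∈ range (J + 1) ×ˢ range (J + 1), S (φ p).2 (φ p).1 := by
          refine Finset.sum_le_sum fun p hp => ?_
          rw [Finset.mem_product] at hp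
          have := (hwin p.1 hp.1 p.2 hp.2).1
          simp only [hSdef, φ]
          exact pow_le_pow_left₀ (by linarith) this 2
      _ = ∑ q ∈ (range (J + 1) ×ˢ range (J + 1)).image φ, S q.2 q.1 := by
          rw [Finset.sum_image hinj]
      _ ≤ ∑ q ∈ Ico 1 n ×ˢ Ico (a + n - J) (a + n - J + n), S q.2 q.1 := by
          refine Finset.sum_le_sum_of_subset_of_nonneg ?_ fun q _ _ => by
            simp only [hSdef]; positivity
          intro q hq
          rw [Finset.mem_image] at hq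
          obtain ⟨p, hp, rfl⟩ := hq
          rw [Finset.mem_product] at hp
          have h2 := (hwin p.1 hp.1 p.2 hp.2).2
          have h3 := hp.1
          rw [Finset.mem_range] at h3
          simp only [φ, Finset.mem_product, Finset.mem_Ico]
          omega
  have hfin : ((J : ℝ) + 1) ^ 2 * (s / 2) ^ 2 ≤ 2 * B * n ^ 2 := by
    calc ((J : ℝ) + 1) ^ 2 * (s / 2) ^ 2
        = ∑ i ∈ range (J + 1), ∑ j ∈ range (J + 1), (s / 2) ^ 2 := by
          simp; ring
      _ ≤ _ := hlow
      _ = ∑ m ∈ Ico 1 n, ∑ b ∈ range n, S b m := Finset.sum_congr rfl fun m _ => hc m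
      _ ≤ _ := hS
  have h5 : (s / (4 * x)) ^ 2 * (s / 2) ^ 2 ≤ 2 * B * n ^ 2 := by
    refine le_trans ?_ hfin
    gcongr
  have h6 : (s / (4 * x)) ^ 2 * (s / 2) ^ 2 = s ^ 4 * n ^ 2 / (64 * π ^ 2) := by
    rw [← hnx]; field_simp; ring
  rw [h6, div_le_iff₀ (by positivity)] at h5
  have h7 : s ^ 4 ≤ 128 * π ^ 2 * B := by
    have : s ^ 4 * n ^ 2 ≤ (128 * π ^ 2 * B) * n ^ 2 := by nlinarith
    exact le_of_mul_le_mul_right this (by positivity)
  have hB : 0 ≤ B := by
    have : 0 ≤ s ^ 4 := by positivity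
    by_contra hB
    push Not at hB
    have : 128 * π ^ 2 * B < 0 := mul_neg_of_pos_of_neg (by positivity) hB
    linarith
  have hπ : π ^ 2 ≤ 10 := by nlinarith [pi_lt_d2, pi_pos]
  have hπ2 : 128 * π ^ 2 ≤ 1300 := by linarith
  calc s ^ 4 ≤ 128 * π ^ 2 * B := h7
    _ ≤ 1300 * B := by gcongr

theorem angle_near {n : ℕ} (hn : 3 ≤ n) {γ : ℕ → ℝ} (hγ : ∀ k, 0 < γ k)
    (hper : ∀ k, γ (k + n) = γ k) (hsum : ∑ i ∈ range n, γ i = 2 * π) {B : ℝ}
    (hD : ∑ ℓ ∈ Ico 1 n, ∑ a ∈ range n,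
      -log (sin (bet γ a ℓ) / sin (ℓ * (π / n))) ≤ B * n ^ 2) (a ℓ : ℕ) (h0 : 0 < ℓ)
    (h1 : ℓ < n) : (bet γ a ℓ - ℓ * (π / n)) ^ 4 ≤ 1300 * B := by
  have hn0 : (0 : ℝ) < n := by exact_mod_cast (by omega : 0 < n)
  have hx0 : 0 < π / n := div_pos pi_pos hn0
  have hnx : n * (π / n) = π := by field_simp
  have hS : ∑ ℓ ∈ Ico 1 n, ∑ a ∈ range n, (bet γ a ℓ - ℓ * (π / n)) ^ 2 ≤ 2 * B * n ^ 2 := by
    have key : ∀ ℓ ∈ Ico 1 n, ∑ a ∈ range n, (bet γ a ℓ - ℓ * (π / n)) ^ 2 / 2 ≤
        ∑ a ∈ range n, -log (sin (bet γ a ℓ) / sin (ℓ * (π / n))) := by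
      intro ℓ hℓ
      rw [Finset.mem_Ico] at hℓ
      set y : ℝ := ℓ * (π / n) with hy
      have hy0 : 0 < y := mul_pos (by exact_mod_cast hℓ.1) hx0
      have hy1 : y < π := by
        rw [← hnx, hy]
        have : (ℓ : ℝ) < n := by exact_mod_cast hℓ.2
        gcongr
      have hz : ∑ a ∈ range n, (bet γ a ℓ - y) = 0 := by
        rw [Finset.sum_sub_distrib, G4_sum_bet hper hsum]
        simp [hy]; field_simp; ring
      calc ∑ a ∈ range n, (bet γ a ℓ - y) ^ 2 / 2
          = -(cos y / sin y) * ∑ a ∈ range n, (bet γ a ℓ - y) +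
              ∑ a ∈ range n, (bet γ a ℓ - y) ^ 2 / 2 := by rw [hz]; ring
        _ = ∑ a ∈ range n, (-(cos y / sin y) * (bet γ a ℓ - y) +
              (bet γ a ℓ - y) ^ 2 / 2) := by
            rw [Finset.mul_sum, ← Finset.sum_add_distrib]
        _ ≤ _ := Finset.sum_le_sum fun a _ =>
            G4_log hy0 hy1 (G4_bet_pos hγ a hℓ.1) (G4_bet_lt hγ hper hsum a hℓ.2)
    have := (Finset.sum_le_sum key).trans hD
    simp only [← Finset.sum_div] at this
    linarith
  rcases le_total 0 (bet γ a ℓ - ℓ * (π / n)) with hs | hs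
  · exact G4_pos hn hγ hper hsum hS a ℓ h0 h1 hs
  · have hb := G4_bet_add (γ := γ) a ℓ (n - ℓ)
    rw [Nat.add_sub_cancel' h1.le, G4_bet_full hper hsum] at hb
    have e : bet γ (a + ℓ) (n - ℓ) - ((n - ℓ : ℕ) : ℝ) * (π / n) =
        -(bet γ a ℓ - ℓ * (π / n)) := by
      rw [Nat.cast_sub h1.le]
      nlinarith
    have := G4_pos hn hγ hper hsum hS (a + ℓ) (n - ℓ) (by omega) (by omega) (by rw [e]; linarith)
    rw [e] at this
    have e4 : (-(bet γ a ℓ - ℓ * (π / n))) ^ 4 = (bet γ a ℓ - ℓ * (π / n)) ^ 4 := by ring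
    rw [e4] at this
    exact this

end Pool.Agent.Lib.MP_e1dd62_co.Big
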