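import Pool.Agent.Lib.MP_e1dd62_co.Big.Defs

/-!
# Windows: algebra
-/

namespace Pool.Agent.Lib.MP_e1dd62_co.Big

open Finset Real

variable {n : ℕ} [NeZero n]

theorem X_sm {r : ℕ} (hr : 0 < r) (u t : ZMod n → ℝ) (a : ZMod n) (ℓ : ℕ) :
    X (sm r u) (sm r t) a ℓ = sm r (fun b => X u t b ℓ) a := by
  have hr' : (r : ℝ) ≠ 0 := by positivity
  have h : ∀ m : ℕ, a + (ℓ : ZMod n) + (m : ZMod n) = a + (m : ZMod n) + (ℓ : ZMod n) :=
    fun m => by ring
  simp only [X, sm, h, sum_add_distrib, ← sum_div, ← mul_sum, sum_sub_distrib, sum_const,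
    card_range, nsmul_eq_mul, mul_one]
  field_simp

theorem Y_sm {r : ℕ} (hr : 0 < r) (u t : ZMod n → ℝ) (a : ZMod n) (ℓ : ℕ) :
    Y (sm r u) (sm r t) a ℓ = sm r (fun b => Y u t b ℓ) a := by
  have hr' : (r : ℝ) ≠ 0 := by positivity
  have h : ∀ m : ℕ, a + (ℓ : ZMod n) + (m : ZMod n) = a + (m : ZMod n) + (ℓ : ZMod n) :=
    fun m => by ring
  simp only [Y, sm, h, sum_add_distrib, ← sum_div, ← mul_sum, sum_sub_distrib]
  field_simp

theorem W1_shift (f : ZMod n → ℝ) (c : ZMod n) : ∑ a, f (a + c) = ∑ a, f a :=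
  Equiv.sum_comp (Equiv.addRight c) f

theorem sum_sm {r : ℕ} (hr : 0 < r) (f : ZMod n → ℝ) : ∑ a, sm r f a = ∑ a, f a := by
  have hr' : (r : ℝ) ≠ 0 := by positivity
  simp only [sm]
  rw [← sum_div, sum_comm]
  simp only [W1_shift, sum_const, card_range, nsmul_eq_mul]
  field_simp

theorem Bal.sm {r : ℕ} (hr : 0 < r) {u t : ZMod n → ℝ} (h : Bal u t) : Bal (sm r u) (sm r t) := by
  refine ⟨?_, ?_, ?_⟩
  · rw [sum_sm hr, h.su]
  · rw [sum_sm hr, h.st]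
  · have key : ∀ m : ℕ, ∑ a : ZMod n, ((u (a + (m : ZMod n)) : ℂ) +
        (t (a + (m : ZMod n)) : ℂ) * Complex.I) * ZMod.stdAddChar a = 0 := by
      intro m
      have h1 : ∀ a : ZMod n, ((u (a + (m : ZMod n)) : ℂ) +
          (t (a + (m : ZMod n)) : ℂ) * Complex.I) * ZMod.stdAddChar a =
          (fun b : ZMod n => ZMod.stdAddChar (-(m : ZMod n)) *
            (((u b : ℂ) + (t b : ℂ) * Complex.I) * ZMod.stdAddChar b)) (a + (m : ZMod n)) := by
        intro a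
        have h2 : (ZMod.stdAddChar a : ℂ) =
            ZMod.stdAddChar (-(m : ZMod n)) * ZMod.stdAddChar (a + (m : ZMod n)) := by
          rw [← AddChar.map_add_eq_mul]
          congr 1
          ring
        simp only
        rw [h2]
        ring
      rw [Finset.sum_congr rfl (fun a _ => h1 a)]
      refine (Equiv.sum_comp (Equiv.addRight (m : ZMod n)) (fun b : ZMod n =>
        ZMod.stdAddChar (-(m : ZMod n)) *
            (((u b : ℂ) + (t b : ℂ) * Complex.I) * ZMod.stdAddChar b))).trans ?_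
      rw [← mul_sum, h.cen, mul_zero]
    have h3 : ∀ a : ZMod n, ((Big.sm r u a : ℂ) + (Big.sm r t a : ℂ) * Complex.I) *
        ZMod.stdAddChar a = (∑ m ∈ range r, ((u (a + (m : ZMod n)) : ℂ) +
        (t (a + (m : ZMod n)) : ℂ) * Complex.I) * ZMod.stdAddChar a) / (r : ℂ) := by
      intro a
      simp only [Big.sm]
      push_cast
      rw [← sum_mul, sum_add_distrib, ← sum_mul]
      ring
    rw [Finset.sum_congr rfl (fun a _ => h3 a), ← sum_div, sum_comm]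
    simp only [key, sum_const_zero, zero_div]

theorem sum_X {u : ZMod n → ℝ} (h : ∑ a, u a = 0) (t : ZMod n → ℝ) (ℓ : ℕ) :
    ∑ a, X u t a ℓ = n := by
  simp only [X, sum_add_distrib, ← sum_div, ← mul_sum, sum_sub_distrib, sum_const, W1_shift, h,
    card_univ, ZMod.card, nsmul_eq_mul]
  ring

theorem W1_ct_symm {ℓ : ℕ} (h1 : ℓ < n) : ct n (n - ℓ) = - ct n ℓ := by
  have hn : (n : ℝ) ≠ 0 := by
    have := NeZero.ne n
    exact_mod_cast this
  have h : ((n - ℓ : ℕ) : ℝ) * (π / n) = π - ℓ * (π / n) := by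
    rw [Nat.cast_sub h1.le]
    field_simp
  unfold ct
  rw [h, cos_pi_sub, sin_pi_sub, neg_div]

theorem W1_cast {ℓ : ℕ} (h1 : ℓ < n) (a : ZMod n) :
    a + (ℓ : ZMod n) + ((n - ℓ : ℕ) : ZMod n) = a := by
  rw [Nat.cast_sub h1.le]
  simp

theorem X_symm {ℓ : ℕ} (h0 : 0 < ℓ) (h1 : ℓ < n) (u t : ZMod n → ℝ) (a : ZMod n) :
    X u t (a + (ℓ : ZMod n)) (n - ℓ) = X u t a ℓ := by
  unfold X
  rw [W1_cast h1, W1_ct_symm h1]
  ring

theorem Y_symm {ℓ : ℕ} (h0 : 0 < ℓ) (h1 : ℓ < n) (u t : ZMod n → ℝ) (a : ZMod n) :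
    Y u t (a + (ℓ : ZMod n)) (n - ℓ) = Y u t a ℓ := by
  unfold Y
  rw [W1_cast h1, W1_ct_symm h1]
  ring

theorem W1_sin_pos {ℓ : ℕ} (h0 : 0 < ℓ) (h1 : ℓ < n) : 0 < sin (ℓ * (π / n)) := by
  have hn : (0 : ℝ) < n := by
    have := NeZero.pos n
    exact_mod_cast this
  have hl : (0 : ℝ) < ℓ := by exact_mod_cast h0
  have hln : (ℓ : ℝ) < n := by exact_mod_cast h1
  apply sin_pos_of_pos_of_lt_pi
  · have := pi_pos
    positivity
  · have h2 : (ℓ : ℝ) * (π / n) = π * (ℓ / n) := by ring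
    rw [h2]
    have h3 : (ℓ : ℝ) / n < 1 := (div_lt_one hn).mpr hln
    calc π * (ℓ / n) < π * 1 := mul_lt_mul_of_pos_left h3 pi_pos
      _ = π := mul_one _

/-- the symmetric form of the chord identity -/
theorem W1_key {ℓ : ℕ} (h0 : 0 < ℓ) (h1 : ℓ < n) (u t : ZMod n → ℝ) (a : ZMod n) :
    ((X u t a ℓ : ℂ) + (Y u t a ℓ : ℂ) * Complex.I) *
        (2 * Complex.I * (sin (ℓ * (π / n)) : ℝ)) =
      Complex.exp (((ℓ * (π / n) : ℝ) : ℂ) * Complex.I) *
        (1 + (u (a + (ℓ : ZMod n)) : ℂ) + (t (a + (ℓ : ZMod n)) : ℂ) * Complex.I) -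
      Complex.exp (((-(ℓ * (π / n)) : ℝ) : ℂ) * Complex.I) *
        (1 + (u a : ℂ) + (t a : ℂ) * Complex.I) := by
  have hs : sin (ℓ * (π / n)) ≠ 0 := (W1_sin_pos h0 h1).ne'
  generalize hθ : (ℓ : ℝ) * (π / n) = θ at hs ⊢
  have hs' : ((sin θ : ℝ) : ℂ) ≠ 0 := by exact_mod_cast hs
  have hX : (X u t a ℓ : ℂ) * (sin θ : ℝ) = (sin θ : ℝ) + (sin θ : ℝ) *
      ((u a : ℂ) + u (a + (ℓ : ZMod n))) / 2 + (cos θ : ℝ) / 2 *
        (t (a + (ℓ : ZMod n)) - t a) := by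
    have : X u t a ℓ * sin θ = sin θ + sin θ * (u a + u (a + (ℓ : ZMod n))) / 2 + cos θ / 2 *
        (t (a + (ℓ : ZMod n)) - t a) := by
      unfold X ct
      rw [hθ]
      field_simp
    exact_mod_cast this
  have hY : (Y u t a ℓ : ℂ) * (sin θ : ℝ) = (sin θ : ℝ) *
      ((t a : ℂ) + t (a + (ℓ : ZMod n))) / 2 - (cos θ : ℝ) / 2 *
        (u (a + (ℓ : ZMod n)) - u a) := by
    have : Y u t a ℓ * sin θ = sin θ * (t a + t (a + (ℓ : ZMod n))) / 2 - cos θ / 2 *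
        (u (a + (ℓ : ZMod n)) - u a) := by
      unfold Y ct
      rw [hθ]
      field_simp
    exact_mod_cast this
  have he1 : Complex.exp ((θ : ℂ) * Complex.I) = (cos θ : ℝ) + (sin θ : ℝ) * Complex.I := by
    rw [Complex.exp_mul_I]
    push_cast
    rfl
  have he2 : Complex.exp (((-θ : ℝ) : ℂ) * Complex.I) =
      (cos θ : ℝ) - (sin θ : ℝ) * Complex.I := by
    rw [Complex.exp_mul_I]
    push_cast
    rw [Complex.cos_neg, Complex.sin_neg]
    ring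
  rw [he1, he2]
  generalize (X u t a ℓ : ℂ) = x at *
  generalize (Y u t a ℓ : ℂ) = y at *
  generalize ((sin θ : ℝ) : ℂ) = s at *
  generalize ((cos θ : ℝ) : ℂ) = c at *
  have hI := Complex.I_sq
  linear_combination (2 * Complex.I) * hX + 2 * Complex.I ^ 2 * hY +
    (c * (u a - u (a + (ℓ : ZMod n)))) * hI

/-- multiplication of the relative chord by the chord of the regular polygon -/
theorem chord {ℓ : ℕ} (h0 : 0 < ℓ) (h1 : ℓ < n) (u t : ZMod n → ℝ) (a : ZMod n) :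
    ((X u t a ℓ : ℂ) + (Y u t a ℓ : ℂ) * Complex.I) *
        (Complex.exp (2 * π * Complex.I * ℓ / n) - 1) =
      Complex.exp (2 * π * Complex.I * ℓ / n) *
        (1 + (u (a + (ℓ : ZMod n)) : ℂ) + (t (a + (ℓ : ZMod n)) : ℂ) * Complex.I) -
      (1 + (u a : ℂ) + (t a : ℂ) * Complex.I) := by
  have hk := W1_key h0 h1 u t a
  have e1 : Complex.exp (2 * π * Complex.I * ℓ / n) =
      Complex.exp (((ℓ * (π / n) : ℝ) : ℂ) * Complex.I) *
        Complex.exp (((ℓ * (π / n) : ℝ) : ℂ) * Complex.I) := by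
    rw [← Complex.exp_add]
    congr 1
    push_cast
    ring
  have e2 : Complex.exp (((-(ℓ * (π / n)) : ℝ) : ℂ) * Complex.I) *
      Complex.exp (((ℓ * (π / n) : ℝ) : ℂ) * Complex.I) = 1 := by
    rw [← Complex.exp_add, ← Complex.exp_zero]
    congr 1
    push_cast
    ring
  have e3 : (2 * Complex.I * (sin (ℓ * (π / n)) : ℝ) : ℂ) =
      Complex.exp (((ℓ * (π / n) : ℝ) : ℂ) * Complex.I) -
        Complex.exp (((-(ℓ * (π / n)) : ℝ) : ℂ) * Complex.I) := by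
    rw [Complex.exp_mul_I, Complex.exp_mul_I]
    push_cast
    rw [Complex.cos_neg, Complex.sin_neg]
    ring
  rw [e3] at hk
  rw [e1]
  generalize Complex.exp (((ℓ * (π / n) : ℝ) : ℂ) * Complex.I) = E at *
  generalize Complex.exp (((-(ℓ * (π / n)) : ℝ) : ℂ) * Complex.I) = E' at *
  linear_combination E * hk + (((X u t a ℓ : ℂ) + (Y u t a ℓ : ℂ) * Complex.I) -
    (1 + (u a : ℂ) + (t a : ℂ) * Complex.I)) * e2

/-- telescoping -/
theorem W1_sum {ℓ : ℕ} (h0 : 0 < ℓ) (h1 : ℓ < n) (u t : ZMod n → ℝ) (a : ZMod n) :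
    ((X u t a ℓ : ℂ) + (Y u t a ℓ : ℂ) * Complex.I) * (sin (ℓ * (π / n)) : ℝ) =
      (sin (π / n) : ℝ) * ∑ k ∈ range ℓ,
        (((X u t (a + (k : ZMod n)) 1 : ℝ) : ℂ) + ((Y u t (a + (k : ZMod n)) 1 : ℝ) : ℂ) *
          Complex.I) * Complex.exp ((((2 * k + 1 - ℓ) * (π / n) : ℝ) : ℂ) * Complex.I) := by
  have h1n : 1 < n := by omega
  set Q : ℕ → ℂ := fun k => 1 + (u (a + (k : ZMod n)) : ℂ) +
    (t (a + (k : ZMod n)) : ℂ) * Complex.I with hQ
  set W : ℕ → ℂ := fun k =>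
    Complex.exp ((((2 * k - ℓ) * (π / n) : ℝ) : ℂ) * Complex.I) * Q k with hW
  have hI : (2 * Complex.I) ≠ 0 := by simp
  have hstep : ∀ k : ℕ, (2 * Complex.I) * ((sin (π / n) : ℝ) *
      ((((X u t (a + (k : ZMod n)) 1 : ℝ) : ℂ) + ((Y u t (a + (k : ZMod n)) 1 : ℝ) : ℂ) *
          Complex.I) * Complex.exp ((((2 * k + 1 - ℓ) * (π / n) : ℝ) : ℂ) * Complex.I))) =
      W (k + 1) - W k := by
    intro k
    have hk := W1_key (n := n) Nat.one_pos h1n u t (a + (k : ZMod n))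
    rw [Nat.cast_one, one_mul] at hk
    have e1 : Complex.exp ((((2 * (k + 1 : ℕ) - ℓ) * (π / n) : ℝ) : ℂ) * Complex.I) =
        Complex.exp ((((2 * k + 1 - ℓ) * (π / n) : ℝ) : ℂ) * Complex.I) *
          Complex.exp (((π / n : ℝ) : ℂ) * Complex.I) := by
      rw [← Complex.exp_add]
      congr 1
      push_cast
      ring
    have e2 : Complex.exp ((((2 * k - ℓ) * (π / n) : ℝ) : ℂ) * Complex.I) =
        Complex.exp ((((2 * k + 1 - ℓ) * (π / n) : ℝ) : ℂ) * Complex.I) *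
          Complex.exp (((-(π / n) : ℝ) : ℂ) * Complex.I) := by
      rw [← Complex.exp_add]
      congr 1
      push_cast
      ring
    have e3 : Q (k + 1) = 1 + (u (a + (k : ZMod n) + ((1 : ℕ) : ZMod n)) : ℂ) +
        (t (a + (k : ZMod n) + ((1 : ℕ) : ZMod n)) : ℂ) * Complex.I := by
      simp only [hQ]
      rw [Nat.cast_add, add_assoc a]
    simp only [hW]
    rw [e1, e2, e3]
    simp only [hQ]
    linear_combination (Complex.exp ((((2 * k + 1 - ℓ) * (π / n) : ℝ) : ℂ) * Complex.I)) * hk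
  have hl := W1_key h0 h1 u t a
  apply mul_left_cancel₀ hI
  rw [mul_sum, mul_sum, Finset.sum_congr rfl (fun k _ => hstep k), Finset.sum_range_sub]
  have e4 : W ℓ = Complex.exp (((ℓ * (π / n) : ℝ) : ℂ) * Complex.I) *
        (1 + (u (a + (ℓ : ZMod n)) : ℂ) + (t (a + (ℓ : ZMod n)) : ℂ) * Complex.I) := by
    simp only [hW, hQ]
    congr 3
    push_cast
    ring
  have e5 : W 0 = Complex.exp (((-(ℓ * (π / n)) : ℝ) : ℂ) * Complex.I) *
        (1 + (u a : ℂ) + (t a : ℂ) * Complex.I) := by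
    simp only [hW, hQ, Nat.cast_zero, add_zero]
    congr 3
    push_cast
    ring
  rw [e4, e5, ← hl]
  ring

theorem X_eq_sum {ℓ : ℕ} (h0 : 0 < ℓ) (h1 : ℓ < n) (u t : ZMod n → ℝ) (a : ZMod n) :
    X u t a ℓ * sin (ℓ * (π / n)) = sin (π / n) * ∑ k ∈ range ℓ,
      (X u t (a + (k : ZMod n)) 1 * cos ((2 * k + 1 - ℓ) * (π / n)) -
        Y u t (a + (k : ZMod n)) 1 * sin ((2 * k + 1 - ℓ) * (π / n))) := by
  have h := congrArg Complex.re (W1_sum h0 h1 u t a)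
  rw [Complex.re_mul_ofReal, Complex.re_ofReal_mul, Complex.re_sum] at h
  have e : ∀ k ∈ range ℓ, ((((X u t (a + (k : ZMod n)) 1 : ℝ) : ℂ) +
      ((Y u t (a + (k : ZMod n)) 1 : ℝ) : ℂ) *
          Complex.I) * Complex.exp ((((2 * k + 1 - ℓ) * (π / n) : ℝ) : ℂ) * Complex.I)).re =
      X u t (a + (k : ZMod n)) 1 * cos ((2 * k + 1 - ℓ) * (π / n)) -
        Y u t (a + (k : ZMod n)) 1 * sin ((2 * k + 1 - ℓ) * (π / n)) := by
    intro k _
    rw [Complex.mul_re, Complex.exp_ofReal_mul_I_re, Complex.exp_ofReal_mul_I_im]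
    simp
  rw [Finset.sum_congr rfl e] at h
  have e0 : ((X u t a ℓ : ℂ) + (Y u t a ℓ : ℂ) * Complex.I).re = X u t a ℓ := by simp
  rw [e0] at h
  exact h

theorem Y_eq_sum {ℓ : ℕ} (h0 : 0 < ℓ) (h1 : ℓ < n) (u t : ZMod n → ℝ) (a : ZMod n) :
    Y u t a ℓ * sin (ℓ * (π / n)) = sin (π / n) * ∑ k ∈ range ℓ,
      (X u t (a + (k : ZMod n)) 1 * sin ((2 * k + 1 - ℓ) * (π / n)) +
        Y u t (a + (k : ZMod n)) 1 * cos ((2 * k + 1 - ℓ) * (π / n))) := by
  have h := congrArg Complex.im (W1_sum h0 h1 u t a)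
  rw [Complex.im_mul_ofReal, Complex.im_ofReal_mul, Complex.im_sum] at h
  have e : ∀ k ∈ range ℓ, ((((X u t (a + (k : ZMod n)) 1 : ℝ) : ℂ) +
      ((Y u t (a + (k : ZMod n)) 1 : ℝ) : ℂ) *
          Complex.I) * Complex.exp ((((2 * k + 1 - ℓ) * (π / n) : ℝ) : ℂ) * Complex.I)).im =
      X u t (a + (k : ZMod n)) 1 * sin ((2 * k + 1 - ℓ) * (π / n)) +
        Y u t (a + (k : ZMod n)) 1 * cos ((2 * k + 1 - ℓ) * (π / n)) := by
    intro k _
    rw [Complex.mul_im, Complex.exp_ofReal_mul_I_re, Complex.exp_ofReal_mul_I_im]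
    simp
  rw [Finset.sum_congr rfl e] at h
  have e0 : ((X u t a ℓ : ℂ) + (Y u t a ℓ : ℂ) * Complex.I).im = Y u t a ℓ := by simp
  rw [e0] at h
  exact h

theorem u_step (hn : 3 ≤ n) (u t : ZMod n → ℝ) (a : ZMod n) :
    u (a + 1) - u a = tan (π / n) * ((t a + t (a + 1)) - 2 * Y u t a 1) := by
  have hs : sin (π / n) ≠ 0 := by
    have := W1_sin_pos (n := n) Nat.one_pos (by omega)
    rw [Nat.cast_one, one_mul] at this
    exact this.ne'
  have hn' : (3 : ℝ) ≤ n := by exact_mod_cast hn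
  have hc : cos (π / n) ≠ 0 := by
    have h1 : π / n < π / 2 := div_lt_div_of_pos_left pi_pos (by norm_num) (by linarith)
    have h2 : 0 < π / n := div_pos pi_pos (by linarith)
    exact (cos_pos_of_mem_Ioo ⟨by linarith, h1⟩).ne'
  unfold Y ct
  rw [Nat.cast_one, Nat.cast_one, one_mul, tan_eq_sin_div_cos]
  field_simp
  ring

end Pool.Agent.Lib.MP_e1dd62_co.Big
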