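import Pool.Agent.Lib.MP_e1dd62_co.Big.G1
import Pool.Agent.Lib.MP_e1dd62_co.Big.G2
import Pool.Agent.Lib.MP_e1dd62_co.Big.G3
import Pool.Agent.Lib.MP_e1dd62_co.Big.G4
import Pool.Agent.Lib.MP_e1dd62_co.Big.W1

/-!
# A convex polygon with large energy is near the regular one
-/

namespace Pool.Agent.Lib.MP_e1dd62_co.Big

open Finset Real

namespace G5

/-- the angle of the side -/
noncomputable def gam (W : ℕ → ℂ) (k : ℕ) : ℝ := Complex.arg (W (k + 1) / W k)

/-- the logarithm of the modulus -/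
noncomputable def lam (W : ℕ → ℂ) (k : ℕ) : ℝ := log ‖W k‖

lemma exp_lam {W : ℕ → ℂ} (h0 : ∀ k, W k ≠ 0) (k : ℕ) :
    Complex.exp (lam W k) = (‖W k‖ : ℂ) := by
  rw [← Complex.ofReal_exp, lam, exp_log (norm_pos_iff.2 (h0 k))]

lemma step {W : ℕ → ℂ} (h0 : ∀ k, W k ≠ 0) (k : ℕ) :
    W (k + 1) * Complex.exp (lam W k) = W k * Complex.exp (lam W (k + 1)) *
      Complex.exp ((gam W k : ℝ) * Complex.I) := by
  rw [exp_lam h0, exp_lam h0]
  have hz : ‖W (k + 1)‖ = ‖W k‖ * ‖W (k + 1) / W k‖ := by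
    rw [norm_div]
    have := norm_ne_zero_iff.2 (h0 k)
    field_simp
  have hz2 := Complex.norm_mul_exp_arg_mul_I (W (k + 1) / W k)
  rw [hz]
  push_cast
  calc W (k + 1) * (‖W k‖ : ℂ) = W k * (‖W k‖ : ℂ) * (W (k + 1) / W k) := by
        have := h0 k
        field_simp
    _ = W k * (‖W k‖ : ℂ) * ((‖W (k + 1) / W k‖ : ℂ) *
          Complex.exp ((Complex.arg (W (k + 1) / W k) : ℂ) * Complex.I)) := by rw [hz2]
    _ = _ := by unfold gam; ring

lemma steps {W : ℕ → ℂ} (h0 : ∀ k, W k ≠ 0) (k ℓ : ℕ) :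
    W (k + ℓ) * Complex.exp (lam W k) = W k * Complex.exp (lam W (k + ℓ)) *
      Complex.exp ((2 * bet (gam W) k ℓ : ℝ) * Complex.I) := by
  induction ℓ with
  | zero => simp [bet]
  | succ ℓ ih =>
    have h1 := step h0 (k + ℓ)
    have e : 2 * bet (gam W) k (ℓ + 1) = 2 * bet (gam W) k ℓ + gam W (k + ℓ) := by
      unfold bet; rw [sum_range_succ]; ring
    have hne : Complex.exp (lam W (k + ℓ)) ≠ 0 := Complex.exp_ne_zero _
    rw [e]
    push_cast
    rw [add_mul, Complex.exp_add]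
    apply mul_right_cancel₀ hne
    rw [← add_assoc]
    calc W (k + ℓ + 1) * Complex.exp (lam W k) * Complex.exp (lam W (k + ℓ))
        = (W (k + ℓ + 1) * Complex.exp (lam W (k + ℓ))) * Complex.exp (lam W k) := by ring
      _ = (W (k + ℓ) * Complex.exp (lam W k)) * Complex.exp (lam W (k + ℓ + 1)) *
            Complex.exp ((gam W (k + ℓ) : ℝ) * Complex.I) := by rw [h1]; ring
      _ = _ := by
          rw [ih]
          push_cast
          ring

/-- The angles. -/
lemma angles {η ρ : ℝ} (hη : 0 < η) (hη1 : η ≤ 1 / 100) (hρ : ρ = η ^ 4 / 26000) {n : ℕ}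
    (hn : 3 ≤ n) {W : ℕ → ℂ} (hW : IsPoly n W)
    (hL : ∑ i ∈ range n, ‖W (i + 1) - W i‖ ≤ 2 * π)
    (hE : (n : ℝ) * log n ≤ ∑ ℓ ∈ Ico 1 n, ∑ a ∈ range n, log ‖W (a + ℓ) - W a‖)
    (hh : ∀ θ : ℝ, (∀ i, (Complex.exp (-(θ * Complex.I)) * W i).re ≤ 1 + ρ) ∧
      ∃ i, 1 - ρ ≤ (Complex.exp (-(θ * Complex.I)) * W i).re) :
    (∀ k, W k ≠ 0) ∧ (∀ k, |lam W k| ≤ 2 * ρ) ∧
      (∀ k, k < n → |bet (gam W) 0 k - k * (π / n)| ≤ η) ∧
      (∀ k, ∃ ψ : ℝ, |ψ| ≤ η ∧ W (k + 1) - W k = ‖W (k + 1) - W k‖ *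
        Complex.exp (ψ * Complex.I) * (Complex.I * (W k / ‖W k‖))) := by
  have hη4 : η ^ 4 ≤ η ^ 2 * (1 / 10000) := by
    have : η ^ 2 ≤ 1 / 10000 := by nlinarith
    calc η ^ 4 = η ^ 2 * η ^ 2 := by ring
      _ ≤ η ^ 2 * (1 / 10000) := by gcongr
  have hη2 : η ^ 2 ≤ 1 / 10000 := by nlinarith
  have hρ0 : 0 < ρ := by rw [hρ]; positivity
  have hρ1 : ρ ≤ 1 / 100 := by rw [hρ]; nlinarith
  have hsq : √ρ ≤ η ^ 2 / 100 := by
    rw [sqrt_le_left (by positivity), hρ]
    have : η ^ 4 = (η ^ 2) ^ 2 := by ring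
    rw [this]
    nlinarith [sq_nonneg (η ^ 2)]
  have hsq0 : 0 ≤ √ρ := sqrt_nonneg _
  have hper := hW.per
  have hedge := fun k => edge hn hW hρ0 hρ1 hh k
  have hlow : ∀ k, 1 - ρ ≤ ‖W k‖ := by
    intro k
    obtain ⟨ν, h, s, s', hν, h1, h2, _, _, _, hw, _⟩ := hedge k
    rw [hw, norm_mul, hν, one_mul]
    have h3 := Complex.abs_re_le_norm ((h : ℂ) + s * Complex.I)
    simp only [Complex.add_re, Complex.ofReal_re, Complex.mul_re, Complex.I_re, mul_zero,
      Complex.ofReal_im, Complex.I_im, mul_one, sub_self, add_zero] at h3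
    exact h1.trans ((le_abs_self h).trans h3)
  have hup : ∀ k, ‖W k‖ ≤ 1 + ρ := by
    intro k
    have h1 := (hh (Complex.arg (W k))).1 k
    have h2 := Complex.norm_mul_exp_arg_mul_I (W k)
    have h3 : Complex.exp (-((Complex.arg (W k) : ℂ) * Complex.I)) * W k = (‖W k‖ : ℂ) := by
      conv_lhs => rw [← h2]
      rw [mul_left_comm, ← Complex.exp_add]
      simp
    rw [h3, Complex.ofReal_re] at h1
    exact h1
  have h0 : ∀ k, W k ≠ 0 := by
    intro k hk
    have := hlow k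
    rw [hk, norm_zero] at this
    linarith
  have hlam : ∀ k, |lam W k| ≤ 2 * ρ := by
    intro k
    have hp : 0 < ‖W k‖ := norm_pos_iff.2 (h0 k)
    rw [abs_le]
    constructor
    · have h1 := one_sub_inv_le_log_of_pos hp
      have h2 : ‖W k‖⁻¹ ≤ 1 + 2 * ρ := by
        rw [inv_le_iff_one_le_mul₀ hp]
        nlinarith [hlow k]
      unfold lam
      linarith
    · have h1 := log_le_sub_one_of_pos hp
      unfold lam
      linarith [hup k]
  have hang : ∀ k, 0 < gam W k ∧ gam W k ≤ 5 * √ρ ∧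
      |lam W (k + 1) - lam W k| ≤ 3 * √ρ * gam W k ∧
      (1 - ρ) * gam W k ≤ ‖W (k + 1) - W k‖ ∧
      ∃ ψ : ℝ, |ψ| ≤ 3 * √ρ ∧ W (k + 1) - W k = ‖W (k + 1) - W k‖ *
        Complex.exp (ψ * Complex.I) * (Complex.I * (W k / ‖W k‖)) := by
    intro k
    obtain ⟨ν, h, s, s', hν, h1, h2, hs, hs1, hs2, hw, hw'⟩ := hedge k
    exact edge_angle hρ0 hρ1 hν h1 h2 hs hs1 hs2 hw hw'
  have htot : ∑ i ∈ range n, gam W i = 2 * π :=
    total_angle hn hper h0 hρ1 (fun k => (hang k).1) (fun k => (hang k).2.2.2.1) hL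
  have hgper : ∀ k, gam W (k + n) = gam W k := by
    intro k
    unfold gam
    rw [hper k, show k + n + 1 = k + 1 + n by ring, hper (k + 1)]
  have hlper : ∀ k, lam W (k + n) = lam W k := by
    intro k; unfold lam; rw [hper k]
  have hchord : ∀ a ℓ, 0 < ℓ → ℓ < n → 0 < bet (gam W) a ℓ ∧ bet (gam W) a ℓ < π ∧
      log ‖W (a + ℓ) - W a‖ ≤ log (2 * sin (bet (gam W) a ℓ)) + 2 * ρ + 2 * (3 * √ρ) ^ 2 := by
    intro a ℓ hl0 hl1
    exact chord_le hn hρ0.le hρ1 (by positivity) (by nlinarith) (fun k => (hang k).1) hgper htot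
      hlper hlam (fun k => (hang k).2.2.1) (fun k ℓ => steps h0 k ℓ)
      (fun k => by rw [lam, exp_log (norm_pos_iff.2 (h0 k))]) a ℓ hl0 hl1
  have hsq2 : (3 * √ρ) ^ 2 = 9 * ρ := by rw [mul_pow, sq_sqrt hρ0.le]; norm_num
  have hnp : (0 : ℝ) < n := by exact_mod_cast (by omega : 0 < n)
  have hD : ∑ ℓ ∈ Ico 1 n, ∑ a ∈ range n,
      -log (sin (bet (gam W) a ℓ) / sin (ℓ * (π / n))) ≤ (20 * ρ) * n ^ 2 := by
    have hterm : ∀ ℓ ∈ Ico 1 n, ∀ a ∈ range n,
        -log (sin (bet (gam W) a ℓ) / sin (ℓ * (π / n))) ≤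
          log (2 * sin (ℓ * (π / n))) - log ‖W (a + ℓ) - W a‖ + 20 * ρ := by
      intro ℓ hℓ a _
      rw [mem_Ico] at hℓ
      obtain ⟨b1, b2, b3⟩ := hchord a ℓ (by omega) hℓ.2
      have hsb : 0 < sin (bet (gam W) a ℓ) := sin_pos_of_pos_of_lt_pi b1 b2
      have hl0 : (0 : ℝ) < ℓ := by exact_mod_cast (by omega : 0 < ℓ)
      have hl1 : (ℓ : ℝ) < n := by exact_mod_cast hℓ.2
      have hsl : 0 < sin (ℓ * (π / n)) := by
        apply sin_pos_of_pos_of_lt_pi (by positivity)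
        calc (ℓ : ℝ) * (π / n) < n * (π / n) := by gcongr
          _ = π := by field_simp
      rw [log_div hsb.ne' hsl.ne', log_mul (by norm_num) hsl.ne']
      rw [log_mul (by norm_num) hsb.ne', hsq2] at b3
      linarith
    have hlog := sum_log_two_sin (n := n) (by omega)
    calc ∑ ℓ ∈ Ico 1 n, ∑ a ∈ range n, -log (sin (bet (gam W) a ℓ) / sin (ℓ * (π / n)))
        ≤ ∑ ℓ ∈ Ico 1 n, ∑ a ∈ range n,
          (log (2 * sin (ℓ * (π / n))) - log ‖W (a + ℓ) - W a‖ + 20 * ρ) :=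
          sum_le_sum fun ℓ hℓ => sum_le_sum fun a ha => hterm ℓ hℓ a ha
      _ = n * ∑ ℓ ∈ Ico 1 n, log (2 * sin (ℓ * (π / n))) -
            ∑ ℓ ∈ Ico 1 n, ∑ a ∈ range n, log ‖W (a + ℓ) - W a‖ +
            ((n - 1 : ℕ) : ℝ) * (n * (20 * ρ)) := by
          simp only [sum_add_distrib, sum_sub_distrib, sum_const, card_range, nsmul_eq_mul,
            Nat.card_Ico, mul_sum]
      _ ≤ ((n - 1 : ℕ) : ℝ) * (n * (20 * ρ)) := by rw [hlog]; linarith
      _ ≤ n * (n * (20 * ρ)) := by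
          have h1 : ((n - 1 : ℕ) : ℝ) ≤ n := by exact_mod_cast Nat.sub_le _ _
          gcongr
      _ = _ := by ring
  refine ⟨h0, hlam, ?_, ?_⟩
  · intro k hk
    rcases Nat.eq_zero_or_pos k with rfl | hk0
    · simp [bet]; exact hη.le
    · have h4 := angle_near hn (fun k => (hang k).1) hgper htot hD 0 k hk0 hk
      have e : 1300 * (20 * ρ) = η ^ 4 := by rw [hρ]; ring
      rw [e, ← Even.pow_abs (by decide : Even 4)] at h4
      exact (pow_le_pow_iff_left₀ (abs_nonneg _) hη.le (by norm_num)).1 h4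
  · intro k
    obtain ⟨ψ, hψ, h5⟩ := (hang k).2.2.2.2
    exact ⟨ψ, hψ.trans (by nlinarith), h5⟩

lemma sum_zmod {n : ℕ} [NeZero n] (f : ℕ → ℂ) : ∑ a : ZMod n, f a.val = ∑ k ∈ range n, f k := by
  obtain ⟨m, rfl⟩ := Nat.exists_eq_succ_of_ne_zero (NeZero.ne n)
  exact Fin.sum_univ_eq_sum_range f (m + 1)

lemma stdAddChar_eq {n : ℕ} [NeZero n] (a : ZMod n) :
    ZMod.stdAddChar a = Complex.exp (2 * π * Complex.I * (a.val : ℂ) / n) := by
  have h := ZMod.stdAddChar_coe (N := n) (a.val : ℤ)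
  have e : (((a.val : ℤ)) : ZMod n) = a := by
    rw [Int.cast_natCast, ZMod.natCast_zmod_val]
  rw [e] at h
  rw [h]
  push_cast
  rfl

/-- powers of the root of unity -/
noncomputable def om (n k : ℕ) : ℂ := Complex.exp (2 * π * Complex.I * k / n)

lemma om_ne (n k : ℕ) : om n k ≠ 0 := Complex.exp_ne_zero _

lemma om_norm (n k : ℕ) : ‖om n k‖ = 1 := by
  have : om n k = Complex.exp (((2 * π * k / n : ℝ) : ℂ) * Complex.I) := by
    unfold om; congr 1; push_cast; ring
  rw [this, Complex.norm_exp_ofReal_mul_I]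

lemma om_add (n j k : ℕ) : om n (j + k) = om n j * om n k := by
  unfold om; rw [← Complex.exp_add]; congr 1; push_cast; ring

lemma om_self {n : ℕ} (hn : 0 < n) : om n n = 1 := by
  unfold om
  have : (n : ℂ) ≠ 0 := by exact_mod_cast hn.ne'
  rw [show 2 * (π : ℂ) * Complex.I * n / n = 2 * π * Complex.I by field_simp]
  exact Complex.exp_two_pi_mul_I

lemma om_sum {n : ℕ} (hn : 2 ≤ n) : ∑ k ∈ range n, om n k = 0 := by
  have h := (Complex.isPrimitiveRoot_exp n (by omega)).geom_sum_eq_zero (by omega)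
  rw [← h]
  apply sum_congr rfl
  intro k _
  unfold om
  rw [← Complex.exp_nat_mul]
  congr 1
  ring

lemma norm_exp_le {θ : ℝ} (h : |θ| ≤ 1) : ‖Complex.exp ((θ : ℂ) * Complex.I) - 1‖ ≤ 2 * |θ| := by
  have h2 : ‖(θ : ℂ) * Complex.I‖ = |θ| := by
    rw [norm_mul, Complex.norm_I, mul_one, Complex.norm_real, Real.norm_eq_abs]
  rw [← h2] at h ⊢
  exact Complex.norm_exp_sub_one_le h

/-- The relative displacements. -/
lemma displ {η : ℝ} (hη : 0 < η) (hη1 : η ≤ 1 / 100) {n : ℕ} (hn : 3 ≤ n)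
    {W : ℕ → ℂ} (hper : ∀ k, W (k + n) = W k) (h0 : ∀ k, W k ≠ 0)
    (hlam : ∀ k, |lam W k| ≤ η) (hbet : ∀ k, k < n → |bet (gam W) 0 k - k * (π / n)| ≤ η) :
    ∃ c : ℂ, c ≠ 0 ∧ ∃ q : ℕ → ℂ, (∀ k, q (k + n) = q k) ∧ (∀ k, ‖q k‖ ≤ 13 * η) ∧
      (∀ k, W k = c * om n k * (1 + q k)) ∧ ∑ k ∈ range n, q k = 0 := by
  have hn0 : (0 : ℝ) < n := by exact_mod_cast (by omega : 0 < n)
  have hnc : (n : ℂ) ≠ 0 := by exact_mod_cast (by omega : n ≠ 0)
  set E0 : ℂ := Complex.exp ((Complex.arg (W 0) : ℂ) * Complex.I) with hE0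
  have hE0n : ‖E0‖ = 1 := Complex.norm_exp_ofReal_mul_I _
  set G : ℕ → ℂ := fun k => W k / om n k with hG
  have hGper : ∀ k, G (k + n) = G k := by
    intro k
    simp only [hG]
    rw [hper, om_add, om_self (by omega), mul_one]
  have hG1 : ∀ k, k < n → ‖G k - E0‖ ≤ 6 * η := by
    intro k hk
    have h1 := steps h0 0 k
    rw [zero_add, exp_lam h0 0] at h1
    have h2 := Complex.norm_mul_exp_arg_mul_I (W 0)
    have hn00 : (‖W 0‖ : ℂ) ≠ 0 := by
      rw [Ne, Complex.ofReal_eq_zero, norm_eq_zero]; exact h0 0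
    have h3 : W k = E0 * Complex.exp (lam W k) *
        Complex.exp ((2 * bet (gam W) 0 k : ℝ) * Complex.I) := by
      apply mul_right_cancel₀ hn00
      rw [h1]
      conv_lhs => rw [← h2]
      rw [hE0]
      ring
    set w : ℂ := (lam W k : ℂ) + (2 * (bet (gam W) 0 k - k * (π / n)) : ℝ) * Complex.I with hw
    have h4 : G k = E0 * Complex.exp w := by
      simp only [hG]
      have h6 : Complex.exp (lam W k) * Complex.exp ((2 * bet (gam W) 0 k : ℝ) * Complex.I) =
          Complex.exp w * om n k := by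
        unfold om
        rw [← Complex.exp_add, ← Complex.exp_add]
        congr 1
        rw [hw]
        push_cast
        ring
      rw [div_eq_iff (om_ne n k), h3, mul_assoc, h6]
      ring
    have hwn : ‖w‖ ≤ 3 * η := by
      calc ‖w‖ ≤ ‖(lam W k : ℂ)‖ +
            ‖((2 * (bet (gam W) 0 k - k * (π / n)) : ℝ) : ℂ) * Complex.I‖ := norm_add_le _ _
        _ = |lam W k| + 2 * |bet (gam W) 0 k - k * (π / n)| := by
            rw [norm_mul, Complex.norm_I, mul_one, Complex.norm_real, Complex.norm_real,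
              Real.norm_eq_abs, Real.norm_eq_abs, abs_mul, abs_two]
        _ ≤ η + 2 * η := by
            have := hlam k
            have := hbet k hk
            linarith
        _ = 3 * η := by ring
    have h5 : G k - E0 = E0 * (Complex.exp w - 1) := by rw [h4]; ring
    rw [h5, norm_mul, hE0n, one_mul]
    have := Complex.norm_exp_sub_one_le (x := w) (by linarith)
    linarith
  have hGall : ∀ k, ‖G k - E0‖ ≤ 6 * η := by
    intro k
    have hp : Function.Periodic G n := hGper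
    rw [← hp.map_mod_nat k]
    exact hG1 _ (Nat.mod_lt _ (by omega))
  set c : ℂ := (∑ k ∈ range n, G k) / n with hc
  have hcE : ‖c - E0‖ ≤ 6 * η := by
    have e : c - E0 = (∑ k ∈ range n, (G k - E0)) / n := by
      rw [hc, sum_sub_distrib, sum_const, card_range, nsmul_eq_mul]
      field_simp
    rw [e, norm_div, Complex.norm_natCast, div_le_iff₀ hn0]
    calc ‖∑ k ∈ range n, (G k - E0)‖ ≤ ∑ k ∈ range n, ‖G k - E0‖ := norm_sum_le _ _
      _ ≤ ∑ k ∈ range n, 6 * η := sum_le_sum fun k _ => hGall k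
      _ = _ := by rw [sum_const, card_range, nsmul_eq_mul]; ring
  have hcn : 1 - 6 * η ≤ ‖c‖ := by
    have h1 : ‖E0‖ ≤ ‖c‖ + ‖c - E0‖ := by
      calc ‖E0‖ = ‖c - (c - E0)‖ := by congr 1; ring
        _ ≤ _ := norm_sub_le _ _
    rw [hE0n] at h1
    linarith
  have hc0 : c ≠ 0 := by
    intro h; rw [h, norm_zero] at hcn; linarith
  refine ⟨c, hc0, fun k => (G k - c) / c, fun k => ?_, ?_, ?_, ?_⟩
  · show (G (k + n) - c) / c = (G k - c) / c
    rw [hGper]
  · intro k
    rw [norm_div, div_le_iff₀ (norm_pos_iff.2 hc0)]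
    have h1 : ‖G k - c‖ ≤ 12 * η := by
      calc ‖G k - c‖ = ‖(G k - E0) - (c - E0)‖ := by congr 1; ring
        _ ≤ ‖G k - E0‖ + ‖c - E0‖ := norm_sub_le _ _
        _ ≤ _ := by have := hGall k; linarith
    nlinarith
  · intro k
    have h1 : c * om n k * (1 + (G k - c) / c) = G k * om n k := by
      field_simp
      ring
    rw [h1]
    simp only [hG]
    rw [div_mul_cancel₀ _ (om_ne n k)]
  · rw [← sum_div, sum_sub_distrib, sum_const, card_range, nsmul_eq_mul]
    have : ∑ k ∈ range n, G k = n * c := by rw [hc]; field_simp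
    rw [this]
    simp

/-- everything for a fixed size `η` -/
lemma core {δ η ρ : ℝ} (hη : 0 < η) (hη1 : η ≤ 1 / 100) (hηδ : η ≤ δ / 100)
    (hρ : ρ = η ^ 4 / 26000) {n : ℕ} (hn : 3 ≤ n) (hnη : π / n ≤ η) [NeZero n] {W : ℕ → ℂ}
    (hW : IsPoly n W) (hS : ∑ i ∈ range n, W i = 0)
    (hL : ∑ i ∈ range n, ‖W (i + 1) - W i‖ ≤ 2 * π)
    (hE : (n : ℝ) * log n ≤ ∑ ℓ ∈ Ico 1 n, ∑ a ∈ range n, log ‖W (a + ℓ) - W a‖)
    (hh : ∀ θ : ℝ, (∀ i, (Complex.exp (-(θ * Complex.I)) * W i).re ≤ 1 + ρ) ∧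
      ∃ i, 1 - ρ ≤ (Complex.exp (-(θ * Complex.I)) * W i).re) :
    ∃ (c : ℂ) (u t : ZMod n → ℝ), c ≠ 0 ∧ Near δ u t ∧
      ∀ k : ℕ, W k = c * Complex.exp (2 * π * Complex.I * k / n) *
        (1 + (u k : ℂ) + (t k : ℂ) * Complex.I) := by
  obtain ⟨h0, hlam, hbet, hψ⟩ := angles hη hη1 hρ hn hW hL hE hh
  have hρη : 2 * ρ ≤ η := by
    rw [hρ]
    have h1 : η ^ 3 ≤ 1 := pow_le_one₀ hη.le (by linarith)
    have : η ^ 4 ≤ η := by
      calc η ^ 4 = η * η ^ 3 := by ring
        _ ≤ η * 1 := by gcongr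
        _ = η := mul_one _
    linarith
  obtain ⟨c, hc0, q, hqper, hq, hWq, hqs⟩ :=
    displ hη hη1 hn hW.per h0 (fun k => (hlam k).trans hρη) hbet
  have hn0 : (0 : ℝ) < n := by exact_mod_cast (by omega : 0 < n)
  have hqmod : ∀ k : ℕ, q (ZMod.val (k : ZMod n)) = q k := by
    intro k
    rw [ZMod.val_natCast]
    have hp : Function.Periodic q n := hqper
    exact hp.map_mod_nat k
  set u : ZMod n → ℝ := fun a => (q a.val).re with hu
  set t : ZMod n → ℝ := fun a => (q a.val).im with ht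
  have hut : ∀ a : ZMod n, (u a : ℂ) + (t a : ℂ) * Complex.I = q a.val := by
    intro a
    simp only [hu, ht]
    exact Complex.re_add_im _
  have hform : ∀ k : ℕ, W k = c * Complex.exp (2 * π * Complex.I * k / n) *
        (1 + (u k : ℂ) + (t k : ℂ) * Complex.I) := by
    intro k
    rw [add_assoc, hut, hqmod]
    exact hWq k
  refine ⟨c, u, t, hc0, ⟨⟨?_, ?_, ?_⟩, ?_, ?_, ?_, ?_⟩, hform⟩
  · have h1 := sum_zmod (n := n) q
    rw [hqs] at h1
    have h2 := congrArg Complex.re h1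
    rw [Complex.re_sum] at h2
    simpa [hu] using h2
  · have h1 := sum_zmod (n := n) q
    rw [hqs] at h1
    have h2 := congrArg Complex.im h1
    rw [Complex.im_sum] at h2
    simpa [ht] using h2
  · have h1 : ∀ a : ZMod n, ((u a : ℂ) + (t a : ℂ) * Complex.I) * ZMod.stdAddChar a
        = q a.val * om n a.val := by
      intro a
      rw [hut, stdAddChar_eq]
      rfl
    rw [sum_congr rfl fun a _ => h1 a, sum_zmod (fun k => q k * om n k)]
    have h2 : ∀ k ∈ range n, q k * om n k = W k / c - om n k := by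
      intro k _
      rw [hWq k]
      field_simp
      ring
    rw [sum_congr rfl h2, sum_sub_distrib, ← sum_div, hS, om_sum (by omega)]
    simp
  · intro a
    have h1 := Complex.abs_re_le_norm (q a.val)
    have h2 := hq a.val
    show |(q a.val).re| ≤ δ
    linarith
  · intro a
    have h1 := Complex.abs_im_le_norm (q a.val)
    have h2 := hq a.val
    show |(q a.val).im| ≤ δ
    linarith
  all_goals
    have key : ∀ a : ZMod n, ∃ R : ℝ, ∃ z : ℂ, 0 < R ∧ ‖z - 1‖ ≤ 18 * η ∧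
        (X u t a 1 : ℂ) + (Y u t a 1 : ℂ) * Complex.I = R * z := by
      intro a
      obtain ⟨ψ, hψ1, hψ2⟩ := hψ a.val
      set k := a.val with hk
      have hka : (k : ZMod n) = a := ZMod.natCast_zmod_val a
      have hka1 : ((k + 1 : ℕ) : ZMod n) = a + 1 := by rw [← hka]; push_cast; rfl
      have hch := chord (n := n) (ℓ := 1) one_pos (by omega) u t a
      rw [Nat.cast_one, Nat.cast_one, mul_one] at hch
      set Z : ℂ := (X u t a 1 : ℂ) + (Y u t a 1 : ℂ) * Complex.I with hZ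
      have e1 : 1 + (u a : ℂ) + (t a : ℂ) * Complex.I = 1 + q k := by rw [add_assoc, hut]
      have e2 : 1 + (u (a + 1) : ℂ) + (t (a + 1) : ℂ) * Complex.I = 1 + q (k + 1) := by
        rw [add_assoc, hut, ← hka1, hqmod]
      rw [e1, e2] at hch
      have hom1 : om n 1 = Complex.exp (2 * π * Complex.I / n) := by
        unfold om; rw [Nat.cast_one, mul_one]
      rw [← hom1] at hch
      have hdiff : W (k + 1) - W k = c * om n k * (Z * (om n 1 - 1)) := by
        rw [hch, hWq (k + 1), hWq k, om_add]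
        ring
      have hx0 : 0 < π / n := by positivity
      have hx1 : π / n < π := by
        rw [div_lt_iff₀ hn0]
        have : (3 : ℝ) ≤ n := by exact_mod_cast hn
        nlinarith [pi_pos]
      have hs : 0 < sin (π / n) := sin_pos_of_pos_of_lt_pi hx0 hx1
      -- the chord of the regular polygon
      have hom : om n 1 - 1 = 2 * (sin (π / n) : ℂ) * Complex.I *
          Complex.exp (((π / n : ℝ) : ℂ) * Complex.I) := by
        have h1 : om n 1 = Complex.exp (((π / n : ℝ) : ℂ) * Complex.I) *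
            Complex.exp (((π / n : ℝ) : ℂ) * Complex.I) := by
          rw [hom1, ← Complex.exp_add]
          congr 1
          push_cast
          ring
        have h2 : Complex.exp (((π / n : ℝ) : ℂ) * Complex.I) =
            (cos (π / n) : ℂ) + (sin (π / n) : ℂ) * Complex.I := by
          rw [Complex.exp_mul_I, ← Complex.ofReal_cos, ← Complex.ofReal_sin]
        have h3 : ((cos (π / n) : ℝ) : ℂ) ^ 2 + ((sin (π / n) : ℝ) : ℂ) ^ 2 = 1 := by
          exact_mod_cast cos_sq_add_sin_sq (π / n)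
        rw [h1, h2]
        have h4 := Complex.I_sq
        linear_combination h3 - ((sin (π / n) : ℝ) : ℂ) ^ 2 * h4
      have hWk : W k = c * om n k * (1 + q k) := hWq k
      have hWn : 0 < ‖W k‖ := norm_pos_iff.2 (h0 k)
      have hWnc : (‖W k‖ : ℂ) ≠ 0 := by exact_mod_cast hWn.ne'
      have hdn : 0 < ‖W (k + 1) - W k‖ := norm_pos_iff.2 (hW.side_ne hn k)
      set R : ℝ := ‖W (k + 1) - W k‖ / (‖W k‖ * (2 * sin (π / n))) with hR
      refine ⟨R, Complex.exp (((ψ - π / n : ℝ) : ℂ) * Complex.I) * (1 + q k), by positivity,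
        ?_, ?_⟩
      · have h1 : |ψ - π / n| ≤ 2 * η := by
          have := abs_sub ψ (π / n)
          rw [abs_of_pos hx0] at this
          linarith
        have h2 := norm_exp_le (θ := ψ - π / n) (by linarith)
        have h3 : Complex.exp (((ψ - π / n : ℝ) : ℂ) * Complex.I) * (1 + q k) - 1 =
            (Complex.exp (((ψ - π / n : ℝ) : ℂ) * Complex.I) - 1) * (1 + q k) + q k := by ring
        rw [h3]
        have h4 : ‖1 + q k‖ ≤ 1 + 13 * η := by
          calc ‖1 + q k‖ ≤ ‖(1 : ℂ)‖ + ‖q k‖ := norm_add_le _ _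
            _ ≤ _ := by rw [norm_one]; linarith [hq k]
        calc _ ≤ ‖(Complex.exp (((ψ - π / n : ℝ) : ℂ) * Complex.I) - 1) * (1 + q k)‖ + ‖q k‖ :=
              norm_add_le _ _
          _ ≤ (4 * η) * (1 + 13 * η) + 13 * η := by
              rw [norm_mul]
              have := hq k
              gcongr
              linarith
          _ ≤ _ := by nlinarith
      · have hco : c * om n k ≠ 0 := mul_ne_zero hc0 (om_ne n k)
        have hsc : ((sin (π / n) : ℝ) : ℂ) ≠ 0 := by exact_mod_cast hs.ne'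
        have hexp : Complex.exp (((π / n : ℝ) : ℂ) * Complex.I) ≠ 0 := Complex.exp_ne_zero _
        have h5 : c * om n k * (Z * (om n 1 - 1)) = (‖W (k + 1) - W k‖ : ℂ) *
            Complex.exp (ψ * Complex.I) * (Complex.I * (c * om n k * (1 + q k) / ‖W k‖)) := by
          rw [← hdiff, ← hWk]; exact hψ2
        rw [hom] at h5
        have h6 : Complex.exp (((ψ - π / n : ℝ) : ℂ) * Complex.I) *
            Complex.exp (((π / n : ℝ) : ℂ) * Complex.I) = Complex.exp (ψ * Complex.I) := by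
          rw [← Complex.exp_add]; congr 1; push_cast; ring
        rw [← h6] at h5
        have hne : c * om n k * (2 * (sin (π / n) : ℂ) * Complex.I *
          Complex.exp (((π / n : ℝ) : ℂ) * Complex.I)) ≠ 0 :=
          mul_ne_zero hco (mul_ne_zero (mul_ne_zero (mul_ne_zero two_ne_zero hsc) Complex.I_ne_zero)
            hexp)
        apply mul_right_cancel₀ hne
        rw [hR]
        push_cast
        push_cast at h5 hsc
        calc Z * (c * om n k * (2 * Complex.sin (π / n) * Complex.I *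
              Complex.exp (π / n * Complex.I)))
            = c * om n k * (Z * (2 * Complex.sin (π / n) * Complex.I *
              Complex.exp (π / n * Complex.I))) := by ring
          _ = _ := by
            rw [h5]
            field_simp
  · intro a
    obtain ⟨R, z, hR, hz, hXY⟩ := key a
    have h1 := congrArg Complex.re hXY
    simp only [Complex.add_re, Complex.ofReal_re, Complex.mul_re, Complex.I_re, mul_zero,
      Complex.ofReal_im, Complex.I_im, mul_one, sub_self, add_zero, zero_mul, sub_zero] at h1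
    have h2 := Complex.abs_re_le_norm (z - 1)
    rw [Complex.sub_re, Complex.one_re] at h2
    have h3 := (abs_le.1 (h2.trans hz)).1
    rw [h1]
    apply mul_pos hR
    linarith
  · intro a
    obtain ⟨R, z, hR, hz, hXY⟩ := key a
    have h1 := congrArg Complex.re hXY
    have h1' := congrArg Complex.im hXY
    simp only [Complex.add_re, Complex.ofReal_re, Complex.mul_re, Complex.I_re, mul_zero,
      Complex.ofReal_im, Complex.I_im, mul_one, sub_self, add_zero, zero_mul, sub_zero] at h1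
    simp only [Complex.add_im, Complex.ofReal_re, Complex.mul_im, Complex.I_re, mul_zero,
      Complex.ofReal_im, Complex.I_im, mul_one, add_zero, zero_add, zero_mul] at h1'
    have h2 := Complex.abs_re_le_norm (z - 1)
    rw [Complex.sub_re, Complex.one_re] at h2
    have h3 := (abs_le.1 (h2.trans hz)).1
    have h4 := Complex.abs_im_le_norm (z - 1)
    rw [Complex.sub_im, Complex.one_im, sub_zero] at h4
    rw [h1, h1', abs_mul, abs_of_pos hR]
    have hδ0 : 0 < δ := by linarith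
    calc R * |z.im| ≤ R * (δ * z.re) := by
          apply mul_le_mul_of_nonneg_left _ hR.le
          have : |z.im| ≤ 18 * η := h4.trans hz
          nlinarith
      _ = _ := by ring

end G5

theorem exists_near : ∀ δ : ℝ, 0 < δ → ∃ ρ : ℝ, 0 < ρ ∧ ∃ n₀ : ℕ, ∀ n : ℕ, n₀ ≤ n →
    ∀ _ : NeZero n, ∀ W : ℕ → ℂ, IsPoly n W → ∑ i ∈ range n, W i = 0 →
    ∑ i ∈ range n, ‖W (i + 1) - W i‖ ≤ 2 * π →
    (n : ℝ) * log n ≤ ∑ ℓ ∈ Ico 1 n, ∑ a ∈ range n, log ‖W (a + ℓ) - W a‖ →
    (∀ θ : ℝ, (∀ i, (Complex.exp (-(θ * Complex.I)) * W i).re ≤ 1 + ρ) ∧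
      ∃ i, 1 - ρ ≤ (Complex.exp (-(θ * Complex.I)) * W i).re) →
    ∃ (c : ℂ) (u t : ZMod n → ℝ), c ≠ 0 ∧ Near δ u t ∧
      ∀ k : ℕ, W k = c * Complex.exp (2 * π * Complex.I * k / n) *
        (1 + (u k : ℂ) + (t k : ℂ) * Complex.I) := by
  intro δ hδ
  set η : ℝ := min δ 1 / 100 with hη
  have hη0 : 0 < η := by positivity
  have hη1 : η ≤ 1 / 100 := by
    have := min_le_right δ 1
    rw [hη]; linarith
  have hη2 : η ≤ δ / 100 := by
    have := min_le_left δ 1
    rw [hη]; linarith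
  refine ⟨η ^ 4 / 26000, by positivity, 3 + ⌈π / η⌉₊, ?_⟩
  intro n hn _ W hW hS hL hE hh
  have hn3 : 3 ≤ n := by omega
  have hn0 : (0 : ℝ) < n := by exact_mod_cast (by omega : 0 < n)
  have hnη : π / n ≤ η := by
    have h1 : π / η ≤ n := by
      calc π / η ≤ ⌈π / η⌉₊ := Nat.le_ceil _
        _ ≤ n := by exact_mod_cast (by omega : ⌈π / η⌉₊ ≤ n)
    rw [div_le_iff₀ hη0] at h1
    rw [div_le_iff₀ hn0]
    linarith
  exact G5.core hη0 hη1 hη2 rfl hn3 hnη hW hS hL hE hh

end Pool.Agent.Lib.MP_e1dd62_co.Big
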