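import Pool.Agent.Lib.MP_e1dd62_co.Big.W1

/-!
# Jensen inequalities
-/

namespace Pool.Agent.Lib.MP_e1dd62_co.Big

open Finset Real

private theorem J_min {f f' : ℝ → ℝ} (hf : ∀ z, 0 < z → HasDerivAt f (f' z) z) {y : ℝ}
    (hy : 0 < y) (h1 : ∀ z, y < z → z < 1 → f' z ≤ 0) (h2 : ∀ z, 1 < z → z < y → 0 ≤ f' z) :
    f 1 ≤ f y := by
  rcases le_total y 1 with h | h
  · have ha : AntitoneOn f (Set.Icc y 1) := by
      apply antitoneOn_of_deriv_nonpos (convex_Icc y 1)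
      · intro z hz
        exact (hf z (hy.trans_le hz.1)).continuousAt.continuousWithinAt
      · intro z hz
        rw [interior_Icc] at hz
        exact (hf z (hy.trans hz.1)).differentiableAt.differentiableWithinAt
      · intro z hz
        rw [interior_Icc] at hz
        rw [(hf z (hy.trans hz.1)).deriv]
        exact h1 z hz.1 hz.2
    exact ha ⟨le_refl _, h⟩ ⟨h, le_refl _⟩ h
  · have ha : MonotoneOn f (Set.Icc 1 y) := by
      apply monotoneOn_of_deriv_nonneg (convex_Icc 1 y)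
      · intro z hz
        exact (hf z (zero_lt_one.trans_le hz.1)).continuousAt.continuousWithinAt
      · intro z hz
        rw [interior_Icc] at hz
        exact (hf z (zero_lt_one.trans hz.1)).differentiableAt.differentiableWithinAt
      · intro z hz
        rw [interior_Icc] at hz
        rw [(hf z (zero_lt_one.trans hz.1)).deriv]
        exact h2 z hz.1 hz.2
    exact ha ⟨le_refl _, h⟩ ⟨h, le_refl _⟩ h

private theorem J_deriv (c : ℝ) {z : ℝ} (hz : 0 < z) :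
    HasDerivAt (fun y : ℝ => y - 1 - log y - c * (y - 1) ^ 2) ((z - 1) * (1 / z - 2 * c)) z := by
  have h1 : HasDerivAt (fun y : ℝ => y - 1) 1 z := (hasDerivAt_id z).sub_const 1
  have h2 := (h1.sub (hasDerivAt_log hz.ne')).sub ((h1.pow 2).const_mul c)
  refine h2.congr_deriv ?_
  have : z ≠ 0 := hz.ne'
  field_simp
  ring

private theorem J_main {c y : ℝ} (hy : 0 < y) (hc : 2 * c ≤ 1) (h : ∀ z, 1 < z → z < y → 2 * c ≤ 1 / z) :
    c * (y - 1) ^ 2 ≤ Phi y := by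
  have h0 := J_min (fun z hz => J_deriv c hz) hy ?_ ?_
  · simp only [sub_self, log_one] at h0
    unfold Phi
    nlinarith
  · intro z hz hz1
    have hz0 : 0 < z := hy.trans hz
    have h3 : 1 ≤ 1 / z := by
      rw [le_div_iff₀ hz0]
      linarith
    exact mul_nonpos_of_nonpos_of_nonneg (by linarith) (by linarith)
  · intro z hz hz1
    exact mul_nonneg (by linarith) (by linarith [h z hz hz1])

theorem Phi_nonneg {y : ℝ} (hy : 0 < y) : 0 ≤ Phi y := by
  unfold Phi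
  linarith [log_le_sub_one_of_pos hy]

theorem Phi_ge_of_le_two {y : ℝ} (hy : 0 < y) (hy2 : y ≤ 2) : (y - 1) ^ 2 / 4 ≤ Phi y := by
  have h := J_main (c := 1 / 4) hy (by norm_num) ?_
  · linarith
  · intro z hz hz1
    rw [le_div_iff₀ (by linarith)]
    linarith

theorem Phi_ge_of_two_le {y : ℝ} (hy : 2 ≤ y) : 3 / 10 * (y - 1) ≤ Phi y := by
  have h1 : log (y / 2) ≤ y / 2 - 1 := log_le_sub_one_of_pos (by linarith)
  rw [log_div (by linarith) (by norm_num)] at h1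
  have h2 := log_two_lt_d9
  unfold Phi
  linarith

theorem Phi_ge_near {y : ℝ} (hy : |y - 1| ≤ 1 / 100) : 99 / 200 * (y - 1) ^ 2 ≤ Phi y := by
  have hy' := abs_le.1 hy
  apply J_main (by linarith) (by norm_num)
  intro z hz hz1
  rw [le_div_iff₀ (by linarith)]
  linarith

theorem Phi_ge_far {y : ℝ} (hy : 0 < y) (h : 1 / 100 < |y - 1|) : 1 / 40000 ≤ Phi y := by
  rcases le_total y 2 with h2 | h2
  · have h3 := Phi_ge_of_le_two hy h2
    have h4 : (1 / 100 : ℝ) ^ 2 ≤ (y - 1) ^ 2 := by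
      rw [← sq_abs (y - 1)]
      exact pow_le_pow_left₀ (by norm_num) h.le 2
    linarith
  · have h3 := Phi_ge_of_two_le h2
    linarith

variable {n : ℕ} [NeZero n]

private theorem J_Phi_avg {r : ℕ} (hr : 0 < r) (p : ℕ → ℝ) (hp : ∀ m, 0 < p m) :
    Phi ((∑ m ∈ range r, p m) / r) ≤ (∑ m ∈ range r, Phi (p m)) / r := by
  have hr' : (0 : ℝ) < r := by exact_mod_cast hr
  have h := strictConcaveOn_log_Ioi.concaveOn.le_map_sum (t := range r) (w := fun _ => (1 / r : ℝ))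
    (p := p) (fun _ _ => by positivity) (by simp [hr'.ne']) (fun m _ => hp m)
  simp only [smul_eq_mul, ← mul_sum] at h
  have h1 : ∑ m ∈ range r, Phi (p m) = (∑ m ∈ range r, p m) - r - ∑ m ∈ range r, log (p m) := by
    unfold Phi
    rw [sum_sub_distrib, sum_sub_distrib, sum_const, card_range, nsmul_eq_mul, mul_one]
  have h2 : (∑ m ∈ range r, Phi (p m)) / r =
      (∑ m ∈ range r, p m) / r - 1 - 1 / r * ∑ m ∈ range r, log (p m) := by
    rw [h1]
    field_simp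
  rw [h2]
  have h3 : 1 / (r : ℝ) * ∑ m ∈ range r, p m = (∑ m ∈ range r, p m) / r := by ring
  rw [h3] at h
  unfold Phi
  linarith

theorem FF_sm {r : ℕ} (hr : 0 < r) {u t : ZMod n → ℝ}
    (h : ∀ ℓ ∈ Ico 1 n, ∀ a, 0 < X u t a ℓ) : FF (sm r u) (sm r t) ≤ FF u t := by
  unfold FF
  refine sum_le_sum fun ℓ hℓ => ?_
  rw [← sum_sm hr (fun a => Phi (X u t a ℓ))]
  refine sum_le_sum fun a _ => ?_
  rw [X_sm hr]
  exact J_Phi_avg hr (fun m => X u t (a + (m : ZMod n)) ℓ) fun m => h ℓ hℓ _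

private theorem J_norm (x y : ℝ) : √(x ^ 2 + y ^ 2) = ‖(⟨x, y⟩ : ℂ)‖ := by
  rw [Complex.norm_def, Complex.normSq_mk]
  congr 1
  ring

private theorem J_sqrt_avg {r : ℕ} (hr : 0 < r) (p q : ℕ → ℝ) :
    √(((∑ m ∈ range r, p m) / r) ^ 2 + ((∑ m ∈ range r, q m) / r) ^ 2) ≤
      (∑ m ∈ range r, √(p m ^ 2 + q m ^ 2)) / r := by
  have hr' : (0 : ℝ) < r := by exact_mod_cast hr
  have h1 : √((∑ m ∈ range r, p m) ^ 2 + (∑ m ∈ range r, q m) ^ 2) ≤
      ∑ m ∈ range r, √(p m ^ 2 + q m ^ 2) := by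
    rw [J_norm]
    have h2 : (⟨∑ m ∈ range r, p m, ∑ m ∈ range r, q m⟩ : ℂ) =
        ∑ m ∈ range r, (⟨p m, q m⟩ : ℂ) := by
      apply Complex.ext
      · simp
      · simp
    rw [h2]
    refine (norm_sum_le _ _).trans (le_of_eq ?_)
    refine sum_congr rfl fun m _ => ?_
    rw [J_norm]
  rw [div_pow, div_pow, ← add_div, sqrt_div (by positivity), sqrt_sq hr'.le]
  exact div_le_div_of_nonneg_right h1 hr'.le

theorem K_sm {r : ℕ} (hr : 0 < r) (u t : ZMod n → ℝ) : K (sm r u) (sm r t) ≤ K u t := by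
  unfold K
  rw [← sum_sm hr (fun a => √(X u t a 1 ^ 2 + Y u t a 1 ^ 2) - X u t a 1)]
  refine sum_le_sum fun a _ => ?_
  rw [X_sm hr, Y_sm hr]
  have h := J_sqrt_avg hr (fun m => X u t (a + (m : ZMod n)) 1)
    (fun m => Y u t (a + (m : ZMod n)) 1)
  unfold sm
  rw [sum_sub_distrib, sub_div]
  linarith

private theorem J_le_sqrt (x y : ℝ) : x ≤ √(x ^ 2 + y ^ 2) :=
  (le_abs_self x).trans (abs_le_sqrt (by nlinarith [sq_nonneg y]))

theorem K_nonneg (u t : ZMod n → ℝ) : 0 ≤ K u t := by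
  unfold K
  refine sum_nonneg fun a _ => ?_
  linarith [J_le_sqrt (X u t a 1) (Y u t a 1)]

theorem K_ge_near {u t : ZMod n → ℝ} (hX : ∀ a, |X u t a 1 - 1| ≤ 1 / 100)
    (hY : ∀ a, |Y u t a 1| ≤ 1 / 100) : 49 / 100 * ∑ a, Y u t a 1 ^ 2 ≤ K u t := by
  unfold K
  rw [mul_sum]
  refine sum_le_sum fun a _ => ?_
  have hx := abs_le.1 (hX a)
  have hy := hY a
  set x := X u t a 1
  set y := Y u t a 1
  have hy2 : y ^ 2 ≤ (1 / 100) ^ 2 := by
    rw [← sq_abs]
    exact pow_le_pow_left₀ (abs_nonneg _) hy 2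
  have h1 : x + 49 / 100 * y ^ 2 ≤ √(x ^ 2 + y ^ 2) := by
    apply le_sqrt_of_sq_le
    have h0 := sq_nonneg y
    have h2 : (x + 49 / 100 * y ^ 2) ^ 2 =
        x ^ 2 + y ^ 2 * (98 / 100 * x + 2401 / 10000 * y ^ 2) := by ring
    have h3 : 98 / 100 * x + 2401 / 10000 * y ^ 2 ≤ 1 := by linarith
    rw [h2]
    have h4 := mul_le_mul_of_nonneg_left h3 h0
    linarith
  linarith

theorem K_ge_quot {δ : ℝ} (hδ : δ ≤ 1 / 100) {u t : ZMod n → ℝ} (hX : ∀ a, 0 < X u t a 1)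
    (hY : ∀ a, |Y u t a 1| ≤ δ * X u t a 1) :
    ∑ a, Y u t a 1 ^ 2 / X u t a 1 ≤ 21 / 10 * K u t := by
  unfold K
  rw [mul_sum]
  refine sum_le_sum fun a _ => ?_
  have hx := hX a
  have hy := hY a
  set x := X u t a 1
  set y := Y u t a 1
  have hy1 : |y| ≤ x / 100 := by
    have := mul_le_mul_of_nonneg_right hδ hx.le
    linarith
  have hy2 : y ^ 2 ≤ (x / 100) ^ 2 := by
    rw [← sq_abs]
    exact pow_le_pow_left₀ (abs_nonneg _) hy1 2
  have h1 : x + 10 / 21 * (y ^ 2 / x) ≤ √(x ^ 2 + y ^ 2) := by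
    apply le_sqrt_of_sq_le
    have h2 : (x + 10 / 21 * (y ^ 2 / x)) ^ 2 =
        x ^ 2 + y ^ 2 * (20 / 21 + 100 / 441 * (y ^ 2 / x ^ 2)) := by
      field_simp
      ring
    have h3 : y ^ 2 / x ^ 2 ≤ 1 / 10000 := by
      rw [div_le_iff₀ (by positivity)]
      linarith
    rw [h2]
    have h4 : 20 / 21 + 100 / 441 * (y ^ 2 / x ^ 2) ≤ 1 := by linarith
    have h5 := mul_le_mul_of_nonneg_left h4 (sq_nonneg y)
    linarith
  linarith

theorem K_le {δ : ℝ} {u t : ZMod n → ℝ} (hu : ∑ a, u a = 0)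
    (hX : ∀ a, 0 < X u t a 1) (hY : ∀ a, |Y u t a 1| ≤ δ * X u t a 1) :
    K u t ≤ n * δ ^ 2 := by
  have hs := sum_X hu t 1
  have h : K u t ≤ ∑ a, δ ^ 2 * X u t a 1 := by
    unfold K
    refine sum_le_sum fun a _ => ?_
    have hx := hX a
    have hy := hY a
    set x := X u t a 1
    set y := Y u t a 1
    have hy2 : y ^ 2 ≤ (δ * x) ^ 2 := by
      rw [← sq_abs]
      exact pow_le_pow_left₀ (abs_nonneg _) hy 2
    have h1 : √(x ^ 2 + y ^ 2) ≤ x + δ ^ 2 * x := by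
      rw [sqrt_le_left (by positivity)]
      nlinarith [mul_nonneg (sq_nonneg δ) (sq_nonneg x), sq_nonneg (δ ^ 2 * x)]
    linarith
  rw [← mul_sum, hs] at h
  linarith

end Pool.Agent.Lib.MP_e1dd62_co.Big
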