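import Pool.Agent.Lib.MP_e1dd62_co.Big.B
import Pool.Agent.Lib.MP_e1dd62_co.Big.G3

/-!
# The energy in terms of the perimeter
-/

namespace Pool.Agent.Lib.MP_e1dd62_co.Big

open Finset Real

theorem Z1_exp_sub_one {n : ℕ} (hn : 0 < n) {ℓ : ℕ} (h1 : ℓ < n) :
    ‖Complex.exp (2 * π * Complex.I * ℓ / n) - 1‖ = 2 * sin (ℓ * (π / n)) := by
  have h2 := om_pow_sub_one (n := n) (d := ℓ) hn h1.le
  have h3 : Complex.exp (2 * π * Complex.I * ℓ / n) = om n ^ ℓ := by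
    unfold om
    rw [← Complex.exp_nat_mul]
    congr 1
    ring
  rw [h3, h2]
  congr 2
  ring

theorem norm_chord {n : ℕ} [NeZero n] {W : ℕ → ℂ} {c : ℂ} {u t : ZMod n → ℝ}
    (h : ∀ k : ℕ, W k = c * Complex.exp (2 * π * Complex.I * k / n) *
        (1 + (u k : ℂ) + (t k : ℂ) * Complex.I)) (a ℓ : ℕ) (h0 : 0 < ℓ) (h1 : ℓ < n) :
    ‖W (a + ℓ) - W a‖ = ‖c‖ * (2 * sin (ℓ * (π / n))) *
      √(X u t a ℓ ^ 2 + Y u t a ℓ ^ 2) := by
  have h2 : W (a + ℓ) - W a = c * Complex.exp (2 * π * Complex.I * a / n) *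
      (((X u t a ℓ : ℂ) + (Y u t a ℓ : ℂ) * Complex.I) *
        (Complex.exp (2 * π * Complex.I * ℓ / n) - 1)) := by
    rw [chord h0 h1, h, h]
    have h3 : Complex.exp (2 * π * Complex.I * ((a + ℓ : ℕ) : ℂ) / n) =
        Complex.exp (2 * π * Complex.I * a / n) * Complex.exp (2 * π * Complex.I * ℓ / n) := by
      rw [← Complex.exp_add]
      congr 1
      push_cast
      ring
    rw [h3]
    push_cast
    ring
  have h4 : ‖Complex.exp (2 * π * Complex.I * a / n)‖ = 1 := by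
    rw [show 2 * (π : ℂ) * Complex.I * a / n = ((2 * π * a / n : ℝ) : ℂ) * Complex.I by
      push_cast; ring]
    exact Complex.norm_exp_ofReal_mul_I _
  have h5 : ‖(X u t a ℓ : ℂ) + (Y u t a ℓ : ℂ) * Complex.I‖ =
      √(X u t a ℓ ^ 2 + Y u t a ℓ ^ 2) := Complex.norm_add_mul_I _ _
  rw [h2, norm_mul, norm_mul, norm_mul, h4, h5, Z1_exp_sub_one (NeZero.pos n) h1]
  ring

theorem Z1_sum_cast {n : ℕ} [NeZero n] (f : ZMod n → ℝ) :
    ∑ a ∈ range n, f (a : ZMod n) = ∑ a, f a := by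
  refine sum_bij (fun a _ => (a : ZMod n)) (fun _ _ => mem_univ _) ?_ ?_ fun _ _ => rfl
  · intro a ha b hb hab
    rw [mem_range] at ha hb
    have h1 := (ZMod.natCast_eq_natCast_iff' a b n).1 hab
    rwa [Nat.mod_eq_of_lt ha, Nat.mod_eq_of_lt hb] at h1
  · intro b _
    exact ⟨b.val, mem_range.2 (ZMod.val_lt b), ZMod.natCast_zmod_val b⟩

theorem energy_le {n : ℕ} [NeZero n] (hn : 10 ^ 12 ≤ n) {W : ℕ → ℂ} {c : ℂ} (hc : c ≠ 0)
    {u t : ZMod n → ℝ} (hnear : Near (1 / 10 ^ 11) u t)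
    (h : ∀ k : ℕ, W k = c * Complex.exp (2 * π * Complex.I * k / n) *
        (1 + (u k : ℂ) + (t k : ℂ) * Complex.I)) :
    (∑ ℓ ∈ Ico 1 n, ∑ a ∈ range n, log ‖W (a + ℓ) - W a‖ ≤
      n * log n + n * (n - 1) * log ((∑ i ∈ range n, ‖W (i + 1) - W i‖) /
        (2 * n * sin (π / n)))) ∧
    (∑ ℓ ∈ Ico 1 n, ∑ a ∈ range n, log ‖W (a + ℓ) - W a‖ =
      n * log n + n * (n - 1) * log ((∑ i ∈ range n, ‖W (i + 1) - W i‖) /
        (2 * n * sin (π / n))) → ∀ k : ℕ, W k = c * Complex.exp (2 * π * Complex.I * k / n)) := by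
  have hn0 : (10 ^ 12 : ℝ) ≤ n := by exact_mod_cast hn
  have hnpos : (0 : ℝ) < n := by linarith
  have hpi := pi_pos
  have hpi4 := pi_lt_four
  have hx : 0 < π / n := by positivity
  have hxpi : π / n < π := by
    rw [div_lt_iff₀ hnpos]
    nlinarith
  have hsinx : 0 < sin (π / n) := sin_pos_of_pos_of_lt_pi hx hxpi
  have hcn : 0 < ‖c‖ := norm_pos_iff.2 hc
  -- all relative chords are non-zero
  set r : ℕ := ⌊(n : ℝ) / π / 10 ^ 8⌋₊ with hrdef
  have hr1 : (r : ℝ) * (π / n) ≤ 1 / 10 ^ 8 := by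
    have h1 : (r : ℝ) ≤ (n : ℝ) / π / 10 ^ 8 := Nat.floor_le (by positivity)
    calc (r : ℝ) * (π / n) ≤ (n : ℝ) / π / 10 ^ 8 * (π / n) := by gcongr
      _ = 1 / 10 ^ 8 := by field_simp
  have hr2 : 1 / (2 * 10 ^ 8) ≤ (r : ℝ) * (π / n) := by
    have h1 : (n : ℝ) / π / 10 ^ 8 - 1 < r := Nat.sub_one_lt_floor _
    have h2 : ((n : ℝ) / π / 10 ^ 8 - 1) * (π / n) ≤ (r : ℝ) * (π / n) := by
      gcongr
    refine le_trans ?_ h2
    have h3 : ((n : ℝ) / π / 10 ^ 8 - 1) * (π / n) = 1 / 10 ^ 8 - π / n := by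
      field_simp
    rw [h3]
    have h4 : π / n ≤ 1 / (2 * 10 ^ 8) := by
      rw [div_le_div_iff₀ (by linarith) (by norm_num)]
      linarith
    linarith
  have hr0 : 0 < r := by
    rcases Nat.eq_zero_or_pos r with h0 | h0
    · rw [h0] at hr2
      norm_num at hr2
    · exact h0
  have hδ2 : (1 / 10 ^ 11 : ℝ) * (1 + 1 / (r * (π / n))) ≤ 1 / 100 := by
    have h1 : 1 / ((r : ℝ) * (π / n)) ≤ 2 * 10 ^ 8 := by
      rw [div_le_iff₀ (by linarith)]
      linarith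
    linarith
  have hXpos : ∀ ℓ ∈ Ico 1 n, ∀ a : ZMod n, 0 < X u t a ℓ := by
    intro ℓ hℓ a
    rw [mem_Ico] at hℓ
    exact (B_window hnear (by norm_num) hr0 (hr1.trans (by norm_num)) hδ2 (by omega) hℓ.2 a).1
  -- the perimeter
  have hL : ∑ i ∈ range n, ‖W (i + 1) - W i‖ =
      ‖c‖ * (2 * sin (π / n)) * ∑ a, √(X u t a 1 ^ 2 + Y u t a 1 ^ 2) := by
    rw [← Z1_sum_cast (fun a => √(X u t a 1 ^ 2 + Y u t a 1 ^ 2)), mul_sum]
    refine sum_congr rfl fun i _ => ?_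
    have h1 := norm_chord h i 1 one_pos (by omega)
    rw [h1, Nat.cast_one, one_mul]
  set Q := ∑ a, √(X u t a 1 ^ 2 + Y u t a 1 ^ 2) with hQ
  have hQpos : 0 < Q := by
    refine sum_pos (fun a _ => ?_) ⟨0, mem_univ 0⟩
    have := hnear.hX a
    positivity
  have hL2 : (∑ i ∈ range n, ‖W (i + 1) - W i‖) / (2 * n * sin (π / n)) = ‖c‖ * (Q / n) := by
    rw [hL]
    field_simp
  -- the energy
  have hE : ∑ ℓ ∈ Ico 1 n, ∑ a ∈ range n, log ‖W (a + ℓ) - W a‖ =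
      n * log n + n * (n - 1) * log ‖c‖ + SS u t := by
    have h1 : ∀ ℓ ∈ Ico 1 n, ∑ a ∈ range n, log ‖W (a + ℓ) - W a‖ =
        n * log ‖c‖ + n * log (2 * sin (ℓ * (π / n))) +
          ∑ a, log (X u t a ℓ ^ 2 + Y u t a ℓ ^ 2) / 2 := by
      intro ℓ hℓ
      have hℓ' := mem_Ico.1 hℓ
      rw [← Z1_sum_cast (fun a => log (X u t a ℓ ^ 2 + Y u t a ℓ ^ 2) / 2)]
      have h2 : ∀ a ∈ range n, log ‖W (a + ℓ) - W a‖ =
          (log ‖c‖ + log (2 * sin (ℓ * (π / n)))) +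
            log (X u t a ℓ ^ 2 + Y u t a ℓ ^ 2) / 2 := by
        intro a _
        have h3 := hXpos ℓ hℓ a
        have h4 : 0 < sin (ℓ * (π / n)) := by
          refine sin_pos_of_pos_of_lt_pi ?_ ?_
          · have : (0 : ℝ) < ℓ := by exact_mod_cast hℓ'.1
            positivity
          · have : (ℓ : ℝ) < n := by exact_mod_cast hℓ'.2
            calc (ℓ : ℝ) * (π / n) < n * (π / n) := by gcongr
              _ = π := by field_simp
        rw [norm_chord h a ℓ (by omega) hℓ'.2, Real.log_mul (by positivity) (by positivity),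
          Real.log_mul (by positivity) (by positivity), Real.log_sqrt (by positivity)]
      rw [sum_congr rfl h2, sum_add_distrib, sum_const, card_range, nsmul_eq_mul]
      ring
    rw [sum_congr rfl h1, sum_add_distrib, sum_add_distrib, sum_const, Nat.card_Ico,
      nsmul_eq_mul, ← mul_sum, sum_log_two_sin (by omega)]
    have h5 : ((n - 1 : ℕ) : ℝ) = (n : ℝ) - 1 := by
      rw [Nat.cast_sub (by omega)]
      simp
    rw [h5]
    unfold SS
    ring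
  obtain ⟨h1, h2⟩ := stepB_final hn hnear
  have h3 : log (‖c‖ * (Q / n)) = log ‖c‖ + log (Q / n) :=
    Real.log_mul hcn.ne' (by positivity)
  rw [hE, hL2, h3]
  refine ⟨by linarith, fun he k => ?_⟩
  obtain ⟨hu, ht⟩ := h2 (by linarith)
  rw [h k, hu, ht]
  simp

end Pool.Agent.Lib.MP_e1dd62_co.Big
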