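import Pool.Agent.Lib.MP_e1dd62_co.Big.A4
import Pool.Agent.Lib.MP_e1dd62_co.Big.G5
import Pool.Agent.Lib.MP_e1dd62_co.Big.Z1
import Pool.Agent.Lib.MP_e1dd62_co.Small

/-!
# The regular `n`-gon for large `n`
-/

namespace Pool.Agent.Lib.MP_e1dd62_co.Big

open Finset Real

/-- The logarithm of `Delta` as a sum over the windows. -/
theorem log_Delta_windows {m : ℕ} {W : ℕ → ℂ} (hW : ∀ k, W (k + (m + 1)) = W k)
    (hinj : Function.Injective fun i : Fin (m + 1) => W i) :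
    log (Delta (fun i : Fin (m + 1) => W i)) =
      ∑ ℓ ∈ Ico 1 (m + 1), ∑ a ∈ range (m + 1), log ‖W (a + ℓ) - W a‖ := by
  have hne : ∀ a ℓ : ℕ, 1 ≤ ℓ → ℓ < m + 1 → ‖W (a + ℓ) - W a‖ ≠ 0 := by
    intro a ℓ h1 h2
    rw [norm_ne_zero_iff, sub_ne_zero]
    intro he
    have e1 := per_mod hW (a + ℓ)
    have e2 := per_mod hW a
    rw [← e1, ← e2] at he
    have h3 := @hinj ⟨(a + ℓ) % (m + 1), Nat.mod_lt _ (Nat.succ_pos m)⟩
      ⟨a % (m + 1), Nat.mod_lt _ (Nat.succ_pos m)⟩ he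
    have h4 : (a + ℓ) % (m + 1) = a % (m + 1) := Fin.mk.inj_iff.1 h3
    have h5 : a + ℓ ≡ a + 0 [MOD (m + 1)] := h4
    have h6 := Nat.ModEq.add_left_cancel' a h5
    have h7 : ℓ % (m + 1) = 0 := by
      have : ℓ % (m + 1) = 0 % (m + 1) := h6
      simpa using this
    rw [Nat.mod_eq_of_lt h2] at h7
    omega
  rw [Delta_eq_prod hW, Real.log_prod]
  · rw [sum_Ico_eq_sum_range]
    refine sum_congr (by simp) fun d hd => ?_
    rw [mem_range] at hd
    unfold P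
    rw [Real.log_prod]
    · refine sum_congr rfl fun a _ => ?_
      rw [show a + (d + 1) = a + (1 + d) by ring]
    · intro a _
      exact hne a (d + 1) (by omega) (by omega)
  · intro d hd
    rw [mem_range] at hd
    unfold P
    rw [prod_ne_zero_iff]
    intro a _
    exact hne a (d + 1) (by omega) (by omega)

/-- The logarithm of `Delta` as a sum over the pairs. -/
theorem log_Delta_pairs {n : ℕ} {z : Fin n → ℂ} (hinj : Function.Injective z) :
    log (Delta z) = ∑ i, ∑ j ∈ univ.erase i, log ‖z i - z j‖ := by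
  have hne : ∀ i, ∀ j ∈ univ.erase i, ‖z i - z j‖ ≠ 0 := by
    intro i j hj
    rw [norm_ne_zero_iff, sub_ne_zero]
    exact fun h => (mem_erase.1 hj).1 (hinj h).symm
  unfold Delta
  rw [Real.log_prod]
  · exact sum_congr rfl fun i _ => Real.log_prod fun j hj => hne i j hj
  · intro i _
    rw [prod_ne_zero_iff]
    exact fun j hj => hne i j hj

theorem om_per {n : ℕ} (hn : n ≠ 0) (k : ℕ) : om n ^ (k + n) = om n ^ k := by
  rw [pow_add, (om_prim hn).pow_eq_one, mul_one]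

/-- The vertices of a regular polygon inscribed in the unit circle. -/
theorem Delta_om {m : ℕ} :
    Delta (fun i : Fin (m + 1) => om (m + 1) ^ (i : ℕ)) = ((m + 1 : ℕ) : ℝ) ^ (m + 1) := by
  rw [Delta_eq_prod (W := fun k => om (m + 1) ^ k) (om_per (Nat.succ_ne_zero m))]
  have h1 : ∀ d ∈ range m, P (m + 1) (fun k => om (m + 1) ^ k) (d + 1) =
      (2 * sin (π * ((d + 1 : ℕ) : ℝ) / ((m + 1 : ℕ) : ℝ))) ^ (m + 1) := by
    intro d hd
    rw [mem_range] at hd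
    unfold P
    rw [prod_congr rfl (g := fun _ => 2 * sin (π * ((d + 1 : ℕ) : ℝ) / ((m + 1 : ℕ) : ℝ))),
      prod_const, card_range]
    intro i _
    beta_reduce
    rw [pow_add, ← mul_sub_one, norm_mul, norm_pow, om_norm, one_pow, one_mul,
      om_pow_sub_one (Nat.succ_pos m) (by omega)]
  rw [prod_congr rfl h1, prod_pow, prod_two_sin, Nat.cast_succ]

theorem isMax_pow_le {m : ℕ} {z : Fin (m + 1) → ℂ} (hz : IsMaximiser z) :
    ((m + 1 : ℕ) : ℝ) ^ (m + 1) ≤ Delta z := by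
  rw [← Delta_om]
  refine hz.2 _ fun i j => ?_
  calc ‖om (m + 1) ^ (i : ℕ) - om (m + 1) ^ (j : ℕ)‖ ≤
      ‖om (m + 1) ^ (i : ℕ)‖ + ‖om (m + 1) ^ (j : ℕ)‖ := norm_sub_le _ _
    _ = 2 := by rw [norm_pow, norm_pow, om_norm, one_pow, one_pow]; norm_num

theorem isMax_sub_const {n : ℕ} {z : Fin n → ℂ} (hz : IsMaximiser z) (c : ℂ) :
    IsMaximiser fun i => z i - c := by
  refine ⟨fun i j => ?_, fun z' hz' => ?_⟩
  · rw [sub_sub_sub_cancel_right]
    exact hz.1 i j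
  · rw [Delta_sub_const]
    exact hz.2 z' hz'

theorem four_mul_sin_le {n : ℕ} (hn : 0 < n) : 4 * (n : ℝ) * sin (π / (2 * n)) ≤ 2 * π := by
  have hn' : (0 : ℝ) < n := by exact_mod_cast hn
  have h1 : sin (π / (2 * n)) ≤ π / (2 * n) := sin_le (by positivity)
  calc 4 * (n : ℝ) * sin (π / (2 * n)) ≤ 4 * (n : ℝ) * (π / (2 * n)) := by gcongr
    _ = 2 * π := by field_simp; ring

/-- The structure of a centred maximiser for large `n`. -/
theorem centred : ∃ n₀ : ℕ, ∀ m : ℕ, n₀ ≤ m → ∀ z : Fin (m + 1) → ℂ, IsMaximiser z →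
    ∑ i, z i = 0 →
    Delta z ≤ ((m + 1 : ℕ) : ℝ) ^ (m + 1) / cos (π / (2 * ((m + 1 : ℕ) : ℝ))) ^ ((m + 1) * m) ∧
    (Delta z = ((m + 1 : ℕ) : ℝ) ^ (m + 1) / cos (π / (2 * ((m + 1 : ℕ) : ℝ))) ^ ((m + 1) * m) →
      ∃ (σ : Equiv.Perm (Fin (m + 1))) (c : ℂ),
        ‖c‖ = 1 / cos (π / (2 * ((m + 1 : ℕ) : ℝ))) ∧ ∀ k, z (σ k) = c * om (m + 1) ^ (k : ℕ)) := by
  obtain ⟨ρ, hρ, n₁, hn₁⟩ := exists_near (1 / 10 ^ 11) (by norm_num)
  obtain ⟨n₂, hn₂⟩ := supp_near ρ hρ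
  refine ⟨n₁ + n₂ + 10 ^ 12, fun m hm z hz hc => ?_⟩
  have hinj := hz.injective
  have hm2 : 2 ≤ m := by omega
  obtain ⟨σ, hσ⟩ := exists_isPoly z fun i => hz.notMem_convexHull (by omega) i
  set W : ℕ → ℂ := fun k => z (σ ⟨k % (m + 1), Nat.mod_lt _ (Nat.succ_pos m)⟩) with hWdef
  have hWfin : ∀ k : Fin (m + 1), W k = z (σ k) := by
    intro k
    simp only [hWdef]
    congr 2
    exact Fin.ext (Nat.mod_eq_of_lt k.2)
  have hWeq : (fun i : Fin (m + 1) => W i) = fun i => z (σ i) := funext hWfin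
  have hDW : Delta (fun i : Fin (m + 1) => W i) = Delta z := by rw [hWeq, Delta_perm]
  have hWinj : Function.Injective fun i : Fin (m + 1) => W i := by
    rw [hWeq]
    exact hinj.comp σ.injective
  have hsumW : ∑ i ∈ range (m + 1), W i = 0 := by
    rw [sum_range]
    rw [show (∑ i : Fin (m + 1), W i) = ∑ i, z (σ i) from sum_congr rfl fun i _ => hWfin i,
      Equiv.sum_comp σ z, hc]
  have hper := hσ.perimeter_le hm2 fun a b => hz.1 _ _
  have hper' : ∑ i ∈ range (m + 1), ‖W (i + 1) - W i‖ ≤ 2 * π := by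
    have := four_mul_sin_le (Nat.succ_pos m)
    push_cast at this
    exact hper.trans this
  have hE := log_Delta_windows hσ.per hWinj
  rw [hDW] at hE
  have hpos := hz.pos
  have hlow : ((m : ℝ) + 1) * log (m + 1) ≤ log (Delta z) := by
    have h1 := Real.log_le_log (by positivity) (isMax_pow_le hz)
    rw [Real.log_pow] at h1
    push_cast at h1
    exact h1
  have hsupp := hn₂ m (by omega) z hinj hz.1 hc (by rw [← log_Delta_pairs hinj]; exact hlow)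
  have hh : ∀ θ : ℝ, (∀ i, (Complex.exp (-(θ * Complex.I)) * W i).re ≤ 1 + ρ) ∧
      ∃ i, 1 - ρ ≤ (Complex.exp (-(θ * Complex.I)) * W i).re := by
    intro θ
    obtain ⟨h1, i, hi⟩ := hsupp θ
    refine ⟨fun j => h1 _, ((σ.symm i : Fin (m + 1)) : ℕ), ?_⟩
    rw [hWfin, Equiv.apply_symm_apply]
    exact hi
  have : NeZero (m + 1) := ⟨Nat.succ_ne_zero m⟩
  obtain ⟨c, u, t, hc0, hnear, hWk⟩ := hn₁ (m + 1) (by omega) inferInstance W hσ hsumW hper'
    (by rw [← hE]; push_cast; exact hlow) hh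
  obtain ⟨hle, heq⟩ := energy_le (by omega) hc0 hnear hWk
  rw [← hE] at hle heq
  have hn0 : (0 : ℝ) < ((m + 1 : ℕ) : ℝ) := by positivity
  have hcos := cos_half_pos (n := m + 1) (by omega)
  have hsin := sin_half_pos (n := m + 1) (by omega)
  have hhalf : sin (π / ((m + 1 : ℕ) : ℝ)) =
      2 * sin (π / (2 * ((m + 1 : ℕ) : ℝ))) * cos (π / (2 * ((m + 1 : ℕ) : ℝ))) := by
    rw [← sin_two_mul]
    congr 1
    field_simp
  have hsin1 : 0 < sin (π / ((m + 1 : ℕ) : ℝ)) := by rw [hhalf]; positivity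
  set L := ∑ i ∈ range (m + 1), ‖W (i + 1) - W i‖ with hL
  have hLpos : 0 < L := by
    refine sum_pos (fun i _ => ?_) ⟨0, by simp⟩
    rw [norm_pos_iff]
    exact hσ.side_ne (by omega) i
  have hLe : L / (2 * ((m + 1 : ℕ) : ℝ) * sin (π / ((m + 1 : ℕ) : ℝ))) ≤
      1 / cos (π / (2 * ((m + 1 : ℕ) : ℝ))) := by
    rw [div_le_div_iff₀ (by positivity) hcos, hhalf]
    have h2 : L ≤ 4 * ((m + 1 : ℕ) : ℝ) * sin (π / (2 * ((m + 1 : ℕ) : ℝ))) := by
      push_cast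
      exact hper
    calc L * cos (π / (2 * ((m + 1 : ℕ) : ℝ))) ≤
        4 * ((m + 1 : ℕ) : ℝ) * sin (π / (2 * ((m + 1 : ℕ) : ℝ))) *
          cos (π / (2 * ((m + 1 : ℕ) : ℝ))) := mul_le_mul_of_nonneg_right h2 hcos.le
      _ = _ := by ring
  have hNN : (0 : ℝ) < ((m + 1 : ℕ) : ℝ) * (((m + 1 : ℕ) : ℝ) - 1) := by
    have : (2 : ℝ) ≤ m := by exact_mod_cast hm2
    push_cast
    have h3 : (0 : ℝ) < (m : ℝ) + 1 - 1 := by linarith
    positivity
  have hlogL := Real.log_le_log (by positivity) hLe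
  have hbound : log (((m + 1 : ℕ) : ℝ) ^ (m + 1) /
      cos (π / (2 * ((m + 1 : ℕ) : ℝ))) ^ ((m + 1) * m)) =
      ((m + 1 : ℕ) : ℝ) * log ((m + 1 : ℕ) : ℝ) + ((m + 1 : ℕ) : ℝ) * (((m + 1 : ℕ) : ℝ) - 1) *
        log (1 / cos (π / (2 * ((m + 1 : ℕ) : ℝ)))) := by
    rw [Real.log_div (by positivity) (by positivity), Real.log_pow, Real.log_pow, one_div,
      Real.log_inv]
    push_cast
    ring
  have hmain : log (Delta z) ≤ log (((m + 1 : ℕ) : ℝ) ^ (m + 1) /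
      cos (π / (2 * ((m + 1 : ℕ) : ℝ))) ^ ((m + 1) * m)) := by
    rw [hbound]
    have := mul_le_mul_of_nonneg_left hlogL hNN.le
    linarith
  refine ⟨(Real.log_le_log_iff hpos (by positivity)).1 hmain, fun heqD => ?_⟩
  have h4 := mul_le_mul_of_nonneg_left hlogL hNN.le
  have h5 : log (Delta z) = ((m + 1 : ℕ) : ℝ) * log ((m + 1 : ℕ) : ℝ) +
      ((m + 1 : ℕ) : ℝ) * (((m + 1 : ℕ) : ℝ) - 1) *
        log (L / (2 * ((m + 1 : ℕ) : ℝ) * sin (π / ((m + 1 : ℕ) : ℝ)))) := by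
    refine le_antisymm hle ?_
    rw [heqD, hbound]
    linarith
  have h6 : ∀ k : ℕ, W k = c * om (m + 1) ^ k := by
    intro k
    rw [heq h5 k]
    unfold om
    rw [← Complex.exp_nat_mul]
    congr 2
    push_cast
    ring
  refine ⟨σ, c, ?_, fun k => by rw [← hWfin, h6]⟩
  have h7 : log (L / (2 * ((m + 1 : ℕ) : ℝ) * sin (π / ((m + 1 : ℕ) : ℝ)))) =
      log (1 / cos (π / (2 * ((m + 1 : ℕ) : ℝ)))) := by
    have h8 : ((m + 1 : ℕ) : ℝ) * (((m + 1 : ℕ) : ℝ) - 1) *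
        log (L / (2 * ((m + 1 : ℕ) : ℝ) * sin (π / ((m + 1 : ℕ) : ℝ)))) =
        ((m + 1 : ℕ) : ℝ) * (((m + 1 : ℕ) : ℝ) - 1) *
        log (1 / cos (π / (2 * ((m + 1 : ℕ) : ℝ)))) := by
      rw [heqD, hbound] at h5
      linarith
    exact mul_left_cancel₀ hNN.ne' h8
  have h9 := Real.log_injOn_pos (Set.mem_Ioi.2 (by positivity)) (Set.mem_Ioi.2 (by positivity)) h7
  have h10 : L = ((m + 1 : ℕ) : ℝ) * (‖c‖ * (2 * sin (π / ((m + 1 : ℕ) : ℝ)))) := by
    rw [hL, sum_congr rfl (g := fun _ => ‖c‖ * (2 * sin (π / ((m + 1 : ℕ) : ℝ)))), sum_const,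
      card_range, nsmul_eq_mul]
    intro i _
    rw [h6, h6, pow_succ, show c * (om (m + 1) ^ i * om (m + 1)) - c * om (m + 1) ^ i =
      c * (om (m + 1) ^ i * (om (m + 1) - 1)) by ring, norm_mul, norm_mul, norm_pow, om_norm,
      one_pow, one_mul]
    have h11 := om_pow_sub_one (n := m + 1) (d := 1) (Nat.succ_pos m) (by omega)
    rw [pow_one] at h11
    rw [h11, Nat.cast_one, mul_one]
  rw [← h9, h10]
  field_simp

theorem main : ∃ n₀ : ℕ, ∀ n : ℕ, n₀ ≤ n →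
    (∀ z : Fin n → ℂ, Admissible z →
      Delta z ≤ (n : ℝ) ^ n / cos (π / (2 * n)) ^ (n * (n - 1))) ∧
    (Odd n →
      IsGreatest {x : ℝ | ∃ z : Fin n → ℂ, Admissible z ∧ x = Delta z}
        ((n : ℝ) ^ n / cos (π / (2 * n)) ^ (n * (n - 1))) ∧
      ∀ z : Fin n → ℂ, IsMaximiser z ↔ ∃ (σ : Equiv.Perm (Fin n)) (w c : ℂ),
        ‖c‖ = 1 / cos (π / (2 * n)) ∧
          ∀ k : Fin n, z (σ k) = w + c * Complex.exp (2 * π * Complex.I / n) ^ (k : ℕ)) ∧
    (Even n → ∀ z : Fin n → ℂ, Admissible z →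
      Delta z < (n : ℝ) ^ n / cos (π / (2 * n)) ^ (n * (n - 1))) := by
  obtain ⟨n₀, hn₀⟩ := centred
  refine ⟨n₀ + 3, fun n hn => ?_⟩
  obtain ⟨m, rfl⟩ : ∃ m, n = m + 1 := ⟨n - 1, by omega⟩
  have hm : n₀ ≤ m := by omega
  rw [Nat.add_sub_cancel]
  -- the bound and the structure for every maximiser
  have key : ∀ z : Fin (m + 1) → ℂ, IsMaximiser z →
      Delta z ≤ ((m + 1 : ℕ) : ℝ) ^ (m + 1) / cos (π / (2 * ((m + 1 : ℕ) : ℝ))) ^ ((m + 1) * m) ∧
      (Delta z =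
        ((m + 1 : ℕ) : ℝ) ^ (m + 1) / cos (π / (2 * ((m + 1 : ℕ) : ℝ))) ^ ((m + 1) * m) →
        ∃ (σ : Equiv.Perm (Fin (m + 1))) (w c : ℂ),
          ‖c‖ = 1 / cos (π / (2 * ((m + 1 : ℕ) : ℝ))) ∧
          ∀ k, z (σ k) = w + c * om (m + 1) ^ (k : ℕ)) := by
    intro z hz
    set g : ℂ := (∑ i, z i) / ((m + 1 : ℕ) : ℂ) with hg
    have h0 : ∑ i, (z i - g) = 0 := by
      rw [sum_sub_distrib, sum_const, card_univ, Fintype.card_fin, nsmul_eq_mul, hg]
      have : ((m + 1 : ℕ) : ℂ) ≠ 0 := Nat.cast_ne_zero.2 (Nat.succ_ne_zero m)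
      field_simp
      ring
    obtain ⟨h1, h2⟩ := hn₀ m hm _ (isMax_sub_const hz g) h0
    rw [Delta_sub_const] at h1 h2
    refine ⟨h1, fun he => ?_⟩
    obtain ⟨σ, c, hc, hk⟩ := h2 he
    refine ⟨σ, g, c, hc, fun k => ?_⟩
    rw [← hk k]
    ring
  obtain ⟨z₀, hz₀⟩ := exists_maximiser (m + 1)
  refine ⟨fun z hz => (hz₀.2 z hz).trans (key z₀ hz₀).1, fun hodd => ?_, fun heven z hz => ?_⟩
  · have hreg := reg_Delta (m := m) (by omega)
    have hadm := reg_admissible hodd (by omega)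
    have hmax : ∀ z : Fin (m + 1) → ℂ, Admissible z →
        Delta z ≤ ((m + 1 : ℕ) : ℝ) ^ (m + 1) /
          cos (π / (2 * ((m + 1 : ℕ) : ℝ))) ^ ((m + 1) * m) :=
      fun z hz => (hz₀.2 z hz).trans (key z₀ hz₀).1
    refine ⟨⟨⟨_, hadm, hreg.symm⟩, ?_⟩, fun z => ⟨fun hz => ?_, ?_⟩⟩
    · rintro x ⟨z, hz, rfl⟩
      exact hmax z hz
    · have h3 : Delta z = ((m + 1 : ℕ) : ℝ) ^ (m + 1) /
          cos (π / (2 * ((m + 1 : ℕ) : ℝ))) ^ ((m + 1) * m) :=
        le_antisymm (hmax z hz.1) (by rw [← hreg]; exact hz.2 _ hadm)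
      exact (key z hz).2 h3
    · rintro ⟨σ, w, c, hc, hk⟩
      have hcpos := cos_half_pos (n := m + 1) (by omega)
      -- every distance of `z ∘ σ` is that of the regular polygon
      have hdist : ∀ i j : Fin (m + 1), ‖z (σ i) - z (σ j)‖ = ‖reg (m + 1) i - reg (m + 1) j‖ := by
        intro i j
        rw [hk, hk]
        unfold reg
        rw [show w + c * Complex.exp (2 * π * Complex.I / ((m + 1 : ℕ) : ℂ)) ^ (i : ℕ) -
          (w + c * Complex.exp (2 * π * Complex.I / ((m + 1 : ℕ) : ℂ)) ^ (j : ℕ)) =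
          c * (om (m + 1) ^ (i : ℕ) - om (m + 1) ^ (j : ℕ)) by unfold om; ring, ← mul_sub,
          norm_mul, norm_mul, hc, Complex.norm_real, Real.norm_eq_abs, abs_of_pos (by positivity)]
      have hD : Delta z = Delta (fun i : Fin (m + 1) => reg (m + 1) i) := by
        rw [← Delta_perm z σ]
        unfold Delta
        exact prod_congr rfl fun i _ => prod_congr rfl fun j _ => hdist i j
      refine ⟨fun i j => ?_, fun z' hz' => ?_⟩
      · have h4 := hdist (σ.symm i) (σ.symm j)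
        rw [Equiv.apply_symm_apply, Equiv.apply_symm_apply] at h4
        rw [h4]
        exact hadm _ _
      · rw [hD, hreg]
        exact hmax z' hz'
  · refine lt_of_le_of_lt (hz₀.2 z hz) (lt_of_le_of_ne (key z₀ hz₀).1 fun he => ?_)
    obtain ⟨σ, w, c, hc, hk⟩ := (key z₀ hz₀).2 he
    obtain ⟨k, hk2⟩ := heven
    have hk0 : k < m + 1 := by omega
    have h5 := hz₀.1 (σ ⟨k, hk0⟩) (σ ⟨0, Nat.succ_pos m⟩)
    rw [hk, hk] at h5
    simp only [pow_zero, mul_one] at h5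
    have h6 : om (m + 1) ^ k = -1 := by
      have h7 : om (m + 1) ^ k * om (m + 1) ^ k = 1 := by
        rw [← pow_add, ← hk2, (om_prim (Nat.succ_ne_zero m)).pow_eq_one]
      rcases mul_self_eq_one_iff.1 h7 with h8 | h8
      · exfalso
        have := (om_prim (Nat.succ_ne_zero m)).dvd_of_pow_eq_one k h8
        have := Nat.le_of_dvd (by omega) this
        omega
      · exact h8
    rw [h6, show w + c * -1 - (w + c) = -(2 * c) by ring, norm_neg, norm_mul, hc,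
      Complex.norm_ofNat] at h5
    have hcpos := cos_half_pos (n := m + 1) (by omega)
    have hcos1 : cos (π / (2 * ((m + 1 : ℕ) : ℝ))) < 1 := by
      have hlt : (0 : ℝ) < π / (2 * ((m + 1 : ℕ) : ℝ)) := by positivity
      have := cos_lt_cos_of_nonneg_of_le_pi le_rfl ?_ hlt
      · rwa [cos_zero] at this
      · have hm1 : (1 : ℝ) ≤ ((m + 1 : ℕ) : ℝ) := by
          push_cast
          have : (0 : ℝ) ≤ m := by positivity
          linarith
        rw [div_le_iff₀ (by positivity)]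
        nlinarith [pi_pos]
    have : 1 < 1 / cos (π / (2 * ((m + 1 : ℕ) : ℝ))) := by
      rw [lt_div_iff₀ hcpos]
      linarith
    linarith

end Pool.Agent.Lib.MP_e1dd62_co.Big
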