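import Pool.Agent.Lib.MP_e1dd62_co.Big.W2
import Pool.Agent.Lib.MP_e1dd62_co.Big.J

/-!
# Shifts by a small number of steps
-/

namespace Pool.Agent.Lib.MP_e1dd62_co.Big

open Finset Real

variable {n : ℕ} [NeZero n]

private theorem TU_shift (f : ZMod n → ℝ) (c : ZMod n) : ∑ a, f (a + c) = ∑ a, f a :=
  Equiv.sum_comp (Equiv.addRight c) f

private theorem TU_npos : (0 : ℝ) < n := Nat.cast_pos.mpr (Nat.pos_of_ne_zero (NeZero.ne n))

private theorem TU_n3 {ℓ : ℕ} (h0 : 0 < ℓ) (h1 : ℓ * (π / n) ≤ 1 / 100) : 3 ≤ n := by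
  have hn := TU_npos (n := n)
  have hl : (1 : ℝ) ≤ ℓ := by exact_mod_cast h0
  have hx : 0 < π / n := div_pos pi_pos hn
  have h2 : π / n ≤ 1 / 100 := by nlinarith only [h1, hl, hx]
  rw [div_le_div_iff₀ hn (by norm_num)] at h2
  have h3 := pi_gt_three
  have h4 : (3 : ℝ) ≤ n := by linarith
  exact_mod_cast h4

private theorem TU_cos {z : ℝ} (h0 : 0 < z) (h1 : z ≤ 1 / 100) : 9999 / 10000 ≤ cos z := by
  have := Real.one_sub_sq_div_two_le_cos (x := z)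
  nlinarith only [h0, h1, this]

private theorem TU_tan_le {z : ℝ} (h0 : 0 < z) (h1 : z ≤ 1 / 100) :
    0 < tan z ∧ tan z ≤ 10002 / 10000 * z := by
  have hc := TU_cos h0 h1
  have hs : sin z ≤ z := (Real.sin_lt h0).le
  have hpi := pi_gt_three
  refine ⟨Real.tan_pos_of_pos_of_lt_pi_div_two h0 (by linarith), ?_⟩
  rw [Real.tan_eq_sin_div_cos, div_le_iff₀ (by linarith)]
  nlinarith only [h0, h1, hc, hs]

private theorem TU_ct_pos {ℓ : ℕ} (h0 : 0 < ℓ) (h1 : ℓ * (π / n) ≤ 1 / 100) :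
    0 < ct n ℓ ∧ ct n ℓ * (ℓ * (π / n)) ≤ 1 := by
  have hn := TU_npos (n := n)
  have hl : (1 : ℝ) ≤ ℓ := by exact_mod_cast h0
  have hx : 0 < π / n := div_pos pi_pos hn
  have hz : 0 < ℓ * (π / n) := by positivity
  have hpi := pi_gt_three
  have hs : 0 < sin (ℓ * (π / n)) := Real.sin_pos_of_pos_of_lt_pi hz (by linarith)
  have hc : 0 < cos (ℓ * (π / n)) := by
    have := TU_cos hz h1
    linarith only [h1, hz, this]
  refine ⟨div_pos hc hs, ?_⟩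
  have ht := Real.lt_tan hz (by linarith)
  rw [Real.tan_eq_sin_div_cos, lt_div_iff₀ hc] at ht
  unfold ct
  rw [div_mul_eq_mul_div, div_le_one hs]
  linarith

private theorem TU_coef {ℓ : ℕ} (h0 : 0 < ℓ) (h1 : ℓ * (π / n) ≤ 1 / 100) :
    0 ≤ ct n ℓ * tan (π / n) ∧ ct n ℓ * tan (π / n) * ℓ ≤ 10002 / 10000 := by
  have hn := TU_npos (n := n)
  have hl : (1 : ℝ) ≤ ℓ := by exact_mod_cast h0
  have hx : 0 < π / n := div_pos pi_pos hn
  have hx1 : π / n ≤ 1 / 100 := by nlinarith only [h1, hl, hx]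
  obtain ⟨hc0, hc1⟩ := TU_ct_pos h0 h1
  obtain ⟨ht0, ht1⟩ := TU_tan_le hx hx1
  refine ⟨by positivity, ?_⟩
  calc ct n ℓ * tan (π / n) * ℓ ≤ ct n ℓ * (10002 / 10000 * (π / n)) * ℓ := by gcongr
    _ = 10002 / 10000 * (ct n ℓ * (ℓ * (π / n))) := by ring
    _ ≤ 10002 / 10000 * 1 := by gcongr
    _ = _ := by ring

private theorem TU_tele (hn : 3 ≤ n) (u t : ZMod n → ℝ) (a : ZMod n) (m : ℕ) :
    u (a + (m : ZMod n)) - u a = tan (π / n) *
      (∑ k ∈ range m, (t (a + (k : ZMod n)) + t (a + (k : ZMod n) + 1)) -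
        2 * ∑ k ∈ range m, Y u t (a + (k : ZMod n)) 1) := by
  induction m with
  | zero => simp
  | succ m ih =>
    rw [Finset.sum_range_succ, Finset.sum_range_succ]
    have := u_step hn u t (a + (m : ZMod n))
    have e : a + ((m + 1 : ℕ) : ZMod n) = a + (m : ZMod n) + 1 := by push_cast; ring
    rw [e]
    linear_combination ih + this

private theorem TU_sum_t (t : ZMod n → ℝ) (m : ℕ) :
    ∑ a, (∑ k ∈ range m, (t (a + (k : ZMod n)) + t (a + (k : ZMod n) + 1))) ^ 2 ≤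
      4 * (m : ℝ) ^ 2 * ∑ a, t a ^ 2 := by
  have h1 : ∀ a : ZMod n,
      (∑ k ∈ range m, (t (a + (k : ZMod n)) + t (a + (k : ZMod n) + 1))) ^ 2 ≤
      m * ∑ k ∈ range m, (2 * t (a + (k : ZMod n)) ^ 2 + 2 * t (a + (k : ZMod n) + 1) ^ 2) := by
    intro a
    have := sq_sum_le_card_mul_sum_sq (s := range m)
      (f := fun k : ℕ => t (a + (k : ZMod n)) + t (a + (k : ZMod n) + 1))
    rw [card_range] at this
    refine this.trans ?_
    gcongr with k hk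
    nlinarith only [sq_nonneg (t (a + (k : ZMod n)) - t (a + (k : ZMod n) + 1))]
  calc _ ≤ ∑ a : ZMod n, (m : ℝ) * ∑ k ∈ range m,
      (2 * t (a + (k : ZMod n)) ^ 2 + 2 * t (a + (k : ZMod n) + 1) ^ 2) :=
        Finset.sum_le_sum fun a _ => h1 a
    _ = (m : ℝ) * ∑ k ∈ range m, ∑ a : ZMod n,
      (2 * t (a + (k : ZMod n)) ^ 2 + 2 * t (a + (k : ZMod n) + 1) ^ 2) := by
        rw [← Finset.mul_sum, Finset.sum_comm]
    _ = (m : ℝ) * ∑ k ∈ range m, (4 * ∑ a : ZMod n, t a ^ 2) := by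
        congr 1
        refine Finset.sum_congr rfl fun k _ => ?_
        rw [Finset.sum_add_distrib, ← Finset.mul_sum, ← Finset.mul_sum,
          TU_shift (fun a => t a ^ 2) (k : ZMod n)]
        have : ∑ a : ZMod n, t (a + (k : ZMod n) + 1) ^ 2 = ∑ a, t a ^ 2 := by
          rw [← TU_shift (fun a => t a ^ 2) ((k : ZMod n) + 1)]
          simp only [add_assoc]
        rw [this]
        ring
    _ = _ := by
        rw [Finset.sum_const, card_range, nsmul_eq_mul]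
        ring

private theorem TU_cauchy (X' Y' : ℕ → ℝ) (hX : ∀ k, 0 < X' k) (m : ℕ) :
    (∑ k ∈ range m, Y' k) ^ 2 ≤ (∑ k ∈ range m, X' k) * ∑ k ∈ range m, Y' k ^ 2 / X' k := by
  have := Finset.sum_mul_sq_le_sq_mul_sq (range m) (fun k => √(X' k)) (fun k => Y' k / √(X' k))
  have e1 : ∀ k, √(X' k) * (Y' k / √(X' k)) = Y' k := fun k => by
    have : √(X' k) ≠ 0 := (Real.sqrt_pos.mpr (hX k)).ne'
    field_simp
  have e2 : ∀ k, √(X' k) ^ 2 = X' k := fun k => Real.sq_sqrt (hX k).le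
  have e3 : ∀ k, (Y' k / √(X' k)) ^ 2 = Y' k ^ 2 / X' k := fun k => by rw [div_pow, e2]
  simp only [e1, e2, e3] at this
  exact this

private theorem TU_sum_quot (u t : ZMod n → ℝ) (m : ℕ) :
    ∑ a, ∑ k ∈ range m, Y u t (a + (k : ZMod n)) 1 ^ 2 / X u t (a + (k : ZMod n)) 1 =
      m * ∑ a, Y u t a 1 ^ 2 / X u t a 1 := by
  rw [Finset.sum_comm]
  have : ∀ k ∈ range m, ∑ a, Y u t (a + (k : ZMod n)) 1 ^ 2 / X u t (a + (k : ZMod n)) 1 =
      ∑ a, Y u t a 1 ^ 2 / X u t a 1 := fun k _ =>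
    TU_shift (fun a => Y u t a 1 ^ 2 / X u t a 1) (k : ZMod n)
  rw [Finset.sum_congr rfl this, Finset.sum_const, card_range, nsmul_eq_mul]

theorem T_le {δ : ℝ} {u t : ZMod n → ℝ} (h : Near δ u t) (hδ : δ ≤ 1 / 100) {m : ℕ} (hm : 0 < m)
    {ε : ℝ} (hε : m * (π / n) ≤ ε) (hε1 : ε ≤ 1 / 100) :
    ∑ a, (t (a + (m : ZMod n)) - t a) ^ 2 ≤
      (40 * ε ^ 2 + 30 * δ * ε) * ∑ a, Phi (X u t a m) + 10 * ε ^ 2 * ∑ a, u a ^ 2 := by
  have hn := TU_npos (n := n)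
  have hl : (1 : ℝ) ≤ m := by exact_mod_cast hm
  have hx : 0 < π / n := div_pos pi_pos hn
  have hz : 0 < m * (π / n) := by positivity
  have hz1 : m * (π / n) ≤ 1 / 100 := hε.trans hε1
  have hpi := pi_gt_three
  obtain ⟨ht0, ht1⟩ := TU_tan_le hz hz1
  set τ := tan (m * (π / n)) with hτ
  have hτε : τ ≤ 10002 / 10000 * ε := by linarith only [ht1, hε]
  have hδ0 : 0 ≤ δ := (abs_nonneg _).trans (h.hu 0)
  have hε0 : 0 < ε := by linarith only [hz, hε]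
  have hs : 0 < sin (m * (π / n)) := Real.sin_pos_of_pos_of_lt_pi hz (by linarith only [hpi, hz, hε, hε1])
  have hc : 0 < cos (m * (π / n)) := by
    have := TU_cos hz hz1
    linarith only [hz, hε, hε1, this]
  have hτc : τ * ct n m = 1 := by
    rw [hτ, Real.tan_eq_sin_div_cos]
    unfold ct
    rw [div_mul_div_comm, mul_comm, div_self (mul_pos hc hs).ne']
  have key : ∀ a, (t (a + (m : ZMod n)) - t a) ^ 2 ≤
      (40 * ε ^ 2 + 30 * δ * ε) * Phi (X u t a m) +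
        10 * ε ^ 2 * ((u a ^ 2 + u (a + (m : ZMod n)) ^ 2) / 2) := by
    intro a
    obtain ⟨hX0, -, -⟩ := short_window hδ h.hX h.hY hm hz1 a
    set y := X u t a m with hy
    set g := (u a + u (a + (m : ZMod n))) / 2 with hg
    have hd : t (a + (m : ZMod n)) - t a = 2 * τ * (y - 1 - g) := by
      have : y - 1 - g = ct n m / 2 * (t (a + (m : ZMod n)) - t a) := by
        rw [hy, hg]
        unfold X
        ring
      rw [this]
      linear_combination (-(t (a + (m : ZMod n)) - t a)) * hτc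
    have hg2 : g ^ 2 ≤ (u a ^ 2 + u (a + (m : ZMod n)) ^ 2) / 2 := by
      rw [hg]
      nlinarith only [sq_nonneg (u a - u (a + (m : ZMod n)))]
    have hPhi := Phi_nonneg hX0
    rcases le_or_gt y 2 with hy2 | hy2
    · have hP := Phi_ge_of_le_two hX0 hy2
      rw [hd]
      have h1 : (2 * τ * (y - 1 - g)) ^ 2 ≤ 8 * τ ^ 2 * ((y - 1) ^ 2 + g ^ 2) := by
        have : 0 ≤ τ ^ 2 * (y - 1 + g) ^ 2 := by (clear * - ht0; positivity)
        nlinarith only [this]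
      have h2 : τ ^ 2 ≤ 101 / 100 * ε ^ 2 := by nlinarith only [ht0, ht1, hz, hε, hε1]
      calc _ ≤ 8 * τ ^ 2 * ((y - 1) ^ 2 + g ^ 2) := h1
        _ ≤ 8 * (101 / 100 * ε ^ 2) *
            (4 * Phi y + (u a ^ 2 + u (a + (m : ZMod n)) ^ 2) / 2) := by
            gcongr
            linarith only [hP]
        _ = 8 * (101 / 100) * 4 * (ε ^ 2 * Phi y) +
            8 * (101 / 100) / 2 * (ε ^ 2 * (u a ^ 2 + u (a + (m : ZMod n)) ^ 2)) := by ring
        _ ≤ 40 * (ε ^ 2 * Phi y) + 30 * (δ * ε * Phi y) +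
            5 * (ε ^ 2 * (u a ^ 2 + u (a + (m : ZMod n)) ^ 2)) := by
            have e1 : 0 ≤ ε ^ 2 * Phi y := by positivity
            have e2 : 0 ≤ δ * ε * Phi y := by positivity
            have e3 : 0 ≤ ε ^ 2 * (u a ^ 2 + u (a + (m : ZMod n)) ^ 2) := by (clear * - hε0; positivity)
            linarith only [e1, e2, e3]
        _ = _ := by ring
    · have hP := Phi_ge_of_two_le hy2.le
      have hb := abs_le.mp (h.hu a)
      have hb' := abs_le.mp (h.hu (a + (m : ZMod n)))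
      have hc := abs_le.mp (h.ht a)
      have hc' := abs_le.mp (h.ht (a + (m : ZMod n)))
      have hga : -δ ≤ g := by rw [hg]; linarith only [hb, hb']
      have hgb : g ≤ δ := by rw [hg]; linarith only [hb, hb']
      have d0 : 0 ≤ t (a + (m : ZMod n)) - t a := by
        rw [hd]
        have : 0 ≤ y - 1 - g := by linarith only [hb, hb', hg, hy2, hz, hδ, hε, hε1]
        positivity
      have d1 : t (a + (m : ZMod n)) - t a ≤ 2 * δ := by linarith only [hc, hc']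
      have d2 : t (a + (m : ZMod n)) - t a ≤ 7 * ε * Phi y := by
        rw [hd]
        calc 2 * τ * (y - 1 - g) ≤ 2 * (10002 / 10000 * ε) * (101 / 100 * (y - 1)) := by
              gcongr
              · linarith
              · linarith
          _ ≤ 2 * (10002 / 10000 * ε) * (101 / 100 * (10 / 3 * Phi y)) := by
              gcongr
              linarith
          _ ≤ _ := by
              have : 0 ≤ ε * Phi y := by positivity
              nlinarith only [this]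
      have d3 : (t (a + (m : ZMod n)) - t a) ^ 2 ≤ (2 * δ) * (7 * ε * Phi y) := by
        rw [sq]
        exact mul_le_mul d1 d2 d0 (by positivity)
      have e1 : 0 ≤ ε ^ 2 * Phi y := by positivity
      have e2 : 0 ≤ δ * ε * Phi y := by positivity
      have e3 : 0 ≤ ε ^ 2 * (u a ^ 2 + u (a + (m : ZMod n)) ^ 2) := by positivity
      calc _ ≤ _ := d3
        _ = 14 * (δ * ε * Phi y) := by ring
        _ ≤ 40 * (ε ^ 2 * Phi y) + 30 * (δ * ε * Phi y) +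
            5 * (ε ^ 2 * (u a ^ 2 + u (a + (m : ZMod n)) ^ 2)) := by linarith only [e1, e2, e3]
        _ = _ := by ring
  calc _ ≤ ∑ a, ((40 * ε ^ 2 + 30 * δ * ε) * Phi (X u t a m) +
        10 * ε ^ 2 * ((u a ^ 2 + u (a + (m : ZMod n)) ^ 2) / 2)) :=
        Finset.sum_le_sum fun a _ => key a
    _ = _ := by
        rw [Finset.sum_add_distrib, ← Finset.mul_sum, ← Finset.mul_sum, ← Finset.sum_div,
          Finset.sum_add_distrib, TU_shift (fun a => u a ^ 2) (m : ZMod n)]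
        ring

/-- the sum over a window of length `m ≤ r` -/
private theorem TU_win {δ : ℝ} {u t : ZMod n → ℝ} (h : Near δ u t) (hδ : δ ≤ 1 / 100) {r : ℕ}
    (hr : 0 < r) (hr1 : r * (π / n) ≤ 1 / 100) (hδ1 : δ * (1 + 1 / (r * (π / n))) ≤ 1 / 100)
    (a : ZMod n) : ∑ k ∈ range r, X u t (a + (k : ZMod n)) 1 ≤ 1111 / 1000 * r := by
  have hn := TU_npos (n := n)
  have hx : 0 < π / n := div_pos pi_pos hn
  obtain ⟨-, -, h3⟩ := short_window hδ h.hX h.hY hr hr1 a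
  have hrn : r + r ≤ n := by
    have hpi := pi_gt_three
    have : (r : ℝ) * π ≤ n / 100 := by
      have : (r : ℝ) * π = r * (π / n) * n := by field_simp
      rw [this]
      nlinarith only [hr1]
    have h5 : (r : ℝ) + r ≤ n := by
      have : (0 : ℝ) ≤ r := by positivity
      nlinarith
    exact_mod_cast h5
  obtain ⟨h4, -⟩ := long_window h.hu h.ht hr le_rfl hrn a
  have h5 : X u t a r ≤ 101 / 100 := by
    have := (abs_le.mp (h4.trans hδ1)).2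
    linarith only [this]
  calc _ ≤ 11 / 10 * r * X u t a r := h3
    _ ≤ 11 / 10 * r * (101 / 100) := by gcongr
    _ = _ := by ring

theorem U_le {δ : ℝ} {u t : ZMod n → ℝ} (h : Near δ u t) (hδ : δ ≤ 1 / 100) {r : ℕ} (hr : 0 < r)
    (hr1 : r * (π / n) ≤ 1 / 100) (hδ1 : δ * (1 + 1 / (r * (π / n))) ≤ 1 / 100)
    {m : ℕ} (hm : m ≤ r) :
    ∑ a, (u (a + (m : ZMod n)) - u a) ^ 2 ≤
      (r * (π / n)) ^ 2 * (9 * ∑ a, t a ^ 2 + 40 * K u t) := by
  have hn := TU_npos (n := n)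
  have hn3 := TU_n3 hr hr1
  have hx : 0 < π / n := div_pos pi_pos hn
  have hr' : (1 : ℝ) ≤ r := by exact_mod_cast hr
  have hx1 : π / n ≤ 1 / 100 := by nlinarith only [hr', hr1, hx]
  obtain ⟨ht0, ht1⟩ := TU_tan_le hx hx1
  have hmr : (m : ℝ) ≤ r := by exact_mod_cast hm
  have hK := K_nonneg u t
  have hT : 0 ≤ ∑ a, t a ^ 2 := Finset.sum_nonneg fun a _ => sq_nonneg _
  have key : ∀ a, (u (a + (m : ZMod n)) - u a) ^ 2 ≤ tan (π / n) ^ 2 *
      (2 * (∑ k ∈ range m, (t (a + (k : ZMod n)) + t (a + (k : ZMod n) + 1))) ^ 2 +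
        8 * (1111 / 1000 * r *
          ∑ k ∈ range m, Y u t (a + (k : ZMod n)) 1 ^ 2 / X u t (a + (k : ZMod n)) 1)) := by
    intro a
    rw [TU_tele hn3 u t a m, mul_pow]
    gcongr
    set A := ∑ k ∈ range m, (t (a + (k : ZMod n)) + t (a + (k : ZMod n) + 1))
    set B := ∑ k ∈ range m, Y u t (a + (k : ZMod n)) 1 with hB
    have h1 : B ^ 2 ≤ 1111 / 1000 * r *
          ∑ k ∈ range m, Y u t (a + (k : ZMod n)) 1 ^ 2 / X u t (a + (k : ZMod n)) 1 := by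
      have h2 := TU_cauchy (fun k => X u t (a + (k : ZMod n)) 1)
        (fun k => Y u t (a + (k : ZMod n)) 1) (fun k => h.hX _) m
      refine h2.trans ?_
      have h4 : 0 ≤ ∑ k ∈ range m, Y u t (a + (k : ZMod n)) 1 ^ 2 / X u t (a + (k : ZMod n)) 1 :=
        Finset.sum_nonneg fun k _ => div_nonneg (sq_nonneg _) (h.hX _).le
      have h3 : ∑ k ∈ range m, X u t (a + (k : ZMod n)) 1 ≤ 1111 / 1000 * r := by
        refine le_trans ?_ (TU_win h hδ hr hr1 hδ1 a)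
        exact Finset.sum_le_sum_of_subset_of_nonneg (Finset.range_subset_range.mpr hm)
          fun k _ _ => (h.hX _).le
      exact mul_le_mul_of_nonneg_right h3 h4
    nlinarith only [h1, sq_nonneg (A + 2 * B)]
  calc _ ≤ ∑ a : ZMod n, tan (π / n) ^ 2 *
      (2 * (∑ k ∈ range m, (t (a + (k : ZMod n)) + t (a + (k : ZMod n) + 1))) ^ 2 +
        8 * (1111 / 1000 * r *
          ∑ k ∈ range m, Y u t (a + (k : ZMod n)) 1 ^ 2 / X u t (a + (k : ZMod n)) 1)) :=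
        Finset.sum_le_sum fun a _ => key a
    _ = tan (π / n) ^ 2 *
      (2 * (∑ a : ZMod n, (∑ k ∈ range m,
          (t (a + (k : ZMod n)) + t (a + (k : ZMod n) + 1))) ^ 2) +
        8 * (1111 / 1000 * r * (m * ∑ a, Y u t a 1 ^ 2 / X u t a 1))) := by
        rw [← Finset.mul_sum, Finset.sum_add_distrib, ← Finset.mul_sum, ← Finset.mul_sum,
          ← Finset.mul_sum, TU_sum_quot]
    _ ≤ (10002 / 10000 * (π / n)) ^ 2 *
      (2 * (4 * (r : ℝ) ^ 2 * ∑ a, t a ^ 2) + 8 * (1111 / 1000 * r * (r * (21 / 10 * K u t)))) := by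
        have h1 := K_ge_quot hδ h.hX h.hY
        have h2 : 0 ≤ ∑ a, Y u t a 1 ^ 2 / X u t a 1 :=
          Finset.sum_nonneg fun k _ => div_nonneg (sq_nonneg _) (h.hX _).le
        have h3 := TU_sum_t t m
        have h4 : ∑ a : ZMod n, (∑ k ∈ range m,
          (t (a + (k : ZMod n)) + t (a + (k : ZMod n) + 1))) ^ 2 ≤
            4 * (r : ℝ) ^ 2 * ∑ a, t a ^ 2 := by
          refine h3.trans ?_
          gcongr
        gcongr
    _ ≤ _ := by
        have e1 : 0 ≤ (π / n) ^ 2 * (r : ℝ) ^ 2 * ∑ a, t a ^ 2 := by positivity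
        have e2 : 0 ≤ (π / n) ^ 2 * (r : ℝ) ^ 2 * K u t := by positivity
        nlinarith only [e1, e2]

/-- decomposition of `Y` of a short window -/
private theorem TU_decomp (hn : 3 ≤ n) (u t : ZMod n → ℝ) (a : ZMod n) (ℓ : ℕ) :
    Y u t a ℓ = (t a + t (a + (ℓ : ZMod n))) / 2 - ct n ℓ * tan (π / n) / 2 *
        ∑ k ∈ range ℓ, (t (a + (k : ZMod n)) + t (a + (k : ZMod n) + 1)) +
      ct n ℓ * tan (π / n) * ∑ k ∈ range ℓ, Y u t (a + (k : ZMod n)) 1 := by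
  unfold Y
  rw [TU_tele hn u t a ℓ]
  unfold Y
  ring

private theorem TU_Y_sq (hn : 3 ≤ n) (u t : ZMod n → ℝ) {ℓ : ℕ} (h0 : 0 < ℓ)
    (h1 : ℓ * (π / n) ≤ 1 / 100) (a : ZMod n) :
    Y u t a ℓ ^ 2 ≤ 14 / 10 * (t a ^ 2 + t (a + (ℓ : ZMod n)) ^ 2) +
      71 / 100 / (ℓ : ℝ) ^ 2 *
        (∑ k ∈ range ℓ, (t (a + (k : ZMod n)) + t (a + (k : ZMod n) + 1))) ^ 2 +
      36 / 10 / (ℓ : ℝ) ^ 2 * (∑ k ∈ range ℓ, Y u t (a + (k : ZMod n)) 1) ^ 2 := by
  obtain ⟨hc0, hc1⟩ := TU_coef (n := n) h0 h1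
  rw [TU_decomp hn u t a ℓ]
  set c := ct n ℓ * tan (π / n) with hc
  set A := ∑ k ∈ range ℓ, (t (a + (k : ZMod n)) + t (a + (k : ZMod n) + 1))
  set B := ∑ k ∈ range ℓ, Y u t (a + (k : ZMod n)) 1
  have hl : (0 : ℝ) < ℓ := by exact_mod_cast h0
  have hc2 : c ^ 2 ≤ 1001 / 1000 / (ℓ : ℝ) ^ 2 := by
    rw [le_div_iff₀ (by positivity)]
    have : (c * ℓ) ^ 2 ≤ (10002 / 10000) ^ 2 := by
      apply pow_le_pow_left₀ (by positivity) hc1
    nlinarith only [this]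
  have hA : c ^ 2 * A ^ 2 ≤ 1001 / 1000 / (ℓ : ℝ) ^ 2 * A ^ 2 := by gcongr
  have hB : c ^ 2 * B ^ 2 ≤ 1001 / 1000 / (ℓ : ℝ) ^ 2 * B ^ 2 := by gcongr
  have e : 71 / 100 / (ℓ : ℝ) ^ 2 * A ^ 2 = 71 / 100 * (A ^ 2 / (ℓ : ℝ) ^ 2) := by ring
  have e' : 36 / 10 / (ℓ : ℝ) ^ 2 * B ^ 2 = 36 / 10 * (B ^ 2 / (ℓ : ℝ) ^ 2) := by ring
  have eA : 1001 / 1000 / (ℓ : ℝ) ^ 2 * A ^ 2 = 1001 / 1000 * (A ^ 2 / (ℓ : ℝ) ^ 2) := by ring
  have eB : 1001 / 1000 / (ℓ : ℝ) ^ 2 * B ^ 2 = 1001 / 1000 * (B ^ 2 / (ℓ : ℝ) ^ 2) := by ring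
  rw [eA] at hA
  rw [eB] at hB
  rw [e, e']
  have pA : 0 ≤ A ^ 2 / (ℓ : ℝ) ^ 2 := by positivity
  have pB : 0 ≤ B ^ 2 / (ℓ : ℝ) ^ 2 := by positivity
  set P := (t a + t (a + (ℓ : ZMod n))) / 2 with hP
  have hP2 : P ^ 2 ≤ (t a ^ 2 + t (a + (ℓ : ZMod n)) ^ 2) / 2 := by
    rw [hP]
    nlinarith only [sq_nonneg (t a - t (a + (ℓ : ZMod n)))]
  have s1 : (P - c / 2 * A + c * B) ^ 2 ≤
      14 / 10 * (P - c / 2 * A) ^ 2 + 35 / 10 * (c * B) ^ 2 := by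
    nlinarith only [sq_nonneg (2 * (P - c / 2 * A) - 5 * (c * B))]
  have s2 : (P - c / 2 * A) ^ 2 ≤ 2 * P ^ 2 + 2 * (c / 2 * A) ^ 2 := by
    nlinarith only [sq_nonneg (P + c / 2 * A)]
  nlinarith only [hA, hB, hP2, s1, s2]

theorem Y_short_le {δ : ℝ} {u t : ZMod n → ℝ} (h : Near δ u t) (hδ : δ ≤ 1 / 100) {ℓ : ℕ}
    (h0 : 0 < ℓ) (h1 : ℓ * (π / n) ≤ 1 / 100) :
    ∑ a with |X u t a ℓ - 1| ≤ 1 / 100, Y u t a ℓ ^ 2 ≤ 6 * ∑ a, t a ^ 2 + 10 * K u t := by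
  have hn3 := TU_n3 h0 h1
  have hl : (0 : ℝ) < ℓ := by exact_mod_cast h0
  have hK := K_nonneg u t
  have hT : 0 ≤ ∑ a, t a ^ 2 := Finset.sum_nonneg fun a _ => sq_nonneg _
  have key : ∀ a ∈ (univ.filter fun a : ZMod n => |X u t a ℓ - 1| ≤ 1 / 100), Y u t a ℓ ^ 2 ≤
      14 / 10 * (t a ^ 2 + t (a + (ℓ : ZMod n)) ^ 2) +
      71 / 100 / (ℓ : ℝ) ^ 2 *
        (∑ k ∈ range ℓ, (t (a + (k : ZMod n)) + t (a + (k : ZMod n) + 1))) ^ 2 +
      36 / 10 / (ℓ : ℝ) ^ 2 * (1111 / 1000 * ℓ *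
        ∑ k ∈ range ℓ, Y u t (a + (k : ZMod n)) 1 ^ 2 / X u t (a + (k : ZMod n)) 1) := by
    intro a ha
    rw [Finset.mem_filter] at ha
    refine (TU_Y_sq hn3 u t h0 h1 a).trans ?_
    gcongr
    refine (TU_cauchy (fun k => X u t (a + (k : ZMod n)) 1)
        (fun k => Y u t (a + (k : ZMod n)) 1) (fun k => h.hX _) ℓ).trans ?_
    have h4 : 0 ≤ ∑ k ∈ range ℓ, Y u t (a + (k : ZMod n)) 1 ^ 2 / X u t (a + (k : ZMod n)) 1 :=
      Finset.sum_nonneg fun k _ => div_nonneg (sq_nonneg _) (h.hX _).le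
    refine mul_le_mul_of_nonneg_right ?_ h4
    obtain ⟨-, -, h3⟩ := short_window hδ h.hX h.hY h0 h1 a
    have h5 : X u t a ℓ ≤ 101 / 100 := by
      have := (abs_le.mp ha.2).2
      linarith only [this]
    calc _ ≤ 11 / 10 * ℓ * X u t a ℓ := h3
      _ ≤ 11 / 10 * ℓ * (101 / 100) := by gcongr
      _ = _ := by ring
  calc _ ≤ ∑ a with |X u t a ℓ - 1| ≤ 1 / 100,
      (14 / 10 * (t a ^ 2 + t (a + (ℓ : ZMod n)) ^ 2) +
      71 / 100 / (ℓ : ℝ) ^ 2 *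
        (∑ k ∈ range ℓ, (t (a + (k : ZMod n)) + t (a + (k : ZMod n) + 1))) ^ 2 +
      36 / 10 / (ℓ : ℝ) ^ 2 * (1111 / 1000 * ℓ *
        ∑ k ∈ range ℓ, Y u t (a + (k : ZMod n)) 1 ^ 2 / X u t (a + (k : ZMod n)) 1)) :=
        Finset.sum_le_sum key
    _ ≤ ∑ a : ZMod n,
      (14 / 10 * (t a ^ 2 + t (a + (ℓ : ZMod n)) ^ 2) +
      71 / 100 / (ℓ : ℝ) ^ 2 *
        (∑ k ∈ range ℓ, (t (a + (k : ZMod n)) + t (a + (k : ZMod n) + 1))) ^ 2 +
      36 / 10 / (ℓ : ℝ) ^ 2 * (1111 / 1000 * ℓ *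
        ∑ k ∈ range ℓ, Y u t (a + (k : ZMod n)) 1 ^ 2 / X u t (a + (k : ZMod n)) 1)) := by
        refine Finset.sum_le_sum_of_subset_of_nonneg (Finset.filter_subset _ _) fun a _ _ => ?_
        have h4 : 0 ≤ ∑ k ∈ range ℓ,
            Y u t (a + (k : ZMod n)) 1 ^ 2 / X u t (a + (k : ZMod n)) 1 :=
          Finset.sum_nonneg fun k _ => div_nonneg (sq_nonneg _) (h.hX _).le
        (clear * - h0 h4; positivity)
    _ = 14 / 10 * (2 * ∑ a, t a ^ 2) + 71 / 100 / (ℓ : ℝ) ^ 2 *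
        (∑ a : ZMod n, (∑ k ∈ range ℓ,
          (t (a + (k : ZMod n)) + t (a + (k : ZMod n) + 1))) ^ 2) +
      36 / 10 / (ℓ : ℝ) ^ 2 * (1111 / 1000 * ℓ * (ℓ * ∑ a, Y u t a 1 ^ 2 / X u t a 1)) := by
        rw [Finset.sum_add_distrib, Finset.sum_add_distrib, ← Finset.mul_sum, ← Finset.mul_sum,
          ← Finset.mul_sum, ← Finset.mul_sum, TU_sum_quot, Finset.sum_add_distrib,
          TU_shift (fun a => t a ^ 2) (ℓ : ZMod n)]
        ring
    _ ≤ 14 / 10 * (2 * ∑ a, t a ^ 2) + 71 / 100 / (ℓ : ℝ) ^ 2 *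
        (4 * (ℓ : ℝ) ^ 2 * ∑ a, t a ^ 2) +
      36 / 10 / (ℓ : ℝ) ^ 2 * (1111 / 1000 * ℓ * (ℓ * (21 / 10 * K u t))) := by
        have h2 := K_ge_quot hδ h.hX h.hY
        have h3 := TU_sum_t t ℓ
        gcongr
    _ = (28 / 10 + 284 / 100) * ∑ a, t a ^ 2 +
        (36 / 10 * (1111 / 1000) * (21 / 10)) * K u t := by
        field_simp
        ring
    _ ≤ _ := by nlinarith only [hK, hT]

theorem Y_sm_short_le {δ : ℝ} {u t : ZMod n → ℝ} (h : Near δ u t) (hδ : δ ≤ 1 / 100) {r : ℕ}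
    (hr : 0 < r) (hr1 : r * (π / n) ≤ 1 / 100) (hδ1 : δ * (1 + 1 / (r * (π / n))) ≤ 1 / 100)
    {ℓ : ℕ} (h0 : 0 < ℓ) (h1 : ℓ ≤ r) :
    ∑ a, Y (sm r u) (sm r t) a ℓ ^ 2 ≤ 6 * ∑ a, t a ^ 2 + 10 * K u t := by
  have hn := TU_npos (n := n)
  have hx : 0 < π / n := div_pos pi_pos hn
  have hn3 := TU_n3 hr hr1
  have hl : (0 : ℝ) < ℓ := by exact_mod_cast h0
  have hr' : (0 : ℝ) < r := by exact_mod_cast hr
  have hlr : (ℓ : ℝ) ≤ r := by exact_mod_cast h1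
  have hlx : ℓ * (π / n) ≤ 1 / 100 := (mul_le_mul_of_nonneg_right hlr hx.le).trans hr1
  have hK := K_nonneg u t
  have hT : 0 ≤ ∑ a, t a ^ 2 := Finset.sum_nonneg fun a _ => sq_nonneg _
  -- the smoothed function `t`
  have hsm : ∑ a, sm r t a ^ 2 ≤ ∑ a, t a ^ 2 := by
    have h2 : ∀ a, sm r t a ^ 2 ≤ (∑ m ∈ range r, t (a + (m : ZMod n)) ^ 2) / r := by
      intro a
      have := sq_sum_le_card_mul_sum_sq (s := range r) (f := fun m : ℕ => t (a + (m : ZMod n)))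
      rw [card_range] at this
      unfold sm
      rw [div_pow, div_le_div_iff₀ (by positivity) hr']
      calc _ ≤ ((r : ℝ) * ∑ m ∈ range r, t (a + (m : ZMod n)) ^ 2) * r := by gcongr
        _ = _ := by ring
    calc _ ≤ ∑ a : ZMod n, (∑ m ∈ range r, t (a + (m : ZMod n)) ^ 2) / r :=
          Finset.sum_le_sum fun a _ => h2 a
      _ = _ := by
          have h3 : ∀ m ∈ range r, ∑ a : ZMod n, t (a + (m : ZMod n)) ^ 2 = ∑ a, t a ^ 2 :=
            fun m _ => TU_shift (fun a => t a ^ 2) (m : ZMod n)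
          rw [← Finset.sum_div, Finset.sum_comm, Finset.sum_congr rfl h3,
            Finset.sum_const, card_range, nsmul_eq_mul]
          field_simp
  -- the smoothed function `Y` of the edges
  have hYs : ∑ a, Y (sm r u) (sm r t) a 1 ^ 2 ≤ 1111 / 1000 * (21 / 10 * K u t) := by
    have h2 : ∀ a, Y (sm r u) (sm r t) a 1 ^ 2 ≤ 1111 / 1000 / r *
        ∑ k ∈ range r, Y u t (a + (k : ZMod n)) 1 ^ 2 / X u t (a + (k : ZMod n)) 1 := by
      intro a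
      rw [Y_sm hr]
      unfold sm
      rw [div_pow, div_le_iff₀ (by positivity)]
      refine (TU_cauchy (fun k => X u t (a + (k : ZMod n)) 1)
        (fun k => Y u t (a + (k : ZMod n)) 1) (fun k => h.hX _) r).trans ?_
      have h4 : 0 ≤ ∑ k ∈ range r, Y u t (a + (k : ZMod n)) 1 ^ 2 / X u t (a + (k : ZMod n)) 1 :=
        Finset.sum_nonneg fun k _ => div_nonneg (sq_nonneg _) (h.hX _).le
      calc _ ≤ 1111 / 1000 * r *
          ∑ k ∈ range r, Y u t (a + (k : ZMod n)) 1 ^ 2 / X u t (a + (k : ZMod n)) 1 :=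
            mul_le_mul_of_nonneg_right (TU_win h hδ hr hr1 hδ1 a) h4
        _ = _ := by
            field_simp
    calc _ ≤ ∑ a, 1111 / 1000 / (r : ℝ) *
        ∑ k ∈ range r, Y u t (a + (k : ZMod n)) 1 ^ 2 / X u t (a + (k : ZMod n)) 1 :=
          Finset.sum_le_sum fun a _ => h2 a
      _ = 1111 / 1000 * ∑ a, Y u t a 1 ^ 2 / X u t a 1 := by
          rw [← Finset.mul_sum, TU_sum_quot]
          field_simp
      _ ≤ _ := by
          have h2 := K_ge_quot hδ h.hX h.hY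
          gcongr
  have hYw : ∑ a : ZMod n, (∑ k ∈ range ℓ, Y (sm r u) (sm r t) (a + (k : ZMod n)) 1) ^ 2 ≤
      (ℓ : ℝ) ^ 2 * ∑ a, Y (sm r u) (sm r t) a 1 ^ 2 := by
    have h2 : ∀ a : ZMod n, (∑ k ∈ range ℓ, Y (sm r u) (sm r t) (a + (k : ZMod n)) 1) ^ 2 ≤
        ℓ * ∑ k ∈ range ℓ, Y (sm r u) (sm r t) (a + (k : ZMod n)) 1 ^ 2 := by
      intro a
      have := sq_sum_le_card_mul_sum_sq (s := range ℓ)
        (f := fun k : ℕ => Y (sm r u) (sm r t) (a + (k : ZMod n)) 1)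
      rwa [card_range] at this
    calc _ ≤ ∑ a : ZMod n, (ℓ : ℝ) *
        ∑ k ∈ range ℓ, Y (sm r u) (sm r t) (a + (k : ZMod n)) 1 ^ 2 :=
          Finset.sum_le_sum fun a _ => h2 a
      _ = _ := by
          have h3 : ∀ k ∈ range ℓ, ∑ a : ZMod n, Y (sm r u) (sm r t) (a + (k : ZMod n)) 1 ^ 2 =
              ∑ a, Y (sm r u) (sm r t) a 1 ^ 2 :=
            fun k _ => TU_shift (fun a => Y (sm r u) (sm r t) a 1 ^ 2) (k : ZMod n)
          rw [← Finset.mul_sum, Finset.sum_comm, Finset.sum_congr rfl h3,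
            Finset.sum_const, card_range, nsmul_eq_mul]
          ring
  calc _ ≤ ∑ a : ZMod n, (14 / 10 * (sm r t a ^ 2 + sm r t (a + (ℓ : ZMod n)) ^ 2) +
      71 / 100 / (ℓ : ℝ) ^ 2 *
        (∑ k ∈ range ℓ, (sm r t (a + (k : ZMod n)) + sm r t (a + (k : ZMod n) + 1))) ^ 2 +
      36 / 10 / (ℓ : ℝ) ^ 2 *
        (∑ k ∈ range ℓ, Y (sm r u) (sm r t) (a + (k : ZMod n)) 1) ^ 2) :=
        Finset.sum_le_sum fun a _ => TU_Y_sq hn3 (sm r u) (sm r t) h0 hlx a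
    _ = 14 / 10 * (2 * ∑ a, sm r t a ^ 2) + 71 / 100 / (ℓ : ℝ) ^ 2 *
        (∑ a : ZMod n, (∑ k ∈ range ℓ,
          (sm r t (a + (k : ZMod n)) + sm r t (a + (k : ZMod n) + 1))) ^ 2) +
      36 / 10 / (ℓ : ℝ) ^ 2 *
        ∑ a : ZMod n, (∑ k ∈ range ℓ, Y (sm r u) (sm r t) (a + (k : ZMod n)) 1) ^ 2 := by
        rw [Finset.sum_add_distrib, Finset.sum_add_distrib, ← Finset.mul_sum, ← Finset.mul_sum,
          ← Finset.mul_sum, Finset.sum_add_distrib,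
          TU_shift (fun a => sm r t a ^ 2) (ℓ : ZMod n)]
        ring
    _ ≤ 14 / 10 * (2 * ∑ a, t a ^ 2) + 71 / 100 / (ℓ : ℝ) ^ 2 *
        (4 * (ℓ : ℝ) ^ 2 * ∑ a, t a ^ 2) +
      36 / 10 / (ℓ : ℝ) ^ 2 * ((ℓ : ℝ) ^ 2 * (1111 / 1000 * (21 / 10 * K u t))) := by
        have h3 : ∑ a : ZMod n, (∑ k ∈ range ℓ,
          (sm r t (a + (k : ZMod n)) + sm r t (a + (k : ZMod n) + 1))) ^ 2 ≤
            4 * (ℓ : ℝ) ^ 2 * ∑ a, t a ^ 2 := by
          refine (TU_sum_t (sm r t) ℓ).trans ?_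
          gcongr
        have h4 : ∑ a : ZMod n, (∑ k ∈ range ℓ, Y (sm r u) (sm r t) (a + (k : ZMod n)) 1) ^ 2 ≤
            (ℓ : ℝ) ^ 2 * (1111 / 1000 * (21 / 10 * K u t)) := by
          refine hYw.trans ?_
          gcongr
        gcongr
    _ = (28 / 10 + 284 / 100) * ∑ a, t a ^ 2 +
        (36 / 10 * (1111 / 1000) * (21 / 10)) * K u t := by
        field_simp
        ring
    _ ≤ _ := by nlinarith only [hK, hT]

end Pool.Agent.Lib.MP_e1dd62_co.Big
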