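import Pool.Agent.Lib.MP_e1dd62_co.Big.W1

/-!
# Short, long and smoothed windows
-/

namespace Pool.Agent.Lib.MP_e1dd62_co.Big

open Finset Real

variable {n : ℕ} [NeZero n]

private theorem W2_x_pos (n : ℕ) [NeZero n] : 0 < π / n := by
  have : (0 : ℝ) < n := by exact_mod_cast Nat.pos_of_neZero n
  positivity

private theorem W2_n_mul (n : ℕ) [NeZero n] : (n : ℝ) * (π / n) = π := by
  have : (n : ℝ) ≠ 0 := by exact_mod_cast NeZero.ne n
  field_simp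

private theorem W2_sin_nat_le {x : ℝ} (hs : 0 ≤ sin x) (ℓ : ℕ) : |sin (ℓ * x)| ≤ ℓ * sin x := by
  induction ℓ with
  | zero => simp
  | succ k ih =>
    rw [Nat.cast_succ, add_mul, one_mul, sin_add, add_mul, one_mul]
    refine (abs_add_le _ _).trans (add_le_add ?_ ?_)
    · rw [abs_mul]
      exact (mul_le_of_le_one_right (abs_nonneg _) (abs_cos_le_one x)).trans ih
    · rw [abs_mul, abs_of_nonneg hs]
      exact mul_le_of_le_one_left hs (abs_cos_le_one _)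

private theorem W2_mul_cos_le {y : ℝ} (h0 : 0 ≤ y) (h1 : y ≤ π / 2) : y * cos y ≤ sin y := by
  rcases eq_or_lt_of_le h1 with rfl | h
  · simp
  · have hc : 0 < cos y := cos_pos_of_mem_Ioo ⟨by linarith [pi_pos], h⟩
    have ht := le_tan h0 h
    rw [tan_eq_sin_div_cos, le_div_iff₀ hc] at ht
    exact ht

private theorem W2_ct_half {ℓ : ℕ} (h0 : 0 < ℓ) (h1 : 2 * ℓ ≤ n) :
    0 ≤ ct n ℓ ∧ ct n ℓ ≤ 1 / (ℓ * (π / n)) := by
  have hx := W2_x_pos n
  have hn := W2_n_mul n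
  have hl : (0 : ℝ) < ℓ := by exact_mod_cast h0
  have hy0 : 0 < ℓ * (π / n) := by positivity
  have hy1 : ℓ * (π / n) ≤ π / 2 := by
    have h2 : (2 : ℝ) * ℓ ≤ n := by exact_mod_cast h1
    have := mul_le_mul_of_nonneg_right h2 hx.le
    rw [hn] at this
    linarith
  have hs : 0 < sin (ℓ * (π / n)) := sin_pos_of_pos_of_lt_pi hy0 (by linarith [pi_pos])
  have hc : 0 ≤ cos (ℓ * (π / n)) := cos_nonneg_of_mem_Icc ⟨by linarith [pi_pos], hy1⟩
  unfold ct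
  refine ⟨div_nonneg hc hs.le, ?_⟩
  rw [div_le_div_iff₀ hs hy0, one_mul, mul_comm]
  exact W2_mul_cos_le hy0.le hy1

private theorem W2_ct_symm {ℓ : ℕ} (h1 : ℓ ≤ n) : ct n (n - ℓ) = -ct n ℓ := by
  have hn := W2_n_mul n
  unfold ct
  rw [Nat.cast_sub h1, sub_mul, hn, cos_pi_sub, sin_pi_sub, neg_div]

private theorem W2_ct_abs {r : ℕ} (hr : 0 < r) {ℓ : ℕ} (h0 : r ≤ ℓ) (h1 : ℓ + r ≤ n) :
    |ct n ℓ| ≤ 1 / (r * (π / n)) := by
  have hx := W2_x_pos n
  have hr' : (0 : ℝ) < r := by exact_mod_cast hr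
  have key : ∀ k : ℕ, r ≤ k → 2 * k ≤ n → |ct n k| ≤ 1 / (r * (π / n)) := by
    intro k hk hk2
    obtain ⟨ha, hb⟩ := W2_ct_half (n := n) (ℓ := k) (by omega) hk2
    rw [abs_of_nonneg ha]
    refine hb.trans ?_
    apply one_div_le_one_div_of_le (by positivity)
    apply mul_le_mul_of_nonneg_right _ hx.le
    exact_mod_cast hk
  rcases le_total (2 * ℓ) n with h | h
  · exact key ℓ h0 h
  · have h2 := key (n - ℓ) (by omega) (by omega)
    rwa [W2_ct_symm (by omega), abs_neg] at h2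

private theorem W2_XY {A B : ℝ} {u t : ZMod n → ℝ} (a : ZMod n) (ℓ : ℕ)
    (hu : ∀ a, |u a| ≤ A) (ht : ∀ a, |t a| ≤ A)
    (hdu : |u (a + (ℓ : ZMod n)) - u a| * |ct n ℓ| ≤ 2 * B)
    (hdt : |t (a + (ℓ : ZMod n)) - t a| * |ct n ℓ| ≤ 2 * B) :
    |X u t a ℓ - 1| ≤ A + B ∧ |Y u t a ℓ| ≤ A + B := by
  have h1 := abs_le.1 (hu a)
  have h2 := abs_le.1 (hu (a + (ℓ : ZMod n)))
  have h3 := abs_le.1 (ht a)
  have h4 := abs_le.1 (ht (a + (ℓ : ZMod n)))
  rw [← abs_mul] at hdu hdt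
  have h5 := abs_le.1 hdu
  have h6 := abs_le.1 hdt
  unfold X Y
  constructor
  · rw [abs_le]
    constructor <;> nlinarith
  · rw [abs_le]
    constructor <;> nlinarith

theorem short_window {δ : ℝ} (hδ : δ ≤ 1 / 100) {u t : ZMod n → ℝ} (hX : ∀ a, 0 < X u t a 1)
    (hY : ∀ a, |Y u t a 1| ≤ δ * X u t a 1) {ℓ : ℕ} (h0 : 0 < ℓ)
    (h1 : ℓ * (π / n) ≤ 1 / 100) (a : ZMod n) :
    0 < X u t a ℓ ∧ |Y u t a ℓ| ≤ 2 * (ℓ * (π / n) + δ) * X u t a ℓ ∧
      ∑ k ∈ range ℓ, X u t (a + (k : ZMod n)) 1 ≤ 11 / 10 * ℓ * X u t a ℓ := by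
  have hx := W2_x_pos n
  have hn := W2_n_mul n
  have hl : (0 : ℝ) < ℓ := by exact_mod_cast h0
  have hδ0 : 0 ≤ δ := by
    have := (abs_nonneg _).trans (hY a)
    exact nonneg_of_mul_nonneg_left this (hX a)
  have hln : ℓ < n := by
    have hn0 : (0 : ℝ) < n := by exact_mod_cast Nat.pos_of_neZero n
    by_contra hcon
    have h2 : (n : ℝ) ≤ ℓ := by exact_mod_cast (not_lt.1 hcon)
    have := mul_le_mul_of_nonneg_right h2 hx.le
    rw [hn] at this
    linarith [pi_gt_three]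
  have hlx : 0 < ℓ * (π / n) := by positivity
  have hx1 : π / n ≤ ℓ * (π / n) := by
    have : (1 : ℝ) ≤ ℓ := by exact_mod_cast h0
    exact le_mul_of_one_le_left hx.le this
  have hsx : 0 < sin (π / n) := sin_pos_of_pos_of_lt_pi hx (by linarith [pi_gt_three])
  have hsl : 0 < sin (ℓ * (π / n)) := sin_pos_of_pos_of_lt_pi hlx (by linarith [pi_gt_three])
  have hsl' : sin (ℓ * (π / n)) ≤ ℓ * sin (π / n) := (le_abs_self _).trans (W2_sin_nat_le hsx.le ℓ)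
  set S := ∑ k ∈ range ℓ, X u t (a + (k : ZMod n)) 1 with hS
  have hSpos : 0 < S := sum_pos (fun k _ => hX _) ⟨0, by simpa using h0⟩
  have hang : ∀ k ∈ range ℓ, |(2 * (k : ℝ) + 1 - ℓ) * (π / n)| ≤ ℓ * (π / n) := by
    intro k hk
    have hk' : ((k : ℝ) + 1) ≤ ℓ := by exact_mod_cast (mem_range.1 hk)
    have hk0 : (0 : ℝ) ≤ k := Nat.cast_nonneg k
    rw [abs_mul, abs_of_pos hx]
    apply mul_le_mul_of_nonneg_right _ hx.le
    rw [abs_le]
    constructor <;> linarith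
  have hterm : ∀ k ∈ range ℓ, 999 / 1000 * X u t (a + (k : ZMod n)) 1 ≤
      X u t (a + (k : ZMod n)) 1 * cos ((2 * k + 1 - ℓ) * (π / n)) -
        Y u t (a + (k : ZMod n)) 1 * sin ((2 * k + 1 - ℓ) * (π / n)) := by
    intro k hk
    have hXk := hX (a + (k : ZMod n))
    have hYk := hY (a + (k : ZMod n))
    have hθ := (hang k hk).trans h1
    have hc := one_sub_sq_div_two_le_cos (x := (2 * (k : ℝ) + 1 - ℓ) * (π / n))
    have hsq : ((2 * (k : ℝ) + 1 - ℓ) * (π / n)) ^ 2 ≤ (1 / 100) ^ 2 := by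
      rw [← sq_abs]
      exact pow_le_pow_left₀ (abs_nonneg _) hθ 2
    have hsin : |sin ((2 * (k : ℝ) + 1 - ℓ) * (π / n))| ≤ 1 / 100 := abs_sin_le_abs.trans hθ
    have hYs : |Y u t (a + (k : ZMod n)) 1 * sin ((2 * (k : ℝ) + 1 - ℓ) * (π / n))| ≤
        (1 / 100 * X u t (a + (k : ZMod n)) 1) * (1 / 100) := by
      rw [abs_mul]
      apply mul_le_mul _ hsin (abs_nonneg _) (by positivity)
      exact hYk.trans (mul_le_mul_of_nonneg_right hδ hXk.le)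
    have hYs' := (abs_le.1 hYs).2
    nlinarith
  have hsum : 999 / 1000 * S ≤ ∑ k ∈ range ℓ,
      (X u t (a + (k : ZMod n)) 1 * cos ((2 * k + 1 - ℓ) * (π / n)) -
        Y u t (a + (k : ZMod n)) 1 * sin ((2 * k + 1 - ℓ) * (π / n))) := by
    rw [hS, mul_sum]
    exact sum_le_sum hterm
  have hXeq := X_eq_sum h0 hln u t a
  have hX1 : sin (π / n) * (999 / 1000 * S) ≤ X u t a ℓ * sin (ℓ * (π / n)) := by
    rw [hXeq]
    exact mul_le_mul_of_nonneg_left hsum hsx.le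
  have hXpos : 0 < X u t a ℓ := by
    have : 0 < X u t a ℓ * sin (ℓ * (π / n)) := lt_of_lt_of_le (by positivity) hX1
    exact pos_of_mul_pos_left this hsl.le
  have hS1 : 999 / 1000 * S ≤ ℓ * X u t a ℓ := by
    have h2 : sin (π / n) * (999 / 1000 * S) ≤ sin (π / n) * (ℓ * X u t a ℓ) := by
      refine hX1.trans ?_
      calc X u t a ℓ * sin (ℓ * (π / n)) ≤ X u t a ℓ * (ℓ * sin (π / n)) :=
            mul_le_mul_of_nonneg_left hsl' hXpos.le
        _ = sin (π / n) * (ℓ * X u t a ℓ) := by ring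
    exact le_of_mul_le_mul_left h2 hsx
  refine ⟨hXpos, ?_, ?_⟩
  · have hYeq := Y_eq_sum h0 hln u t a
    have hYsum : |∑ k ∈ range ℓ, (X u t (a + (k : ZMod n)) 1 * sin ((2 * k + 1 - ℓ) * (π / n)) +
        Y u t (a + (k : ZMod n)) 1 * cos ((2 * k + 1 - ℓ) * (π / n)))| ≤
        (ℓ * (π / n) + δ) * S := by
      rw [hS, mul_sum]
      refine (abs_sum_le_sum_abs _ _).trans (sum_le_sum fun k hk => ?_)
      refine (abs_add_le _ _).trans ?_
      rw [add_mul]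
      apply add_le_add
      · rw [abs_mul, abs_of_pos (hX _), mul_comm]
        exact mul_le_mul_of_nonneg_right (abs_sin_le_abs.trans (hang k hk)) (hX _).le
      · rw [abs_mul]
        exact (mul_le_of_le_one_right (abs_nonneg _) (abs_cos_le_one _)).trans (hY _)
    have h2 : |Y u t a ℓ| * sin (ℓ * (π / n)) ≤
        2 * (ℓ * (π / n) + δ) * X u t a ℓ * sin (ℓ * (π / n)) := by
      calc |Y u t a ℓ| * sin (ℓ * (π / n)) = |Y u t a ℓ * sin (ℓ * (π / n))| := by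
            rw [abs_mul, abs_of_pos hsl]
        _ ≤ sin (π / n) * ((ℓ * (π / n) + δ) * S) := by
            rw [hYeq, abs_mul, abs_of_pos hsx]
            exact mul_le_mul_of_nonneg_left hYsum hsx.le
        _ = (ℓ * (π / n) + δ) * (sin (π / n) * S) := by ring
        _ ≤ (ℓ * (π / n) + δ) * (2 * (X u t a ℓ * sin (ℓ * (π / n)))) := by
            apply mul_le_mul_of_nonneg_left _ (by positivity)
            nlinarith [mul_pos hsx hSpos]
        _ = 2 * (ℓ * (π / n) + δ) * X u t a ℓ * sin (ℓ * (π / n)) := by ring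
    exact le_of_mul_le_mul_right h2 hsl
  · nlinarith [mul_pos hl hXpos]

theorem long_window {δ : ℝ} {u t : ZMod n → ℝ} (hu : ∀ a, |u a| ≤ δ) (ht : ∀ a, |t a| ≤ δ)
    {r : ℕ} (hr : 0 < r) {ℓ : ℕ} (h0 : r ≤ ℓ) (h1 : ℓ + r ≤ n) (a : ZMod n) :
    |X u t a ℓ - 1| ≤ δ * (1 + 1 / (r * (π / n))) ∧
      |Y u t a ℓ| ≤ δ * (1 + 1 / (r * (π / n))) := by
  have hδ : 0 ≤ δ := (abs_nonneg _).trans (hu a)
  have hc := W2_ct_abs (n := n) hr h0 h1
  have hd : ∀ f : ZMod n → ℝ, (∀ a, |f a| ≤ δ) →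
      |f (a + (ℓ : ZMod n)) - f a| * |ct n ℓ| ≤ 2 * (δ * (1 / (r * (π / n)))) := by
    intro f hf
    have h2 : |f (a + (ℓ : ZMod n)) - f a| ≤ 2 * δ := by
      have h3 := abs_le.1 (hf a)
      have h4 := abs_le.1 (hf (a + (ℓ : ZMod n)))
      rw [abs_le]
      constructor <;> linarith
    calc |f (a + (ℓ : ZMod n)) - f a| * |ct n ℓ| ≤ (2 * δ) * (1 / (r * (π / n))) :=
          mul_le_mul h2 hc (abs_nonneg _) (by positivity)
      _ = 2 * (δ * (1 / (r * (π / n)))) := by ring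
  have h := W2_XY a ℓ hu ht (hd u hu) (hd t ht)
  rw [mul_add, mul_one]
  exact h

private theorem W2_sm_le {δ : ℝ} {f : ZMod n → ℝ} (hf : ∀ a, |f a| ≤ δ) {r : ℕ} (hr : 0 < r)
    (a : ZMod n) : |sm r f a| ≤ δ := by
  have hr' : (0 : ℝ) < r := by exact_mod_cast hr
  unfold sm
  rw [abs_div, abs_of_pos hr', div_le_iff₀ hr']
  refine (abs_sum_le_sum_abs _ _).trans ?_
  refine (sum_le_sum fun m _ => hf _).trans ?_
  rw [sum_const, card_range, nsmul_eq_mul, mul_comm]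

private theorem W2_sm_step {δ : ℝ} {f : ZMod n → ℝ} (hf : ∀ a, |f a| ≤ δ) {r : ℕ} (hr : 0 < r)
    (a : ZMod n) : |sm r f (a + 1) - sm r f a| ≤ 2 * δ / r := by
  have hr' : (0 : ℝ) < r := by exact_mod_cast hr
  have h1 : (∑ m ∈ range r, f (a + 1 + (m : ZMod n))) - ∑ m ∈ range r, f (a + (m : ZMod n)) =
      f (a + (r : ZMod n)) - f a := by
    have h2 := sum_range_succ (fun m : ℕ => f (a + (m : ZMod n))) r
    have h3 := sum_range_succ' (fun m : ℕ => f (a + (m : ZMod n))) r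
    have h4 : ∑ m ∈ range r, f (a + ((m + 1 : ℕ) : ZMod n)) =
        ∑ m ∈ range r, f (a + 1 + (m : ZMod n)) := by
      apply sum_congr rfl
      intro m _
      congr 1
      push_cast
      ring
    rw [h4] at h3
    simp only [Nat.cast_zero, add_zero] at h3
    linarith
  unfold sm
  rw [← sub_div, h1, abs_div, abs_of_pos hr']
  apply div_le_div_of_nonneg_right _ hr'.le
  have h3 := abs_le.1 (hf a)
  have h4 := abs_le.1 (hf (a + (r : ZMod n)))
  rw [abs_le]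
  constructor <;> linarith

private theorem W2_sm_diff {δ : ℝ} {f : ZMod n → ℝ} (hf : ∀ a, |f a| ≤ δ) {r : ℕ} (hr : 0 < r)
    (a : ZMod n) (ℓ : ℕ) : |sm r f (a + (ℓ : ZMod n)) - sm r f a| ≤ ℓ * (2 * δ / r) := by
  induction ℓ with
  | zero => simp
  | succ k ih =>
    have h1 := W2_sm_step hf hr (a + (k : ZMod n))
    have h2 : a + ((k + 1 : ℕ) : ZMod n) = a + (k : ZMod n) + 1 := by
      push_cast
      ring
    rw [h2]
    have h3 : sm r f (a + (k : ZMod n) + 1) - sm r f a =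
        (sm r f (a + (k : ZMod n) + 1) - sm r f (a + (k : ZMod n))) +
          (sm r f (a + (k : ZMod n)) - sm r f a) := by ring
    rw [h3]
    refine (abs_add_le _ _).trans ?_
    push_cast
    linarith

private theorem W2_smooth_half {δ : ℝ} {u t : ZMod n → ℝ} (hu : ∀ a, |u a| ≤ δ)
    (ht : ∀ a, |t a| ≤ δ) {r : ℕ} (hr : 0 < r) {ℓ : ℕ} (h0 : 0 < ℓ) (h1 : 2 * ℓ ≤ n)
    (a : ZMod n) :
    |X (sm r u) (sm r t) a ℓ - 1| ≤ δ * (1 + 2 / (r * (π / n))) ∧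
      |Y (sm r u) (sm r t) a ℓ| ≤ δ * (1 + 2 / (r * (π / n))) := by
  have hx := W2_x_pos n
  have hδ : 0 ≤ δ := (abs_nonneg _).trans (hu a)
  have hr' : (0 : ℝ) < r := by exact_mod_cast hr
  have hl : (0 : ℝ) < ℓ := by exact_mod_cast h0
  obtain ⟨hc0, hc1⟩ := W2_ct_half (n := n) h0 h1
  have hd : ∀ f : ZMod n → ℝ, (∀ a, |f a| ≤ δ) →
      |sm r f (a + (ℓ : ZMod n)) - sm r f a| * |ct n ℓ| ≤ 2 * (δ * (1 / (r * (π / n)))) := by
    intro f hf
    have h2 := W2_sm_diff hf hr a ℓ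
    calc |sm r f (a + (ℓ : ZMod n)) - sm r f a| * |ct n ℓ|
        ≤ (ℓ * (2 * δ / r)) * (1 / (ℓ * (π / n))) := by
          rw [abs_of_nonneg hc0]
          exact mul_le_mul h2 hc1 hc0 (by positivity)
      _ = 2 * (δ * (1 / (r * (π / n)))) := by
          field_simp
  have h := W2_XY a ℓ (W2_sm_le hu hr) (W2_sm_le ht hr) (hd u hu) (hd t ht)
  have h3 : δ + δ * (1 / (r * (π / n))) ≤ δ * (1 + 2 / (r * (π / n))) := by
    have h4 : 0 ≤ δ * (1 / (r * (π / n))) := by positivity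
    have h5 : δ * (1 + 2 / (r * (π / n))) = δ + 2 * (δ * (1 / (r * (π / n)))) := by ring
    rw [h5]
    linarith
  exact ⟨h.1.trans h3, h.2.trans h3⟩

theorem smooth_window {δ : ℝ} {u t : ZMod n → ℝ} (hu : ∀ a, |u a| ≤ δ) (ht : ∀ a, |t a| ≤ δ)
    {r : ℕ} (hr : 0 < r) {ℓ : ℕ} (h0 : 0 < ℓ) (h1 : ℓ < n) (a : ZMod n) :
    |X (sm r u) (sm r t) a ℓ - 1| ≤ δ * (1 + 2 / (r * (π / n))) ∧
      |Y (sm r u) (sm r t) a ℓ| ≤ δ * (1 + 2 / (r * (π / n))) := by
  rcases le_total (2 * ℓ) n with h | h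
  · exact W2_smooth_half hu ht hr h0 h a
  · have h2 := W2_smooth_half hu ht hr (ℓ := n - ℓ) (by omega) (by omega) (a + (ℓ : ZMod n))
    rwa [X_symm h0 h1, Y_symm h0 h1] at h2

end Pool.Agent.Lib.MP_e1dd62_co.Big
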